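import Pool.Agent.Lib_1de93e.LBall

/-!
# Almost everywhere differentiability
-/

namespace Pool.Agent.Lib_1de93e

open Set MeasureTheory Filter Topology

variable {M : Set Pl} {F d : Pl → Pl → ℝ}

/-- Radial retraction onto a closed ball. -/
noncomputable def retr (P : Pl) (r : ℝ) (x : Pl) : Pl := P + (r / max r ‖x - P‖) • (x - P)

theorem retr_continuous {P : Pl} {r : ℝ} (hr : 0 < r) : Continuous (retr P r) := by
  unfold retr
  have h1 : Continuous fun x : Pl => max r ‖x - P‖ := by fun_prop
  have h2 : ∀ x : Pl, max r ‖x - P‖ ≠ 0 := fun x => (lt_of_lt_of_le hr (le_max_left _ _)).ne'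
  exact continuous_const.add ((continuous_const.div h1 h2).smul (by fun_prop))

theorem retr_mem {P : Pl} {r : ℝ} (hr : 0 < r) (x : Pl) : ‖retr P r x - P‖ ≤ r := by
  unfold retr
  have h0 : 0 < max r ‖x - P‖ := lt_of_lt_of_le hr (le_max_left _ _)
  rw [add_sub_cancel_left, norm_smul, Real.norm_eq_abs, abs_of_pos (by positivity),
    div_mul_eq_mul_div, div_le_iff₀ h0]
  gcongr
  exact le_max_right _ _

theorem retr_eq {P : Pl} {r : ℝ} (hr : 0 < r) {x : Pl} (hx : ‖x - P‖ ≤ r) : retr P r x = x := by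
  unfold retr
  rw [max_eq_left hx, div_self hr.ne', one_smul, add_sub_cancel]

theorem ae_ae_differentiable (h : FPlane M F d) {P : Pl} {r L : ℝ} (hr : 0 < r) (hL : 0 ≤ L)
    (hsub : Metric.ball P r ⊆ M)
    (hlip : ∀ x ∈ Metric.ball P r, ∀ y ∈ Metric.ball P r, ∀ u,
      |F x u - F y u| ≤ L * ‖x - y‖ * ‖u‖) :
    ∀ᵐ x ∂(volume : Measure Pl), x ∈ Metric.ball P (r / 2) →
      ∀ᵐ θ ∂(volume : Measure ℝ), DifferentiableAt ℝ (fun y => F y (ang θ)) x := by
  have hr2 : 0 < r / 2 := by positivity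
  have hretr : ∀ x, retr P (r / 2) x ∈ M := by
    intro x
    apply hsub
    rw [Metric.mem_ball, dist_eq_norm]
    have := retr_mem (P := P) hr2 x
    linarith
  set f : ℝ → Pl → ℝ := fun θ x => F (retr P (r / 2) x) (ang θ) with hf
  have hfc : Continuous (Function.uncurry f) := by
    have : Continuous (fun q : ℝ × Pl => (retr P (r / 2) q.2, ang q.1)) :=
      ((retr_continuous hr2).comp continuous_snd).prodMk (continuous_ang.comp continuous_fst)
    exact h.fin.cont.comp_continuous this (fun q => ⟨hretr q.2, mem_univ _⟩)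
  have hSm : MeasurableSet {p : ℝ × Pl | DifferentiableAt ℝ (f p.1) p.2} :=
    measurableSet_of_differentiableAt_with_param ℝ hfc
  have hev : ∀ x ∈ Metric.ball P (r / 2), ∀ θ, f θ =ᶠ[𝓝 x] fun y => F y (ang θ) := by
    intro x hx θ
    filter_upwards [Metric.isOpen_ball.mem_nhds hx] with y hy
    simp only [hf]
    rw [retr_eq hr2]
    rw [Metric.mem_ball, dist_eq_norm] at hy
    exact hy.le
  have h1 : ∀ θ : ℝ, ∀ᵐ x ∂(volume : Measure Pl),
      x ∈ Metric.ball P (r / 2) → DifferentiableAt ℝ (f θ) x := by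
    intro θ
    have hl : LipschitzOnWith (Real.toNNReal L) (fun y => F y (ang θ)) (Metric.ball P r) := by
      apply LipschitzOnWith.of_dist_le_mul
      intro x hx y hy
      rw [Real.dist_eq, dist_eq_norm, Real.coe_toNNReal _ hL]
      have := hlip x hx y hy (ang θ)
      rw [norm_ang, mul_one] at this
      exact this
    filter_upwards [hl.ae_differentiableWithinAt_of_mem_of_real] with x hx hxb
    have hxr : x ∈ Metric.ball P r := Metric.ball_subset_ball (by linarith) hxb
    have h2 : DifferentiableAt ℝ (fun y => F y (ang θ)) x :=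
      (hx hxr).differentiableAt (Metric.isOpen_ball.mem_nhds hxr)
    exact h2.congr_of_eventuallyEq (hev x hxb θ)
  have h2 : ∀ᵐ θ ∂(volume : Measure ℝ), ∀ᵐ x ∂(volume : Measure Pl),
      (x ∈ Metric.ball P (r / 2) → DifferentiableAt ℝ (f θ) x) := ae_of_all _ h1
  have hSm2 : MeasurableSet {p : ℝ × Pl | p.2 ∈ Metric.ball P (r / 2) →
      DifferentiableAt ℝ (f p.1) p.2} := by
    have e : {p : ℝ × Pl | p.2 ∈ Metric.ball P (r / 2) → DifferentiableAt ℝ (f p.1) p.2} =
        (Prod.snd ⁻¹' (Metric.ball P (r / 2)))ᶜ ∪ {p : ℝ × Pl | DifferentiableAt ℝ (f p.1) p.2} := by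
      ext p
      simp only [mem_ofPred_eq, mem_union, mem_compl_iff, mem_preimage]
      tauto
    rw [e]
    exact (measurable_snd measurableSet_ball).compl.union hSm
  have h3 := (Measure.ae_ae_comm (p := fun (θ : ℝ) (x : Pl) => x ∈ Metric.ball P (r / 2) →
    DifferentiableAt ℝ (f θ) x) hSm2).1 h2
  filter_upwards [h3] with x hx hxb
  filter_upwards [hx] with θ hθ
  exact (hθ hxb).congr_of_eventuallyEq (hev x hxb θ).symm

/-- Almost every parameter on a line of directions is good. -/
theorem ae_line_of_ae_ang (h : FPlane M F d) {x u w : Pl} (hx : x ∈ M) (hdet : det2 u w ≠ 0)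
    (hae : ∀ᵐ θ ∂(volume : Measure ℝ), DifferentiableAt ℝ (fun y => F y (ang θ)) x) :
    ∀ᵐ t ∂(volume : Measure ℝ), DifferentiableAt ℝ (fun y => F y (u + t • w)) x := by
  rw [ae_iff] at hae ⊢
  set N := {θ : ℝ | ¬ DifferentiableAt ℝ (fun y => F y (ang θ)) x} with hN
  set N' := N ∩ {θ | det2 w (ang θ) ≠ 0} with hN'
  have hN'0 : volume N' = 0 := measure_mono_null inter_subset_left hae
  set g : ℝ → ℝ := fun θ => -det2 u (ang θ) / det2 w (ang θ) with hg
  have hgd : DifferentiableOn ℝ g N' := by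
    intro θ hθ
    apply DifferentiableAt.differentiableWithinAt
    have hd : ∀ v : Pl, DifferentiableAt ℝ (fun θ => det2 v (ang θ)) θ := by
      intro v
      unfold det2
      simp only [ang_zero', ang_one']
      fun_prop
    exact (hd u).neg.div (hd w) hθ.2
  have himg := addHaar_image_eq_zero_of_differentiableOn_of_addHaar_eq_zero volume hgd hN'0
  apply measure_mono_null _ himg
  intro t ht
  simp only [mem_ofPred_eq] at ht
  have hne : u + t • w ≠ 0 := by
    intro h0
    apply hdet
    have : u = -(t • w) := eq_neg_of_add_eq_zero_left h0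
    rw [this, det2_neg_left, det2_smul_left, det2_self]; ring
  obtain ⟨θ, hθ⟩ := exists_ang' (u + t • w)
  have hn : 0 < ‖u + t • w‖ := norm_pos_iff.2 hne
  have e1 : det2 (u + t • w) (ang θ) = 0 := by
    rw [hθ, det2_smul_left, det2_self, mul_zero]
  have e2 : det2 w (ang θ) ≠ 0 := by
    intro h0
    rw [det2_add_left, det2_smul_left, h0, mul_zero, add_zero] at e1
    -- both u and w parallel to ang θ
    obtain ⟨a, ha⟩ := parallel_of_det2 (ang_ne_zero θ) (by rw [det2_comm, e1, neg_zero] :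
      det2 (ang θ) u = 0)
    obtain ⟨b, hb⟩ := parallel_of_det2 (ang_ne_zero θ) (by rw [det2_comm, h0, neg_zero] :
      det2 (ang θ) w = 0)
    apply hdet
    rw [ha, hb, det2_smul_left, det2_smul_right, det2_self]; ring
  refine ⟨θ, ⟨?_, e2⟩, ?_⟩
  · simp only [hN, mem_ofPred_eq]
    intro hdiff
    apply ht
    have e3 : (fun y => F y (u + t • w)) =ᶠ[𝓝 x] fun y => ‖u + t • w‖ * F y (ang θ) := by
      filter_upwards [h.isOpen.mem_nhds hx] with y hy
      conv_lhs => rw [hθ]
      rw [(h.fin.norm y hy).smul_nonneg hn.le]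
    exact (hdiff.const_mul _).congr_of_eventuallyEq e3
  · simp only [hg]
    rw [det2_add_left, det2_smul_left] at e1
    rw [div_eq_iff e2]
    linarith

end Pool.Agent.Lib_1de93e
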