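import Pool.Agent.Lib_1de93e.Basic

/-!
# The plane `d x y = ‖x - y‖ + |arctan x₀ - arctan y₀|`
-/

namespace Pool.Agent.Lib_1de93e

open Set MeasureTheory Filter Topology

/-- The metric. -/
noncomputable def dA (x y : Pl) : ℝ := ‖x - y‖ + |Real.arctan (x 0) - Real.arctan (y 0)|

/-- Its Finsler function. -/
noncomputable def FA (x u : Pl) : ℝ := ‖u‖ + |u 0| / (1 + x 0 ^ 2)

theorem abs_coord_le (u : Pl) (i : Fin 2) : |u i| ≤ ‖u‖ := by
  have := EuclideanSpace.norm_eq u
  rw [this]
  apply Real.abs_le_sqrt
  simp only [Real.norm_eq_abs, sq_abs]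
  exact Finset.single_le_sum (f := fun i => u i ^ 2) (fun i _ => sq_nonneg _) (Finset.mem_univ i)

theorem FA_isFinsler : IsFinsler univ FA := by
  refine ⟨?_, fun P _ => ⟨fun u hu => ?_, fun r u => ?_, fun u v => ?_⟩⟩
  · apply Continuous.continuousOn
    unfold FA
    apply Continuous.add (by fun_prop)
    apply Continuous.div (by fun_prop) (by fun_prop)
    intro p
    positivity
  · have : 0 < ‖u‖ := norm_pos_iff.2 hu
    unfold FA
    positivity
  · simp only [FA, norm_smul, Real.norm_eq_abs, PiLp.smul_apply, smul_eq_mul, abs_mul]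
    ring
  · simp only [FA, PiLp.add_apply]
    have h1 := norm_add_le u v
    have h2 : |u 0 + v 0| / (1 + P 0 ^ 2) ≤ |u 0| / (1 + P 0 ^ 2) + |v 0| / (1 + P 0 ^ 2) := by
      rw [← add_div]
      gcongr
      exact abs_add_le _ _
    linarith

theorem dA_eq_zero_iff (P Q : Pl) : dA P Q = 0 ↔ P = Q := by
  constructor
  · intro h
    unfold dA at h
    have h1 : ‖P - Q‖ = 0 := le_antisymm (by have := abs_nonneg (Real.arctan (P 0) - Real.arctan (Q 0)); linarith) (norm_nonneg _)
    exact sub_eq_zero.1 (norm_eq_zero.1 h1)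
  · rintro rfl
    simp [dA]

theorem dA_symm (P Q : Pl) : dA P Q = dA Q P := by
  unfold dA
  rw [norm_sub_rev, abs_sub_comm]

theorem dA_triangle (P Q R : Pl) : dA P R ≤ dA P Q + dA Q R := by
  unfold dA
  have h1 := norm_sub_le_norm_sub_add_norm_sub P Q R
  have h2 := abs_sub_le (Real.arctan (P 0)) (Real.arctan (Q 0)) (Real.arctan (R 0))
  linarith

theorem dist_le_dA (P Q : Pl) : dist P Q ≤ dA P Q := by
  unfold dA
  rw [dist_eq_norm]
  have := abs_nonneg (Real.arctan (P 0) - Real.arctan (Q 0))
  linarith

theorem continuous_dA (P : Pl) : Continuous (dA P) := by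
  unfold dA
  fun_prop

theorem arctan_between {p q a b : ℝ} (ha : 0 ≤ a) (hb : 0 ≤ b) (hab : a + b = 1) :
    |Real.arctan p - Real.arctan (a * p + b * q)| +
        |Real.arctan (a * p + b * q) - Real.arctan q| = |Real.arctan p - Real.arctan q| := by
  rcases le_total p q with hle | hle
  · have e1 : p ≤ a * p + b * q := by
      have : a = 1 - b := by linarith
      rw [this]; nlinarith
    have e2 : a * p + b * q ≤ q := by
      have : b = 1 - a := by linarith
      rw [this]; nlinarith
    have m1 := Real.arctan_strictMono.monotone e1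
    have m2 := Real.arctan_strictMono.monotone e2
    rw [abs_of_nonpos (by linarith), abs_of_nonpos (by linarith), abs_of_nonpos (by linarith)]
    ring
  · have e1 : a * p + b * q ≤ p := by
      have : a = 1 - b := by linarith
      rw [this]; nlinarith
    have e2 : q ≤ a * p + b * q := by
      have : b = 1 - a := by linarith
      rw [this]; nlinarith
    have m1 := Real.arctan_strictMono.monotone e1
    have m2 := Real.arctan_strictMono.monotone e2
    rw [abs_of_nonneg (by linarith), abs_of_nonneg (by linarith), abs_of_nonneg (by linarith)]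
    ring

theorem dA_geodesic (A B C : Pl) : dA A B + dA B C = dA A C ↔ B ∈ segment ℝ A C := by
  constructor
  · intro h
    unfold dA at h
    have h1 := norm_sub_le_norm_sub_add_norm_sub A B C
    have h2 := abs_sub_le (Real.arctan (A 0)) (Real.arctan (B 0)) (Real.arctan (C 0))
    have h3 : dist A B + dist B C = dist A C := by
      simp only [dist_eq_norm]; linarith
    exact mem_segment_iff_wbtw.2 (dist_add_dist_eq_iff.1 h3)
  · intro h
    have h0 : Wbtw ℝ A B C := mem_segment_iff_wbtw.1 h
    have h1 : dist A B + dist B C = dist A C := h0.dist_add_dist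
    obtain ⟨a, b, ha, hb, hab, hB⟩ := h
    simp only [dist_eq_norm] at h1
    have hx : B 0 = a * A 0 + b * C 0 := by rw [← hB]; simp
    unfold dA
    have h2 := arctan_between (p := A 0) (q := C 0) ha hb hab
    rw [hx]
    linarith

theorem dA_isProjectiveMetric : IsProjectiveMetric univ dA where
  isOpen := isOpen_univ
  convex := convex_univ
  nonempty := univ_nonempty
  eq_zero_iff P _ Q _ := dA_eq_zero_iff P Q
  symm P _ Q _ := dA_symm P Q
  triangle P _ Q _ R _ := dA_triangle P Q R
  topo₁ P _ ε hε := by
    have h1 : ContinuousAt (dA P) P := (continuous_dA P).continuousAt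
    have h2 := Metric.continuousAt_iff.1 h1 ε hε
    obtain ⟨δ, hδ, h3⟩ := h2
    refine ⟨δ, hδ, fun Q _ hQ => ?_⟩
    have := h3 (by rwa [dist_comm] at hQ : dist Q P < δ)
    rw [(dA_eq_zero_iff P P).2 rfl, Real.dist_eq, sub_zero] at this
    exact (le_abs_self _).trans_lt this
  topo₂ P _ ε hε := ⟨ε, hε, fun Q _ hQ => (dist_le_dA P Q).trans_lt hQ⟩
  geodesic A _ B _ C _ := dA_geodesic A B C

theorem dA_complete : IsCompleteMetric univ dA := by
  intro x _ hx
  have hc : CauchySeq x := by
    rw [Metric.cauchySeq_iff]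
    intro ε hε
    obtain ⟨n₀, h⟩ := hx ε hε
    exact ⟨n₀, fun m hm n hn => (dist_le_dA _ _).trans_lt (h m hm n hn)⟩
  obtain ⟨y, hy⟩ := cauchySeq_tendsto_of_complete hc
  refine ⟨y, mem_univ _, fun ε hε => ?_⟩
  have h1 : Tendsto (fun n => dA y (x n)) atTop (𝓝 (dA y y)) :=
    ((continuous_dA y).continuousAt).tendsto.comp hy
  rw [(dA_eq_zero_iff y y).2 rfl] at h1
  obtain ⟨n₀, h2⟩ := (Metric.tendsto_atTop.1 h1) ε hε
  refine ⟨n₀, fun n hn => ?_⟩
  have := h2 n hn
  rw [Real.dist_eq, sub_zero] at this
  rw [dA_symm]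
  exact (le_abs_self _).trans_lt this

theorem coord_hasDerivAt {γ : ℝ → Pl} {γ' : Pl} {t : ℝ} (h : HasDerivAt γ γ' t) (i : Fin 2) :
    HasDerivAt (fun s => γ s i) (γ' i) t :=
  (EuclideanSpace.proj (𝕜 := ℝ) i : Pl →L[ℝ] ℝ).hasFDerivAt.comp_hasDerivAt t h

theorem dA_isLengthMetric : IsLengthMetric univ FA dA := by
  intro P _ Q _
  apply IsLeast.isGLB
  constructor
  · -- attained by the straight segment
    set γ : ℝ → Pl := fun t => P + t • (Q - P) with hγdef
    have hder : ∀ t, deriv γ t = Q - P := by
      intro t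
      have : HasDerivAt γ ((1:ℝ) • (Q - P)) t :=
        ((hasDerivAt_id t).smul_const (Q - P)).const_add P
      rw [this.deriv, one_smul]
    refine ⟨γ, by fun_prop, fun _ _ => mem_univ _, by simp [hγdef], by simp [hγdef], ?_⟩
    simp only [hder, FA]
    rw [intervalIntegral.integral_add (by simp) (by
      apply Continuous.intervalIntegrable
      apply Continuous.div (by fun_prop) (by fun_prop)
      intro t; positivity)]
    unfold dA
    have h1 : ∫ t in (0:ℝ)..1, |(Q - P) 0| / (1 + γ t 0 ^ 2) =
        |Real.arctan (P 0) - Real.arctan (Q 0)| := by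
      have h2 : ∀ t, HasDerivAt (fun s => Real.arctan (γ s 0)) ((Q - P) 0 / (1 + γ t 0 ^ 2)) t := by
        intro t
        have e0 : HasDerivAt γ (Q - P) t := by
          have : HasDerivAt γ ((1:ℝ) • (Q - P)) t :=
            ((hasDerivAt_id t).smul_const (Q - P)).const_add P
          rwa [one_smul] at this
        have e1 := coord_hasDerivAt e0 0
        have e2 := e1.arctan
        convert e2 using 1
        ring
      have h3 : ∫ t in (0:ℝ)..1, (Q - P) 0 / (1 + γ t 0 ^ 2) =
          Real.arctan (Q 0) - Real.arctan (P 0) := by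
        rw [intervalIntegral.integral_eq_sub_of_hasDerivAt (fun t _ => h2 t) (by
          apply Continuous.intervalIntegrable
          apply Continuous.div (by fun_prop) (by fun_prop)
          intro t; positivity)]
        simp [hγdef]
      rcases le_total 0 ((Q - P) 0) with hs | hs
      · have hs' : P 0 ≤ Q 0 := by simpa using hs
        simp only [abs_of_nonneg hs]
        rw [h3, abs_of_nonpos]
        · ring
        · have := Real.arctan_strictMono.monotone hs'
          linarith
      · have hs' : Q 0 ≤ P 0 := by simpa using hs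
        simp only [abs_of_nonpos hs]
        have : (fun t => -(Q - P) 0 / (1 + γ t 0 ^ 2)) = fun t => -((Q - P) 0 / (1 + γ t 0 ^ 2)) := by
          funext t; ring
        rw [this, intervalIntegral.integral_neg, h3, abs_of_nonneg]
        · ring
        · have := Real.arctan_strictMono.monotone hs'
          linarith
    rw [h1]
    simp [norm_sub_rev]
  · rintro L ⟨γ, hγ, -, h0, h1, rfl⟩
    have hcont : Continuous (deriv γ) := hγ.continuous_deriv (le_refl _)
    have hγc := hγ.continuous
    have hd : ∀ t, HasDerivAt γ (deriv γ t) t := fun t =>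
      (hγ.differentiable (by norm_num)).differentiableAt.hasDerivAt
    have hc2 : Continuous fun t => |deriv γ t 0| / (1 + γ t 0 ^ 2) := by
      apply Continuous.div (by fun_prop) (by fun_prop)
      intro t; positivity
    have hc3 : Continuous fun t => deriv γ t 0 / (1 + γ t 0 ^ 2) := by
      apply Continuous.div (by fun_prop) (by fun_prop)
      intro t; positivity
    simp only [FA]
    rw [intervalIntegral.integral_add (by apply Continuous.intervalIntegrable; fun_prop)
      (hc2.intervalIntegrable _ _)]
    have e1 : ‖P - Q‖ ≤ ∫ t in (0:ℝ)..1, ‖deriv γ t‖ := by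
      have := intervalIntegral.norm_integral_le_integral_norm (f := deriv γ) (μ := volume)
        zero_le_one
      rw [intervalIntegral.integral_deriv_eq_sub' γ rfl
        (fun x _ => (hd x).differentiableAt) hcont.continuousOn, h0, h1] at this
      rwa [norm_sub_rev]
    have e2 : |Real.arctan (P 0) - Real.arctan (Q 0)| ≤
        ∫ t in (0:ℝ)..1, |deriv γ t 0| / (1 + γ t 0 ^ 2) := by
      have h2 : ∀ t, HasDerivAt (fun s => Real.arctan (γ s 0)) (deriv γ t 0 / (1 + γ t 0 ^ 2)) t := by
        intro t
        have e1 := coord_hasDerivAt (hd t) 0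
        have e2 := e1.arctan
        convert e2 using 1
        ring
      have h3 : ∫ t in (0:ℝ)..1, deriv γ t 0 / (1 + γ t 0 ^ 2) =
          Real.arctan (Q 0) - Real.arctan (P 0) := by
        rw [intervalIntegral.integral_eq_sub_of_hasDerivAt (fun t _ => h2 t)
          (hc3.intervalIntegrable _ _)]
        rw [h0, h1]
      have h4 := intervalIntegral.norm_integral_le_integral_norm
        (f := fun t => deriv γ t 0 / (1 + γ t 0 ^ 2)) (μ := volume) zero_le_one
      rw [h3, Real.norm_eq_abs, abs_sub_comm] at h4
      refine h4.trans (le_of_eq ?_)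
      congr 1
      funext t
      rw [Real.norm_eq_abs, abs_div, abs_of_pos (by positivity : 0 < 1 + γ t 0 ^ 2)]
    unfold dA
    linarith

end Pool.Agent.Lib_1de93e
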