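import Pool.Agent.Lib_1de93e.Arctan

/-!
# Perpendicularity in the arctan plane; it is neither Minkowskian nor Riemannian
-/

namespace Pool.Agent.Lib_1de93e

open Set MeasureTheory Filter Topology

theorem norm_sq_two (u : Pl) : ‖u‖ ^ 2 = u 0 ^ 2 + u 1 ^ 2 := by
  rw [EuclideanSpace.norm_sq_eq, Fin.sum_univ_two]
  simp

theorem norm_eq_sqrt (u : Pl) : ‖u‖ = √(u 0 ^ 2 + u 1 ^ 2) := by
  rw [← norm_sq_two, Real.sqrt_sq (norm_nonneg _)]

theorem norm_le_of_sq {u : Pl} {c : ℝ} (hc : 0 ≤ c) (h : u 0 ^ 2 + u 1 ^ 2 ≤ c ^ 2) : ‖u‖ ≤ c := by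
  rw [norm_eq_sqrt]
  exact Real.sqrt_le_iff.2 ⟨hc, h⟩

theorem le_norm_of_sq {u : Pl} {c : ℝ} (h : c ^ 2 ≤ u 0 ^ 2 + u 1 ^ 2) : c ≤ ‖u‖ := by
  rw [norm_eq_sqrt]
  exact Real.le_sqrt_of_sq_le h

/-- Asymptotics along the line `O + ℝ u`. -/
theorem norm_asymp {u v : Pl} (hu : u ≠ 0) (t : ℝ) (s : ℝ)
    (hs : t * (u 0 * v 0 + u 1 * v 1) / ‖u‖ < s * ‖u‖) :
    ‖s • u - t • v‖ ≤ s * ‖u‖ - t * (u 0 * v 0 + u 1 * v 1) / ‖u‖ +
      t ^ 2 * ‖v‖ ^ 2 / (2 * (s * ‖u‖ - t * (u 0 * v 0 + u 1 * v 1) / ‖u‖)) := by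
  have hu' : 0 < ‖u‖ := norm_pos_iff.2 hu
  set b := t * (u 0 * v 0 + u 1 * v 1) / ‖u‖ with hb
  have hpos : 0 < s * ‖u‖ - b := by linarith
  set K := t ^ 2 * ‖v‖ ^ 2 with hK
  have hK0 : 0 ≤ K := by positivity
  have hbu : b * ‖u‖ = t * (u 0 * v 0 + u 1 * v 1) := by
    rw [hb]; field_simp
  have h1 : ‖s • u - t • v‖ ^ 2 ≤ (s * ‖u‖ - b) ^ 2 + K := by
    rw [norm_sq_two]
    simp only [PiLp.sub_apply, PiLp.smul_apply, smul_eq_mul]
    have e1 : (s * u 0 - t * v 0) ^ 2 + (s * u 1 - t * v 1) ^ 2 =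
        s ^ 2 * (u 0 ^ 2 + u 1 ^ 2) - 2 * s * (t * (u 0 * v 0 + u 1 * v 1)) +
        t ^ 2 * (v 0 ^ 2 + v 1 ^ 2) := by ring
    rw [e1, ← norm_sq_two u, ← norm_sq_two v, ← hbu]
    nlinarith [sq_nonneg b]
  have h2 : (s * ‖u‖ - b) ^ 2 + K ≤ (s * ‖u‖ - b + K / (2 * (s * ‖u‖ - b))) ^ 2 := by
    have e2 : (s * ‖u‖ - b + K / (2 * (s * ‖u‖ - b))) ^ 2 =
        (s * ‖u‖ - b) ^ 2 + K + (K / (2 * (s * ‖u‖ - b))) ^ 2 := by
      field_simp
      ring
    rw [e2]
    nlinarith [sq_nonneg (K / (2 * (s * ‖u‖ - b)))]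
  have h3 : 0 ≤ s * ‖u‖ - b + K / (2 * (s * ‖u‖ - b)) := by positivity
  exact (abs_le_of_sq_le_sq' (h1.trans h2) h3).2

/-- If `X - b + K / (2 (s a - b))`-type bound is nonnegative for all large `s`, the limit is. -/
theorem limit_nonneg {a b K c : ℝ} (ha : 0 < a)
    (h : ∃ s₀ : ℝ, ∀ s ≥ s₀, 0 ≤ c - b + K / (2 * (s * a - b))) : 0 ≤ c - b := by
  obtain ⟨s₀, h⟩ := h
  have h1 : Tendsto (fun s : ℝ => c - b + K / (2 * (s * a - b))) atTop (𝓝 (c - b + 0)) := by
    apply Tendsto.add tendsto_const_nhds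
    apply Tendsto.div_atTop tendsto_const_nhds
    apply Tendsto.const_mul_atTop (by norm_num)
    apply tendsto_atTop_add_const_right
    exact tendsto_id.atTop_mul_const ha
  rw [add_zero] at h1
  apply ge_of_tendsto h1
  filter_upwards [eventually_ge_atTop s₀] with s hs using h s hs

/-- Horizontal and vertical directions are mutually perpendicular. -/
theorem perp_horizontal_vertical {O u v : Pl} (hu : u 1 = 0) (hv : v 0 = 0) : Perp univ dA O u v := by
  intro s t _ _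
  unfold dA
  have h1 : (O + t • v) 0 = O 0 := by simp [hv]
  rw [h1]
  have h2 : ‖O + s • u - O‖ ≤ ‖O + s • u - (O + t • v)‖ := by
    rw [add_sub_cancel_left, add_sub_add_left_eq_sub]
    apply norm_le_of_sq (norm_nonneg _)
    rw [norm_sq_two]
    simp only [PiLp.sub_apply, PiLp.smul_apply, smul_eq_mul, hu, hv]
    nlinarith [sq_nonneg (t * v 1)]
  linarith

theorem perp_vertical_horizontal {O u v : Pl} (hu : u 0 = 0) (hv : v 1 = 0) : Perp univ dA O u v := by
  intro s t _ _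
  unfold dA
  have h1 : (O + s • u) 0 = O 0 := by simp [hu]
  rw [h1]
  have h2 : ‖O + s • u - O‖ ≤ ‖O + s • u - (O + t • v)‖ := by
    rw [add_sub_cancel_left, add_sub_add_left_eq_sub]
    apply norm_le_of_sq (norm_nonneg _)
    rw [norm_sq_two]
    simp only [PiLp.sub_apply, PiLp.smul_apply, smul_eq_mul, hu, hv]
    nlinarith [sq_nonneg (t * v 0)]
  have h3 := abs_nonneg (Real.arctan (O 0) - Real.arctan ((O + t • v) 0))
  simp only [sub_self, abs_zero, add_zero]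
  linarith

/-- Key inequality for large `s` when `u 0 > 0`. -/
theorem perp_ineq_pos {O u v : Pl} (hu0 : 0 < u 0) (h : Perp univ dA O u v) (t : ℝ) :
    0 ≤ (Real.arctan (O 0) - Real.arctan (O 0 + t * v 0)) -
      t * (u 0 * v 0 + u 1 * v 1) / ‖u‖ := by
  have hu : u ≠ 0 := by
    rintro rfl
    simp at hu0
  have hun : 0 < ‖u‖ := norm_pos_iff.2 hu
  set b := t * (u 0 * v 0 + u 1 * v 1) / ‖u‖ with hb
  apply limit_nonneg (a := ‖u‖) (K := t ^ 2 * ‖v‖ ^ 2) hun
  refine ⟨max (max 0 (t * v 0 / u 0)) (b / ‖u‖ + 1), fun s hs => ?_⟩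
  have hs1 : 0 ≤ s := (le_max_left _ _).trans ((le_max_left _ _).trans hs)
  have hs2 : t * v 0 ≤ s * u 0 := by
    have : t * v 0 / u 0 ≤ s := (le_max_right _ _).trans ((le_max_left _ _).trans hs)
    rwa [div_le_iff₀ hu0] at this
  have hs3 : b < s * ‖u‖ := by
    have : b / ‖u‖ + 1 ≤ s := (le_max_right _ _).trans hs
    have h2 : b / ‖u‖ < s := by linarith
    rwa [div_lt_iff₀ hun] at h2
  have h1 := h s t (mem_univ _) (mem_univ _)
  unfold dA at h1
  rw [add_sub_cancel_left, add_sub_add_left_eq_sub] at h1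
  have h2 := norm_asymp (v := v) hu t s hs3
  rw [← hb] at h2
  have e1 : (O + s • u) 0 = O 0 + s * u 0 := by simp
  have e2 : (O + t • v) 0 = O 0 + t * v 0 := by simp
  rw [e1, e2, norm_smul, Real.norm_eq_abs, abs_of_nonneg hs1] at h1
  have m1 : Real.arctan (O 0) ≤ Real.arctan (O 0 + s * u 0) :=
    Real.arctan_strictMono.monotone (by nlinarith)
  have m2 : Real.arctan (O 0 + t * v 0) ≤ Real.arctan (O 0 + s * u 0) :=
    Real.arctan_strictMono.monotone (by linarith)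
  rw [abs_of_nonneg (by linarith), abs_of_nonneg (by linarith)] at h1
  linarith

/-- Key inequality for large `s` when `u 0 = 0`. -/
theorem perp_ineq_zero {O u v : Pl} (hu : u ≠ 0) (hu0 : u 0 = 0) (h : Perp univ dA O u v) (t : ℝ) :
    0 ≤ |Real.arctan (O 0) - Real.arctan (O 0 + t * v 0)| -
      t * (u 0 * v 0 + u 1 * v 1) / ‖u‖ := by
  have hun : 0 < ‖u‖ := norm_pos_iff.2 hu
  set b := t * (u 0 * v 0 + u 1 * v 1) / ‖u‖ with hb
  apply limit_nonneg (a := ‖u‖) (K := t ^ 2 * ‖v‖ ^ 2) hun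
  refine ⟨max 0 (b / ‖u‖ + 1), fun s hs => ?_⟩
  have hs1 : 0 ≤ s := (le_max_left _ _).trans hs
  have hs3 : b < s * ‖u‖ := by
    have : b / ‖u‖ + 1 ≤ s := (le_max_right _ _).trans hs
    have h2 : b / ‖u‖ < s := by linarith
    rwa [div_lt_iff₀ hun] at h2
  have h1 := h s t (mem_univ _) (mem_univ _)
  unfold dA at h1
  rw [add_sub_cancel_left, add_sub_add_left_eq_sub] at h1
  have h2 := norm_asymp (v := v) hu t s hs3
  rw [← hb] at h2
  have e1 : (O + s • u) 0 = O 0 := by simp [hu0]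
  have e2 : (O + t • v) 0 = O 0 + t * v 0 := by simp
  rw [e1, e2, norm_smul, Real.norm_eq_abs, abs_of_nonneg hs1] at h1
  simp only [sub_self, abs_zero, add_zero] at h1
  linarith

theorem perp_neg_left {O u v : Pl} (h : Perp univ dA O u v) : Perp univ dA O (-u) v := by
  intro s t _ _
  have := h (-s) t (mem_univ _) (mem_univ _)
  simpa using this

theorem eq_zero_of_bounded_linear {c C : ℝ} (h : ∀ t : ℝ, t * c ≤ C) : c = 0 := by
  by_contra hc
  have h1 := h ((C + 1) / c)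
  rw [div_mul_cancel₀ _ hc] at h1
  linarith

theorem dA_neg (x y : Pl) : dA (-x) (-y) = dA x y := by
  unfold dA
  have h1 : ‖-x - -y‖ = ‖x - y‖ := by rw [← norm_neg]; congr 1; abel
  rw [h1]
  simp only [PiLp.neg_apply, Real.arctan_neg]
  rw [← abs_neg (-Real.arctan (x 0) - -Real.arctan (y 0))]
  congr 2
  ring

theorem perp_reflect {O u v : Pl} (h : Perp univ dA O u v) : Perp univ dA (-O) (-u) (-v) := by
  intro s t _ _
  have := h s t (mem_univ _) (mem_univ _)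
  have e1 : -O + s • -u = -(O + s • u) := by rw [smul_neg]; abel
  have e2 : -O + t • -v = -(O + t • v) := by rw [smul_neg]; abel
  rw [e1, e2, dA_neg, dA_neg]
  exact this

theorem perp_ineq_neg {O u v : Pl} (hu0 : u 0 < 0) (h : Perp univ dA O u v) (t : ℝ) :
    0 ≤ (Real.arctan (O 0 + t * v 0) - Real.arctan (O 0)) -
      t * (u 0 * v 0 + u 1 * v 1) / ‖u‖ := by
  have h1 := perp_ineq_pos (u := -u) (by simpa using hu0) (perp_reflect h) t
  simp only [PiLp.neg_apply, norm_neg] at h1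
  have e1 : -O 0 + t * -v 0 = -(O 0 + t * v 0) := by ring
  rw [e1, Real.arctan_neg, Real.arctan_neg] at h1
  have e2 : t * (-u 0 * -v 0 + -u 1 * -v 1) = t * (u 0 * v 0 + u 1 * v 1) := by ring
  rw [e2] at h1
  linarith

theorem perp_classify_pos {O u v : Pl} (hu0 : 0 < u 0) (hv : v ≠ 0) (h : Perp univ dA O u v) :
    u 1 = 0 ∧ v 0 = 0 := by
  have hu : u ≠ 0 := by
    rintro rfl
    simp at hu0
  have hun : 0 < ‖u‖ := norm_pos_iff.2 hu
  set c := (u 0 * v 0 + u 1 * v 1) / ‖u‖ with hc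
  have key : ∀ t : ℝ, Real.arctan (O 0) - Real.arctan (O 0 + t * v 0) = t * c := by
    intro t
    have h1 := perp_ineq_pos hu0 h t
    have h2 := perp_ineq_neg (u := -u) (by simpa using hu0) (perp_neg_left h) t
    simp only [PiLp.neg_apply, norm_neg] at h2
    have e1 : t * (-u 0 * v 0 + -u 1 * v 1) / ‖u‖ = -(t * c) := by
      rw [hc]; ring
    rw [e1] at h2
    rw [mul_div_assoc, ← hc] at h1
    linarith
  have hc0 : c = 0 := by
    apply eq_zero_of_bounded_linear (C := Real.pi)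
    intro t
    rw [← key]
    have h1 := Real.arctan_lt_pi_div_two (O 0)
    have h2 := Real.neg_pi_div_two_lt_arctan (O 0 + t * v 0)
    linarith
  have hv0 : v 0 = 0 := by
    have h1 := key 1
    rw [hc0, mul_zero, one_mul] at h1
    have h2 := Real.arctan_injective (sub_eq_zero.1 h1)
    linarith
  refine ⟨?_, hv0⟩
  rw [hc, div_eq_zero_iff, hv0, mul_zero, zero_add] at hc0
  rcases hc0 with h1 | h1
  · rcases mul_eq_zero.1 h1 with h2 | h2
    · exact h2
    · exfalso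
      apply hv
      ext i
      fin_cases i
      · exact hv0
      · exact h2
  · exact absurd h1 hun.ne'

/-- Perpendicular pairs are axis-parallel. -/
theorem perp_classify {O u v : Pl} (hu : u ≠ 0) (hv : v ≠ 0) (h : Perp univ dA O u v) :
    (u 1 = 0 ∧ v 0 = 0) ∨ (u 0 = 0 ∧ v 1 = 0) := by
  have hun : 0 < ‖u‖ := norm_pos_iff.2 hu
  have harc : ∀ x y : ℝ, Real.arctan x - Real.arctan y ≤ Real.pi := fun x y => by
    have := Real.arctan_lt_pi_div_two x
    have := Real.neg_pi_div_two_lt_arctan y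
    linarith
  by_cases hu0 : u 0 = 0
  · right
    refine ⟨hu0, ?_⟩
    have h1 : (u 0 * v 0 + u 1 * v 1) / ‖u‖ = 0 := by
      apply eq_zero_of_bounded_linear (C := Real.pi)
      intro t
      have := perp_ineq_zero hu hu0 h t
      have h2 : |Real.arctan (O 0) - Real.arctan (O 0 + t * v 0)| ≤ Real.pi :=
        abs_le'.2 ⟨harc _ _, by have := harc (O 0 + t * v 0) (O 0); linarith⟩
      rw [← mul_div_assoc]
      linarith
    rw [div_eq_zero_iff, hu0, zero_mul, zero_add] at h1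
    rcases h1 with h1 | h1
    · rcases mul_eq_zero.1 h1 with h2 | h2
      · exfalso
        apply hu
        ext i
        fin_cases i
        · exact hu0
        · exact h2
      · exact h2
    · exact absurd h1 hun.ne'
  · left
    rcases lt_or_gt_of_ne hu0 with hneg | hpos
    · have := perp_classify_pos (u := -u) (by simpa using hneg) hv (perp_neg_left h)
      simpa using this
    · exact perp_classify_pos hpos hv h

theorem dA_symmetricPerp : SymmetricPerp univ dA := by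
  intro O _ u v huv h
  have hu : u ≠ 0 := by
    have := huv.ne_zero 0
    simpa using this
  have hv : v ≠ 0 := by
    have := huv.ne_zero 1
    simpa using this
  rcases perp_classify hu hv h with ⟨h1, h2⟩ | ⟨h1, h2⟩
  · exact perp_vertical_horizontal h2 h1
  · exact perp_horizontal_vertical h2 h1

/-- The two coordinate directions. -/
noncomputable def e₀ : Pl := EuclideanSpace.single 0 1
noncomputable def e₁ : Pl := EuclideanSpace.single 1 1

@[simp] theorem e₀_zero : e₀ 0 = 1 := by simp [e₀]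
@[simp] theorem e₀_one : e₀ 1 = 0 := by simp [e₀]
@[simp] theorem e₁_zero : e₁ 0 = 0 := by simp [e₁]
@[simp] theorem e₁_one : e₁ 1 = 1 := by simp [e₁]

theorem dA_not_minkowski : ¬ IsMinkowskiPlane univ dA := by
  rintro ⟨N, hN, Φ, hΦ, hiso⟩
  have hiso' : ∀ P Q, N (Φ P - Φ Q) = dA P Q := fun P Q => hiso P (mem_univ _) Q (mem_univ _)
  -- doubling points
  have hdouble : ∀ X : Pl, ∃ Y : Pl, Φ Y = (2:ℝ) • Φ X - Φ 0 := by
    intro X
    obtain ⟨Y, -, hY⟩ := hΦ.surjOn (mem_univ ((2:ℝ) • Φ X - Φ 0))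
    exact ⟨Y, hY⟩
  have hd1 : ∀ X Y : Pl, Φ Y = (2:ℝ) • Φ X - Φ 0 → dA 0 X = dA X Y ∧ dA 0 Y = 2 * dA 0 X := by
    intro X Y hY
    constructor
    · rw [← hiso', ← hiso', hY]
      congr 1
      rw [two_smul]
      abel
    · rw [← hiso', ← hiso', hY]
      have : Φ 0 - ((2:ℝ) • Φ X - Φ 0) = (2:ℝ) • (Φ 0 - Φ X) := by
        rw [smul_sub, two_smul, two_smul]; abel
      rw [this, hN.smul]
      norm_num
  obtain ⟨B, hB⟩ := hdouble e₀
  obtain ⟨C, hC⟩ := hdouble ((1/2 : ℝ) • e₁)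
  obtain ⟨hB1, hB2⟩ := hd1 _ _ hB
  obtain ⟨hC1, hC2⟩ := hd1 _ _ hC
  have hBseg : e₀ ∈ segment ℝ 0 B := (dA_geodesic 0 e₀ B).1 (by linarith)
  have hCseg : (1/2 : ℝ) • e₁ ∈ segment ℝ 0 C := (dA_geodesic 0 _ C).1 (by linarith)
  obtain ⟨a, b, ha, hb, hab, hab2⟩ := hBseg
  obtain ⟨a', b', ha', hb', hab', hab2'⟩ := hCseg
  have hb0 : b * B 0 = 1 := by
    have := congrArg (fun x : Pl => x 0) hab2
    simpa using this
  have hb1 : b * B 1 = 0 := by
    have := congrArg (fun x : Pl => x 1) hab2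
    simpa using this
  have hc0 : b' * C 0 = 0 := by
    have := congrArg (fun x : Pl => x 0) hab2'
    simpa using this
  have hc1 : b' * C 1 = 1/2 := by
    have := congrArg (fun x : Pl => x 1) hab2'
    simpa using this
  have hbne : b ≠ 0 := by rintro rfl; simp at hb0
  have hbne' : b' ≠ 0 := by
    rintro rfl
    norm_num at hc1
  have hbpos : 0 < b := lt_of_le_of_ne hb (Ne.symm hbne)
  have hbpos' : 0 < b' := lt_of_le_of_ne hb' (Ne.symm hbne')
  have hB10 : B 1 = 0 := (mul_eq_zero.1 hb1).resolve_left hbne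
  have hC00 : C 0 = 0 := (mul_eq_zero.1 hc0).resolve_left hbne'
  have hBpos : 0 < B 0 := by
    by_contra hcon
    push Not at hcon
    nlinarith
  have hCpos : 0 < C 1 := by
    by_contra hcon
    push Not at hcon
    nlinarith
  have earc : Real.arctan 1 = Real.pi / 4 := Real.arctan_one
  have d0e : dA 0 e₀ = 1 + Real.pi / 4 := by
    unfold dA
    rw [norm_eq_sqrt]
    simp [earc]
    positivity
  have d0e' : dA 0 ((1/2 : ℝ) • e₁) = 1/2 := by
    unfold dA
    rw [norm_eq_sqrt]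
    simp only [PiLp.sub_apply, PiLp.zero_apply, PiLp.smul_apply, smul_eq_mul, e₁_zero, e₁_one]
    have : (0 - 1 / 2 * (0:ℝ)) ^ 2 + (0 - 1 / 2 * 1) ^ 2 = (1/2) ^ 2 := by norm_num
    rw [this, Real.sqrt_sq (by norm_num)]
    simp
  have d0B : dA 0 B = B 0 + Real.arctan (B 0) := by
    unfold dA
    rw [norm_eq_sqrt]
    simp only [PiLp.sub_apply, PiLp.zero_apply, hB10]
    have : (0 - B 0) ^ 2 + (0 - (0:ℝ)) ^ 2 = (B 0) ^ 2 := by ring
    rw [this, Real.sqrt_sq hBpos.le, Real.arctan_zero, zero_sub, abs_neg, abs_of_pos]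
    have := Real.arctan_strictMono hBpos
    rwa [Real.arctan_zero] at this
  have d0C : dA 0 C = C 1 := by
    unfold dA
    rw [norm_eq_sqrt]
    simp only [PiLp.sub_apply, PiLp.zero_apply, hC00]
    have : (0 - (0:ℝ)) ^ 2 + (0 - C 1) ^ 2 = (C 1) ^ 2 := by ring
    rw [this, Real.sqrt_sq hCpos.le]
    simp
  have hC1' : C 1 = 1 := by
    rw [← d0C, hC2, d0e']; norm_num
  have hBeq : B 0 + Real.arctan (B 0) = 2 + Real.pi / 2 := by
    rw [← d0B, hB2, d0e]; ring
  have hBgt : 2 < B 0 := by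
    have := Real.arctan_lt_pi_div_two (B 0)
    linarith
  have hBC : dA B C = 2 * dA e₀ ((1/2 : ℝ) • e₁) := by
    rw [← hiso', ← hiso', hB, hC]
    have : (2:ℝ) • Φ e₀ - Φ 0 - ((2:ℝ) • Φ ((1/2 : ℝ) • e₁) - Φ 0) =
        (2:ℝ) • (Φ e₀ - Φ ((1/2 : ℝ) • e₁)) := by
      rw [smul_sub]; abel
    rw [this, hN.smul]
    norm_num
  have dBC : dA B C = √(B 0 ^ 2 + 1) + Real.arctan (B 0) := by
    unfold dA
    rw [norm_eq_sqrt]
    simp only [PiLp.sub_apply, hB10, hC00, hC1']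
    have : (B 0 - 0) ^ 2 + (0 - (1:ℝ)) ^ 2 = B 0 ^ 2 + 1 := by ring
    rw [this, Real.arctan_zero, sub_zero, abs_of_pos]
    have := Real.arctan_strictMono hBpos
    rwa [Real.arctan_zero] at this
  have dmn : dA e₀ ((1/2 : ℝ) • e₁) = √5 / 2 + Real.pi / 4 := by
    unfold dA
    rw [norm_eq_sqrt]
    simp only [PiLp.sub_apply, PiLp.smul_apply, smul_eq_mul, e₀_zero, e₀_one, e₁_zero, e₁_one]
    have : (1 - 1 / 2 * (0:ℝ)) ^ 2 + (0 - 1 / 2 * 1) ^ 2 = 5 / 2 ^ 2 := by norm_num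
    rw [this, Real.sqrt_div (by norm_num), Real.sqrt_sq (by norm_num), mul_zero,
      Real.arctan_zero, sub_zero, earc, abs_of_pos (by positivity)]
  have heq : √(B 0 ^ 2 + 1) = B 0 + √5 - 2 := by
    rw [dBC, dmn] at hBC
    linarith
  have hsq : B 0 ^ 2 + 1 = (B 0 + √5 - 2) ^ 2 := by
    rw [← heq, Real.sq_sqrt (by positivity)]
  have h5 : √5 ^ 2 = 5 := Real.sq_sqrt (by norm_num)
  have h52 : 2 < √5 := by
    rw [Real.lt_sqrt (by norm_num)]; norm_num
  nlinarith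

theorem dA_not_riemannian : ¬ IsRiemannian univ dA := by
  rintro ⟨F, hF, hd, hE⟩
  -- `F 0 = FA 0`
  have hF0 : ∀ u, F 0 u = FA 0 u := by
    intro u
    have h1 := hF.tendsto_metric isOpen_univ hd (mem_univ 0) u
    have h2 := FA_isFinsler.tendsto_metric isOpen_univ dA_isLengthMetric (mem_univ 0) u
    exact tendsto_nhds_unique h1 h2
  obtain ⟨B, hBsymm, hB⟩ := hE 0 (mem_univ _)
  have hpar : ∀ u v, F 0 (u + v) ^ 2 + F 0 (u - v) ^ 2 = 2 * F 0 u ^ 2 + 2 * F 0 v ^ 2 := by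
    intro u v
    rw [hB, hB, hB, hB]
    simp only [map_add, map_sub, LinearMap.add_apply, LinearMap.sub_apply]
    ring
  have h1 := hpar e₀ e₁
  simp only [hF0] at h1
  have c1 : FA 0 (e₀ + e₁) = √2 + 1 := by
    unfold FA
    rw [norm_eq_sqrt]
    simp only [PiLp.add_apply, PiLp.zero_apply, e₀_zero, e₀_one, e₁_zero, e₁_one]
    norm_num
  have c2 : FA 0 (e₀ - e₁) = √2 + 1 := by
    unfold FA
    rw [norm_eq_sqrt]
    simp only [PiLp.sub_apply, PiLp.zero_apply, e₀_zero, e₀_one, e₁_zero, e₁_one]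
    norm_num
  have c3 : FA 0 e₀ = 2 := by
    unfold FA
    rw [norm_eq_sqrt]
    simp only [PiLp.zero_apply, e₀_zero, e₀_one]
    norm_num
  have c4 : FA 0 e₁ = 1 := by
    unfold FA
    rw [norm_eq_sqrt]
    simp only [PiLp.zero_apply, e₁_zero, e₁_one]
    norm_num
  rw [c1, c2, c3, c4] at h1
  have h2 : √2 ^ 2 = 2 := Real.sq_sqrt (by norm_num)
  have h3 : 1 < √2 := by
    rw [Real.lt_sqrt (by norm_num)]; norm_num
  nlinarith

end Pool.Agent.Lib_1de93e
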