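import Pool.Agent.Lib_1de93e.Defs

/-!
# Norms on the plane, lengths of curves, recovering `F` from the length metric
-/

namespace Pool.Agent.Lib_1de93e

open Set MeasureTheory Filter Topology

namespace IsNorm

variable {N : Pl → ℝ} (hN : IsNorm N)

include hN

theorem zero : N 0 = 0 := by
  have := hN.smul 0 0
  simpa using this

theorem neg (u : Pl) : N (-u) = N u := by
  have := hN.smul (-1) u
  simpa using this

theorem nonneg (u : Pl) : 0 ≤ N u := by
  by_cases h : u = 0
  · rw [h, hN.zero]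
  · exact (hN.pos u h).le

theorem smul_nonneg {r : ℝ} (hr : 0 ≤ r) (u : Pl) : N (r • u) = r * N u := by
  rw [hN.smul, abs_of_nonneg hr]

theorem eq_zero {u : Pl} (h : N u = 0) : u = 0 := by
  by_contra hne
  exact (hN.pos u hne).ne' h

theorem sub_comm (u v : Pl) : N (u - v) = N (v - u) := by
  rw [← hN.neg, neg_sub]

/-- Supporting functional (Hahn-Banach). -/
theorem exists_functional (w : Pl) : ∃ l : Pl →ₗ[ℝ] ℝ, (∀ u, l u ≤ N u) ∧ l w = N w := by
  by_cases hw : w = 0
  · refine ⟨0, fun u => by simpa using hN.nonneg u, by simp [hw, hN.zero]⟩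
  · have H : ∀ c : ℝ, c • w = 0 → (RingHom.id ℝ) c • N w = 0 := by
      intro c hc
      rcases smul_eq_zero.1 hc with h | h
      · simp [h]
      · exact absurd h hw
    obtain ⟨g, hg1, hg2⟩ := exists_extension_of_le_sublinear
      (LinearPMap.mkSpanSingleton' w (N w) H : Pl →ₗ.[ℝ] ℝ) N
      (fun c hc x => hN.smul_nonneg hc.le x) hN.add_le (by
        rintro ⟨x, hx⟩
        obtain ⟨c, rfl⟩ := Submodule.mem_span_singleton.1 hx
        rw [LinearPMap.mkSpanSingleton'_apply]
        simp only [hN.smul, smul_eq_mul, RingHom.id_apply]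
        exact mul_le_mul_of_nonneg_right (le_abs_self c) (hN.nonneg w))
    refine ⟨g, hg2, ?_⟩
    have := hg1 ⟨w, Submodule.mem_span_singleton_self w⟩
    rw [this]
    exact LinearPMap.mkSpanSingleton'_apply_self _ _ _ _

end IsNorm

/-- The norm of a displacement is at most the length of the curve. -/
theorem norm_sub_le_integral {N : Pl → ℝ} (hN : IsNorm N) {γ : ℝ → Pl} (hγ : ContDiff ℝ 1 γ)
    {a b : ℝ} (hab : a ≤ b) {f : ℝ → ℝ} (hf : IntervalIntegrable f volume a b)
    (hle : ∀ t ∈ Icc a b, N (deriv γ t) ≤ f t) :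
    N (γ b - γ a) ≤ ∫ t in a..b, f t := by
  obtain ⟨l, hl1, hl2⟩ := hN.exists_functional (γ b - γ a)
  set L : Pl →L[ℝ] ℝ := LinearMap.toContinuousLinearMap l with hL
  have hLl : ∀ u, L u = l u := fun u => rfl
  have hcont : Continuous (deriv γ) := hγ.continuous_deriv (le_refl _)
  have h1 : ∫ t in a..b, L (deriv γ t) = L (γ b - γ a) := by
    rw [ContinuousLinearMap.intervalIntegral_comp_comm L (hcont.intervalIntegrable _ _)]
    congr 1
    exact intervalIntegral.integral_deriv_eq_sub' γ rfl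
      (fun x _ => (hγ.differentiable (by norm_num)).differentiableAt) hcont.continuousOn
  rw [← hl2, ← hLl, ← h1]
  apply intervalIntegral.integral_mono_on hab
  · exact (L.continuous.comp hcont).intervalIntegrable _ _
  · exact hf
  · intro t ht
    exact (hl1 _).trans (hle t ht)

section Local

variable {M : Set Pl} {F : Pl → Pl → ℝ}

theorem IsFinsler.continuousAt (hF : IsFinsler M F) (hM : IsOpen M) {P : Pl} (hP : P ∈ M)
    (u : Pl) : ContinuousAt (fun p : Pl × Pl => F p.1 p.2) (P, u) :=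
  hF.cont.continuousAt ((hM.prod isOpen_univ).mem_nhds ⟨hP, mem_univ _⟩)

theorem IsFinsler.continuous_right (hF : IsFinsler M F) {P : Pl} (hP : P ∈ M) :
    Continuous (F P) := by
  have : ContinuousOn (fun u : Pl => (fun p : Pl × Pl => F p.1 p.2) (P, u)) univ := by
    apply hF.cont.comp (by fun_prop)
    intro u _
    exact ⟨hP, mem_univ _⟩
  exact continuousOn_univ.1 this

/-- The minimum of `F P` on the Euclidean unit sphere is positive. -/
theorem IsFinsler.exists_lower (hF : IsFinsler M F) {P : Pl} (hP : P ∈ M) :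
    ∃ m > 0, ∀ u, m * ‖u‖ ≤ F P u := by
  obtain ⟨u₀, hu₀, hmin⟩ := (isCompact_sphere (0 : Pl) 1).exists_isMinOn
    (NormedSpace.sphere_nonempty.2 zero_le_one) (hF.continuous_right hP).continuousOn
  have hne : u₀ ≠ 0 := by
    rintro rfl
    simp at hu₀
  refine ⟨F P u₀, (hF.norm P hP).pos _ hne, fun u => ?_⟩
  by_cases hu : u = 0
  · rw [hu, (hF.norm P hP).zero]; simp
  · have h1 : (‖u‖⁻¹ • u) ∈ Metric.sphere (0 : Pl) 1 := by
      simp [norm_smul, inv_mul_cancel₀ (norm_ne_zero_iff.2 hu)]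
    have h2 := hmin h1
    simp only [mem_ofPred_eq] at h2
    rw [(hF.norm P hP).smul_nonneg (by positivity)] at h2
    have h3 : 0 < ‖u‖ := norm_pos_iff.2 hu
    calc F P u₀ * ‖u‖ ≤ (‖u‖⁻¹ * F P u) * ‖u‖ := by gcongr
      _ = F P u := by field_simp

/-- Local comparison of the norms `F x` with `F P`. -/
theorem IsFinsler.local_compare (hF : IsFinsler M F) (hM : IsOpen M) {P : Pl} (hP : P ∈ M)
    {ε : ℝ} (hε : 0 < ε) :
    ∃ r > 0, Metric.ball P r ⊆ M ∧ ∀ x ∈ Metric.ball P r, ∀ u,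
      |F x u - F P u| ≤ ε * F P u := by
  obtain ⟨m, hm, hmle⟩ := hF.exists_lower hP
  have hopen : IsOpen ((M ×ˢ univ) ∩ (fun p : Pl × Pl => F p.1 p.2 - F P p.2) ⁻¹'
      (Metric.ball (0:ℝ) (ε * m))) := by
    apply ContinuousOn.isOpen_inter_preimage _ (hM.prod isOpen_univ) Metric.isOpen_ball
    apply hF.cont.sub
    exact ((hF.continuous_right hP).comp continuous_snd).continuousOn
  obtain ⟨U, V, hU, hV, hPU, hSV, hUV⟩ := generalized_tube_lemma (isCompact_singleton (x := P))
    (isCompact_sphere (0 : Pl) 1) hopen (by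
      rintro ⟨x, u⟩ ⟨hx, hu⟩
      simp only [mem_singleton_iff] at hx
      subst hx
      refine ⟨⟨hP, mem_univ _⟩, ?_⟩
      simp only [mem_preimage, sub_self]
      exact Metric.mem_ball_self (by positivity))
  obtain ⟨r, hr, hrU⟩ := Metric.isOpen_iff.1 hU P (hPU rfl)
  have key : ∀ x ∈ Metric.ball P r, ∀ u ∈ Metric.sphere (0:Pl) 1,
      x ∈ M ∧ |F x u - F P u| < ε * m := by
    intro x hx u hu
    have := hUV (⟨hrU hx, hSV hu⟩ : (x, u) ∈ U ×ˢ V)
    refine ⟨this.1.1, ?_⟩
    have h2 := this.2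
    simp only [mem_preimage, mem_ball_zero_iff, Real.norm_eq_abs] at h2
    exact h2
  have hex : ∃ u₁ : Pl, u₁ ∈ Metric.sphere (0:Pl) 1 :=
    NormedSpace.sphere_nonempty.2 zero_le_one
  obtain ⟨u₁, hu₁⟩ := hex
  refine ⟨r, hr, fun x hx => (key x hx u₁ hu₁).1, fun x hx u => ?_⟩
  have hxM := (key x hx u₁ hu₁).1
  by_cases hu : u = 0
  · rw [hu, (hF.norm P hP).zero, (hF.norm x hxM).zero]; simp
  · have h1 : (‖u‖⁻¹ • u) ∈ Metric.sphere (0 : Pl) 1 := by
      simp [norm_smul, inv_mul_cancel₀ (norm_ne_zero_iff.2 hu)]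
    have h3 : 0 < ‖u‖ := norm_pos_iff.2 hu
    have h2 := (key x hx _ h1).2
    rw [(hF.norm P hP).smul_nonneg (by positivity), (hF.norm x hxM).smul_nonneg (by positivity),
      ← mul_sub, abs_mul, abs_of_pos (by positivity : (0:ℝ) < ‖u‖⁻¹)] at h2
    have h4 : |F x u - F P u| < ε * m * ‖u‖ := by
      rw [inv_mul_lt_iff₀ h3] at h2
      linarith
    calc |F x u - F P u| ≤ ε * m * ‖u‖ := h4.le
      _ = ε * (m * ‖u‖) := by ring
      _ ≤ ε * F P u := by gcongr; exact hmle u

/-- Continuity of the integrand of the length. -/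
theorem IsFinsler.length_continuousOn (hF : IsFinsler M F) {γ : ℝ → Pl} (hγ : ContDiff ℝ 1 γ)
    {s : Set ℝ} (hs : ∀ t ∈ s, γ t ∈ M) : ContinuousOn (fun t => F (γ t) (deriv γ t)) s := by
  have hcont : Continuous (deriv γ) := hγ.continuous_deriv (le_refl _)
  have : ContinuousOn (fun t => (fun p : Pl × Pl => F p.1 p.2) (γ t, deriv γ t)) s := by
    apply hF.cont.comp (hγ.continuous.prodMk hcont).continuousOn
    intro t ht
    exact ⟨hs t ht, mem_univ _⟩
  exact this

/-- Lower bound for the length of any curve from `P` to `P + w`, `w` small. -/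
theorem IsFinsler.length_lower (hF : IsFinsler M F) (hM : IsOpen M) {P : Pl} (hP : P ∈ M)
    {ε : ℝ} (hε : 0 < ε) (hε1 : ε < 1) :
    ∃ η > 0, ∀ w : Pl, ‖w‖ < η → ∀ γ : ℝ → Pl, ContDiff ℝ 1 γ → (∀ t ∈ Icc (0:ℝ) 1, γ t ∈ M) →
      γ 0 = P → γ 1 = P + w → (1 - ε) * F P w ≤ ∫ t in (0:ℝ)..1, F (γ t) (deriv γ t) := by
  obtain ⟨r, hr, hrM, hcomp⟩ := hF.local_compare hM hP hε
  obtain ⟨m, hm, hmle⟩ := hF.exists_lower hP
  have hNP := hF.norm P hP
  -- choose η so that F P w ≤ m * (r/2)
  have hcont0 : ContinuousAt (F P) 0 := (hF.continuous_right hP).continuousAt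
  have hev : ∀ᶠ w in 𝓝 (0:Pl), F P w < m * (r/2) := by
    apply hcont0.eventually_lt continuousAt_const
    rw [hNP.zero]; positivity
  obtain ⟨η, hη, hηle⟩ := Metric.eventually_nhds_iff.1 hev
  refine ⟨η, hη, fun w hw γ hγ hγM h0 h1 => ?_⟩
  have hFw : F P w < m * (r/2) := hηle (by simpa [dist_zero_right] using hw)
  have hint : ∀ {a b : ℝ}, 0 ≤ a → a ≤ b → b ≤ 1 →
      IntervalIntegrable (fun t => F (γ t) (deriv γ t)) volume a b := by
    intro a b ha hab hb
    apply ContinuousOn.intervalIntegrable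
    rw [uIcc_of_le hab]
    exact hF.length_continuousOn hγ (fun t ht => hγM t ⟨ha.trans ht.1, ht.2.trans hb⟩)
  -- the scaled norm
  have hN' : IsNorm (fun u => (1 - ε) * F P u) := by
    refine ⟨fun u hu => mul_pos (by linarith) (hNP.pos u hu), fun c u => ?_, fun u v => ?_⟩
    · rw [hNP.smul]; ring
    · have := hNP.add_le u v
      nlinarith
  have hpt : ∀ t, γ t ∈ Metric.ball P r → (1 - ε) * F P (deriv γ t) ≤ F (γ t) (deriv γ t) := by
    intro t ht
    have := (abs_le.1 (hcomp _ ht (deriv γ t))).1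
    linarith
  by_cases hstay : ∀ t ∈ Icc (0:ℝ) 1, ‖γ t - P‖ < r/2
  · have := norm_sub_le_integral hN' hγ zero_le_one (hint le_rfl zero_le_one le_rfl)
      (fun t ht => hpt t (by
        rw [Metric.mem_ball, dist_eq_norm]
        have := hstay t ht
        linarith))
    rw [h0, h1, add_sub_cancel_left] at this
    exact this
  · push Not at hstay
    obtain ⟨t₁, ht₁, hge⟩ := hstay
    -- first exit time
    set g : ℝ → ℝ := fun t => ‖γ t - P‖ with hg
    have hgc : Continuous g := by fun_prop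
    have hg0 : g 0 = 0 := by simp [hg, h0]
    set S : Set ℝ := {t | t ∈ Icc (0:ℝ) 1 ∧ r/2 ≤ g t} with hS
    have hSc : IsCompact S := by
      apply isCompact_Icc.of_isClosed_subset _ (fun t ht => ht.1)
      exact isClosed_Icc.inter (isClosed_le continuous_const hgc)
    obtain ⟨τ, hτS, hτmin⟩ := hSc.exists_isLeast ⟨t₁, ht₁, hge⟩
    have hτ0 : 0 ≤ τ := hτS.1.1
    have hτ1 : τ ≤ 1 := hτS.1.2
    have hbefore : ∀ t ∈ Ico 0 τ, g t < r/2 := by
      intro t ht
      by_contra hcon
      push Not at hcon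
      exact absurd (hτmin ⟨⟨ht.1, ht.2.le.trans hτ1⟩, hcon⟩) (not_le.2 ht.2)
    have hτle : g τ ≤ r/2 := by
      rcases hτ0.eq_or_lt with h | h
      · rw [← h, hg0]; positivity
      · have : Tendsto g (𝓝[<] τ) (𝓝 (g τ)) := hgc.continuousAt.mono_left nhdsWithin_le_nhds
        apply le_of_tendsto this
        filter_upwards [Ioo_mem_nhdsLT h] with t ht
        exact (hbefore t ⟨ht.1.le, ht.2⟩).le
    have hball : ∀ t ∈ Icc 0 τ, γ t ∈ Metric.ball P r := by
      intro t ht
      rw [Metric.mem_ball, dist_eq_norm]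
      rcases ht.2.eq_or_lt with h | h
      · rw [h]; exact lt_of_le_of_lt hτle (by linarith)
      · have := hbefore t ⟨ht.1, h⟩
        simp only [hg] at this
        linarith
    have h2 := norm_sub_le_integral hN' hγ hτ0 (hint le_rfl hτ0 hτ1)
      (fun t ht => hpt t (hball t ht))
    rw [h0] at h2
    have h3 : m * (r/2) ≤ F P (γ τ - P) := by
      refine le_trans ?_ (hmle _)
      gcongr
      exact hτS.2
    have h4 : ∫ t in (0:ℝ)..τ, F (γ t) (deriv γ t) ≤ ∫ t in (0:ℝ)..1, F (γ t) (deriv γ t) := by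
      rw [← intervalIntegral.integral_add_adjacent_intervals (hint le_rfl hτ0 hτ1)
        (hint hτ0 hτ1 le_rfl)]
      have : 0 ≤ ∫ t in τ..1, F (γ t) (deriv γ t) := by
        apply intervalIntegral.integral_nonneg hτ1
        intro t ht
        exact (hF.norm _ (hγM t ⟨hτ0.trans ht.1, ht.2⟩)).nonneg _
      linarith
    have h5 : (1 - ε) * F P w ≤ (1 - ε) * F P (γ τ - P) := by
      have : (0:ℝ) < 1 - ε := by linarith
      gcongr
      linarith
    linarith

/-- Two-sided local estimate for the length metric. -/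
theorem IsFinsler.metric_local (hF : IsFinsler M F) (hM : IsOpen M) {d : Pl → Pl → ℝ}
    (hd : IsLengthMetric M F d) {P : Pl} (hP : P ∈ M) {ε : ℝ} (hε : 0 < ε) (hε1 : ε < 1) :
    ∃ η > 0, ∀ w : Pl, ‖w‖ < η → P + w ∈ M ∧
      (1 - ε) * F P w ≤ d P (P + w) ∧ d P (P + w) ≤ (1 + ε) * F P w := by
  obtain ⟨η, hη, hlow⟩ := hF.length_lower hM hP hε hε1
  obtain ⟨r, hr, hrM, hcomp⟩ := hF.local_compare hM hP hε
  refine ⟨min η r, lt_min hη hr, fun w hw => ?_⟩
  have hw1 : ‖w‖ < η := hw.trans_le (min_le_left _ _)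
  have hw2 : ‖w‖ < r := hw.trans_le (min_le_right _ _)
  have hPw : P + w ∈ M := hrM (by simpa [Metric.mem_ball, dist_eq_norm] using hw2)
  have hglb := hd P hP (P + w) hPw
  refine ⟨hPw, ?_, ?_⟩
  · apply (le_isGLB_iff hglb).2
    rintro L ⟨γ, hγ, hγM, h0, h1, rfl⟩
    exact hlow w hw1 γ hγ hγM h0 h1
  · set γ : ℝ → Pl := fun t => P + t • w with hγdef
    have hγ : ContDiff ℝ 1 γ := by fun_prop
    have hder : ∀ t, deriv γ t = w := by
      intro t
      have : HasDerivAt γ ((1:ℝ) • w) t :=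
        ((hasDerivAt_id t).smul_const w).const_add P
      rw [this.deriv, one_smul]
    have hball : ∀ t ∈ Icc (0:ℝ) 1, γ t ∈ Metric.ball P r := by
      intro t ht
      rw [Metric.mem_ball, dist_eq_norm, hγdef]
      simp only [add_sub_cancel_left, norm_smul, Real.norm_eq_abs, abs_of_nonneg ht.1]
      calc t * ‖w‖ ≤ 1 * ‖w‖ := by gcongr; exact ht.2
        _ < r := by simpa using hw2
    have hγM : ∀ t ∈ Icc (0:ℝ) 1, γ t ∈ M := fun t ht => hrM (hball t ht)
    have hle : d P (P + w) ≤ ∫ t in (0:ℝ)..1, F (γ t) (deriv γ t) :=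
      hglb.1 ⟨γ, hγ, hγM, by simp [hγdef], by simp [hγdef], rfl⟩
    refine hle.trans ?_
    have h2 : ∫ t in (0:ℝ)..1, F (γ t) (deriv γ t) ≤ ∫ t in (0:ℝ)..1, (1 + ε) * F P w := by
      apply intervalIntegral.integral_mono_on zero_le_one
      · apply ContinuousOn.intervalIntegrable
        rw [uIcc_of_le zero_le_one]
        exact hF.length_continuousOn hγ hγM
      · exact intervalIntegrable_const
      · intro t ht
        rw [hder]
        have := (abs_le.1 (hcomp _ (hball t ht) w)).2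
        linarith
    simpa using h2

/-- The Finsler function is recovered from the length metric. -/
theorem IsFinsler.tendsto_metric (hF : IsFinsler M F) (hM : IsOpen M) {d : Pl → Pl → ℝ}
    (hd : IsLengthMetric M F d) {P : Pl} (hP : P ∈ M) (u : Pl) :
    Tendsto (fun t : ℝ => d P (P + t • u) / t) (𝓝[>] 0) (𝓝 (F P u)) := by
  have hNP := hF.norm P hP
  rw [Metric.tendsto_nhds]
  intro e he
  -- choose ε with ε * F P u < e
  set ε : ℝ := min (1/2) (e / (2 * (F P u + 1))) with hεdef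
  have hFu : 0 ≤ F P u := hNP.nonneg u
  have hε : 0 < ε := lt_min (by norm_num) (by positivity)
  have hε1 : ε < 1 := (min_le_left _ _).trans_lt (by norm_num)
  have hεe : ε * F P u < e := by
    calc ε * F P u ≤ (e / (2 * (F P u + 1))) * F P u := by
          gcongr; exact min_le_right _ _
      _ < e := by
          rw [div_mul_eq_mul_div, div_lt_iff₀ (by positivity)]
          nlinarith
  obtain ⟨η, hη, hloc⟩ := hF.metric_local hM hd hP hε hε1
  have hev : ∀ᶠ t : ℝ in 𝓝[>] 0, ‖t • u‖ < η := by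
    have hc : ContinuousAt (fun t : ℝ => ‖t • u‖) 0 := by fun_prop
    have h2 : ∀ᶠ t : ℝ in 𝓝 0, ‖t • u‖ < η := by
      apply hc.eventually_lt continuousAt_const
      simpa using hη
    exact h2.filter_mono nhdsWithin_le_nhds
  filter_upwards [hev, self_mem_nhdsWithin] with t ht ht0
  simp only [mem_Ioi] at ht0
  obtain ⟨-, h1, h2⟩ := hloc _ ht
  rw [hNP.smul_nonneg ht0.le] at h1 h2
  rw [Real.dist_eq, abs_lt]
  have h3 : (1 - ε) * F P u ≤ d P (P + t • u) / t := by
    rw [le_div_iff₀ ht0]; linarith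
  have h4 : d P (P + t • u) / t ≤ (1 + ε) * F P u := by
    rw [div_le_iff₀ ht0]; linarith
  constructor <;> nlinarith

end Local

end Pool.Agent.Lib_1de93e
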