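import Mathlib
import Pool.Agent.Lib_1de93e.Basic
import Pool.Agent.Lib_MP_1de93e_gt.LowReg
import Pool.Agent.Lib_MP_1de93e_gt.Flat

/-!
# PART Z: classification from the first-order structure equation (plane `Pl`)
-/

namespace Pool.Agent.Lib_1de93e

open Set Filter Topology MeasureTheory
open Pool.Agent.Lib_MP_1de93e_gt.Gen

/-- the area form of `Pl` -/
noncomputable def areaPl : Pl →L[ℝ] Pl →L[ℝ] ℝ :=
  (EuclideanSpace.proj (𝕜 := ℝ) (0 : Fin 2) : Pl →L[ℝ] ℝ).smulRight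
      (EuclideanSpace.proj (𝕜 := ℝ) (1 : Fin 2) : Pl →L[ℝ] ℝ)
    - (EuclideanSpace.proj (𝕜 := ℝ) (1 : Fin 2) : Pl →L[ℝ] ℝ).smulRight
      (EuclideanSpace.proj (𝕜 := ℝ) (0 : Fin 2) : Pl →L[ℝ] ℝ)

lemma areaPl_apply (u v : Pl) : areaPl u v = u 0 * v 1 - u 1 * v 0 := by
  simp [areaPl, ContinuousLinearMap.smulRight_apply]

lemma isArea_areaPl : IsArea areaPl where
  self := fun a => by rw [areaPl_apply]; ring
  id3 := fun a b c => by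
    ext i
    fin_cases i
    · simp [areaPl_apply]; ring
    · simp [areaPl_apply]; ring
  one := by
    refine ⟨EuclideanSpace.single 0 1, EuclideanSpace.single 1 1, ?_⟩
    rw [areaPl_apply]
    simp

lemma IsNorm.gnorm {N : Pl → ℝ} (hN : IsNorm N) : GNorm N where
  smul := hN.smul
  add := hN.add_le
  pos := hN.pos

/-- **PART Z.** -/
theorem classify {M : Set Pl} {F : Pl → Pl → ℝ} (hM : IsOpen M) (hconv : Convex ℝ M)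
    (hF : IsFinsler M F) {lam : Pl → ℝ} {L : Pl → (Pl →L[ℝ] ℝ)} {A : Pl → Pl → (Pl →L[ℝ] ℝ)}
    (hlam : ∀ x ∈ M, 0 < lam x) (hL : ∀ x ∈ M, HasFDerivAt lam (L x) x) (hLc : ContinuousOn L M)
    (hFd : ∀ x ∈ M, ∀ u : Pl, u ≠ 0 → ∃ Φ : Pl × Pl →L[ℝ] ℝ,
      HasFDerivAt (fun p : Pl × Pl => F p.1 p.2) Φ (x, u) ∧
      ∀ w v : Pl, Φ (w, v) = -(L x w * F x u + L x u * A x u w) / lam x + A x u v) :
    (∀ x ∈ M, IsEuclidean (F x)) ∨ ∃ x₀ ∈ M, ∃ m : Pl →L[ℝ] ℝ, (∀ x ∈ M, 0 < 1 + m (x - x₀)) ∧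
      ∀ x ∈ M, ∀ v : Pl, F x v = F x₀ ((1 + m (x - x₀))⁻¹ • v
        - (((1 + m (x - x₀)) ^ 2)⁻¹ * m v) • (x - x₀)) := by
  have hZ : ZData areaPl M F lam L := by
    refine ⟨isArea_areaPl, hM, hconv, fun x hx => (hF.norm x hx).gnorm,
      fun x hx => hF.continuous_right hx, hlam, hL, hLc, fun x hx u hu => ?_⟩
    obtain ⟨Φ, hΦ, hform⟩ := hFd x hx u hu
    refine ⟨Φ, hΦ, fun w v => ?_⟩
    have h1 : ∀ v, Φ (0, v) = A x u v := by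
      intro v
      rw [hform 0 v]
      simp
    rw [h1, h1, hform]
  exact classification hZ

/-- The distance formula in the flat case. -/
theorem flat_dist {M : Set Pl} {F : Pl → Pl → ℝ} {d : Pl → Pl → ℝ} (hconv : Convex ℝ M)
    (hdint : ∀ P ∈ M, ∀ Q ∈ M, d P Q = ∫ t in (0 : ℝ)..1, F (P + t • (Q - P)) (Q - P))
    {N : Pl → ℝ} (hN : IsNorm N) {x₀ : Pl} {m : Pl →L[ℝ] ℝ} (hm : ∀ x ∈ M, 0 < 1 + m (x - x₀))
    (hF : ∀ x ∈ M, ∀ v : Pl, F x v = N ((1 + m (x - x₀))⁻¹ • v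
        - (((1 + m (x - x₀)) ^ 2)⁻¹ * m v) • (x - x₀))) :
    ∀ P ∈ M, ∀ Q ∈ M, d P Q = N ((1 + m (Q - x₀))⁻¹ • (Q - x₀) - (1 + m (P - x₀))⁻¹ • (P - x₀)) := by
  intro P hP Q hQ
  rw [hdint P hP Q hQ]
  exact gdist_flat hconv hN.gnorm hm hF hP hQ

/-- The complete flat case. -/
theorem flat_complete {M : Set Pl} {d : Pl → Pl → ℝ} (hM : IsOpen M)
    (hcomp : IsCompleteMetric M d) {N : Pl → ℝ} (hN : IsNorm N) {x₀ : Pl} (hx₀ : x₀ ∈ M)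
    {m : Pl →L[ℝ] ℝ} (hm : ∀ x ∈ M, 0 < 1 + m (x - x₀))
    (hdist : ∀ P ∈ M, ∀ Q ∈ M,
      d P Q = N ((1 + m (Q - x₀))⁻¹ • (Q - x₀) - (1 + m (P - x₀))⁻¹ • (P - x₀))) :
    M = univ ∧ m = 0 ∧ ∀ P Q : Pl, d P Q = N (Q - P) := by
  have h := gcomplete_flat hM hcomp hN.gnorm hx₀ hm hdist
  refine ⟨h.1, h.2, fun P Q => ?_⟩
  rw [hdist P (h.1 ▸ mem_univ P) Q (h.1 ▸ mem_univ Q), h.2]
  simp

end Pool.Agent.Lib_1de93e
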