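import Pool.Agent.Lib_1de93e.Metric

/-!
# Perpendicular lines, conjugate directions, differentiability of the norms
-/

namespace Pool.Agent.Lib_1de93e

open Set MeasureTheory Filter Topology

/-- Determinant in the plane. -/
noncomputable def det2 (u v : Pl) : ℝ := u 0 * v 1 - u 1 * v 0

/-- Rotation by a right angle. -/
noncomputable def J : Pl →L[ℝ] Pl :=
  LinearMap.toContinuousLinearMap
    { toFun := fun u => !₂[-(u 1), u 0]
      map_add' := by
        intro u v
        ext i
        fin_cases i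
        · simp; ring
        · simp
      map_smul' := by
        intro r u
        ext i
        fin_cases i <;> simp }

@[simp] theorem J_zero (u : Pl) : J u 0 = -(u 1) := rfl
@[simp] theorem J_one (u : Pl) : J u 1 = u 0 := rfl

theorem normsq (u : Pl) : ‖u‖ ^ 2 = u 0 ^ 2 + u 1 ^ 2 := by
  rw [EuclideanSpace.norm_sq_eq, Fin.sum_univ_two]
  simp

theorem pl_ext {u v : Pl} (h0 : u 0 = v 0) (h1 : u 1 = v 1) : u = v := by
  ext i
  fin_cases i
  · exact h0
  · exact h1

theorem normsq_pos {u : Pl} (hu : u ≠ 0) : 0 < u 0 ^ 2 + u 1 ^ 2 := by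
  rw [← normsq]
  have : 0 < ‖u‖ := norm_pos_iff.2 hu
  positivity

theorem norm_J (u : Pl) : ‖J u‖ = ‖u‖ := by
  have h1 : ‖J u‖ ^ 2 = ‖u‖ ^ 2 := by rw [normsq, normsq]; simp; ring
  nlinarith [norm_nonneg (J u), norm_nonneg u, sq_nonneg (‖J u‖ - ‖u‖)]

theorem J_ne_zero {u : Pl} (hu : u ≠ 0) : J u ≠ 0 := by
  intro h
  have := norm_J u
  rw [h, norm_zero] at this
  exact hu (norm_eq_zero.1 this.symm)

theorem det2_J (u : Pl) : det2 u (J u) = ‖u‖ ^ 2 := by
  rw [normsq]; unfold det2; simp; ring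

theorem det2_J_left (u : Pl) : det2 (J u) u = -‖u‖ ^ 2 := by
  rw [normsq]; unfold det2; simp; ring

theorem det2_self (u : Pl) : det2 u u = 0 := by unfold det2; ring
theorem det2_comm (u v : Pl) : det2 u v = -det2 v u := by unfold det2; ring
theorem det2_add_left (u v w : Pl) : det2 (u + v) w = det2 u w + det2 v w := by
  unfold det2; simp; ring
theorem det2_add_right (u v w : Pl) : det2 u (v + w) = det2 u v + det2 u w := by
  unfold det2; simp; ring
theorem det2_sub_left (u v w : Pl) : det2 (u - v) w = det2 u w - det2 v w := by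
  unfold det2; simp; ring
theorem det2_sub_right (u v w : Pl) : det2 u (v - w) = det2 u v - det2 u w := by
  unfold det2; simp; ring
theorem det2_smul_left (r : ℝ) (u v : Pl) : det2 (r • u) v = r * det2 u v := by
  unfold det2; simp; ring
theorem det2_smul_right (r : ℝ) (u v : Pl) : det2 u (r • v) = r * det2 u v := by
  unfold det2; simp; ring
theorem det2_neg_left (u v : Pl) : det2 (-u) v = -det2 u v := by
  unfold det2; simp; ring
theorem det2_neg_right (u v : Pl) : det2 u (-v) = -det2 u v := by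
  unfold det2; simp; ring

/-- Cramer's rule. -/
theorem cramer {u v : Pl} (huv : det2 u v ≠ 0) (w : Pl) :
    w = (det2 w v / det2 u v) • u + (det2 u w / det2 u v) • v := by
  apply pl_ext
  · simp only [PiLp.add_apply, PiLp.smul_apply, smul_eq_mul]
    field_simp
    unfold det2
    ring
  · simp only [PiLp.add_apply, PiLp.smul_apply, smul_eq_mul]
    field_simp
    unfold det2
    ring

theorem parallel_of_det2 {u v : Pl} (hu : u ≠ 0) (h : det2 u v = 0) : ∃ c : ℝ, v = c • u := by
  have hpos := normsq_pos hu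
  refine ⟨(u 0 * v 0 + u 1 * v 1) / (u 0 ^ 2 + u 1 ^ 2), ?_⟩
  unfold det2 at h
  apply pl_ext
  · simp only [PiLp.smul_apply, smul_eq_mul]
    field_simp
    linear_combination (-(u 1)) * h
  · simp only [PiLp.smul_apply, smul_eq_mul]
    field_simp
    linear_combination (u 0) * h

variable {M : Set Pl} {F d : Pl → Pl → ℝ}

theorem perp_smul_left {O u v : Pl} {a : ℝ} (h : Perp M d O u v) :
    Perp M d O (a • u) v := by
  intro s t hs ht
  rw [smul_smul] at hs ⊢
  exact h (s * a) t hs ht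

theorem perp_smul_right {O u v : Pl} {a : ℝ} (h : Perp M d O u v) :
    Perp M d O u (a • v) := by
  intro s t hs ht
  rw [smul_smul] at ht ⊢
  exact h s (t * a) hs ht

/-- A Finslerian projective-metric plane in which every point of every line has a perpendicular
line, mutually perpendicular to it. -/
structure PPlane (M : Set Pl) (F d : Pl → Pl → ℝ) : Prop extends FPlane M F d where
  perp : ∀ O ∈ M, ∀ v : Pl, v ≠ 0 → ∃ u : Pl, u ≠ 0 ∧ Perp M d O u v ∧ Perp M d O v u

namespace FPlane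

variable (h : FPlane M F d)

include h

theorem exists_small {x : Pl} (hx : x ∈ M) (u : Pl) : ∃ δ > 0, ∀ s : ℝ, |s| < δ → x + s • u ∈ M := by
  have hc : ContinuousAt (fun s : ℝ => x + s • u) 0 := by fun_prop
  have : M ∈ 𝓝 (x + (0:ℝ) • u) := by simpa using h.isOpen.mem_nhds hx
  obtain ⟨δ, hδ, hb⟩ := Metric.mem_nhds_iff.1 (hc this)
  refine ⟨δ, hδ, fun s hs => ?_⟩
  exact hb (by simpa [Metric.mem_ball, Real.dist_eq] using hs)

theorem det2_ne_of_perp {x u v : Pl} (hx : x ∈ M) (hu : u ≠ 0) (hv : v ≠ 0)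
    (hp : Perp M d x u v) : det2 u v ≠ 0 := by
  intro hdet
  obtain ⟨c, hc⟩ := parallel_of_det2 hv (by rw [det2_comm, hdet, neg_zero] : det2 v u = 0)
  obtain ⟨δ, hδ, hb⟩ := h.exists_small hx u
  have hs := hb (δ/2) (by rw [abs_of_pos (by positivity)]; linarith)
  have heq : x + (δ/2) • u = x + (δ/2 * c) • v := by rw [hc, smul_smul]
  have h1 := hp (δ/2) (δ/2 * c) hs (by rw [← heq]; exact hs)
  rw [← heq, h.pm.self_eq_zero hs] at h1
  have h2 := h.pm.nonneg hs hx
  have h3 := (h.pm.eq_zero_iff _ hs _ hx).1 (le_antisymm h1 h2)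
  have h4 : (δ/2) • u = 0 := by simpa using h3
  rcases smul_eq_zero.1 h4 with h5 | h5
  · linarith
  · exact hu h5

/-- Perpendiculars to a line at different points do not meet. -/
theorem no_cross {O u v u' : Pl} {c s s' : ℝ} (hO : O ∈ M) (hO' : O + c • v ∈ M) (hc : c ≠ 0)
    (hdet : det2 u v ≠ 0) (hp : Perp M d O u v) (hp' : Perp M d (O + c • v) u' v)
    (hX : O + s • u ∈ M) (heq : O + s • u = O + c • v + s' • u') : False := by
  have hv : v ≠ 0 := by
    rintro rfl
    apply hdet; unfold det2; simp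
  set X := O + s • u with hXdef
  set O' := O + c • v with hO'def
  have h1 : d X O ≤ d X O' := hp s c hX hO'
  have h2 : d X O' ≤ d X O := by
    have := hp' s' (-c) (by rw [← heq]; exact hX) (by
      rw [hO'def, neg_smul, add_neg_cancel_right]; exact hO)
    rw [← heq] at this
    rw [hO'def, neg_smul, add_neg_cancel_right] at this
    exact this
  have hs : s ≠ 0 := by
    rintro rfl
    have hXO : X = O := by simp [hXdef]
    rw [hXO, h.pm.self_eq_zero hO] at h2
    have h3 := h.pm.nonneg hO hO'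
    have h4 := (h.pm.eq_zero_iff _ hO _ hO').1 (le_antisymm h2 h3)
    have h5 : c • v = 0 := by simpa [hO'def] using h4.symm
    rcases smul_eq_zero.1 h5 with h6 | h6
    · exact hc h6
    · exact hv h6
  obtain ⟨δ, hδ, hb⟩ := h.exists_small hX (s • u)
  set e := δ / 2 with he
  have he0 : 0 < e := by positivity
  have hX' : X + e • (s • u) ∈ M := hb e (by rw [abs_of_pos he0]; linarith)
  set X' := X + e • (s • u) with hX'def
  have hX'eq : X' = O + ((1 + e) * s) • u := by
    rw [hX'def, hXdef, smul_smul, add_mul, add_smul, one_mul]; abel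
  -- X lies between O and X'
  have hadd : d O X + d X X' = d O X' := by
    have h3 := (h.pm.add_line (A := O) (w := s • u) (r := 0) (s := 1) (t := 1 + e) zero_le_one
      (by linarith) (by simpa using hO) (by rw [smul_smul, ← hX'eq]; exact hX')).2
    rw [zero_smul, add_zero, one_smul, smul_smul, ← hX'eq] at h3
    exact h3
  have h5 : d X' O ≤ d X' O' := by
    have := hp ((1 + e) * s) c (by rw [← hX'eq]; exact hX') hO'
    rw [← hX'eq] at this
    exact this
  have h6 := h.pm.triangle X' hX' X hX O' hO'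
  have s1 := h.pm.symm O hO X hX
  have s2 := h.pm.symm X hX X' hX'
  have s3 := h.pm.symm O hO X' hX'
  have h7 : d X' X + d X O' = d X' O' := by linarith
  obtain ⟨a, b, ha, hb', hab, hcomb⟩ := (h.pm.geodesic _ hX' _ hX _ hO').1 h7
  have h8 : det2 u (a • X' + b • O') = det2 u X := by rw [hcomb]
  rw [hX'eq, hO'def, hXdef] at h8
  simp only [det2_add_right, det2_smul_right, det2_self] at h8
  have h9 : b * (c * det2 u v) = 0 := by
    have : a * det2 u O + b * det2 u O = det2 u O := by rw [← add_mul, hab, one_mul]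
    linarith
  have hb0 : b = 0 := by
    rcases mul_eq_zero.1 h9 with h10 | h10
    · exact h10
    · rcases mul_eq_zero.1 h10 with h11 | h11
      · exact absurd h11 hc
      · exact absurd h11 hdet
  have ha1 : a = 1 := by linarith
  rw [hb0, ha1, one_smul, zero_smul, add_zero, hX'def] at hcomb
  have h10 : e • (s • u) = 0 := by simpa using hcomb
  rw [smul_smul] at h10
  rcases smul_eq_zero.1 h10 with h11 | h11
  · rcases mul_eq_zero.1 h11 with h12 | h12
    · exact he0.ne' h12
    · exact hs h12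
  · apply hdet
    rw [h11]; unfold det2; simp

/-- Local bounds for the norms. -/
theorem exists_bounds {P : Pl} (hP : P ∈ M) : ∃ η > 0, ∃ m > 0, ∃ Λ > 0, Metric.ball P η ⊆ M ∧
    ∀ x ∈ Metric.ball P η, ∀ u, m * ‖u‖ ≤ F x u ∧ F x u ≤ Λ * ‖u‖ := by
  obtain ⟨r, hr, hrM, hcomp⟩ := h.fin.local_compare h.isOpen hP (ε := 1/2) (by norm_num)
  obtain ⟨m, hm, hmle⟩ := h.fin.exists_lower hP
  obtain ⟨u₀, hu₀, hmax⟩ := (isCompact_sphere (0 : Pl) 1).exists_isMaxOn
    (NormedSpace.sphere_nonempty.2 zero_le_one) (h.fin.continuous_right hP).continuousOn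
  have hN := h.fin.norm P hP
  have hne : u₀ ≠ 0 := by
    rintro rfl
    simp at hu₀
  have hΛ : 0 < F P u₀ := hN.pos _ hne
  have hup : ∀ u, F P u ≤ F P u₀ * ‖u‖ := by
    intro u
    by_cases hu : u = 0
    · rw [hu, hN.zero]; simp
    · have h1 : (‖u‖⁻¹ • u) ∈ Metric.sphere (0 : Pl) 1 := by
        simp [norm_smul, inv_mul_cancel₀ (norm_ne_zero_iff.2 hu)]
      have h2 := hmax h1
      simp only [mem_ofPred_eq] at h2
      rw [hN.smul_nonneg (by positivity)] at h2
      have h3 : 0 < ‖u‖ := norm_pos_iff.2 hu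
      calc F P u = (‖u‖⁻¹ * F P u) * ‖u‖ := by field_simp
        _ ≤ F P u₀ * ‖u‖ := by gcongr
  refine ⟨r, hr, m / 2, by positivity, 2 * F P u₀, by positivity, hrM, fun x hx u => ?_⟩
  have h1 := abs_le.1 (hcomp x hx u)
  have h2 := hmle u
  have h3 := hup u
  have h4 : 0 ≤ ‖u‖ := norm_nonneg u
  constructor
  · nlinarith
  · nlinarith

end FPlane

/-- The coefficient `κ` of the direction `J u + κ u` conjugate to `u` at `x`. -/
noncomputable def kap (M : Set Pl) (d : Pl → Pl → ℝ) (x u : Pl) : ℝ :=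
  Classical.epsilon (fun k : ℝ => Perp M d x (J u + k • u) u ∧ Perp M d x u (J u + k • u))

/-- The conjugate vector of `u` at `x`. -/
noncomputable def cv (M : Set Pl) (d : Pl → Pl → ℝ) (x u : Pl) : Pl := J u + kap M d x u • u

theorem det2_cv (x u : Pl) : det2 u (cv M d x u) = ‖u‖ ^ 2 := by
  unfold cv
  rw [det2_add_right, det2_smul_right, det2_self, det2_J]; ring

theorem cv_ne_zero {x u : Pl} (hu : u ≠ 0) : cv M d x u ≠ 0 := by
  intro h
  have h1 := det2_cv (M := M) (d := d) x u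
  rw [h] at h1
  have : ‖u‖ ^ 2 = 0 := by rw [← h1]; unfold det2; simp
  exact hu (norm_eq_zero.1 (by simpa using this))

namespace PPlane

variable (h : PPlane M F d)

include h

theorem kap_spec {x u : Pl} (hx : x ∈ M) (hu : u ≠ 0) :
    Perp M d x (cv M d x u) u ∧ Perp M d x u (cv M d x u) := by
  have hex : ∃ k : ℝ, Perp M d x (J u + k • u) u ∧ Perp M d x u (J u + k • u) := by
    obtain ⟨w, hw, hp1, hp2⟩ := h.perp x hx u hu
    have hdet := h.toFPlane.det2_ne_of_perp hx hw hu hp1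
    have hJ : det2 u (J u) ≠ 0 := by
      rw [det2_J]
      have : 0 < ‖u‖ := norm_pos_iff.2 hu
      positivity
    -- w = α u + β J u
    have hcr := cramer hJ w
    set α := det2 w (J u) / det2 u (J u) with hα
    set β := det2 u w / det2 u (J u) with hβ
    have hβ0 : β ≠ 0 := by
      rw [hβ]
      apply div_ne_zero _ hJ
      rw [det2_comm]; exact neg_ne_zero.2 hdet
    have hk : J u + (α / β) • u = β⁻¹ • w := by
      rw [hcr, smul_add, smul_smul, smul_smul, inv_mul_cancel₀ hβ0, one_smul, add_comm]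
      congr 2
      field_simp
    refine ⟨α / β, ?_, ?_⟩
    · rw [hk]; exact perp_smul_left hp1
    · rw [hk]; exact perp_smul_right hp2
  exact Classical.epsilon_spec hex

/-- Lipschitz estimate along the line, `c ≠ 0`. -/
theorem kap_lip_aux {x u : Pl} {k k' c R : ℝ} (hR : 0 < R) (hx : Metric.ball x R ⊆ M) (hu : u ≠ 0)
    (hc : c ≠ 0) (hx' : x + c • u ∈ M) (hk : Perp M d x (J u + k • u) u)
    (hk' : Perp M d (x + c • u) (J u + k' • u) u) : |k - k'| * R ≤ |c| * ‖J u + k • u‖ := by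
  by_contra hcon
  push Not at hcon
  have hxM : x ∈ M := hx (Metric.mem_ball_self hR)
  have hne : k - k' ≠ 0 := by
    intro h0
    rw [h0, abs_zero, zero_mul] at hcon
    have := mul_nonneg (abs_nonneg c) (norm_nonneg (J u + k • u))
    linarith
  have hpos : 0 < |k - k'| := abs_pos.2 hne
  set y := c / (k - k') with hy
  have hyc : y * (k - k') = c := by rw [hy]; field_simp
  have hX : x + y • (J u + k • u) ∈ M := by
    apply hx
    rw [Metric.mem_ball, dist_eq_norm, add_sub_cancel_left, norm_smul, Real.norm_eq_abs, hy,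
      abs_div, div_mul_eq_mul_div, div_lt_iff₀ hpos]
    linarith
  apply h.toFPlane.no_cross hxM hx' hc (u := J u + k • u) (v := u) (u' := J u + k' • u) (s := y)
    (s' := y) _ hk hk' hX
  · have : (k - k') • (y • u) = c • u := by rw [smul_smul, ← hyc, mul_comm]
    rw [← this, sub_smul, smul_add, smul_add, smul_smul, smul_smul, smul_smul, smul_smul]
    rw [mul_comm k y, mul_comm k' y]
    abel
  · rw [det2_add_left, det2_smul_left, det2_self, det2_J_left]
    have : 0 < ‖u‖ := norm_pos_iff.2 hu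
    have h2 : 0 < ‖u‖ ^ 2 := by positivity
    intro h0
    linarith

/-- Uniqueness of the perpendicular. -/
theorem kap_unique {x u : Pl} {k k' : ℝ} (hxM : x ∈ M) (hu : u ≠ 0)
    (hk : Perp M d x (J u + k • u) u) (hk' : Perp M d x (J u + k' • u) u) : k = k' := by
  obtain ⟨R, hR, hRM⟩ := Metric.isOpen_iff.1 h.toFPlane.isOpen x hxM
  obtain ⟨δ, hδ, hb⟩ := h.toFPlane.exists_small hxM u
  set C := ‖J u + k • u‖ + ‖J u + k' • u‖ with hC
  have hCnn : 0 ≤ C := by positivity
  have key : ∀ c : ℝ, 0 < c → c < δ → |k - k'| * R ≤ c * C := by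
    intro c hc hcδ
    have hxc := hb c (by rwa [abs_of_pos hc])
    have hspec := (h.kap_spec hxc hu).1
    have l1 := h.kap_lip_aux hR hRM hu hc.ne' hxc hk hspec
    have l2 := h.kap_lip_aux hR hRM hu hc.ne' hxc hk' hspec
    rw [abs_of_pos hc] at l1 l2
    have tri : |k - k'| ≤ |k - kap M d (x + c • u) u| + |k' - kap M d (x + c • u) u| := by
      have := abs_sub_le k (kap M d (x + c • u) u) k'
      rw [abs_sub_comm (kap M d (x + c • u) u) k'] at this
      exact this
    calc |k - k'| * R ≤ (|k - kap M d (x + c • u) u| + |k' - kap M d (x + c • u) u|) * R := by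
          gcongr
      _ = |k - kap M d (x + c • u) u| * R + |k' - kap M d (x + c • u) u| * R := by ring
      _ ≤ c * ‖J u + k • u‖ + c * ‖J u + k' • u‖ := add_le_add l1 l2
      _ = c * C := by rw [hC]; ring
  have hz : |k - k'| * R ≤ 0 := by
    have hlim : Tendsto (fun c : ℝ => c * C) (𝓝[>] 0) (𝓝 0) := by
      have : Tendsto (fun c : ℝ => c * C) (𝓝 0) (𝓝 (0 * C)) :=
        (continuous_id.mul continuous_const).tendsto 0
      rw [zero_mul] at this
      exact this.mono_left nhdsWithin_le_nhds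
    apply ge_of_tendsto hlim
    filter_upwards [Ioo_mem_nhdsGT hδ] with c hc
    exact key c hc.1 hc.2
  have h1 : |k - k'| ≤ 0 := by
    by_contra hcon
    push Not at hcon
    have := mul_pos hcon hR
    linarith
  have h2 : k - k' = 0 := abs_eq_zero.1 (le_antisymm h1 (abs_nonneg _))
  linarith

theorem kap_eq {x u : Pl} {k : ℝ} (hxM : x ∈ M) (hu : u ≠ 0)
    (hk : Perp M d x (J u + k • u) u) : kap M d x u = k :=
  h.kap_unique hxM hu (h.kap_spec hxM hu).1 hk

/-- `κ` is Lipschitz along lines. -/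
theorem kap_lip {x u : Pl} {c R : ℝ} (hR : 0 < R) (hx : Metric.ball x R ⊆ M) (hu : u ≠ 0)
    (hx' : x + c • u ∈ M) :
    |kap M d x u - kap M d (x + c • u) u| * R ≤ |c| * ‖cv M d x u‖ := by
  have hxM : x ∈ M := hx (Metric.mem_ball_self hR)
  by_cases hc : c = 0
  · subst hc
    simp
  · exact h.kap_lip_aux hR hx hu hc hx' (h.kap_spec hxM hu).1 (h.kap_spec hx' hu).1

/-- Uniqueness of perpendiculars, determinant form. -/
theorem perp_unique {x a b v : Pl} (hxM : x ∈ M) (hv : v ≠ 0) (ha : a ≠ 0) (hb : b ≠ 0)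
    (hpa : Perp M d x a v) (hpb : Perp M d x b v) : det2 a b = 0 := by
  have aux : ∀ w : Pl, w ≠ 0 → Perp M d x w v → ∃ c : ℝ, c ≠ 0 ∧ w = c • cv M d x v := by
    intro w hw hp
    have hdet := h.toFPlane.det2_ne_of_perp hxM hw hv hp
    have hJ : det2 v (J v) ≠ 0 := by
      rw [det2_J]
      have : 0 < ‖v‖ := norm_pos_iff.2 hv
      positivity
    have hcr := cramer hJ w
    set α := det2 w (J v) / det2 v (J v) with hα
    set β := det2 v w / det2 v (J v) with hβ
    have hβ0 : β ≠ 0 := by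
      rw [hβ]
      apply div_ne_zero _ hJ
      rw [det2_comm]; exact neg_ne_zero.2 hdet
    have hk : J v + (α / β) • v = β⁻¹ • w := by
      rw [hcr, smul_add, smul_smul, smul_smul, inv_mul_cancel₀ hβ0, one_smul, add_comm]
      congr 2
      field_simp
    have h1 : kap M d x v = α / β := h.kap_eq hxM hv (by rw [hk]; exact perp_smul_left hp)
    refine ⟨β, hβ0, ?_⟩
    unfold cv
    rw [h1, hk, smul_smul, mul_inv_cancel₀ hβ0, one_smul]
  obtain ⟨c1, -, h1⟩ := aux a ha hpa
  obtain ⟨c2, -, h2⟩ := aux b hb hpb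
  rw [h1, h2, det2_smul_left, det2_smul_right, det2_self]
  ring

/-- Conjugation is an involution on directions. -/
theorem cv_cv {x u : Pl} (hxM : x ∈ M) (hu : u ≠ 0) :
    cv M d x (cv M d x u) = (-(‖cv M d x u‖ ^ 2 / ‖u‖ ^ 2)) • u := by
  set V := cv M d x u with hV
  have hVne : V ≠ 0 := cv_ne_zero hu
  have h1 := h.kap_spec hxM hu
  have h2 := h.kap_spec hxM hVne
  have hdet := h.perp_unique hxM hVne hu (cv_ne_zero (M := M) (d := d) (x := x) hVne) h1.2 h2.1
  obtain ⟨c, hc⟩ := parallel_of_det2 hu hdet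
  have h3 : det2 V (cv M d x V) = ‖V‖ ^ 2 := det2_cv x V
  rw [hc, det2_smul_right, det2_comm, hV, det2_cv, ← hV] at h3
  rw [hc]
  congr 1
  have : 0 < ‖u‖ := norm_pos_iff.2 hu
  field_simp
  linarith

theorem kap_smul {x u : Pl} {a : ℝ} (hxM : x ∈ M) (hu : u ≠ 0) (ha : a ≠ 0) :
    kap M d x (a • u) = kap M d x u := by
  apply h.kap_eq hxM (smul_ne_zero ha hu)
  have : J (a • u) + kap M d x u • a • u = a • cv M d x u := by
    unfold cv
    rw [map_smul, smul_add, smul_comm]
  rw [this]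
  exact perp_smul_left (perp_smul_right (h.kap_spec hxM hu).1)

theorem cv_smul {x u : Pl} {a : ℝ} (hxM : x ∈ M) (hu : u ≠ 0) (ha : a ≠ 0) :
    cv M d x (a • u) = a • cv M d x u := by
  unfold cv
  rw [h.kap_smul hxM hu ha, map_smul, smul_add, smul_comm]

/-- Tangential orthogonality. -/
theorem F_le_add_cv {x u : Pl} (hxM : x ∈ M) (hu : u ≠ 0) (s : ℝ) :
    F x u ≤ F x (u + s • cv M d x u) :=
  h.toFPlane.tangent_of_perp hxM (h.kap_spec hxM hu).2 s

theorem F_cv_le_add {x u : Pl} (hxM : x ∈ M) (hu : u ≠ 0) (s : ℝ) :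
    F x (cv M d x u) ≤ F x (cv M d x u + s • u) :=
  h.toFPlane.tangent_of_perp hxM (h.kap_spec hxM hu).1 s

theorem kap_bound {x u : Pl} (hxM : x ∈ M) (hu : u ≠ 0) :
    |kap M d x u| * F x u ≤ 2 * F x (J u) := by
  have hN := h.fin.norm x hxM
  have h1 := h.F_cv_le_add hxM hu (-(kap M d x u))
  have e1 : cv M d x u + -(kap M d x u) • u = J u := by
    unfold cv; rw [neg_smul, add_neg_cancel_right]
  rw [e1] at h1
  have e2 : kap M d x u • u = cv M d x u + -(J u) := by unfold cv; abel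
  have h2 : F x (kap M d x u • u) ≤ F x (cv M d x u) + F x (-(J u)) := by
    rw [e2]; exact hN.add_le _ _
  rw [hN.smul, hN.neg] at h2
  linarith

/-- `κ` is jointly continuous. -/
theorem kap_continuousAt {x u : Pl} (hxM : x ∈ M) (hu : u ≠ 0) :
    ContinuousAt (fun p : Pl × Pl => kap M d p.1 p.2) (x, u) := by
  have hN := h.fin.norm x hxM
  obtain ⟨η, hη, m, hm, Λ, hΛ, hηM, hbd⟩ := h.toFPlane.exists_bounds hxM
  set B := 2 * Λ / m with hB
  have hnear : ∀ᶠ p : Pl × Pl in 𝓝 (x, u), p.1 ∈ Metric.ball x η ∧ p.2 ≠ 0 := by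
    have e1 : ∀ᶠ p : Pl × Pl in 𝓝 (x, u), p.1 ∈ Metric.ball x η :=
      continuous_fst.continuousAt (Metric.ball_mem_nhds x hη)
    have e2 : ∀ᶠ p : Pl × Pl in 𝓝 (x, u), p.2 ≠ 0 :=
      (continuous_snd.continuousAt (x := (x, u))).eventually_ne hu
    exact e1.and e2
  apply (isCompact_Icc (a := -B) (b := B)).tendsto_nhds_of_unique_mapClusterPt
  · filter_upwards [hnear] with p hp
    have hpM := hηM hp.1
    have h1 := h.kap_bound hpM hp.2
    have h2 := (hbd _ hp.1 p.2).1
    have h3 := (hbd _ hp.1 (J p.2)).2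
    rw [norm_J] at h3
    have h4 : 0 < ‖p.2‖ := norm_pos_iff.2 hp.2
    have h5 : |kap M d p.1 p.2| * (m * ‖p.2‖) ≤ 2 * (Λ * ‖p.2‖) := by
      calc |kap M d p.1 p.2| * (m * ‖p.2‖) ≤ |kap M d p.1 p.2| * F p.1 p.2 := by gcongr
        _ ≤ 2 * F p.1 (J p.2) := h1
        _ ≤ 2 * (Λ * ‖p.2‖) := by gcongr
    have h6 : |kap M d p.1 p.2| ≤ B := by
      rw [hB, le_div_iff₀ hm]
      have : (|kap M d p.1 p.2| * m) * ‖p.2‖ ≤ (2 * Λ) * ‖p.2‖ := by linarith
      exact le_of_mul_le_mul_right this h4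
    exact abs_le.1 h6
  · intro k _ hk
    apply (h.kap_eq hxM hu _).symm
    intro s t hs ht
    by_contra hcon
    push Not at hcon
    -- the function is continuous
    set Θ : (Pl × Pl) × ℝ → ℝ := fun q =>
      d (q.1.1 + s • (J q.1.2 + q.2 • q.1.2)) q.1.1 -
      d (q.1.1 + s • (J q.1.2 + q.2 • q.1.2)) (q.1.1 + t • q.1.2) with hΘ
    have hc1 : ContinuousAt (fun q : (Pl × Pl) × ℝ => q.1.1 + s • (J q.1.2 + q.2 • q.1.2))
        ((x, u), k) := by fun_prop
    have hc2 : ContinuousAt (fun q : (Pl × Pl) × ℝ => q.1.1 + t • q.1.2) ((x, u), k) := by fun_prop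
    have hc3 : ContinuousAt (fun q : (Pl × Pl) × ℝ => q.1.1) ((x, u), k) := by fun_prop
    have hd1 : ContinuousAt (fun q : (Pl × Pl) × ℝ =>
        d (q.1.1 + s • (J q.1.2 + q.2 • q.1.2)) q.1.1) ((x, u), k) :=
      ContinuousAt.comp (g := fun p : Pl × Pl => d p.1 p.2)
        (f := fun q : (Pl × Pl) × ℝ => (q.1.1 + s • (J q.1.2 + q.2 • q.1.2), q.1.1))
        (h.pm.continuousAt_uncurry hs hxM) (hc1.prodMk hc3)
    have hd2 : ContinuousAt (fun q : (Pl × Pl) × ℝ =>
        d (q.1.1 + s • (J q.1.2 + q.2 • q.1.2)) (q.1.1 + t • q.1.2)) ((x, u), k) :=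
      ContinuousAt.comp (g := fun p : Pl × Pl => d p.1 p.2)
        (f := fun q : (Pl × Pl) × ℝ => (q.1.1 + s • (J q.1.2 + q.2 • q.1.2), q.1.1 + t • q.1.2))
        (h.pm.continuousAt_uncurry hs ht) (hc1.prodMk hc2)
    have hΘc : ContinuousAt Θ ((x, u), k) := hd1.sub hd2
    have hΘpos : 0 < Θ ((x, u), k) := by
      simp only [hΘ]; linarith
    have ev1 : ∀ᶠ q : (Pl × Pl) × ℝ in 𝓝 ((x, u), k), 0 < Θ q ∧
        q.1.1 + s • (J q.1.2 + q.2 • q.1.2) ∈ M ∧ q.1.1 + t • q.1.2 ∈ M ∧ q.1.1 ∈ M ∧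
        q.1.2 ≠ 0 := by
      have hc4 : ContinuousAt (fun q : (Pl × Pl) × ℝ => q.1.2) ((x, u), k) := by fun_prop
      exact (hΘc.eventually (lt_mem_nhds hΘpos)).and
        ((hc1.eventually (h.toFPlane.isOpen.mem_nhds hs)).and
        ((hc2.eventually (h.toFPlane.isOpen.mem_nhds ht)).and
        ((hc3.eventually (h.toFPlane.isOpen.mem_nhds hxM)).and (hc4.eventually_ne hu))))
    rw [nhds_prod_eq] at ev1
    obtain ⟨pa, hpa, pb, hpb, hab⟩ := eventually_prod_iff.1 ev1
    have hfreq := (mapClusterPt_iff_frequently.1 hk) {k' | pb k'} hpb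
    obtain ⟨q, hq1, hq2⟩ := (hfreq.and_eventually hpa).exists
    obtain ⟨g1, g2, g3, g4, g5⟩ := hab hq2 hq1
    have := (h.kap_spec g4 g5).1 s t g2 g3
    simp only [hΘ] at g1
    unfold cv at this
    linarith

theorem cv_continuousAt {x u : Pl} (hxM : x ∈ M) (hu : u ≠ 0) :
    ContinuousAt (fun p : Pl × Pl => cv M d p.1 p.2) (x, u) := by
  unfold cv
  have h1 := h.kap_continuousAt hxM hu
  have h2 : ContinuousAt (fun p : Pl × Pl => J p.2) (x, u) := by fun_prop
  exact h2.add (h1.smul continuousAt_snd)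

end PPlane

end Pool.Agent.Lib_1de93e
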