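import Mathlib

/-!
# Finslerian projective-metric planes: definitions

The affine plane is `Pl = EuclideanSpace ℝ (Fin 2)`; its Euclidean structure is only used as
the auxiliary (usual) topology.
-/

namespace Pool.Agent.Lib_1de93e

open Set MeasureTheory

/-- The affine plane. -/
abbrev Pl := EuclideanSpace ℝ (Fin 2)

/-- `N` is a norm on the plane. -/
structure IsNorm (N : Pl → ℝ) : Prop where
  pos : ∀ u, u ≠ 0 → 0 < N u
  smul : ∀ (r : ℝ) u, N (r • u) = |r| * N u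
  add_le : ∀ u v, N (u + v) ≤ N u + N v

/-- `N` is a Euclidean norm, i.e. it comes from a symmetric bilinear form. -/
def IsEuclidean (N : Pl → ℝ) : Prop :=
  ∃ B : Pl →ₗ[ℝ] Pl →ₗ[ℝ] ℝ, (∀ u v, B u v = B v u) ∧ ∀ u, N u ^ 2 = B u u

/-- `F` is a Finsler function on `M`: continuous on the tangent bundle, each `F P` a norm. -/
structure IsFinsler (M : Set Pl) (F : Pl → Pl → ℝ) : Prop where
  cont : ContinuousOn (fun p : Pl × Pl => F p.1 p.2) (M ×ˢ univ)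
  norm : ∀ P ∈ M, IsNorm (F P)

/-- `d` is the length metric of `F` on `M`: `d P Q` is the infimum of the lengths
`∫ F(γ, γ')` of the `C¹` curves `γ` in `M` from `P` to `Q`. -/
def IsLengthMetric (M : Set Pl) (F : Pl → Pl → ℝ) (d : Pl → Pl → ℝ) : Prop :=
  ∀ P ∈ M, ∀ Q ∈ M, IsGLB {L : ℝ | ∃ γ : ℝ → Pl, ContDiff ℝ 1 γ ∧
    (∀ t ∈ Icc (0:ℝ) 1, γ t ∈ M) ∧ γ 0 = P ∧ γ 1 = Q ∧
    L = ∫ t in (0:ℝ)..1, F (γ t) (deriv γ t)} (d P Q)

/-- `(M, d)` is a projective-metric plane (type (i)): `M` is an open convex set of the affine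
plane, `d` is a metric on `M` inducing the usual topology, and `d A B + d B C = d A C` holds
exactly when `B` lies on the closed segment from `A` to `C`. -/
structure IsProjectiveMetric (M : Set Pl) (d : Pl → Pl → ℝ) : Prop where
  isOpen : IsOpen M
  convex : Convex ℝ M
  nonempty : M.Nonempty
  eq_zero_iff : ∀ P ∈ M, ∀ Q ∈ M, (d P Q = 0 ↔ P = Q)
  symm : ∀ P ∈ M, ∀ Q ∈ M, d P Q = d Q P
  triangle : ∀ P ∈ M, ∀ Q ∈ M, ∀ R ∈ M, d P R ≤ d P Q + d Q R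
  topo₁ : ∀ P ∈ M, ∀ ε > 0, ∃ δ > 0, ∀ Q ∈ M, dist P Q < δ → d P Q < ε
  topo₂ : ∀ P ∈ M, ∀ ε > 0, ∃ δ > 0, ∀ Q ∈ M, d P Q < δ → dist P Q < ε
  geodesic : ∀ A ∈ M, ∀ B ∈ M, ∀ C ∈ M, (d A B + d B C = d A C ↔ B ∈ segment ℝ A C)

/-- The metric space `(M, d)` is complete. -/
def IsCompleteMetric (M : Set Pl) (d : Pl → Pl → ℝ) : Prop :=
  ∀ x : ℕ → Pl, (∀ n, x n ∈ M) →
    (∀ ε > 0, ∃ n₀, ∀ m ≥ n₀, ∀ n ≥ n₀, d (x m) (x n) < ε) →
    ∃ y ∈ M, ∀ ε > 0, ∃ n₀, ∀ n ≥ n₀, d (x n) y < ε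

/-- Perpendicularity: the line `g` through `O` with direction `u` is perpendicular to the line
`h` through `O` with direction `v`, i.e. `d X O ≤ d X Y` for all `X ∈ g`, `Y ∈ h`. -/
def Perp (M : Set Pl) (d : Pl → Pl → ℝ) (O u v : Pl) : Prop :=
  ∀ s t : ℝ, O + s • u ∈ M → O + t • v ∈ M → d (O + s • u) O ≤ d (O + s • u) (O + t • v)

/-- Perpendicularity of lines is symmetric. -/
def SymmetricPerp (M : Set Pl) (d : Pl → Pl → ℝ) : Prop :=
  ∀ O ∈ M, ∀ u v : Pl, LinearIndependent ℝ ![u, v] → Perp M d O u v → Perp M d O v u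

/-- `(M, d)` is isometric to a Minkowski (normed) plane. -/
def IsMinkowskiPlane (M : Set Pl) (d : Pl → Pl → ℝ) : Prop :=
  ∃ N : Pl → ℝ, IsNorm N ∧ ∃ Φ : Pl → Pl, BijOn Φ M univ ∧
    ∀ P ∈ M, ∀ Q ∈ M, N (Φ P - Φ Q) = d P Q

/-- `(M, d)` is Riemannian: it is the length metric of a Finsler function all of whose norms
are Euclidean. -/
def IsRiemannian (M : Set Pl) (d : Pl → Pl → ℝ) : Prop :=
  ∃ F : Pl → Pl → ℝ, IsFinsler M F ∧ IsLengthMetric M F d ∧ ∀ P ∈ M, IsEuclidean (F P)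

end Pool.Agent.Lib_1de93e
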