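import Mathlib
import Pool.Agent.Lib_1de93e.Defs

/-!
# Lipschitz functions with vanishing line derivative are constant along the lines
-/

namespace Pool.Agent.Lib_1de93e

open Set MeasureTheory Filter Topology
open scoped NNReal

theorem const_of_lineDeriv_zero {g : Pl → ℝ} {C : ℝ≥0} {B : Set Pl} (hBo : IsOpen B)
    (hBc : Convex ℝ B) (hg : LipschitzOnWith C g B) {u : Pl}
    (hae : ∀ᵐ x ∂(volume : Measure Pl), x ∈ B → HasLineDerivAt ℝ g 0 x u) {x : Pl} {s : ℝ}
    (hs : 0 ≤ s) (hx : x ∈ B) (hxs : x + s • u ∈ B) : g (x + s • u) = g x := by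
  obtain ⟨f, hf, hfg⟩ := hg.extend_real
  -- line derivative of the extension
  have hfae : ∀ᵐ x ∂(volume : Measure Pl), x ∈ B → HasLineDerivAt ℝ f 0 x u := by
    filter_upwards [hae] with y hy hyB
    have h1 := hy hyB
    unfold HasLineDerivAt at h1 ⊢
    apply h1.congr_of_eventuallyEq
    have hc : ContinuousAt (fun t : ℝ => y + t • u) 0 := by fun_prop
    have h2 : ∀ᶠ t : ℝ in 𝓝 0, y + t • u ∈ B := by
      apply hc.eventually
      simp only [zero_smul, add_zero]
      exact hBo.mem_nhds hyB
    filter_upwards [h2] with t ht
    exact (hfg ht).symm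
  obtain ⟨ρ₁, hρ₁, hb1⟩ := Metric.isOpen_iff.1 hBo x hx
  obtain ⟨ρ₂, hρ₂, hb2⟩ := Metric.isOpen_iff.1 hBo _ hxs
  set ρ := min ρ₁ ρ₂ with hρ
  have hρpos : 0 < ρ := lt_min hρ₁ hρ₂
  have htube : ∀ y ∈ Metric.ball x ρ, ∀ τ ∈ Icc (0:ℝ) s, y + τ • u ∈ B := by
    intro y hy τ hτ
    have h1 : y ∈ B := hb1 (Metric.ball_subset_ball (min_le_left _ _) hy)
    have h2 : y + s • u ∈ B := by
      apply hb2
      rw [Metric.mem_ball, dist_eq_norm] at hy ⊢
      have e : y + s • u - (x + s • u) = y - x := by abel
      rw [e]
      exact hy.trans_le (min_le_right _ _)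
    rcases hs.eq_or_lt with h0 | h0
    · have : τ = 0 := le_antisymm (by rw [h0]; exact hτ.2) hτ.1
      rw [this, zero_smul, add_zero]
      exact h1
    · apply hBc.segment_subset h1 h2
      rw [segment_eq_image']
      refine ⟨τ / s, ⟨by have := hτ.1; positivity, by rw [div_le_one h0]; exact hτ.2⟩, ?_⟩
      simp only
      rw [add_sub_cancel_left, smul_smul, div_mul_cancel₀ _ h0.ne']
  have key : ∀ᵐ y ∂(volume : Measure Pl), y ∈ Metric.ball x ρ → f (y + s • u) - f y = 0 := by
    apply IsOpen.ae_eq_zero_of_integral_contDiff_smul_eq_zero Metric.isOpen_ball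
    · apply ContinuousOn.locallyIntegrableOn _ measurableSet_ball
      have := hf.continuous
      fun_prop
    · intro χ hχ hχc hχs
      have hχint : Integrable χ := hχ.continuous.integrable_of_hasCompactSupport hχc
      set Jf : ℝ → ℝ := fun τ => ∫ y, f (y + τ • u) * χ y with hJf
      have hint : ∀ τ : ℝ, Integrable (fun y => f (y + τ • u) * χ y) := by
        intro τ
        apply Continuous.integrable_of_hasCompactSupport
        · have := hf.continuous
          have := hχ.continuous
          fun_prop
        · exact hχc.mul_left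
      -- Lipschitz continuity of J
      have hJlip : ∀ τ τ' : ℝ, |Jf τ - Jf τ'| ≤ (C * ‖u‖ * ∫ y, |χ y|) * |τ - τ'| := by
        intro τ τ'
        simp only [hJf]
        rw [← integral_sub (hint τ) (hint τ')]
        have h1 : ∀ y, ‖f (y + τ • u) * χ y - f (y + τ' • u) * χ y‖ ≤
            (C * ‖u‖ * |τ - τ'|) * |χ y| := by
          intro y
          rw [← sub_mul, norm_mul, Real.norm_eq_abs (χ y)]
          gcongr
          have h2 := hf.dist_le_mul (y + τ • u) (y + τ' • u)
          rw [dist_eq_norm, dist_eq_norm] at h2
          have e : y + τ • u - (y + τ' • u) = (τ - τ') • u := by rw [sub_smul]; abel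
          rw [e, norm_smul, Real.norm_eq_abs (τ - τ')] at h2
          linarith
        calc |∫ y, (f (y + τ • u) * χ y - f (y + τ' • u) * χ y)|
            ≤ ∫ y, (C * ‖u‖ * |τ - τ'|) * |χ y| := by
              rw [← Real.norm_eq_abs]
              exact norm_integral_le_of_norm_le (hχint.abs.const_mul _) (ae_of_all _ h1)
          _ = (C * ‖u‖ * ∫ y, |χ y|) * |τ - τ'| := by
              rw [integral_const_mul]; ring
      have hJcont : Continuous Jf := by
        rw [Metric.continuous_iff]
        intro τ ε hε
        set A := (C * ‖u‖ * ∫ y, |χ y|) with hA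
        have hA0 : 0 ≤ A := by
          have : 0 ≤ ∫ y, |χ y| := integral_nonneg (fun y => abs_nonneg _)
          positivity
        refine ⟨ε / (A + 1), by positivity, fun τ' hτ' => ?_⟩
        rw [Real.dist_eq] at hτ' ⊢
        have h1 := hJlip τ' τ
        rw [lt_div_iff₀ (by positivity)] at hτ'
        nlinarith [abs_nonneg (τ' - τ)]
      have hJder : ∀ τ ∈ Ico (0:ℝ) s, HasDerivWithinAt Jf 0 (Ici τ) τ := by
        intro τ hτ
        set fτ : Pl → ℝ := fun y => f (y + τ • u) with hfτ
        have hfτl : LipschitzWith C fτ := by
          apply LipschitzWith.of_dist_le_mul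
          intro a b
          have := hf.dist_le_mul (a + τ • u) (b + τ • u)
          rwa [dist_add_right] at this
        have h1 := hfτl.integral_inv_smul_sub_mul_tendsto_integral_lineDeriv_mul hχint u
        have h2 : ∫ y, lineDeriv ℝ fτ y u * χ y = 0 := by
          apply integral_eq_zero_of_ae
          have hshift : ∀ᵐ y ∂(volume : Measure Pl), y + τ • u ∈ B →
              HasLineDerivAt ℝ f 0 (y + τ • u) u :=
            (measurePreserving_add_right (volume : Measure Pl) (τ • u)).quasiMeasurePreserving.ae
              hfae
          filter_upwards [hshift] with y hy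
          simp only [Pi.zero_apply, mul_eq_zero]
          by_cases hyx : y ∈ Metric.ball x ρ
          · left
            have h3 := hy (htube y hyx τ ⟨hτ.1, hτ.2.le⟩)
            have h4 : HasLineDerivAt ℝ fτ 0 y u := by
              unfold HasLineDerivAt at h3 ⊢
              have e : (fun t : ℝ => fτ (y + t • u)) = fun t => f (y + τ • u + t • u) := by
                funext t
                simp only [hfτ]
                congr 1
                abel
              rw [e]
              exact h3
            exact h4.lineDeriv
          · right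
            by_contra hne
            exact hyx (hχs (subset_tsupport _ (Function.mem_support.2 hne)))
        rw [h2] at h1
        rw [← hasDerivWithinAt_Ioi_iff_Ici, hasDerivWithinAt_iff_tendsto_slope' self_notMem_Ioi]
        have h3 : Tendsto (fun y : ℝ => y - τ) (𝓝[>] τ) (𝓝[>] 0) := by
          apply tendsto_nhdsWithin_of_tendsto_nhds_of_eventually_within
          · have : Tendsto (fun y : ℝ => y - τ) (𝓝 τ) (𝓝 (τ - τ)) :=
              (continuous_id.sub continuous_const).tendsto τ
            rw [sub_self] at this
            exact this.mono_left nhdsWithin_le_nhds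
          · filter_upwards [self_mem_nhdsWithin] with y hy
            exact sub_pos.2 (mem_Ioi.1 hy)
        have h4 := h1.comp h3
        apply h4.congr
        intro y
        simp only [Function.comp_apply]
        have e : ∀ z : Pl, ((y - τ)⁻¹ • (fτ (z + (y - τ) • u) - fτ z)) * χ z =
            (y - τ)⁻¹ * (f (z + y • u) * χ z - f (z + τ • u) * χ z) := by
          intro z
          simp only [hfτ]
          have e1 : z + (y - τ) • u + τ • u = z + y • u := by rw [sub_smul]; abel
          rw [e1, smul_eq_mul]
          ring
        simp_rw [e]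
        rw [integral_const_mul, integral_sub (hint y) (hint τ), slope_def_module]
        rfl
      have hJs : Jf s = Jf 0 :=
        constant_of_has_deriv_right_zero hJcont.continuousOn hJder s ⟨hs, le_rfl⟩
      have e : ∀ y : Pl, χ y • (f (y + s • u) - f y) = f (y + s • u) * χ y - f (y + (0:ℝ) • u) * χ y := by
        intro y
        rw [zero_smul, add_zero, smul_eq_mul]; ring
      simp_rw [e]
      rw [integral_sub (hint s) (hint 0)]
      exact sub_eq_zero.2 hJs
  have hEq : EqOn (fun y => f (y + s • u) - f y) (fun _ => 0) (Metric.ball x ρ) := by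
    apply Measure.eqOn_open_of_ae_eq (μ := (volume : Measure Pl)) _ Metric.isOpen_ball
    · have := hf.continuous
      fun_prop
    · exact continuousOn_const
    · rw [Filter.EventuallyEq, ae_restrict_iff' measurableSet_ball]
      exact key
  have h1 := hEq (Metric.mem_ball_self hρpos)
  simp only at h1
  have h2 : g (x + s • u) = f (x + s • u) := hfg hxs
  have h3 : g x = f x := hfg hx
  rw [h2, h3]
  linarith

end Pool.Agent.Lib_1de93e
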