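import Pool.Agent.Lib_1de93e.Grad

/-!
# PART R: the quadratic-type equation on a Radon curve has only the trivial solution

`N` is a Radon norm of class `C¹` with conjugate vectors `V u = J u + k u • u`; `Q` is an odd
positively homogeneous function of class `C¹` off the origin with `dQ u (V u) = -2 Q (V u)`.
Then `Q = 0`.
-/

namespace Pool.Agent.Lib_1de93e

open Set MeasureTheory Filter Topology

namespace Rigid

/-- The conjugate vector. -/
noncomputable def vv (k : Pl → ℝ) (u : Pl) : Pl := J u + k u • u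

/-- The normalised conjugate vector. -/
noncomputable def xi (N k : Pl → ℝ) (u : Pl) : Pl := (N (vv k u))⁻¹ • vv k u

/-- The hypotheses on the norm. -/
structure Rad (N k : Pl → ℝ) (c : ℝ) : Prop where
  hN : IsNorm N
  hc : 0 < c
  hk : ContinuousOn k {0}ᶜ
  hdN : ∀ u, u ≠ 0 → HasFDerivAt N ((N u / ‖u‖ ^ 2) • detL (J u + k u • u)) u
  hrad : ∀ u, u ≠ 0 → N u * N (J u + k u • u) = c * ‖u‖ ^ 2
  hinv : ∀ u, u ≠ 0 → ∃ a : ℝ, J (vv k u) + k (vv k u) • (vv k u) = a • u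

/-- The hypotheses on `Q`. -/
structure Sol (k : Pl → ℝ) (Q : Pl → ℝ) (dQ : Pl → Pl →L[ℝ] ℝ) : Prop where
  hQ : ∀ (a : ℝ) u, Q (a • u) = a * Q u
  hdQ : ∀ u, u ≠ 0 → HasFDerivAt Q (dQ u) u
  hdQc : ContinuousOn dQ {0}ᶜ
  heq : ∀ u, u ≠ 0 → dQ u (J u + k u • u) = -2 * Q (J u + k u • u)

variable {N k : Pl → ℝ} {c : ℝ}

theorem det2_vv (u : Pl) : det2 u (vv k u) = ‖u‖ ^ 2 := by
  unfold vv
  rw [det2_add_right, det2_smul_right, det2_self, det2_J]; ring

theorem vv_ne_zero {u : Pl} (hu : u ≠ 0) : vv k u ≠ 0 := by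
  intro h
  have h1 := det2_vv (k := k) u
  rw [h] at h1
  have : ‖u‖ ^ 2 = 0 := by rw [← h1]; unfold det2; simp
  exact hu (norm_eq_zero.1 (by simpa using this))

namespace Rad

variable (h : Rad N k c)

include h

theorem N_vv_pos {u : Pl} (hu : u ≠ 0) : 0 < N (vv k u) := h.hN.pos _ (vv_ne_zero hu)

theorem N_xi {u : Pl} (hu : u ≠ 0) : N (xi N k u) = 1 := by
  unfold xi
  rw [h.hN.smul_nonneg (inv_nonneg.2 (h.N_vv_pos hu).le), inv_mul_cancel₀ (h.N_vv_pos hu).ne']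

theorem xi_ne_zero {u : Pl} (hu : u ≠ 0) : xi N k u ≠ 0 := by
  intro h0
  have := h.N_xi hu
  rw [h0, h.hN.zero] at this
  exact zero_ne_one this

theorem rad' {u : Pl} (hu : u ≠ 0) : N u * N (vv k u) = c * ‖u‖ ^ 2 := h.hrad u hu

theorem det2_xi {u : Pl} (hu : u ≠ 0) : det2 u (xi N k u) = N u / c := by
  unfold xi
  rw [det2_smul_right, det2_vv]
  have h1 := h.rad' hu
  have h2 := (h.N_vv_pos hu).ne'
  have h3 := h.hc.ne'
  field_simp
  linarith

theorem dN {u : Pl} (hu : u ≠ 0) : HasFDerivAt N (c • detL (xi N k u)) u := by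
  have h1 := h.hdN u hu
  convert h1 using 1
  ext w
  simp only [smul_apply, detL_apply, smul_eq_mul]
  change c * det2 w (xi N k u) = N u / ‖u‖ ^ 2 * det2 w (vv k u)
  unfold xi
  rw [det2_smul_right]
  have h1 := h.rad' hu
  have h2 := (h.N_vv_pos hu).ne'
  have h3 := h.hc.ne'
  have h4 : ‖u‖ ≠ 0 := norm_ne_zero_iff.2 hu
  field_simp
  linear_combination (-(det2 w (vv k u))) * h1

theorem dN_line {u w : Pl} (hu : u ≠ 0) :
    HasDerivAt (fun t : ℝ => N (u + t • w)) (c * det2 w (xi N k u)) 0 := by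
  have h1 : HasDerivAt (fun t : ℝ => u + t • w) w 0 := by
    have := ((hasDerivAt_id (0:ℝ)).smul_const w).const_add u
    simpa using this
  have h2 : HasFDerivAt N (c • detL (xi N k u)) (u + (0:ℝ) • w) := by
    rw [zero_smul, add_zero]; exact h.dN hu
  have h3 := h2.comp_hasDerivAt (0:ℝ) h1
  have e : (c • detL (xi N k u)) w = c * det2 w (xi N k u) := by
    simp only [smul_apply, detL_apply, smul_eq_mul]
  rw [e] at h3
  exact h3

theorem sub_le {u : Pl} (hu : u ≠ 0) (w : Pl) : c * det2 w (xi N k u) ≤ N w := by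
  have h1 := h.dN_line (w := w) hu
  have h2 : Tendsto (fun t : ℝ => t⁻¹ * (N (u + t • w) - N u)) (𝓝[>] 0)
      (𝓝 (c * det2 w (xi N k u))) := by
    have := h1.tendsto_slope_zero_right
    simpa using this
  apply le_of_tendsto h2
  filter_upwards [self_mem_nhdsWithin] with t ht
  have ht' : (0:ℝ) < t := ht
  rw [inv_mul_le_iff₀ ht']
  have := h.hN.add_le u (t • w)
  rw [h.hN.smul_nonneg ht'.le] at this
  linarith

theorem xi_smul {u : Pl} {r : ℝ} (hu : u ≠ 0) (hr : 0 < r) : xi N k (r • u) = xi N k u := by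
  have hru : r • u ≠ 0 := smul_ne_zero hr.ne' hu
  have key : ∀ w, det2 w (xi N k (r • u)) = det2 w (xi N k u) := by
    intro w
    have h1 := h.dN_line (w := r • w) hru
    have h2 := (h.dN_line (w := w) hu).const_mul r
    have e : (fun t : ℝ => N (r • u + t • r • w)) = fun t : ℝ => r * N (u + t • w) := by
      funext t
      rw [smul_comm t r w, ← smul_add, h.hN.smul_nonneg hr.le]
    rw [e] at h1
    have h3 := h1.unique h2
    rw [det2_smul_left] at h3
    have h4 : r * (c * det2 w (xi N k (r • u))) = r * (c * det2 w (xi N k u)) := by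
      rw [← h3]; ring
    exact mul_left_cancel₀ h.hc.ne' (mul_left_cancel₀ hr.ne' h4)
  apply pl_ext
  · have := key (!₂[(0:ℝ), 1])
    simp [det2] at this
    linarith
  · have := key (!₂[(1:ℝ), 0])
    simp [det2] at this
    linarith

theorem xi_xi {u : Pl} (hu : u ≠ 0) : xi N k (xi N k u) = -((N u)⁻¹ • u) := by
  have hV := vv_ne_zero (k := k) hu
  have hpos := h.N_vv_pos hu
  have e1 : xi N k (xi N k u) = xi N k (vv k u) := by
    conv_lhs => rw [show xi N k u = (N (vv k u))⁻¹ • vv k u from rfl]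
    exact h.xi_smul hV (inv_pos.2 hpos)
  rw [e1]
  obtain ⟨a, ha⟩ := h.hinv u hu
  have ha' : vv k (vv k u) = a • u := ha
  have hNu := h.hN.pos u hu
  have h2 := h.det2_xi hV
  have e2 : xi N k (vv k u) = ((|a| * N u)⁻¹ * a) • u := by
    unfold xi
    rw [ha', h.hN.smul, smul_smul]
  have h3 : det2 (vv k u) (vv k (vv k u)) = ‖vv k u‖ ^ 2 := det2_vv _
  rw [ha', det2_smul_right, det2_comm, det2_vv] at h3
  have hn1 : 0 < ‖u‖ := norm_pos_iff.2 hu
  have hn2 : 0 < ‖vv k u‖ := norm_pos_iff.2 hV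
  have hneg : a < 0 := by
    by_contra hcon
    have : 0 ≤ a := not_lt.1 hcon
    have h4 : 0 < ‖vv k u‖ ^ 2 := by positivity
    have h5 : a * -‖u‖ ^ 2 ≤ 0 := by nlinarith [sq_nonneg ‖u‖]
    linarith
  rw [e2, abs_of_neg hneg, ← neg_smul]
  congr 1
  have := hneg.ne
  field_simp

theorem xi_continuousAt {u : Pl} (hu : u ≠ 0) : ContinuousAt (xi N k) u := by
  have h1 : ContinuousAt k u := h.hk.continuousAt (isOpen_compl_singleton.mem_nhds hu)
  have h2 : ContinuousAt (vv k) u := by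
    unfold vv
    exact (J.continuous.continuousAt).add (h1.smul continuousAt_id)
  have h3 : ContinuousAt (fun v => N (vv k v)) u := by
    have h4 : ContinuousAt N (vv k u) := (h.hdN _ (vv_ne_zero hu)).continuousAt
    exact ContinuousAt.comp (g := N) (f := vv k) h4 h2
  unfold xi
  exact (h3.inv₀ (h.N_vv_pos hu).ne').smul h2

end Rad

variable {Q : Pl → ℝ} {dQ : Pl → Pl →L[ℝ] ℝ}

namespace Sol

theorem dQ_xi (h : Rad N k c) (s : Sol k Q dQ) {u : Pl} (hu : u ≠ 0) :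
    dQ u (xi N k u) = -2 * Q (xi N k u) := by
  unfold xi
  rw [map_smul, s.hQ, smul_eq_mul]
  have := s.heq u hu
  change dQ u (vv k u) = -2 * Q (vv k u) at this
  rw [this]; ring

theorem dQ_xi' (h : Rad N k c) (s : Sol k Q dQ) {u : Pl} (hu : u ≠ 0) :
    dQ (xi N k u) u = -2 * Q u := by
  have h1 := s.dQ_xi h (h.xi_ne_zero hu)
  rw [h.xi_xi hu, ← neg_smul, map_smul, s.hQ, smul_eq_mul] at h1
  have := (h.hN.pos u hu).ne'
  have h2 : -(N u)⁻¹ ≠ 0 := neg_ne_zero.2 (inv_ne_zero this)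
  apply mul_left_cancel₀ h2
  rw [h1]; ring

theorem line (s : Sol k Q dQ) {u w : Pl} (hu : u ≠ 0) :
    HasDerivAt (fun t : ℝ => Q (u + t • w)) (dQ u w) 0 := by
  have h1 : HasDerivAt (fun t : ℝ => u + t • w) w 0 := by
    have := ((hasDerivAt_id (0:ℝ)).smul_const w).const_add u
    simpa using this
  have h2 : HasFDerivAt Q (dQ u) (u + (0:ℝ) • w) := by
    rw [zero_smul, add_zero]; exact s.hdQ u hu
  exact h2.comp_hasDerivAt (0:ℝ) h1

theorem dQ_self (s : Sol k Q dQ) {u : Pl} (hu : u ≠ 0) : dQ u u = Q u := by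
  have h1 := s.line (w := u) hu
  have h2 : HasDerivAt (fun t : ℝ => (1 + t) * Q u) (Q u) 0 := by
    have := ((hasDerivAt_id (0:ℝ)).const_add 1).mul_const (Q u)
    simpa using this
  have h3 : (fun t : ℝ => Q (u + t • u)) = (fun t : ℝ => (1 + t) * Q u) := by
    funext t
    have e : u + t • u = (1 + t) • u := by rw [add_smul, one_smul]
    rw [e, s.hQ]
  rw [h3] at h1
  exact h1.unique h2

theorem zero (s : Sol k Q dQ) : Q 0 = 0 := by
  have := s.hQ 0 0
  simpa using this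

theorem neg (s : Sol k Q dQ) (u : Pl) : Q (-u) = -Q u := by
  have := s.hQ (-1) u
  simpa using this

end Sol

section Path

variable {b w : Pl}

theorem det2_w_Y (hbw : det2 w b = 1 / c) (t : ℝ) : det2 w (b + t • w) = 1 / c := by
  rw [det2_add_right, det2_smul_right, det2_self, hbw]; ring

theorem Y_ne (hc : 0 < c) (hbw : det2 w b = 1 / c) (t : ℝ) : b + t • w ≠ 0 := by
  intro h0
  have h1 := det2_w_Y hbw t
  rw [h0] at h1
  have h2 : det2 w 0 = 0 := by simp [det2]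
  rw [h2] at h1
  have : 0 < 1 / c := by positivity
  linarith

theorem hasDerivAt_Y (b w : Pl) (t : ℝ) : HasDerivAt (fun t : ℝ => b + t • w) w t := by
  have := ((hasDerivAt_id t).smul_const w).const_add b
  simpa using this

theorem Rad.hasDerivAt_f (h : Rad N k c) (hbw : det2 w b = 1 / c) (t : ℝ) :
    HasDerivAt (fun t : ℝ => N (b + t • w)) (c * det2 w (xi N k (b + t • w))) t := by
  have h2 := (h.dN (Y_ne h.hc hbw t)).comp_hasDerivAt t (hasDerivAt_Y b w t)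
  have e : (c • detL (xi N k (b + t • w))) w = c * det2 w (xi N k (b + t • w)) := by
    simp only [smul_apply, detL_apply, smul_eq_mul]
  rw [e] at h2
  exact h2

theorem Sol.hasDerivAt_r (s : Sol k Q dQ) (hc : 0 < c) (hbw : det2 w b = 1 / c) (t : ℝ) :
    HasDerivAt (fun t : ℝ => Q (b + t • w)) (dQ (b + t • w) w) t :=
  (s.hdQ _ (Y_ne hc hbw t)).comp_hasDerivAt t (hasDerivAt_Y b w t)

theorem Sol.formula (h : Rad N k c) (s : Sol k Q dQ) (hbw : det2 w b = 1 / c) (t : ℝ) :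
    N (b + t • w) * dQ (b + t • w) w =
      c * det2 w (xi N k (b + t • w)) * Q (b + t • w) + 2 * Q (xi N k (b + t • w)) := by
  have hY := Y_ne h.hc hbw t
  have hwY := det2_w_Y hbw t
  obtain ⟨Y, hYd⟩ : ∃ Y, Y = b + t • w := ⟨_, rfl⟩
  rw [← hYd] at hY hwY ⊢
  have hNY := h.hN.pos Y hY
  have hc := h.hc
  have h1 := h.det2_xi hY
  have hne : det2 Y (xi N k Y) ≠ 0 := by rw [h1]; positivity
  have hcr := cramer hne w
  have e : dQ Y w = (det2 w (xi N k Y) / det2 Y (xi N k Y)) * dQ Y Y +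
      (det2 Y w / det2 Y (xi N k Y)) * dQ Y (xi N k Y) := by
    conv_lhs => rw [hcr]
    rw [map_add, map_smul, map_smul, smul_eq_mul, smul_eq_mul]
  rw [e, s.dQ_self hY, s.dQ_xi h hY, h1, det2_comm Y w, hwY]
  have := hc.ne'
  have := hNY.ne'
  field_simp

theorem Rad.det2_le (h : Rad N k c) {y z : Pl} (hy : y ≠ 0) (hz : z ≠ 0) :
    det2 y (xi N k z) ≤ det2 y (xi N k y) := by
  have h1 := h.sub_le (h.xi_ne_zero hy) (xi N k z)
  rw [h.N_xi hz, h.xi_xi hy, det2_neg_right, det2_smul_right, det2_comm] at h1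
  rw [h.det2_xi hy]
  have hc := h.hc
  have hNy := h.hN.pos y hy
  rw [le_div_iff₀ hc]
  have h2 : c * -((N y)⁻¹ * -det2 y (xi N k z)) = (N y)⁻¹ * (det2 y (xi N k z) * c) := by ring
  rw [h2, inv_mul_le_iff₀ hNy] at h1
  linarith

theorem Rad.chord (h : Rad N k c) (hbw : det2 w b = 1 / c) {t₁ t₂ : ℝ} (ht : t₁ < t₂) :
    0 ≤ c * det2 w (xi N k (b + t₂ • w)) - c * det2 w (xi N k (b + t₁ • w)) ∧
    ∃ t ∈ Icc t₁ t₂, xi N k (b + t₂ • w) - xi N k (b + t₁ • w) =
      (c * det2 w (xi N k (b + t₂ • w)) - c * det2 w (xi N k (b + t₁ • w))) • (b + t • w) := by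
  have hc := h.hc
  have hY₁ := Y_ne hc hbw t₁
  have hY₂ := Y_ne hc hbw t₂
  have hwY₁ := det2_w_Y hbw t₁
  have a1 := h.det2_le hY₁ hY₂
  have a2 := h.det2_le hY₂ hY₁
  obtain ⟨X₁, hX₁⟩ : ∃ X, X = xi N k (b + t₁ • w) := ⟨_, rfl⟩
  obtain ⟨X₂, hX₂⟩ : ∃ X, X = xi N k (b + t₂ • w) := ⟨_, rfl⟩
  rw [← hX₁, ← hX₂] at a1 a2 ⊢
  have g1 : det2 (b + t₁ • w) (X₂ - X₁) ≤ 0 := by rw [det2_sub_right]; linarith
  have g2 : 0 ≤ det2 (b + t₂ • w) (X₂ - X₁) := by rw [det2_sub_right]; linarith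
  have hcont : ContinuousOn (fun t : ℝ => det2 (b + t • w) (X₂ - X₁)) (Icc t₁ t₂) := by
    have : (fun t : ℝ => det2 (b + t • w) (X₂ - X₁)) =
        fun t : ℝ => det2 b (X₂ - X₁) + t * det2 w (X₂ - X₁) := by
      funext t
      rw [det2_add_left, det2_smul_left]
    rw [this]
    fun_prop
  obtain ⟨t, htI, ht0⟩ := intermediate_value_Icc ht.le hcont ⟨g1, g2⟩
  have ht0' : det2 (b + t • w) (X₂ - X₁) = 0 := ht0
  obtain ⟨l, hl⟩ := parallel_of_det2 (Y_ne hc hbw t) ht0'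
  have hl2 : c * det2 w (X₂ - X₁) = l := by
    rw [hl, det2_smul_right, det2_w_Y hbw t]
    field_simp
  have hl3 : c * det2 w X₂ - c * det2 w X₁ = l := by
    rw [← hl2, det2_sub_right]; ring
  rw [hl3]
  refine ⟨?_, t, htI, hl⟩
  rw [← hl2]
  have h5 : 0 ≤ (t₂ - t₁) * det2 w (X₂ - X₁) := by
    rw [det2_add_left, det2_smul_left] at g1 g2
    nlinarith
  have h6 : 0 ≤ det2 w (X₂ - X₁) := by
    by_contra hcon
    push Not at hcon
    nlinarith
  positivity

/-- The right difference quotients of `r' - 3 m f'` are asymptotically nonpositive. -/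
theorem Sol.step (h : Rad N k c) (s : Sol k Q dQ) (hbw : det2 w b = 1 / c) {m : ℝ} (hm : 0 ≤ m)
    (hmQ : ∀ u, -Q u ≤ m * N u) (t₁ : ℝ) {ε : ℝ} (hε : 0 < ε) :
    ∀ᶠ t₂ in 𝓝[>] t₁, dQ (b + t₂ • w) w - dQ (b + t₁ • w) w ≤
      (3 * m + ε) * (c * det2 w (xi N k (b + t₂ • w)) - c * det2 w (xi N k (b + t₁ • w)))
        + ε * (t₂ - t₁) := by
  have hc := h.hc
  have hY₁ := Y_ne hc hbw t₁
  have hX₁ := h.xi_ne_zero hY₁
  have hN₁ := h.hN.pos _ hY₁
  obtain ⟨Y₁, hY₁d⟩ : ∃ Y, Y = b + t₁ • w := ⟨_, rfl⟩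
  obtain ⟨X₁, hX₁d⟩ : ∃ X, X = xi N k (b + t₁ • w) := ⟨_, rfl⟩
  have hf₁' : 0 < N Y₁ := by rw [hY₁d]; exact hN₁
  obtain ⟨e1, he1⟩ : ∃ e, e = ε * N Y₁ / 2 := ⟨_, rfl⟩
  obtain ⟨e2, he2⟩ : ∃ e, e = ε * N Y₁ / (6 * (m + 1)) := ⟨_, rfl⟩
  have he1p : 0 < e1 := by rw [he1]; positivity
  have he2p : 0 < e2 := by rw [he2]; positivity
  -- continuity facts
  have hYc : ContinuousAt (fun t : ℝ => b + t • w) t₁ := (hasDerivAt_Y b w t₁).continuousAt
  have hXc : ContinuousAt (fun t : ℝ => xi N k (b + t • w)) t₁ :=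
    ContinuousAt.comp (g := xi N k) (f := fun t : ℝ => b + t • w) (h.xi_continuousAt hY₁) hYc
  -- the ball
  have hdQy : ContinuousAt (fun q : Pl × Pl => dQ q.1 q.2) (X₁, Y₁) := by
    have h1 : ContinuousAt (fun q : Pl × Pl => dQ q.1) (X₁, Y₁) :=
      ContinuousAt.comp (g := dQ) (f := fun q : Pl × Pl => q.1)
        (s.hdQc.continuousAt (isOpen_compl_singleton.mem_nhds (by rw [hX₁d]; exact hX₁)))
        continuousAt_fst
    exact h1.clm_apply continuousAt_snd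
  have hval : dQ X₁ Y₁ = -2 * Q Y₁ := by
    rw [hX₁d, hY₁d]; exact s.dQ_xi' h hY₁
  have hev1 : ∀ᶠ q : Pl × Pl in 𝓝 (X₁, Y₁), q.1 ≠ 0 ∧ dQ q.1 q.2 < -2 * Q Y₁ + e2 := by
    apply Filter.Eventually.and
    · have : ContinuousAt (fun q : Pl × Pl => q.1) (X₁, Y₁) := continuousAt_fst
      exact this.eventually_ne (by rw [hX₁d]; exact hX₁)
    · apply hdQy.eventually_lt continuousAt_const
      rw [hval]; linarith
  obtain ⟨δ, hδ, hball⟩ := Metric.eventually_nhds_iff_ball.1 hev1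
  have hev2 : ∀ᶠ t₂ in 𝓝 t₁, xi N k (b + t₂ • w) ∈ Metric.ball X₁ δ := by
    have := hXc.eventually_mem (Metric.ball_mem_nhds _ hδ)
    rw [← hX₁d] at this
    exact this
  have hev3 : ∀ᶠ t₂ in 𝓝 t₁, ∀ t ∈ Icc t₁ t₂, b + t • w ∈ Metric.ball Y₁ δ := by
    have h1 := hYc.eventually_mem (Metric.ball_mem_nhds _ hδ)
    rw [← hY₁d] at h1
    obtain ⟨η, hη, hball'⟩ := Metric.eventually_nhds_iff_ball.1 h1
    filter_upwards [Metric.ball_mem_nhds t₁ hη] with t₂ ht₂ t ht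
    apply hball'
    rw [Metric.mem_ball, Real.dist_eq] at ht₂ ⊢
    rw [abs_of_nonneg (by linarith [ht.1])]
    have := le_abs_self (t₂ - t₁)
    linarith [ht.2]
  -- derivative facts
  have hr := s.hasDerivAt_r hc hbw t₁
  have hf := h.hasDerivAt_f hbw t₁
  rw [← hY₁d] at hr
  rw [← hX₁d] at hf
  have hcomb := (hr.const_mul (c * det2 w X₁)).sub (hf.const_mul (dQ Y₁ w))
  have hcomb0 : c * det2 w X₁ * (dQ Y₁ w) - dQ Y₁ w * (c * det2 w X₁) = 0 := by ring
  rw [hcomb0] at hcomb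
  have hev4 : ∀ᶠ t₂ in 𝓝 t₁, |c * det2 w X₁ * (Q (b + t₂ • w) - Q Y₁) -
      dQ Y₁ w * (N (b + t₂ • w) - N Y₁)| ≤ e1 * |t₂ - t₁| := by
    have h1 := (hasDerivAt_iff_isLittleO.1 hcomb).def he1p
    filter_upwards [h1] with t₂ ht₂
    simp only [Pi.sub_apply, smul_zero, sub_zero, Real.norm_eq_abs] at ht₂
    rw [← hY₁d] at ht₂
    convert ht₂ using 2
    ring
  have hev5 : ∀ᶠ t₂ in 𝓝 t₁, Q (b + t₂ • w) < Q Y₁ + e2 := by
    apply hr.continuousAt.eventually_lt continuousAt_const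
    rw [← hY₁d]; linarith
  have hev6 : ∀ᶠ t₂ in 𝓝 t₁, N Y₁ - min (N Y₁ / 2) e2 < N (b + t₂ • w) := by
    apply continuousAt_const.eventually_lt hf.continuousAt
    rw [← hY₁d]
    have : 0 < min (N Y₁ / 2) e2 := lt_min (by positivity) he2p
    linarith
  filter_upwards [self_mem_nhdsWithin, mem_nhdsWithin_of_mem_nhds hev2,
    mem_nhdsWithin_of_mem_nhds hev3, mem_nhdsWithin_of_mem_nhds hev4,
    mem_nhdsWithin_of_mem_nhds hev5, mem_nhdsWithin_of_mem_nhds hev6] with t₂ ht₂ k2 k3 k4 k5 k6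
  have ht : t₁ < t₂ := ht₂
  obtain ⟨hD, t, htI, hchord⟩ := h.chord hbw ht
  have F1 := s.formula h hbw t₁
  have F2 := s.formula h hbw t₂
  rw [← hX₁d] at hD hchord F1 ⊢
  rw [← hY₁d] at F1 ⊢
  obtain ⟨Y₂, hY₂d⟩ : ∃ Y, Y = b + t₂ • w := ⟨_, rfl⟩
  rw [← hY₂d] at k2 k4 k5 k6 hD hchord F2 ⊢
  obtain ⟨X₂, hX₂d⟩ : ∃ X, X = xi N k Y₂ := ⟨_, rfl⟩
  rw [← hX₂d] at k2 hD hchord F2 ⊢
  obtain ⟨Δ, hΔ⟩ : ∃ Δ, Δ = c * det2 w X₂ - c * det2 w X₁ := ⟨_, rfl⟩
  rw [← hΔ] at hD hchord ⊢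
  -- mean value theorem for Q on the chord
  have hMV : Q X₂ - Q X₁ ≤ Δ * (-2 * Q Y₁ + e2) := by
    have hX1b : X₁ ∈ Metric.ball X₁ δ := Metric.mem_ball_self hδ
    have hmem : ∀ θ ∈ Icc (0:ℝ) 1, X₁ + θ • (X₂ - X₁) ∈ Metric.ball X₁ δ := by
      intro θ hθ
      exact (convex_ball X₁ δ).add_smul_sub_mem hX1b k2 hθ
    have hprod : ∀ θ ∈ Icc (0:ℝ) 1, (X₁ + θ • (X₂ - X₁), b + t • w) ∈
        Metric.ball ((X₁, Y₁) : Pl × Pl) δ := by
      intro θ hθ
      rw [Metric.mem_ball, Prod.dist_eq]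
      exact max_lt (hmem θ hθ) (k3 t htI)
    obtain ⟨θ, hθ, hθe⟩ := exists_hasDerivAt_eq_slope (fun θ : ℝ => Q (X₁ + θ • (X₂ - X₁)))
      (fun θ : ℝ => dQ (X₁ + θ • (X₂ - X₁)) (X₂ - X₁)) zero_lt_one
      (by
        intro θ hθ
        apply ContinuousAt.continuousWithinAt
        exact ((s.hdQ _ (hball _ (hprod θ hθ)).1).comp_hasDerivAt θ
          (hasDerivAt_Y X₁ (X₂ - X₁) θ)).continuousAt)
      (by
        intro θ hθ
        exact (s.hdQ _ (hball _ (hprod θ ⟨hθ.1.le, hθ.2.le⟩)).1).comp_hasDerivAt θ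
          (hasDerivAt_Y X₁ (X₂ - X₁) θ))
    simp only [one_smul, zero_smul, add_zero, sub_zero, div_one, add_sub_cancel] at hθe
    rw [← hθe]
    conv_lhs => rw [hchord]
    rw [map_smul, smul_eq_mul]
    have h7 := (hball _ (hprod θ ⟨hθ.1.le, hθ.2.le⟩)).2
    rw [hchord] at h7
    exact mul_le_mul_of_nonneg_left h7.le hD
  -- main identity
  have hmain : N Y₂ * (dQ Y₂ w - dQ Y₁ w) =
      (c * det2 w X₁ * (Q Y₂ - Q Y₁) - dQ Y₁ w * (N Y₂ - N Y₁)) + Q Y₂ * Δ
        + 2 * (Q X₂ - Q X₁) := by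
    rw [hΔ]
    linear_combination F2 - F1
  have hab := (abs_le.1 k4).2
  rw [abs_of_pos (by linarith : (0:ℝ) < t₂ - t₁)] at hab
  have hmin1 : min (N Y₁ / 2) e2 ≤ N Y₁ / 2 := min_le_left _ _
  have hmin2 : min (N Y₁ / 2) e2 ≤ e2 := min_le_right _ _
  have hN2lo : N Y₁ / 2 < N Y₂ := by linarith
  have hN2lo' : N Y₁ < N Y₂ + e2 := by linarith
  have hN2pos : 0 < N Y₂ := by linarith
  have hub : N Y₂ * (dQ Y₂ w - dQ Y₁ w) ≤
      e1 * (t₂ - t₁) + Δ * (3 * m * N Y₂ + 3 * (m + 1) * e2) := by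
    rw [hmain]
    have h8 : Q Y₂ * Δ ≤ (Q Y₁ + e2) * Δ := mul_le_mul_of_nonneg_right k5.le hD
    have h9 := hmQ Y₁
    have h10 : Δ * (-3 * Q Y₁) ≤ Δ * (3 * m * (N Y₂ + e2)) := by
      apply mul_le_mul_of_nonneg_left _ hD
      have := mul_le_mul_of_nonneg_left hN2lo'.le hm
      linarith only [h9, this]
    linarith only [hab, h8, h10, hMV]
  have hgoal : N Y₂ * (dQ Y₂ w - dQ Y₁ w) ≤ N Y₂ * ((3 * m + ε) * Δ + ε * (t₂ - t₁)) := by
    refine hub.trans ?_
    have h11 : e1 * (t₂ - t₁) ≤ N Y₂ * (ε * (t₂ - t₁)) := by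
      rw [he1]
      have h0 := mul_le_mul_of_nonneg_left hN2lo.le hε.le
      have h1 : ε * N Y₁ / 2 ≤ N Y₂ * ε := by linarith only [h0]
      have h2 := mul_le_mul_of_nonneg_right h1 (sub_nonneg.2 ht.le)
      linarith only [h2]
    have h12 : 3 * (m + 1) * e2 ≤ N Y₂ * ε := by
      rw [he2]
      have : 3 * (m + 1) * (ε * N Y₁ / (6 * (m + 1))) = ε * N Y₁ / 2 := by
        have : m + 1 ≠ 0 := by positivity
        field_simp
        ring
      rw [this]
      have h0 := mul_le_mul_of_nonneg_left hN2lo.le hε.le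
      linarith only [h0]
    have h13 : Δ * (3 * (m + 1) * e2) ≤ Δ * (N Y₂ * ε) := mul_le_mul_of_nonneg_left h12 hD
    linarith only [h11, h13]
  exact le_of_mul_le_mul_left hgoal hN2pos

theorem continuous_fderiv_f (h : Rad N k c) (hbw : det2 w b = 1 / c) :
    Continuous (fun t : ℝ => c * det2 w (xi N k (b + t • w))) := by
  rw [continuous_iff_continuousAt]
  intro t
  have h1 : ContinuousAt (fun t : ℝ => xi N k (b + t • w)) t :=
    ContinuousAt.comp (g := xi N k) (f := fun t : ℝ => b + t • w)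
      (h.xi_continuousAt (Y_ne h.hc hbw t)) (hasDerivAt_Y b w t).continuousAt
  have h2 : Continuous (fun v : Pl => c * det2 w v) := by unfold det2; fun_prop
  exact ContinuousAt.comp (g := fun v : Pl => c * det2 w v)
    (f := fun t : ℝ => xi N k (b + t • w)) h2.continuousAt h1

theorem continuous_fderiv_r (s : Sol k Q dQ) (hc : 0 < c) (hbw : det2 w b = 1 / c) :
    Continuous (fun t : ℝ => dQ (b + t • w) w) := by
  rw [continuous_iff_continuousAt]
  intro t
  have h1 : ContinuousAt (fun t : ℝ => dQ (b + t • w)) t :=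
    ContinuousAt.comp (g := dQ) (f := fun t : ℝ => b + t • w)
      (s.hdQc.continuousAt (isOpen_compl_singleton.mem_nhds (Y_ne hc hbw t)))
      (hasDerivAt_Y b w t).continuousAt
  exact h1.clm_apply continuousAt_const

/-- `r' - 3 m f'` does not exceed its value at `0`. -/
theorem Sol.le_zero (h : Rad N k c) (s : Sol k Q dQ) (hbw : det2 w b = 1 / c) {m : ℝ}
    (hm : 0 ≤ m) (hmQ : ∀ u, -Q u ≤ m * N u) {t : ℝ} (ht : t ∈ Icc (0:ℝ) 1) :
    dQ (b + t • w) w - 3 * m * (c * det2 w (xi N k (b + t • w))) ≤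
      dQ (b + (0:ℝ) • w) w - 3 * m * (c * det2 w (xi N k (b + (0:ℝ) • w))) := by
  have hcf := continuous_fderiv_f h hbw
  have hcr := continuous_fderiv_r s h.hc hbw
  have key : ∀ ε > 0, dQ (b + t • w) w - (3 * m + ε) * (c * det2 w (xi N k (b + t • w))) - ε * t
      ≤ dQ (b + (0:ℝ) • w) w - (3 * m + ε) * (c * det2 w (xi N k (b + (0:ℝ) • w))) + ε * t := by
    intro ε hε
    have := image_le_of_liminf_slope_right_lt_deriv_boundary'
      (f := fun t : ℝ => dQ (b + t • w) w -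
        (3 * m + ε) * (c * det2 w (xi N k (b + t • w))) - ε * t) (f' := fun _ => 0)
      (a := 0) (b := 1)
      (B := fun t => dQ (b + (0:ℝ) • w) w -
        (3 * m + ε) * (c * det2 w (xi N k (b + (0:ℝ) • w))) + ε * t)
      (B' := fun _ => ε)
      (by
        apply Continuous.continuousOn
        exact (hcr.sub (hcf.const_mul _)).sub (by fun_prop))
      (by
        intro x hx r hr
        apply Filter.Eventually.frequently
        filter_upwards [self_mem_nhdsWithin, s.step h hbw hm hmQ x hε] with z hz hz2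
        have hxz : x < z := hz
        rw [slope_def_field]
        refine lt_of_le_of_lt ?_ hr
        apply div_nonpos_of_nonpos_of_nonneg _ (by linarith)
        nlinarith)
      (by simp)
      (by fun_prop)
      (by
        intro x _
        have : HasDerivAt (fun t : ℝ => dQ (b + (0:ℝ) • w) w -
          (3 * m + ε) * (c * det2 w (xi N k (b + (0:ℝ) • w))) + ε * t) ε x := by
          have h1 := ((hasDerivAt_id x).const_mul ε).const_add (dQ (b + (0:ℝ) • w) w -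
            (3 * m + ε) * (c * det2 w (xi N k (b + (0:ℝ) • w))))
          simpa using h1
        exact this.hasDerivWithinAt)
      (by intro x _ _; exact hε)
    exact this ht
  apply le_of_forall_pos_le_add
  intro η hη
  obtain ⟨A, hA⟩ : ∃ A, A = c * det2 w (xi N k (b + t • w)) := ⟨_, rfl⟩
  obtain ⟨A0, hA0⟩ : ∃ A, A = c * det2 w (xi N k (b + (0:ℝ) • w)) := ⟨_, rfl⟩
  rw [← hA, ← hA0]
  rw [← hA, ← hA0] at key
  have hden : 0 < |A - A0 + 2 * t| + 1 := by positivity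
  have h1 := key (η / (|A - A0 + 2 * t| + 1)) (by positivity)
  have h2 : η / (|A - A0 + 2 * t| + 1) * (A - A0 + 2 * t) ≤ η := by
    rw [div_mul_eq_mul_div, div_le_iff₀ hden]
    have := le_abs_self (A - A0 + 2 * t)
    nlinarith
  nlinarith

end Path

theorem Sol.eq_zero (h : Rad N k c) (s : Sol k Q dQ) : ∀ u, Q u = 0 := by
  have hc := h.hc
  -- maximum of Q / N
  have hQc : ∀ u : Pl, u ≠ 0 → ContinuousAt Q u := fun u hu => (s.hdQ u hu).continuousAt
  have hNc : ∀ u : Pl, u ≠ 0 → ContinuousAt N u := fun u hu => (h.hdN u hu).continuousAt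
  have hsph : ∀ u ∈ Metric.sphere (0:Pl) 1, u ≠ 0 := by
    rintro u hu rfl
    simp at hu
  obtain ⟨u₀, hu₀, hmax⟩ := (isCompact_sphere (0 : Pl) 1).exists_isMaxOn
    (NormedSpace.sphere_nonempty.2 zero_le_one) (f := fun u => Q u / N u) (by
      intro u hu
      apply ContinuousAt.continuousWithinAt
      exact (hQc u (hsph u hu)).div (hNc u (hsph u hu)) (h.hN.pos u (hsph u hu)).ne')
  have hu₀ne := hsph u₀ hu₀
  have hNu₀ := h.hN.pos u₀ hu₀ne
  obtain ⟨m, hm⟩ : ∃ m, m = Q u₀ / N u₀ := ⟨_, rfl⟩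
  have hle : ∀ u, Q u ≤ m * N u := by
    intro u
    by_cases hu : u = 0
    · rw [hu, s.zero, h.hN.zero, mul_zero]
    · have hn : 0 < ‖u‖ := norm_pos_iff.2 hu
      have h1 : (‖u‖⁻¹ • u) ∈ Metric.sphere (0 : Pl) 1 := by
        simp [norm_smul, inv_mul_cancel₀ (norm_ne_zero_iff.2 hu)]
      have h2 := hmax h1
      simp only [mem_ofPred_eq] at h2
      rw [s.hQ, h.hN.smul_nonneg (by positivity), mul_div_mul_left _ _ (by positivity), ← hm,
        div_le_iff₀ (h.hN.pos u hu)] at h2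
      exact h2
  have hneg : ∀ u, -Q u ≤ m * N u := by
    intro u
    have := hle (-u)
    rw [s.neg, h.hN.neg] at this
    exact this
  have hm0 : 0 ≤ m := by
    have h1 := hle u₀
    have h2 := hneg u₀
    nlinarith
  -- the maximal vector
  obtain ⟨a, ha⟩ : ∃ a, a = (N u₀)⁻¹ • u₀ := ⟨_, rfl⟩
  have haN : N a = 1 := by
    rw [ha, h.hN.smul_nonneg (by positivity), inv_mul_cancel₀ hNu₀.ne']
  have hane : a ≠ 0 := by
    intro h0
    rw [h0, h.hN.zero] at haN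
    exact zero_ne_one haN
  have haQ : Q a = m := by
    rw [ha, s.hQ, hm]
    field_simp
  have hda : dQ a = m • (c • detL (xi N k a)) := by
    have h1 : HasFDerivAt (fun u => Q u - m * N u) (dQ a - m • (c • detL (xi N k a))) a :=
      (s.hdQ a hane).sub ((h.dN hane).const_mul m)
    have h2 : IsLocalMax (fun u => Q u - m * N u) a := by
      apply Filter.Eventually.of_forall
      intro u
      have h3 := hle u
      have h4 : Q a - m * N a = 0 := by rw [haQ, haN]; ring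
      change Q u - m * N u ≤ Q a - m * N a
      rw [h4]; linarith
    exact sub_eq_zero.1 (h2.hasFDerivAt_eq_zero h1)
  obtain ⟨b, hb⟩ : ∃ b, b = xi N k a := ⟨_, rfl⟩
  have hbne : b ≠ 0 := by rw [hb]; exact h.xi_ne_zero hane
  have hbN : N b = 1 := by rw [hb]; exact h.N_xi hane
  have hbQ : Q b = 0 := by
    have h1 := s.dQ_xi h hane
    rw [hda, ← hb] at h1
    simp only [smul_apply, detL_apply, smul_eq_mul, det2_self, mul_zero] at h1
    linarith
  have hdb : dQ b a = -2 * m := by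
    rw [hb, s.dQ_xi' h hane, haQ]
  have hxb : xi N k b = -a := by
    rw [hb, h.xi_xi hane, haN]; simp
  have hdet : det2 a b = 1 / c := by
    rw [hb, h.det2_xi hane, haN]
  have hbw : det2 (a - b) b = 1 / c := by
    rw [det2_sub_left, det2_self, hdet]; ring
  -- endpoint values
  have e0 : b + (0:ℝ) • (a - b) = b := by simp
  have e1 : b + (1:ℝ) • (a - b) = a := by simp
  have v0 : dQ (b + (0:ℝ) • (a - b)) (a - b) - 3 * m * (c * det2 (a - b)
      (xi N k (b + (0:ℝ) • (a - b)))) = m := by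
    rw [e0, map_sub, hdb, s.dQ_self hbne, hbQ, hxb, det2_neg_right, det2_sub_left, det2_self,
      det2_comm b a, hdet]
    field_simp
    ring
  have v1 : dQ (b + (1:ℝ) • (a - b)) (a - b) - 3 * m * (c * det2 (a - b)
      (xi N k (b + (1:ℝ) • (a - b)))) = -2 * m := by
    rw [e1, hda]
    simp only [smul_apply, detL_apply, smul_eq_mul]
    rw [← hb, hbw]
    field_simp
    ring
  have hmono := fun t ht => s.le_zero h hbw hm0 hneg (t := t) ht
  -- the auxiliary function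
  obtain ⟨Φ, hΦ⟩ : ∃ Φ : ℝ → ℝ, Φ = fun t => Q (b + t • (a - b)) - 3 * m * N (b + t • (a - b))
      - m * t := ⟨_, rfl⟩
  have hΦd : ∀ t, HasDerivAt Φ (dQ (b + t • (a - b)) (a - b) - 3 * m * (c * det2 (a - b)
      (xi N k (b + t • (a - b)))) - m) t := by
    intro t
    rw [hΦ]
    have h1 := ((s.hasDerivAt_r hc hbw t).sub ((h.hasDerivAt_f hbw t).const_mul (3 * m))).sub
      ((hasDerivAt_id t).const_mul m)
    rw [mul_one] at h1
    exact h1
  have hanti : AntitoneOn Φ (Icc 0 1) := by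
    apply antitoneOn_of_deriv_nonpos (convex_Icc 0 1)
      (fun t _ => (hΦd t).continuousAt.continuousWithinAt)
      (fun t _ => (hΦd t).differentiableAt.differentiableWithinAt)
    intro t ht
    rw [interior_Icc] at ht
    rw [(hΦd t).deriv]
    have := hmono t ⟨ht.1.le, ht.2.le⟩
    rw [v0] at this
    linarith
  have hΦ0 : Φ 0 = -3 * m := by
    rw [hΦ]
    simp only [e0, hbQ, hbN]
    ring
  have hΦ1 : Φ 1 = -3 * m := by
    rw [hΦ]
    simp only [e1, haQ, haN]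
    ring
  have hconst : ∀ t ∈ Icc (0:ℝ) 1, Φ t = -3 * m := by
    intro t ht
    have h1 := hanti (left_mem_Icc.2 zero_le_one) ht ht.1
    have h2 := hanti ht (right_mem_Icc.2 zero_le_one) ht.2
    rw [hΦ0] at h1
    rw [hΦ1] at h2
    linarith
  have hd1 := (hΦd 1).hasDerivWithinAt (s := Icc (0:ℝ) 1)
  rw [v1] at hd1
  have hd2 : HasDerivWithinAt Φ 0 (Icc (0:ℝ) 1) 1 := by
    have := hasDerivWithinAt_const (1:ℝ) (Icc (0:ℝ) 1) (-3 * m)
    exact this.congr hconst (hconst 1 (right_mem_Icc.2 zero_le_one))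
  have hu : UniqueDiffWithinAt ℝ (Icc (0:ℝ) 1) 1 :=
    uniqueDiffOn_Icc zero_lt_one 1 (right_mem_Icc.2 zero_le_one)
  have h3 := hu.eq_deriv _ hd1 hd2
  have hmz : m = 0 := by linarith
  intro u
  have h1 := hle u
  have h2 := hneg u
  rw [hmz, zero_mul] at h1 h2
  linarith

end Rigid

/-- **PART R.** -/
theorem rigidity {N : Pl → ℝ} (hN : IsNorm N) {k : Pl → ℝ} {c : ℝ} (hc : 0 < c)
    (hk : ContinuousOn k {0}ᶜ)
    (hdN : ∀ u, u ≠ 0 → HasFDerivAt N ((N u / ‖u‖ ^ 2) • detL (J u + k u • u)) u)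
    (hrad : ∀ u, u ≠ 0 → N u * N (J u + k u • u) = c * ‖u‖ ^ 2)
    (hinv : ∀ u, u ≠ 0 → ∃ a : ℝ, J (J u + k u • u) + k (J u + k u • u) • (J u + k u • u) = a • u)
    {Q : Pl → ℝ} (hQ : ∀ (a : ℝ) u, Q (a • u) = a * Q u) {dQ : Pl → Pl →L[ℝ] ℝ}
    (hdQ : ∀ u, u ≠ 0 → HasFDerivAt Q (dQ u) u) (hdQc : ContinuousOn dQ {0}ᶜ)
    (heq : ∀ u, u ≠ 0 → dQ u (J u + k u • u) = -2 * Q (J u + k u • u)) : ∀ u, Q u = 0 :=
  Rigid.Sol.eq_zero (N := N) (k := k) (c := c) ⟨hN, hc, hk, hdN, hrad, hinv⟩ ⟨hQ, hdQ, hdQc, heq⟩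

end Pool.Agent.Lib_1de93e
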