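import Pool.Agent.Lib_1de93e.Line2
import Pool.Agent.Lib_1de93e.Rigid
import Pool.Agent.Lib_1de93e.ConstLine

/-!
# The normalised norm is constant along lines
-/

namespace Pool.Agent.Lib_1de93e

open Set MeasureTheory Filter Topology
open scoped NNReal

variable {M : Set Pl} {F d κ : Pl → Pl → ℝ}

namespace LBall

variable {P : Pl} {r m Λ K L : ℝ} {x : Pl}

/-- The second order term at a good point. -/
theorem Phi_eq (hB : LBall M F κ P r m Λ K L) (h : KPlane M F d κ)
    (hx : x ∈ Metric.ball P (r / 2)) (hg : Good M F κ x) {u : Pl} (hu : u ≠ 0) :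
    Phi F d x u = F x u * (fderiv ℝ (rad F κ) x u / (3 * rad F κ x)) := by
  have hxM := hB.sub (hB.mem_half hx)
  have hN := h.fin.norm x hxM
  set c' := fderiv ℝ (rad F κ) x with hc'
  set c := rad F κ x with hc
  have hcpos : 0 < c := h.rad_pos hxM
  set Q : Pl → ℝ := fun u => Phi F d x u * (F x u)⁻¹ - c' u / (3 * c) with hQdef
  set dQ : Pl → Pl →L[ℝ] ℝ := fun u =>
    (Phi F d x u • ((-(F x u ^ 2)⁻¹) • pf F κ x u) + (F x u)⁻¹ • Kg F d κ x u) -
      (3 * c)⁻¹ • c' with hdQdef
  have hQs : ∀ (a : ℝ) u, Q (a • u) = a * Q u := by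
    intro a u
    have hpos : ∀ (a : ℝ) u, 0 < a → Q (a • u) = a * Q u := by
      intro a u ha
      by_cases hu0 : u = 0
      · rw [hu0, smul_zero]
        simp [hQdef, hN.zero]
      · have hF : F x u ≠ 0 := (hN.pos u hu0).ne'
        simp only [hQdef]
        rw [hB.Phi_smul h hx hg hu0 ha, hN.smul_nonneg ha.le, map_smul, smul_eq_mul]
        field_simp
    have hneg : ∀ u, Q (-u) = -Q u := by
      intro u
      by_cases hu0 : u = 0
      · rw [hu0, neg_zero]
        simp [hQdef, hN.zero]
      · simp only [hQdef]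
        rw [hB.Phi_neg h hx hg hu0, hN.neg, map_neg]
        ring
    rcases lt_trichotomy a 0 with h0 | h0 | h0
    · have h1 := hpos (-a) u (by linarith)
      rw [neg_smul, hneg] at h1
      linarith
    · rw [h0, zero_smul, zero_mul]
      simp [hQdef, hN.zero]
    · exact hpos a u h0
  have hcF : ∀ u : Pl, u ≠ 0 → ContinuousAt (F x) u := fun u hu =>
    (h.fin.continuous_right hxM).continuousAt
  have hcpf : ∀ u : Pl, u ≠ 0 → ContinuousAt (pf F κ x) u := fun u hu =>
    ContinuousAt.comp (g := fun q : Pl × Pl => pf F κ q.1 q.2) (f := fun v => (x, v))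
      (h.pf_continuousAt hxM hu) (continuousAt_const.prodMk continuousAt_id)
  have hcκ : ∀ u : Pl, u ≠ 0 → ContinuousAt (κ x) u := fun u hu =>
    ContinuousAt.comp (g := fun q : Pl × Pl => κ q.1 q.2) (f := fun v => (x, v))
      (h.kap_cont x hxM u hu) (continuousAt_const.prodMk continuousAt_id)
  have key := rigidity (N := F x) (k := κ x) (c := c) (Q := Q) (dQ := dQ) hN hcpos
    (fun v hv => (hcκ v hv).continuousWithinAt) (fun v hv => h.pf_hasFDerivAt hxM hv)
    (fun v hv => h.radon hxM hv) (fun v hv => ⟨_, h.cvk_cvk hxM hv⟩) hQs ?_ ?_ ?_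
  · have h1 := key u
    simp only [hQdef] at h1
    have hF : F x u ≠ 0 := (hN.pos u hu).ne'
    have h2 : Phi F d x u * (F x u)⁻¹ = c' u / (3 * c) := by linarith
    rw [← h2]
    field_simp
  · intro v hv
    have hF : F x v ≠ 0 := (hN.pos v hv).ne'
    have h1 := hB.Phi_hasFDerivAt h hx hg hv
    have h2 := h.pf_hasFDerivAt hxM hv
    have h3 : HasFDerivAt (fun v => (F x v)⁻¹) ((-(F x v ^ 2)⁻¹) • pf F κ x v) v :=
      (hasDerivAt_inv hF).comp_hasFDerivAt v h2
    have h4 := h1.mul h3
    have h5 : HasFDerivAt (fun v => c' v / (3 * c)) ((3 * c)⁻¹ • c') v := by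
      have h6 := c'.hasFDerivAt (x := v)
      have h7 := h6.mul_const ((3 * c)⁻¹)
      simp only [div_eq_mul_inv]
      exact h7
    exact h4.sub h5
  · intro v hv
    apply ContinuousAt.continuousWithinAt
    have hF : F x v ≠ 0 := (hN.pos v hv).ne'
    simp only [hdQdef]
    apply ContinuousAt.sub _ continuousAt_const
    apply ContinuousAt.add
    · exact (hB.Phi_continuousAt h hx hg hv).smul
        (((((hcF v hv).pow 2).inv₀ (pow_ne_zero 2 hF)).neg).smul (hcpf v hv))
    · exact ((hcF v hv).inv₀ hF).smul (hB.Kg_continuousAt h hx hg hv)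
  · intro v hv
    change dQ v (cvk κ x v) = -2 * Q (cvk κ x v)
    have hF : F x v ≠ 0 := (hN.pos v hv).ne'
    have hVne : cvk κ x v ≠ 0 := cvk_ne_zero hv
    have hFV : F x (cvk κ x v) ≠ 0 := (hN.pos _ hVne).ne'
    have hn : 0 < ‖v‖ := norm_pos_iff.2 hv
    have e1 : pf F κ x v (cvk κ x v) = 0 := pf_cvk_self x v
    have e2 : Kg F d κ x v (cvk κ x v) = F x v * (c' (cvk κ x v) / c -
        2 * Phi F d x (cvk κ x v) / F x (cvk κ x v)) := by
      unfold Kg
      rw [sub_apply, smul_apply, smul_apply, detL_apply, detL_apply, det2_self,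
        det2_comm (cvk κ x v) v, det2_cvk]
      simp only [smul_eq_mul]
      rw [← hc', ← hc]
      field_simp
      ring
    simp only [hdQdef, hQdef, sub_apply, add_apply, smul_apply, e1, e2, smul_eq_mul]
    field_simp
    ring

end LBall

/-- The normalising factor. -/
noncomputable def lamf (F κ : Pl → Pl → ℝ) (x : Pl) : ℝ :=
  Real.exp (-(1/3) * Real.log (rad F κ x))

theorem lamf_pos (x : Pl) : 0 < lamf F κ x := Real.exp_pos _

theorem KPlane.lamf_cube (h : KPlane M F d κ) {x : Pl} (hx : x ∈ M) :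
    lamf F κ x ^ 3 * rad F κ x = 1 := by
  have hpos := h.rad_pos hx
  unfold lamf
  rw [← Real.exp_nat_mul]
  have : ((3:ℕ):ℝ) * (-(1/3) * Real.log (rad F κ x)) = -Real.log (rad F κ x) := by
    push_cast; ring
  rw [this, Real.exp_neg, Real.exp_log hpos, inv_mul_cancel₀ hpos.ne']

theorem abs_log_sub_le {a b m : ℝ} (hm : 0 < m) (ha : m ≤ a) (hb : m ≤ b) :
    |Real.log a - Real.log b| ≤ |a - b| / m := by
  have hapos : 0 < a := lt_of_lt_of_le hm ha
  have hbpos : 0 < b := lt_of_lt_of_le hm hb
  have aux : ∀ a b : ℝ, m ≤ a → m ≤ b → Real.log a - Real.log b ≤ |a - b| / m := by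
    intro a b ha hb
    have hapos : 0 < a := lt_of_lt_of_le hm ha
    have hbpos : 0 < b := lt_of_lt_of_le hm hb
    rw [← Real.log_div hapos.ne' hbpos.ne']
    have h1 := Real.log_le_sub_one_of_pos (div_pos hapos hbpos)
    have h2 : a / b - 1 = (a - b) / b := by field_simp
    rw [h2] at h1
    refine h1.trans ?_
    calc (a - b) / b ≤ |a - b| / b := by gcongr; exact le_abs_self _
      _ ≤ |a - b| / m := by gcongr
  rw [abs_le]
  constructor
  · have := aux b a hb ha
    rw [abs_sub_comm] at this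
    linarith
  · exact aux a b ha hb

/-- Local constancy along lines. -/
theorem LBall.const_line {P : Pl} {r m Λ K L : ℝ} (hB : LBall M F κ P r m Λ K L)
    (h : KPlane M F d κ) {x u : Pl} {s : ℝ} (hu : ‖u‖ = 1) (hs : 0 ≤ s)
    (hx : x ∈ Metric.ball P (r / 2)) (hxs : x + s • u ∈ Metric.ball P (r / 2)) :
    lamf F κ (x + s • u) ^ 2 * F (x + s • u) u = lamf F κ x ^ 2 * F x u := by
  have hune : u ≠ 0 := by
    rintro rfl
    simp at hu
  have hm := hB.m_pos
  have hL := hB.L_pos
  set g : Pl → ℝ := fun y => Real.log (F y u) - 2 / 3 * Real.log (rad F κ y) with hg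
  have hFm : ∀ y ∈ Metric.ball P (r / 2), m ≤ F y u := by
    intro y hy
    have := (hB.bd y (hB.mem_half hy) u).1
    rwa [hu, mul_one] at this
  have hcm : ∀ y ∈ Metric.ball P (r / 2), m ^ 2 ≤ rad F κ y := by
    intro y hy
    have hyr := hB.mem_half hy
    have h1 := (hB.bd y hyr (ang 0)).1
    have h2 := (hB.bd y hyr (cvk κ y (ang 0))).1
    rw [norm_ang, mul_one] at h1
    have h3 : 1 ≤ ‖cvk κ y (ang 0)‖ := by
      have h4 := abs_det2_le (ang 0) (cvk κ y (ang 0))
      rw [det2_cvk, norm_ang, one_pow, abs_one, one_mul] at h4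
      exact h4
    have h4 : m ≤ F y (cvk κ y (ang 0)) := by
      refine le_trans ?_ h2
      nlinarith
    unfold rad
    nlinarith
  have hglip : LipschitzOnWith (Real.toNNReal (L / m + 2 / 3 * (L / m ^ 2))) g
      (Metric.ball P (r / 2)) := by
    apply LipschitzOnWith.of_dist_le_mul
    intro y hy z hz
    rw [Real.dist_eq, dist_eq_norm, Real.coe_toNNReal _ (by positivity)]
    have h1 := abs_log_sub_le hm (hFm y hy) (hFm z hz)
    have h2 := abs_log_sub_le (by positivity) (hcm y hy) (hcm z hz)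
    have h3 := hB.lipF y (hB.mem_half hy) z (hB.mem_half hz) u
    have h4 := hB.lipc y (hB.mem_half hy) z (hB.mem_half hz)
    rw [hu, mul_one] at h3
    have e : g y - g z = (Real.log (F y u) - Real.log (F z u)) -
        2 / 3 * (Real.log (rad F κ y) - Real.log (rad F κ z)) := by
      simp only [hg]; ring
    rw [e]
    calc |(Real.log (F y u) - Real.log (F z u)) -
        2 / 3 * (Real.log (rad F κ y) - Real.log (rad F κ z))|
        ≤ |Real.log (F y u) - Real.log (F z u)| +
          |2 / 3 * (Real.log (rad F κ y) - Real.log (rad F κ z))| := abs_sub _ _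
      _ = |Real.log (F y u) - Real.log (F z u)| +
          2 / 3 * |Real.log (rad F κ y) - Real.log (rad F κ z)| := by
          rw [abs_mul, abs_of_pos (by norm_num : (0:ℝ) < 2 / 3)]
      _ ≤ |F y u - F z u| / m + 2 / 3 * (|rad F κ y - rad F κ z| / m ^ 2) := by gcongr
      _ ≤ (L * ‖y - z‖) / m + 2 / 3 * ((L * ‖y - z‖) / m ^ 2) := by gcongr
      _ = (L / m + 2 / 3 * (L / m ^ 2)) * ‖y - z‖ := by ring
  -- almost every point is good
  have hae1 := ae_ae_differentiable h.toFPlane hB.r_pos hB.L_pos.le hB.sub hB.lipF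
  have hradlip : LipschitzOnWith (Real.toNNReal L) (rad F κ) (Metric.ball P r) := by
    apply LipschitzOnWith.of_dist_le_mul
    intro y hy z hz
    rw [Real.dist_eq, dist_eq_norm, Real.coe_toNNReal _ hL.le]
    exact hB.lipc y hy z hz
  have hFlip : LipschitzOnWith (Real.toNNReal L) (fun y => F y u) (Metric.ball P r) := by
    apply LipschitzOnWith.of_dist_le_mul
    intro y hy z hz
    rw [Real.dist_eq, dist_eq_norm, Real.coe_toNNReal _ hL.le]
    have := hB.lipF y hy z hz u
    rwa [hu, mul_one] at this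
  have hae : ∀ᵐ y ∂(volume : Measure Pl), y ∈ Metric.ball P (r / 2) →
      HasLineDerivAt ℝ g 0 y u := by
    filter_upwards [hae1, hradlip.ae_differentiableWithinAt_of_mem_of_real,
      hFlip.ae_differentiableWithinAt_of_mem_of_real] with y hy1 hy2 hy3 hyb
    have hyr := hB.mem_half hyb
    have hyM := hB.sub hyr
    have hd2 : DifferentiableAt ℝ (rad F κ) y :=
      (hy2 hyr).differentiableAt (Metric.isOpen_ball.mem_nhds hyr)
    have hd3 : DifferentiableAt ℝ (fun z => F z u) y :=
      (hy3 hyr).differentiableAt (Metric.isOpen_ball.mem_nhds hyr)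
    have hgood : Good M F κ y := ⟨hd2, hy1 hyb⟩
    have h1 := hB.Phi_eq h hyb hgood hune
    rw [Phi_of_diff h hyM hd3.hasFDerivAt] at h1
    set G := fderiv ℝ (fun z => F z u) y with hG
    set c' := fderiv ℝ (rad F κ) y with hc'
    have hF : 0 < F y u := (h.fin.norm y hyM).pos u hune
    have hc : 0 < rad F κ y := h.rad_pos hyM
    have hl1 : HasFDerivAt (fun z => Real.log (F z u)) ((F y u)⁻¹ • G) y :=
      hd3.hasFDerivAt.log hF.ne'
    have hl2 : HasFDerivAt (fun z => Real.log (rad F κ z)) ((rad F κ y)⁻¹ • c') y :=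
      hd2.hasFDerivAt.log hc.ne'
    have hl3 := (hl1.sub (hl2.const_mul (2 / 3))).hasLineDerivAt u
    have e : ((F y u)⁻¹ • G - (2 / 3 : ℝ) • (rad F κ y)⁻¹ • c') u = 0 := by
      simp only [sub_apply, smul_apply, smul_eq_mul]
      have h2 : G u = 2 * (F y u * (c' u / (3 * rad F κ y))) := by linarith
      rw [h2]
      field_simp
      ring
    rw [e] at hl3
    exact hl3
  have key := const_of_lineDeriv_zero Metric.isOpen_ball (convex_ball P (r / 2)) hglip hae hs hx hxs
  have hexp : ∀ y ∈ Metric.ball P (r / 2), lamf F κ y ^ 2 * F y u = Real.exp (g y) := by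
    intro y hy
    have hyM := hB.sub (hB.mem_half hy)
    have hF : 0 < F y u := (h.fin.norm y hyM).pos u hune
    simp only [hg]
    rw [Real.exp_sub, Real.exp_log hF]
    unfold lamf
    have e : ((2:ℕ):ℝ) * (-(1/3) * Real.log (rad F κ y)) =
        -(2 / 3 * Real.log (rad F κ y)) := by
      push_cast; ring
    rw [← Real.exp_nat_mul, e, Real.exp_neg, mul_comm]
    exact (div_eq_mul_inv _ _).symm
  rw [hexp _ hxs, hexp _ hx, key]

/-- The normalised norm is constant along lines. -/
theorem LPlane.const_line (h : LPlane M F d κ) {x u : Pl} {s : ℝ} (hx : x ∈ M)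
    (hxs : x + s • u ∈ M) :
    lamf F κ (x + s • u) ^ 2 * F (x + s • u) u = lamf F κ x ^ 2 * F x u := by
  -- unit vectors, nonnegative parameters
  have key : ∀ (x u : Pl) (s : ℝ), ‖u‖ = 1 → 0 ≤ s → x ∈ M → x + s • u ∈ M →
      lamf F κ (x + s • u) ^ 2 * F (x + s • u) u = lamf F κ x ^ 2 * F x u := by
    intro x u s hu hs hx hxs
    set φ : ℝ → ℝ := fun t => lamf F κ (x + t • u) ^ 2 * F (x + t • u) u with hφ
    have hmem : ∀ t ∈ Icc (0:ℝ) s, x + t • u ∈ M := fun t ht =>
      h.toFPlane.mem_line0 ht.1 ht.2 hx hxs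
    have hloc : ∀ t ∈ Icc (0:ℝ) s, ∀ᶠ t' in 𝓝 t, φ t' = φ t := by
      intro t ht
      obtain ⟨r, m, Λ, K, L, hB⟩ := h.exists_LBall (hmem t ht)
      have hr := hB.r_pos
      have hc : ContinuousAt (fun t' : ℝ => x + t' • u) t := by fun_prop
      have h1 : ∀ᶠ t' in 𝓝 t, x + t' • u ∈ Metric.ball (x + t • u) (r / 2) :=
        hc.eventually (Metric.ball_mem_nhds _ (by positivity))
      filter_upwards [h1] with t' ht'
      have h0 : x + t • u ∈ Metric.ball (x + t • u) (r / 2) :=
        Metric.mem_ball_self (by positivity)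
      simp only [hφ]
      rcases le_total t t' with hle | hle
      · have e : x + t' • u = x + t • u + (t' - t) • u := by rw [sub_smul]; abel
        rw [e]
        rw [e] at ht'
        exact hB.const_line h.toKPlane hu (by linarith) h0 ht'
      · have e : x + t • u = x + t' • u + (t - t') • u := by rw [sub_smul]; abel
        have h2 := hB.const_line h.toKPlane hu (s := t - t') (by linarith) ht' (by
          rw [← e]; exact h0)
        rw [← e] at h2
        exact h2.symm
    have hder : ∀ t ∈ Icc (0:ℝ) s, HasDerivAt φ 0 t := by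
      intro t ht
      exact (hasDerivAt_const t (φ t)).congr_of_eventuallyEq (hloc t ht)
    have hfin := constant_of_has_deriv_right_zero
      (fun t ht => (hder t ht).continuousAt.continuousWithinAt)
      (fun t ht => (hder t ⟨ht.1, ht.2.le⟩).hasDerivWithinAt) s ⟨hs, le_rfl⟩
    simp only [hφ, zero_smul, add_zero] at hfin
    exact hfin
  have key2 : ∀ (x u : Pl) (s : ℝ), 0 ≤ s → x ∈ M → x + s • u ∈ M →
      lamf F κ (x + s • u) ^ 2 * F (x + s • u) u = lamf F κ x ^ 2 * F x u := by
    intro x u s hs hx hxs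
    by_cases hu : u = 0
    · rw [hu, smul_zero, add_zero]
    · have hn : 0 < ‖u‖ := norm_pos_iff.2 hu
      set e := ‖u‖⁻¹ • u with he
      have hen : ‖e‖ = 1 := by rw [he, norm_smul, norm_inv, norm_norm, inv_mul_cancel₀ hn.ne']
      have hue : u = ‖u‖ • e := by rw [he, smul_smul, mul_inv_cancel₀ hn.ne', one_smul]
      have hsu : s • u = (s * ‖u‖) • e := by rw [mul_smul, ← hue]
      have h1 := key x e (s * ‖u‖) hen (by positivity) hx (by rw [← hsu]; exact hxs)
      rw [← hsu] at h1
      have e1 : F (x + s • u) u = ‖u‖ * F (x + s • u) e := by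
        have := (h.fin.norm _ hxs).smul_nonneg (u := e) hn.le
        rwa [← hue] at this
      have e2 : F x u = ‖u‖ * F x e := by
        have := (h.fin.norm _ hx).smul_nonneg (u := e) hn.le
        rwa [← hue] at this
      rw [e1, e2]
      linear_combination ‖u‖ * h1
  rcases le_total 0 s with hs | hs
  · exact key2 x u s hs hx hxs
  · have h1 := key2 (x + s • u) u (-s) (by linarith) hxs (by
      rw [neg_smul, add_neg_cancel_right]; exact hx)
    rw [neg_smul, add_neg_cancel_right] at h1
    exact h1.symm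

end Pool.Agent.Lib_1de93e
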