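import Pool.Agent.Lib_1de93e.ConvexDefs

/-!
# Convex balls give perpendiculars

If all open balls of a projective metric `d` on `M` are convex, then every line `g` has at each of
its points a line `h` with `g` perpendicular to `h`.
-/

namespace Pool.Agent.Lib_1de93e

open Set

variable {M : Set Pl} {d : Pl → Pl → ℝ}

theorem ball_isOpen (hd : IsProjectiveMetric M d) {X : Pl} (hX : X ∈ M) (r : ℝ) :
    IsOpen {Y : Pl | Y ∈ M ∧ d X Y < r} := by
  rw [Metric.isOpen_iff]
  rintro Y ⟨hY, hYr⟩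
  obtain ⟨δ, hδ, h1⟩ := hd.topo₁ Y hY (r - d X Y) (by linarith)
  obtain ⟨δ', hδ', h2⟩ := Metric.isOpen_iff.1 hd.isOpen Y hY
  refine ⟨min δ δ', lt_min hδ hδ', ?_⟩
  intro Z hZ
  have hZM : Z ∈ M := h2 (Metric.ball_subset_ball (min_le_right _ _) hZ)
  refine ⟨hZM, ?_⟩
  have h3 : dist Y Z < δ := by
    rw [dist_comm]
    exact lt_of_lt_of_le (Metric.mem_ball.1 hZ) (min_le_left _ _)
  have h4 := h1 Z hZM h3
  have h5 := hd.triangle X hX Y hY Z hZM
  linarith

/-- the union of the balls about the points `O + s u`, `s > 0`, whose boundary contains `O` -/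
def horo (M : Set Pl) (d : Pl → Pl → ℝ) (O u : Pl) : Set Pl :=
  {Y : Pl | ∃ s : ℝ, 0 < s ∧ O + s • u ∈ M ∧ Y ∈ M ∧ d (O + s • u) Y < d (O + s • u) O}

theorem horo_isOpen (hd : IsProjectiveMetric M d) (O u : Pl) : IsOpen (horo M d O u) := by
  have h : horo M d O u = ⋃ (s : ℝ) (_ : 0 < s ∧ O + s • u ∈ M),
      {Y : Pl | Y ∈ M ∧ d (O + s • u) Y < d (O + s • u) O} := by
    ext Y
    simp only [horo, mem_ofPred_eq, mem_iUnion, exists_prop]
    constructor
    · rintro ⟨s, h1, h2, h3, h4⟩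
      exact ⟨s, ⟨h1, h2⟩, h3, h4⟩
    · rintro ⟨s, ⟨h1, h2⟩, h3, h4⟩
      exact ⟨s, h1, h2, h3, h4⟩
  rw [h]
  exact isOpen_biUnion fun s hs => ball_isOpen hd hs.2 _

theorem add_smul_mem_segment (O u : Pl) {s t : ℝ} (hs : 0 ≤ s) (hst : s ≤ t) :
    O + s • u ∈ segment ℝ O (O + t • u) := by
  rcases eq_or_lt_of_le (hs.trans hst) with h0 | h0
  · have h1 : s = 0 := le_antisymm (by rw [h0]; exact hst) hs
    rw [h1, zero_smul, add_zero]
    exact left_mem_segment ℝ _ _
  · rw [segment_eq_image']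
    refine ⟨s / t, ⟨by positivity, by rw [div_le_one h0]; exact hst⟩, ?_⟩
    simp only [add_sub_cancel_left, smul_smul]
    rw [div_mul_cancel₀ _ h0.ne']

theorem horo_convex (hd : IsProjectiveMetric M d) (hb : HasConvexBalls M d) {O : Pl} (hO : O ∈ M)
    (u : Pl) : Convex ℝ (horo M d O u) := by
  have key : ∀ s t : ℝ, 0 < s → s ≤ t → O + s • u ∈ M → O + t • u ∈ M → ∀ Y ∈ M,
      d (O + s • u) Y < d (O + s • u) O → d (O + t • u) Y < d (O + t • u) O := by
    intro s t hs hst h1 h2 Y hY h3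
    have h4 := (hd.geodesic O hO (O + s • u) h1 (O + t • u) h2).2
      (add_smul_mem_segment O u hs.le hst)
    have h5 := hd.triangle (O + t • u) h2 (O + s • u) h1 Y hY
    rw [hd.symm _ hO _ h1, hd.symm _ hO _ h2, hd.symm _ h1 _ h2] at h4
    linarith
  intro Y hY Z hZ a b ha hb' hab
  obtain ⟨s, hs, h1, h2, h3⟩ := hY
  obtain ⟨t, ht, h4, h5, h6⟩ := hZ
  rcases le_total s t with hst | hst
  · have h7 := key s t hs hst h1 h4 Y h2 h3
    have h8 := hb _ h4 _ (show Y ∈ _ from ⟨h2, h7⟩) (show Z ∈ _ from ⟨h5, h6⟩) ha hb' hab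
    exact ⟨t, ht, h4, h8.1, h8.2⟩
  · have h7 := key t s ht hst h4 h1 Z h5 h6
    have h8 := hb _ h1 _ (show Y ∈ _ from ⟨h2, h3⟩) (show Z ∈ _ from ⟨h5, h7⟩) ha hb' hab
    exact ⟨s, hs, h1, h8.1, h8.2⟩

theorem horo_disjoint (hd : IsProjectiveMetric M d) {O : Pl} (hO : O ∈ M) (u : Pl) :
    Disjoint (horo M d O u) (horo M d O (-u)) := by
  rw [Set.disjoint_left]
  rintro Y ⟨s, hs, h1, h2, h3⟩ ⟨t, ht, h4, -, h6⟩
  have h7 : O ∈ segment ℝ (O + s • u) (O + t • -u) := by
    refine ⟨t / (s + t), s / (s + t), by positivity, by positivity, ?_, ?_⟩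
    · field_simp
      ring
    · rw [smul_add, smul_add, smul_smul, smul_smul, smul_neg]
      have e1 : t / (s + t) * s = s / (s + t) * t := by field_simp
      rw [e1]
      have e2 : (t / (s + t)) • O + (s / (s + t)) • O = O := by
        rw [← add_smul]
        have : t / (s + t) + s / (s + t) = 1 := by field_simp; ring
        rw [this, one_smul]
      calc (t / (s + t)) • O + (s / (s + t) * t) • u + ((s / (s + t)) • O + -((s / (s + t) * t) • u))
          = (t / (s + t)) • O + (s / (s + t)) • O := by abel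
        _ = O := e2
  have h8 := (hd.geodesic _ h1 O hO _ h4).2 h7
  have h9 := hd.triangle _ h1 Y h2 _ h4
  rw [hd.symm _ hO _ h4] at h8
  rw [hd.symm _ h2 _ h4] at h9
  linarith

theorem horo_lim (hd : IsProjectiveMetric M d) {O : Pl} (hO : O ∈ M) {u : Pl} (hu : u ≠ 0)
    (f : Pl →L[ℝ] ℝ) (c : ℝ) (h : ∀ Y ∈ horo M d O u, f Y < c) : f O ≤ c := by
  by_contra hlt
  push Not at hlt
  obtain ⟨δ, hδ, h2⟩ := Metric.isOpen_iff.1 hd.isOpen O hO
  have hun : 0 < ‖u‖ := norm_pos_iff.2 hu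
  have hfu : 0 ≤ |f u| := abs_nonneg _
  set s : ℝ := min (δ / (2 * ‖u‖)) ((f O - c) / (|f u| + 1)) with hs
  have hs0 : 0 < s := lt_min (by positivity) (div_pos (by linarith) (by linarith))
  have hsM : O + s • u ∈ M := by
    apply h2
    rw [Metric.mem_ball, dist_eq_norm, add_sub_cancel_left, norm_smul, Real.norm_eq_abs,
      abs_of_pos hs0]
    have h3 : s * ‖u‖ ≤ δ / (2 * ‖u‖) * ‖u‖ := by
      gcongr
      exact min_le_left _ _
    have h4 : δ / (2 * ‖u‖) * ‖u‖ = δ / 2 := by field_simp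
    linarith
  have hmem : O + s • u ∈ horo M d O u := by
    refine ⟨s, hs0, hsM, hsM, ?_⟩
    rw [(hd.eq_zero_iff _ hsM _ hsM).2 rfl]
    have hne : O + s • u ≠ O := by
      intro h0
      have h1 : s • u = 0 := by
        have := congrArg (fun x => x - O) h0
        simpa using this
      rcases smul_eq_zero.1 h1 with h1 | h1
      · exact hs0.ne' h1
      · exact hu h1
    have h5 := hd.triangle _ hsM O hO _ hsM
    rw [(hd.eq_zero_iff _ hsM _ hsM).2 rfl, hd.symm _ hO _ hsM] at h5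
    have h6 : d (O + s • u) O ≠ 0 := fun h0 => hne ((hd.eq_zero_iff _ hsM _ hO).1 h0)
    have h7 : 0 ≤ d (O + s • u) O := by linarith
    exact lt_of_le_of_ne h7 (Ne.symm h6)
  have h8 := h _ hmem
  rw [map_add, map_smul, smul_eq_mul] at h8
  have h9 : s * |f u| < f O - c := by
    have h10 : s ≤ (f O - c) / (|f u| + 1) := min_le_right _ _
    rw [le_div_iff₀ (by linarith)] at h10
    nlinarith
  have h11 : -(s * |f u|) ≤ s * f u := by
    have := neg_abs_le (f u)
    nlinarith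
  linarith

theorem exists_ker_ne_zero (f : Pl →L[ℝ] ℝ) : ∃ v : Pl, v ≠ 0 ∧ f v = 0 := by
  by_contra hcon
  push Not at hcon
  have hinj : Function.Injective (f : Pl →ₗ[ℝ] ℝ) := by
    rw [injective_iff_map_eq_zero]
    intro v hv
    by_contra hne
    exact hcon v hne hv
  have h1 := LinearMap.finrank_le_finrank_of_injective hinj
  simp at h1

/-- Convex balls give perpendiculars. -/
theorem exists_perp_of_convexBalls (hd : IsProjectiveMetric M d) (hb : HasConvexBalls M d)
    {O : Pl} (hO : O ∈ M) {u : Pl} (hu : u ≠ 0) : ∃ v : Pl, v ≠ 0 ∧ Perp M d O u v := by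
  obtain ⟨f, c, h1, h2⟩ := geometric_hahn_banach_open_open (horo_convex hd hb hO u)
    (horo_isOpen hd O u) (horo_convex hd hb hO (-u)) (horo_isOpen hd O (-u))
    (horo_disjoint hd hO u)
  have h3 : f O ≤ c := horo_lim hd hO hu f c h1
  have h4 : (-f) O ≤ -c := by
    apply horo_lim hd hO (neg_ne_zero.2 hu) (-f) (-c)
    intro Y hY
    have := h2 Y hY
    simp only [neg_apply]
    linarith
  have h5 : f O = c := by
    simp only [neg_apply] at h4
    linarith
  obtain ⟨v, hv, hfv⟩ := exists_ker_ne_zero f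
  refine ⟨v, hv, ?_⟩
  intro s t hs ht
  have hY : f (O + t • v) = c := by rw [map_add, map_smul, hfv, smul_zero, add_zero, h5]
  by_contra hlt
  push Not at hlt
  rcases lt_trichotomy s 0 with h0 | h0 | h0
  · have h6 : O + (-s) • -u = O + s • u := by simp
    have h7 : O + t • v ∈ horo M d O (-u) := by
      refine ⟨-s, by linarith, ?_, ht, ?_⟩
      · rw [h6]; exact hs
      · rw [h6]; exact hlt
    have := h2 _ h7
    linarith
  · rw [h0, zero_smul, add_zero] at hlt
    rw [(hd.eq_zero_iff _ hO _ hO).2 rfl] at hlt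
    have h6 := hd.triangle O hO _ ht O hO
    rw [(hd.eq_zero_iff _ hO _ hO).2 rfl, hd.symm _ ht _ hO] at h6
    linarith
  · have h7 : O + t • v ∈ horo M d O u := ⟨s, h0, hs, ht, hlt⟩
    have := h1 _ h7
    linarith

/-- two perpendicular lines are different -/
theorem linearIndependent_of_perp (hd : IsProjectiveMetric M d) {O : Pl} (hO : O ∈ M) {u v : Pl}
    (hu : u ≠ 0) (hv : v ≠ 0) (hp : Perp M d O u v) : LinearIndependent ℝ ![u, v] := by
  rw [LinearIndependent.pair_iff]
  intro a b hab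
  by_cases hb : b = 0
  · rw [hb, zero_smul, add_zero] at hab
    exact ⟨(smul_eq_zero.1 hab).resolve_right hu, hb⟩
  exfalso
  have h1 : v = (-(a / b)) • u := by
    have h2 : b • v = -(a • u) := by
      rw [eq_neg_iff_add_eq_zero, add_comm]
      exact hab
    have h3 : v = b⁻¹ • (b • v) := by rw [smul_smul, inv_mul_cancel₀ hb, one_smul]
    rw [h3, h2, smul_neg, smul_smul, neg_smul]
    congr 2
    rw [div_eq_mul_inv, mul_comm]
  set c : ℝ := -(a / b) with hc
  have hc0 : c ≠ 0 := by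
    rintro h0
    rw [h0, zero_smul] at h1
    exact hv h1
  obtain ⟨δ, hδ, h2⟩ := Metric.isOpen_iff.1 hd.isOpen O hO
  have hun : 0 < ‖u‖ := norm_pos_iff.2 hu
  set s : ℝ := δ / (2 * ‖u‖) with hs
  have hs0 : 0 < s := by positivity
  have hsM : O + s • u ∈ M := by
    apply h2
    rw [Metric.mem_ball, dist_eq_norm, add_sub_cancel_left, norm_smul, Real.norm_eq_abs,
      abs_of_pos hs0]
    have h4 : δ / (2 * ‖u‖) * ‖u‖ = δ / 2 := by field_simp
    rw [hs, h4]
    linarith
  have h3 : O + (s / c) • v = O + s • u := by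
    rw [h1, smul_smul, div_mul_cancel₀ _ hc0]
  have h4 := hp s (s / c) hsM (by rw [h3]; exact hsM)
  rw [h3, (hd.eq_zero_iff _ hsM _ hsM).2 rfl] at h4
  have h5 := hd.triangle _ hsM O hO _ hsM
  rw [(hd.eq_zero_iff _ hsM _ hsM).2 rfl, hd.symm _ hO _ hsM] at h5
  have h6 : d (O + s • u) O = 0 := by linarith
  have h7 := (hd.eq_zero_iff _ hsM _ hO).1 h6
  have h8 : s • u = 0 := by
    have := congrArg (fun x => x - O) h7
    simpa using this
  rcases smul_eq_zero.1 h8 with h9 | h9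
  · exact hs0.ne' h9
  · exact hu h9

/-- Convex balls and symmetry: every line has a perpendicular at each of its points. -/
theorem exists_perp_of_convexBalls' (hd : IsProjectiveMetric M d) (hb : HasConvexBalls M d)
    (hsym : SymmetricPerp M d) {O : Pl} (hO : O ∈ M) {v : Pl} (hv : v ≠ 0) :
    ∃ u : Pl, u ≠ 0 ∧ Perp M d O u v := by
  obtain ⟨w, hw, hp⟩ := exists_perp_of_convexBalls hd hb hO hv
  exact ⟨w, hw, hsym O hO v w (linearIndependent_of_perp hd hO hv hw hp) hp⟩

end Pool.Agent.Lib_1de93e
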