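import Pool.Agent.Lib_1de93e.Defs

/-!
# Convex balls: definition
-/

namespace Pool.Agent.Lib_1de93e

/-- All open balls of `(M, d)` are convex. -/
def HasConvexBalls (M : Set Pl) (d : Pl → Pl → ℝ) : Prop :=
  ∀ X ∈ M, ∀ r : ℝ, Convex ℝ {Y : Pl | Y ∈ M ∧ d X Y < r}

end Pool.Agent.Lib_1de93e
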