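import Pool.Agent.Lib_1de93e.Defs

/-!
# Radon norms and the projective map
-/

namespace Pool.Agent.Lib_1de93e

/-- Birkhoff orthogonality in the normed plane `(ℝ², N)`. -/
def Birkhoff (N : Pl → ℝ) (u v : Pl) : Prop := ∀ s : ℝ, N u ≤ N (u + s • v)

/-- Birkhoff orthogonality is symmetric, i.e. the norm `N` is a Radon norm. -/
def SymmBirkhoff (N : Pl → ℝ) : Prop := ∀ u v : Pl, Birkhoff N u v → Birkhoff N v u

/-- The projective map `x ↦ (x - x₀) / (1 + m (x - x₀))`. -/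
noncomputable def prj (x₀ : Pl) (m : Pl →L[ℝ] ℝ) (x : Pl) : Pl := (1 + m (x - x₀))⁻¹ • (x - x₀)

end Pool.Agent.Lib_1de93e
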