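import Pool.Agent.Lib_1de93e.Ae

/-!
# Second order quotients of the distance
-/

namespace Pool.Agent.Lib_1de93e

open Set MeasureTheory Filter Topology
open scoped NNReal

variable {M : Set Pl} {F d : Pl → Pl → ℝ}

/-- Expansion of the distance near a point of differentiability. -/
theorem d_expand (h : FPlane M F d) {x u : Pl} (hx : x ∈ M) {G : Pl →L[ℝ] ℝ}
    (hG : HasFDerivAt (fun y => F y u) G x) {C ε : ℝ} (hC : 0 ≤ C) (hε : 0 < ε) :
    ∃ δ > 0, ∀ s : ℝ, 0 < s → s < δ → ∀ a : Pl, ‖a - x‖ ≤ C * s → a ∈ M ∧ a + s • u ∈ M ∧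
      |d a (a + s • u) - s * F x u - s * G (a - x) - s ^ 2 / 2 * G u| ≤ ε * s ^ 2 := by
  set T := C + ‖u‖ + 1 with hT
  have hTpos : 0 < T := by positivity
  set ε' := ε / T with hε'
  have hε'pos : 0 < ε' := by positivity
  rw [hasFDerivAt_iff_isLittleO, Asymptotics.isLittleO_iff] at hG
  have h1 := hG hε'pos
  have h2 := h1.and (h.isOpen.mem_nhds hx)
  rw [Metric.eventually_nhds_iff] at h2
  obtain ⟨δ₀, hδ₀, h3⟩ := h2
  refine ⟨δ₀ / T, by positivity, fun s hs hsδ a ha => ?_⟩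
  have hsT : T * s < δ₀ := by rw [lt_div_iff₀ hTpos] at hsδ; linarith
  have hnear : ∀ σ : ℝ, 0 ≤ σ → σ ≤ s → ‖a + σ • u - x‖ ≤ (C + ‖u‖) * s := by
    intro σ hσ hσs
    have e : a + σ • u - x = (a - x) + σ • u := by abel
    rw [e]
    calc ‖(a - x) + σ • u‖ ≤ ‖a - x‖ + ‖σ • u‖ := norm_add_le _ _
      _ = ‖a - x‖ + σ * ‖u‖ := by rw [norm_smul, Real.norm_eq_abs, abs_of_nonneg hσ]
      _ ≤ C * s + s * ‖u‖ := by gcongr
      _ = (C + ‖u‖) * s := by ring
  have hnear2 : ∀ σ : ℝ, 0 ≤ σ → σ ≤ s → dist (a + σ • u) x < δ₀ := by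
    intro σ hσ hσs
    rw [dist_eq_norm]
    have := hnear σ hσ hσs
    have h4 : (C + ‖u‖) * s ≤ T * s := by gcongr; rw [hT]; linarith
    linarith
  have haM : a ∈ M := by
    have := (h3 (hnear2 0 le_rfl hs.le)).2
    rw [zero_smul, add_zero] at this
    exact this
  have hasM : a + s • u ∈ M := (h3 (hnear2 s hs.le le_rfl)).2
  refine ⟨haM, hasM, ?_⟩
  rw [h.d_line hs.le haM hasM]
  have hint : IntervalIntegrable (fun σ : ℝ => F (a + σ • u) u) volume 0 s := by
    apply ContinuousOn.intervalIntegrable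
    rw [uIcc_of_le hs.le]
    exact h.continuousOn_line (fun t ht => (h3 (hnear2 t ht.1 ht.2)).2)
  have hint2 : IntervalIntegrable (fun σ : ℝ => F x u + G (a - x) + σ * G u) volume 0 s := by
    apply Continuous.intervalIntegrable
    fun_prop
  have e1 : ∫ σ in (0:ℝ)..s, (F x u + G (a - x) + σ * G u) =
      s * F x u + s * G (a - x) + s ^ 2 / 2 * G u := by
    rw [intervalIntegral.integral_add (by simp) (by
      apply Continuous.intervalIntegrable; fun_prop)]
    rw [intervalIntegral.integral_mul_const, integral_id]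
    simp only [intervalIntegral.integral_const, sub_zero, smul_eq_mul]
    ring
  have e2 : (∫ σ in (0:ℝ)..s, F (a + σ • u) u) - s * F x u - s * G (a - x) - s ^ 2 / 2 * G u =
      ∫ σ in (0:ℝ)..s, (F (a + σ • u) u - (F x u + G (a - x) + σ * G u)) := by
    rw [intervalIntegral.integral_sub hint hint2, e1]
    ring
  rw [e2]
  have hb := intervalIntegral.norm_integral_le_of_norm_le_const (a := 0) (b := s)
    (f := fun σ : ℝ => F (a + σ • u) u - (F x u + G (a - x) + σ * G u)) (C := ε * s) (by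
      intro σ hσ
      rw [uIoc_of_le hs.le] at hσ
      have h5 := (h3 (hnear2 σ hσ.1.le hσ.2)).1
      have h6 := hnear σ hσ.1.le hσ.2
      have e3 : G (a + σ • u - x) = G (a - x) + σ * G u := by
        have : a + σ • u - x = (a - x) + σ • u := by abel
        rw [this, map_add, map_smul, smul_eq_mul]
      rw [e3] at h5
      have e4 : F (a + σ • u) u - (F x u + G (a - x) + σ * G u) =
          F (a + σ • u) u - F x u - (G (a - x) + σ * G u) := by ring
      rw [e4]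
      refine h5.trans ?_
      calc ε' * ‖a + σ • u - x‖ ≤ ε' * ((C + ‖u‖) * s) := by gcongr
        _ ≤ ε' * (T * s) := by gcongr; rw [hT]; linarith
        _ = ε * s := by rw [hε']; field_simp)
  rw [Real.norm_eq_abs, sub_zero, abs_of_pos hs] at hb
  calc _ ≤ ε * s * s := hb
    _ = ε * s ^ 2 := by ring

/-- Second order quotients. -/
noncomputable def Dq (F d : Pl → Pl → ℝ) (s : ℝ) (x u : Pl) : ℝ :=
  (d x (x + s • u) - s * F x u) / s ^ 2

theorem tendsto_Dq (h : FPlane M F d) {x u : Pl} (hx : x ∈ M) {G : Pl →L[ℝ] ℝ}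
    (hG : HasFDerivAt (fun y => F y u) G x) :
    Tendsto (fun s => Dq F d s x u) (𝓝[>] 0) (𝓝 (G u / 2)) := by
  rw [Metric.tendsto_nhds]
  intro ε hε
  obtain ⟨δ, hδ, h1⟩ := d_expand h hx hG (C := 0) le_rfl (half_pos hε)
  filter_upwards [Ioo_mem_nhdsGT hδ] with s hs
  obtain ⟨-, -, h2⟩ := h1 s hs.1 hs.2 x (by simp)
  rw [sub_self, map_zero, mul_zero, sub_zero] at h2
  have hs2 : 0 < s ^ 2 := by have := hs.1; positivity
  rw [Real.dist_eq]
  unfold Dq
  have e : (d x (x + s • u) - s * F x u) / s ^ 2 - G u / 2 =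
      (d x (x + s • u) - s * F x u - s ^ 2 / 2 * G u) / s ^ 2 := by
    have := hs.1.ne'
    field_simp
  rw [e, abs_div, abs_of_pos hs2, div_lt_iff₀ hs2]
  calc _ ≤ ε / 2 * s ^ 2 := h2
    _ < ε * s ^ 2 := by nlinarith

/-- Convergence of equi-Lipschitz families. -/
theorem tendsto_of_equiLip {E : Type*} [PseudoMetricSpace E] {D U : Set E} {K : ℝ≥0}
    {f : ℝ → E → ℝ} {l : Filter ℝ} [l.NeBot] (hlip : ∀ᶠ s in l, LipschitzOnWith K (f s) U)
    {g₀ : E → ℝ} (hD : ∀ v ∈ U ∩ D, Tendsto (fun s => f s v) l (𝓝 (g₀ v)))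
    (hdense : ∀ v ∈ U, ∀ ε > 0, ∃ v' ∈ U ∩ D, dist v' v < ε) :
    ∃ g : E → ℝ, LipschitzWith K g ∧ ∀ v ∈ U, Tendsto (fun s => f s v) l (𝓝 (g v)) := by
  have h0 : LipschitzOnWith K g₀ (U ∩ D) := by
    apply LipschitzOnWith.of_dist_le_mul
    intro x hx y hy
    have h1 : Tendsto (fun s => dist (f s x) (f s y)) l (𝓝 (dist (g₀ x) (g₀ y))) :=
      (hD x hx).dist (hD y hy)
    apply le_of_tendsto h1
    filter_upwards [hlip] with s hs
    exact hs.dist_le_mul x hx.1 y hy.1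
  obtain ⟨g, hg, hgeq⟩ := h0.extend_real
  refine ⟨g, hg, fun v hv => ?_⟩
  rw [Metric.tendsto_nhds]
  intro ε hε
  set η := ε / (3 * (K + 1)) with hη
  have hηpos : 0 < η := by positivity
  obtain ⟨v', hv', hd'⟩ := hdense v hv η hηpos
  have h1 := Metric.tendsto_nhds.1 (hD v' hv') (ε / 3) (by positivity)
  filter_upwards [h1, hlip] with s hs1 hs2
  have h2 := hs2.dist_le_mul v hv v' hv'.1
  have h3 := hg.dist_le_mul v' v
  rw [← hgeq hv'] at h3
  have hK : (K:ℝ) * η ≤ ε / 3 := by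
    have : (0:ℝ) ≤ K := K.2
    rw [hη]
    rw [mul_div_assoc', div_le_div_iff₀ (by positivity) (by norm_num)]
    nlinarith
  have h4 : (K:ℝ) * dist v v' ≤ K * η := by
    rw [dist_comm]; gcongr
  have h5 : (K:ℝ) * dist v' v ≤ K * η := by gcongr
  have t1 := dist_triangle (f s v) (f s v') (g v)
  have t2 := dist_triangle (f s v') (g₀ v') (g v)
  linarith

/-- The limit of the second order quotients. -/
noncomputable def Phi (F d : Pl → Pl → ℝ) (x u : Pl) : ℝ :=
  limUnder (𝓝[>] (0:ℝ)) (fun s => Dq F d s x u)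

/-- A good point. -/
structure Good (M : Set Pl) (F κ : Pl → Pl → ℝ) (x : Pl) : Prop where
  rad_diff : DifferentiableAt ℝ (rad F κ) x
  ae_diff : ∀ᵐ θ ∂(volume : Measure ℝ), DifferentiableAt ℝ (fun y => F y (ang θ)) x

variable {κ : Pl → Pl → ℝ}

theorem Good.dense (h : FPlane M F d) {x : Pl} (hx : x ∈ M) (hg : Good M F κ x) (v : Pl) {ε : ℝ}
    (hε : 0 < ε) : ∃ v', dist v' v < ε ∧ DifferentiableAt ℝ (fun y => F y v') x := by
  have hd := MeasureTheory.Measure.dense_of_ae hg.ae_diff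
  obtain ⟨θ, hθ⟩ := exists_ang' v
  have hc : ContinuousAt (fun θ => ‖v‖ • ang θ) θ := by
    have h0 := continuous_ang
    exact (h0.const_smul ‖v‖).continuousAt
  rw [Metric.continuousAt_iff] at hc
  obtain ⟨δ, hδ, h1⟩ := hc ε hε
  obtain ⟨θ', hθ', h2⟩ := hd.exists_dist_lt θ hδ
  refine ⟨‖v‖ • ang θ', ?_, ?_⟩
  · have := h1 (x := θ') (by rw [dist_comm]; exact h2)
    rwa [← hθ] at this
  · have h3 : DifferentiableAt ℝ (fun y => F y (ang θ')) x := hθ'
    have e3 : (fun y => F y (‖v‖ • ang θ')) =ᶠ[𝓝 x] fun y => ‖v‖ * F y (ang θ') := by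
      filter_upwards [h.isOpen.mem_nhds hx] with y hy
      rw [(h.fin.norm y hy).smul_nonneg (norm_nonneg v)]
    exact (h3.const_mul _).congr_of_eventuallyEq e3

namespace LBall

variable {P : Pl} {r m Λ K L : ℝ}

theorem mem_half (hB : LBall M F κ P r m Λ K L) {x : Pl} (hx : x ∈ Metric.ball P (r / 2)) :
    x ∈ Metric.ball P r := Metric.ball_subset_ball (by linarith [hB.r_pos]) hx

theorem mem_add (_hB : LBall M F κ P r m Λ K L) {x v : Pl} (hx : x ∈ Metric.ball P (r / 2))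
    (hv : ‖v‖ < r / 2) : x + v ∈ Metric.ball P r := by
  rw [Metric.mem_ball] at hx ⊢
  calc dist (x + v) P ≤ dist (x + v) x + dist x P := dist_triangle _ _ _
    _ = ‖v‖ + dist x P := by rw [dist_eq_norm, add_sub_cancel_left]
    _ < r := by linarith

/-- Lipschitz estimate of `pf` along lines, homogeneous form. -/
theorem norm_pf_sub_le (hB : LBall M F κ P r m Λ K L) (h : KPlane M F d κ) {x v : Pl} {s : ℝ}
    (hx : x ∈ Metric.ball P r) (hv : v ≠ 0) (hxs : x + s • v ∈ Metric.ball P r) :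
    ‖pf F κ (x + s • v) v - pf F κ x v‖ ≤ L * |s| * ‖v‖ := by
  have hn : 0 < ‖v‖ := norm_pos_iff.2 hv
  have hL := hB.L_pos
  apply ContinuousLinearMap.opNorm_le_bound _ (by positivity)
  intro w
  set e := ‖v‖⁻¹ • v with he
  have hene : e ≠ 0 := smul_ne_zero (inv_ne_zero hn.ne') hv
  have hen : ‖e‖ = 1 := by rw [he, norm_smul, norm_inv, norm_norm, inv_mul_cancel₀ hn.ne']
  have hve : v = ‖v‖ • e := by rw [he, smul_smul, mul_inv_cancel₀ hn.ne', one_smul]
  have hsv : s • v = (s * ‖v‖) • e := by rw [mul_smul, ← hve]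
  have h1 := hB.lipp x hx e hen (s * ‖v‖) (by rw [← hsv]; exact hxs) w
  rw [← hsv, abs_mul, abs_norm] at h1
  have e1 : pf F κ (x + s • v) v = pf F κ (x + s • v) e := by
    have := h.toC1Plane.p_smul (hB.sub hxs) hene hn
    rwa [← hve] at this
  have e2 : pf F κ x v = pf F κ x e := by
    have := h.toC1Plane.p_smul (hB.sub hx) hene hn
    rwa [← hve] at this
  rw [e1, e2, sub_apply, Real.norm_eq_abs]
  calc _ ≤ L * (|s| * ‖v‖) * ‖w‖ := h1
    _ = L * |s| * ‖v‖ * ‖w‖ := by ring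

theorem hasFDerivAt_Dq (hB : LBall M F κ P r m Λ K L) (h : KPlane M F d κ) {x v : Pl} {s : ℝ}
    (hx : x ∈ Metric.ball P r) (hv : v ≠ 0) (hs : 0 < s) (hxs : x + s • v ∈ Metric.ball P r) :
    HasFDerivAt (fun v => Dq F d s x v) (s⁻¹ • (pf F κ (x + s • v) v - pf F κ x v)) v := by
  have hxM := hB.sub hx
  have hne : x ≠ x + s • v := by
    intro h0
    have h3 : s • v = 0 := by simpa using h0.symm
    rcases smul_eq_zero.1 h3 with h4 | h4
    · exact hs.ne' h4
    · exact hv h4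
  have h1 := h.toC1Plane.hasFDerivAt_d hxM (hB.sub hxs) hne
  rw [add_sub_cancel_left, h.toC1Plane.p_smul (hB.sub hxs) hv hs] at h1
  have h2 : HasFDerivAt (fun v : Pl => x + s • v) (s • ContinuousLinearMap.id ℝ Pl) v :=
    ((hasFDerivAt_id v).const_smul s).const_add x
  have h3 := h1.comp v h2
  have h4 := (h3.sub ((h.toC1Plane.hasFDerivAt x hxM v hv).const_mul s)).mul_const ((s ^ 2)⁻¹)
  have h5 : (fun v => Dq F d s x v) = fun v =>
      ((d x ∘ fun v => x + s • v) v - s * F x v) * (s ^ 2)⁻¹ := by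
    funext v
    unfold Dq
    rw [div_eq_mul_inv]
    rfl
  rw [h5]
  refine h4.congr_fderiv ?_
  ext w
  simp only [smul_apply, sub_apply, ContinuousLinearMap.comp_apply,
    ContinuousLinearMap.id_apply, map_smul, smul_eq_mul]
  field_simp

end LBall

end Pool.Agent.Lib_1de93e
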