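import Pool.Agent.Lib_1de93e.Basic

/-!
# The metric of a Finslerian projective-metric plane
-/

namespace Pool.Agent.Lib_1de93e

open Set MeasureTheory Filter Topology

variable {M : Set Pl} {F d : Pl → Pl → ℝ}

namespace IsProjectiveMetric

variable (hP : IsProjectiveMetric M d)

include hP

theorem self_eq_zero {x : Pl} (hx : x ∈ M) : d x x = 0 := (hP.eq_zero_iff x hx x hx).2 rfl

theorem nonneg {x y : Pl} (hx : x ∈ M) (hy : y ∈ M) : 0 ≤ d x y := by
  have h1 := hP.triangle x hx y hy x hx
  rw [hP.self_eq_zero hx, hP.symm y hy x hx] at h1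
  linarith

theorem abs_sub_le {x y x' y' : Pl} (hx : x ∈ M) (hy : y ∈ M) (hx' : x' ∈ M) (hy' : y' ∈ M) :
    |d x y - d x' y'| ≤ d x x' + d y y' := by
  rw [abs_le]
  have a1 := hP.triangle x hx x' hx' y hy
  have a2 := hP.triangle x' hx' y' hy' y hy
  have a3 := hP.triangle x' hx' x hx y' hy'
  have a4 := hP.triangle x hx y hy y' hy'
  have s1 := hP.symm y' hy' y hy
  have s2 := hP.symm x' hx' x hx
  constructor <;> linarith

theorem continuousOn_uncurry : ContinuousOn (fun p : Pl × Pl => d p.1 p.2) (M ×ˢ M) := by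
  rintro ⟨x, y⟩ ⟨hx, hy⟩
  simp only at hx hy
  rw [Metric.continuousWithinAt_iff]
  intro ε hε
  obtain ⟨δ₁, hδ₁, h₁⟩ := hP.topo₁ x hx (ε/2) (by positivity)
  obtain ⟨δ₂, hδ₂, h₂⟩ := hP.topo₁ y hy (ε/2) (by positivity)
  refine ⟨min δ₁ δ₂, lt_min hδ₁ hδ₂, ?_⟩
  rintro ⟨x', y'⟩ ⟨hx', hy'⟩ hd
  simp only at hx' hy'
  rw [Prod.dist_eq, max_lt_iff] at hd
  simp only at hd ⊢
  have e1 := h₁ x' hx' (by rw [dist_comm]; exact hd.1.trans_le (min_le_left _ _))
  have e2 := h₂ y' hy' (by rw [dist_comm]; exact hd.2.trans_le (min_le_right _ _))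
  rw [Real.dist_eq, abs_sub_comm]
  have := hP.abs_sub_le hx hy hx' hy'
  linarith

theorem continuousOn_left {A : Pl} (hA : A ∈ M) : ContinuousOn (d A) M := by
  have : ContinuousOn (fun y => (fun p : Pl × Pl => d p.1 p.2) (A, y)) M := by
    apply hP.continuousOn_uncurry.comp (by fun_prop)
    intro y hy
    exact ⟨hA, hy⟩
  exact this

theorem continuousAt_uncurry {x y : Pl} (hx : x ∈ M) (hy : y ∈ M) :
    ContinuousAt (fun p : Pl × Pl => d p.1 p.2) (x, y) :=
  hP.continuousOn_uncurry.continuousAt ((hP.isOpen.prod hP.isOpen).mem_nhds ⟨hx, hy⟩)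

/-- Additivity along a line. -/
theorem add_line {A w : Pl} {r s t : ℝ} (hrs : r ≤ s) (hst : s ≤ t) (hr : A + r • w ∈ M)
    (ht : A + t • w ∈ M) : A + s • w ∈ M ∧
      d (A + r • w) (A + s • w) + d (A + s • w) (A + t • w) = d (A + r • w) (A + t • w) := by
  have hseg : A + s • w ∈ segment ℝ (A + r • w) (A + t • w) := by
    rcases (hrs.trans hst).eq_or_lt with h | h
    · have : s = r := le_antisymm (by rw [h]; exact hst) hrs
      rw [this]
      exact left_mem_segment _ _ _
    · refine ⟨(t - s) / (t - r), (s - r) / (t - r), by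
        apply div_nonneg <;> linarith, by apply div_nonneg <;> linarith, by
        rw [← add_div]; rw [div_eq_one_iff_eq (by linarith)]; ring, ?_⟩
      have h1 : (t - s) / (t - r) + (s - r) / (t - r) = 1 := by
        rw [← add_div]; rw [div_eq_one_iff_eq (by linarith)]; ring
      have h2 : (t - s) / (t - r) * r + (s - r) / (t - r) * t = s := by
        have : t - r ≠ 0 := by linarith
        field_simp
        ring
      rw [smul_add, smul_add, smul_smul, smul_smul]
      calc ((t - s) / (t - r)) • A + ((t - s) / (t - r) * r) • w +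
            (((s - r) / (t - r)) • A + ((s - r) / (t - r) * t) • w)
          = ((t - s) / (t - r) + (s - r) / (t - r)) • A +
            ((t - s) / (t - r) * r + (s - r) / (t - r) * t) • w := by
              rw [add_smul, add_smul]; abel
        _ = A + s • w := by rw [h1, h2, one_smul]
  have hs : A + s • w ∈ M := hP.convex.segment_subset hr ht hseg
  exact ⟨hs, (hP.geodesic _ hr _ hs _ ht).2 hseg⟩

end IsProjectiveMetric

/-- Standing assumptions: a Finslerian projective-metric plane. -/
structure FPlane (M : Set Pl) (F d : Pl → Pl → ℝ) : Prop where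
  pm : IsProjectiveMetric M d
  fin : IsFinsler M F
  len : IsLengthMetric M F d

namespace FPlane

variable (h : FPlane M F d)

include h

theorem isOpen : IsOpen M := h.pm.isOpen

/-- The distance between two points is the integral of `F` over the segment. -/
theorem d_eq_integral {A B : Pl} (hA : A ∈ M) (hB : B ∈ M) :
    d A B = ∫ t in (0:ℝ)..1, F (A + t • (B - A)) (B - A) := by
  set w := B - A with hw
  set P : ℝ → Pl := fun t => A + t • w with hPdef
  have hP0 : P 0 = A := by simp [hPdef]
  have hP1 : P 1 = B := by simp [hPdef, hw]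
  have hPM : ∀ t ∈ Icc (0:ℝ) 1, P t ∈ M := by
    intro t ht
    have := h.pm.add_line (A := A) (w := w) ht.1 ht.2 (by simpa using hA) (by simpa [hw] using hB)
    exact this.1
  have hPc : Continuous P := by fun_prop
  have hadd : ∀ {s t : ℝ}, 0 ≤ s → s ≤ t → t ≤ 1 →
      d A (P t) - d A (P s) = d (P s) (P t) := by
    intro s t hs hst ht
    have h1 := (h.pm.add_line (A := A) (w := w) hs hst (by simpa using hA)
      (hPM t ⟨hs.trans hst, ht⟩)).2
    rw [zero_smul, add_zero] at h1
    have h2 : d A (A + s • w) + d (A + s • w) (A + t • w) = d A (A + t • w) := h1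
    simp only [hPdef]
    linarith
  have hcont : ContinuousOn (fun t => d A (P t)) (Icc 0 1) :=
    (h.pm.continuousOn_left hA).comp hPc.continuousOn hPM
  have hderiv : ∀ t ∈ Ioo (0:ℝ) 1, HasDerivAt (fun t => d A (P t)) (F (P t) w) t := by
    intro t ht
    have htM := hPM t ⟨ht.1.le, ht.2.le⟩
    have hN := h.fin.norm _ htM
    rw [hasDerivAt_iff_isLittleO_nhds_zero, Asymptotics.isLittleO_iff]
    intro c hc
    have hFw : 0 ≤ F (P t) w := hN.nonneg w
    set ε : ℝ := min (1/2) (c / (F (P t) w + 1)) with hεdef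
    have hε : 0 < ε := lt_min (by norm_num) (by positivity)
    have hε1 : ε < 1 := (min_le_left _ _).trans_lt (by norm_num)
    have hεc : ε * F (P t) w ≤ c := by
      calc ε * F (P t) w ≤ (c / (F (P t) w + 1)) * F (P t) w := by
            gcongr; exact min_le_right _ _
        _ ≤ c := by
            rw [div_mul_eq_mul_div, div_le_iff₀ (by positivity)]
            nlinarith
    obtain ⟨η, hη, hloc⟩ := h.fin.metric_local h.isOpen h.len htM hε hε1
    have hev1 : ∀ᶠ e : ℝ in 𝓝 0, ‖e • w‖ < η := by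
      have hc : ContinuousAt (fun e : ℝ => ‖e • w‖) 0 := by fun_prop
      apply hc.eventually_lt continuousAt_const
      simpa using hη
    have hev2 : ∀ᶠ e : ℝ in 𝓝 0, t + e ∈ Icc (0:ℝ) 1 := by
      have hc : ContinuousAt (fun e : ℝ => t + e) 0 := by fun_prop
      have : Icc (0:ℝ) 1 ∈ 𝓝 (t + 0) := by
        rw [add_zero]; exact Icc_mem_nhds ht.1 ht.2
      exact hc this
    filter_upwards [hev1, hev2] with e he1 he2
    have hPte : P (t + e) = P t + e • w := by
      simp only [hPdef]; rw [add_smul]; abel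
    obtain ⟨-, l1, l2⟩ := hloc (e • w) he1
    rw [← hPte, hN.smul] at l1 l2
    have key : |d (P t) (P (t + e)) - |e| * F (P t) w| ≤ c * |e| := by
      rw [abs_le]
      have h3 : ε * (|e| * F (P t) w) ≤ c * |e| := by
        have : 0 ≤ |e| := abs_nonneg e
        nlinarith
      constructor <;> nlinarith
    have key2 : d A (P (t + e)) - d A (P t) - e * F (P t) w = 
        (if 0 ≤ e then 1 else -1) * (d (P t) (P (t + e)) - |e| * F (P t) w) := by
      split_ifs with he
      · rw [hadd ht.1.le (by linarith) he2.2, abs_of_nonneg he]; ring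
      · push Not at he
        have h5 := hadd he2.1 (by linarith : t + e ≤ t) ht.2.le
        rw [h.pm.symm _ htM _ (hPM _ he2), abs_of_neg he]
        linarith
    rw [smul_eq_mul, Real.norm_eq_abs, Real.norm_eq_abs, key2, abs_mul]
    have : |(if 0 ≤ e then (1:ℝ) else -1)| = 1 := by split_ifs <;> simp
    rw [this, one_mul]
    exact key
  have hint : IntervalIntegrable (fun t => F (P t) w) volume 0 1 := by
    apply ContinuousOn.intervalIntegrable
    rw [uIcc_of_le zero_le_one]
    have : ContinuousOn (fun t => (fun p : Pl × Pl => F p.1 p.2) (P t, w)) (Icc 0 1) := by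
      apply h.fin.cont.comp (by fun_prop)
      intro t ht
      exact ⟨hPM t ht, mem_univ _⟩
    exact this
  have := intervalIntegral.integral_eq_sub_of_hasDerivAt_of_le zero_le_one hcont hderiv hint
  rw [this, hP0, hP1, h.pm.self_eq_zero hA, sub_zero]

/-- Continuity of `F (P + t w) u` in `t`. -/
theorem continuousOn_line {P w u : Pl} {s : Set ℝ} (hs : ∀ t ∈ s, P + t • w ∈ M) :
    ContinuousOn (fun t : ℝ => F (P + t • w) u) s := by
  have : ContinuousOn (fun t : ℝ => (fun p : Pl × Pl => F p.1 p.2) (P + t • w, u)) s := by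
    apply h.fin.cont.comp (by fun_prop)
    intro t ht
    exact ⟨hs t ht, mem_univ _⟩
  exact this

theorem mem_line {A w : Pl} {r s t : ℝ} (hrs : r ≤ s) (hst : s ≤ t) (hr : A + r • w ∈ M)
    (ht : A + t • w ∈ M) : A + s • w ∈ M := (h.pm.add_line hrs hst hr ht).1

theorem mem_line0 {A w : Pl} {s t : ℝ} (hs : 0 ≤ s) (hst : s ≤ t) (hA : A ∈ M)
    (ht : A + t • w ∈ M) : A + s • w ∈ M := h.mem_line hs hst (by simpa using hA) ht

/-- Distances along a line. -/
theorem d_line {P u : Pl} {s : ℝ} (hs : 0 ≤ s) (hPM : P ∈ M) (hPs : P + s • u ∈ M) :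
    d P (P + s • u) = ∫ σ in (0:ℝ)..s, F (P + σ • u) u := by
  rw [h.d_eq_integral hPM hPs]
  rcases hs.eq_or_lt with h0 | h0
  · rw [← h0]
    simp only [zero_smul, add_zero, sub_self, smul_zero, intervalIntegral.integral_same]
    have : ∀ t : ℝ, F P (0:Pl) = 0 := fun _ => (h.fin.norm P hPM).zero
    simp [(h.fin.norm P hPM).zero]
  · have h1 : ∀ t ∈ Icc (0:ℝ) 1, F (P + t • (P + s • u - P)) (P + s • u - P) =
        s * F (P + (s * t) • u) u := by
      intro t ht
      have hm : P + (s * t) • u ∈ M := h.mem_line0 (by have := ht.1; positivity)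
        (by have := ht.2; nlinarith) hPM hPs
      rw [add_sub_cancel_left, smul_smul, mul_comm t s, (h.fin.norm _ hm).smul_nonneg h0.le]
    rw [intervalIntegral.integral_congr (g := fun t => s * F (P + (s * t) • u) u)
      (by rw [uIcc_of_le zero_le_one]; exact h1)]
    rw [intervalIntegral.integral_const_mul]
    have := intervalIntegral.mul_integral_comp_mul_left (a := 0) (b := 1)
      (f := fun σ => F (P + σ • u) u) (c := s)
    rw [this]
    simp

/-- Two-sided uniform local estimate. -/
theorem d_local {P : Pl} (hP : P ∈ M) {ε : ℝ} (hε : 0 < ε) :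
    ∃ η > 0, Metric.ball P η ⊆ M ∧ ∀ x ∈ Metric.ball P η, ∀ y ∈ Metric.ball P η,
      |d x y - F P (y - x)| ≤ ε * F P (y - x) := by
  obtain ⟨r, hr, hrM, hcomp⟩ := h.fin.local_compare h.isOpen hP hε
  refine ⟨r, hr, hrM, fun x hx y hy => ?_⟩
  rw [h.d_eq_integral (hrM hx) (hrM hy)]
  have hball : ∀ t ∈ Icc (0:ℝ) 1, x + t • (y - x) ∈ Metric.ball P r := by
    intro t ht
    apply (convex_ball P r).segment_subset hx hy
    rw [segment_eq_image']
    exact ⟨t, ht, rfl⟩
  have hint : IntervalIntegrable (fun t : ℝ => F (x + t • (y - x)) (y - x)) volume 0 1 := by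
    apply ContinuousOn.intervalIntegrable
    rw [uIcc_of_le zero_le_one]
    exact h.continuousOn_line (fun t ht => hrM (hball t ht))
  have h2 : ∫ t in (0:ℝ)..1, F (x + t • (y - x)) (y - x) - F P (y - x) =
      (∫ t in (0:ℝ)..1, F (x + t • (y - x)) (y - x)) - F P (y - x) := by
    rw [intervalIntegral.integral_sub hint intervalIntegrable_const]
    simp
  rw [← h2]
  have h3 := intervalIntegral.norm_integral_le_of_norm_le_const (a := 0) (b := 1)
    (f := fun t : ℝ => F (x + t • (y - x)) (y - x) - F P (y - x)) (C := ε * F P (y - x))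
    (by
      intro t ht
      rw [uIoc_of_le zero_le_one] at ht
      rw [Real.norm_eq_abs]
      exact hcomp _ (hball t ⟨ht.1.le, ht.2⟩) _)
  simpa using h3

/-- Perpendicular lines have Birkhoff orthogonal tangent directions. -/
theorem tangent_of_perp {O u v : Pl} (hO : O ∈ M) (hp : Perp M d O u v) (s : ℝ) :
    F O u ≤ F O (u + s • v) := by
  have hN := h.fin.norm O hO
  by_contra hcon
  push Not at hcon
  -- choose ε with (1+ε) F O (u+sv) < (1-ε) F O u
  set a := F O u with ha
  set b := F O (u + s • v) with hb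
  have hb0 : 0 ≤ b := hN.nonneg _
  have hapos : 0 < a := lt_of_le_of_lt hb0 hcon
  set ε := (a - b) / (2 * (a + b)) with hεdef
  have hε : 0 < ε := by apply div_pos <;> linarith
  have hε2 : (1 + ε) * b < (1 - ε) * a := by
    have : ε * (a + b) = (a - b) / 2 := by rw [hεdef]; field_simp
    nlinarith
  obtain ⟨η, hη, hηM, hloc⟩ := h.d_local hO hε
  have hev : ∀ᶠ t : ℝ in 𝓝[>] 0, O + t • u ∈ Metric.ball O η ∧ O + (-(t * s)) • v ∈ Metric.ball O η := by
    have c1 : ContinuousAt (fun t : ℝ => O + t • u) 0 := by fun_prop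
    have c2 : ContinuousAt (fun t : ℝ => O + (-(t * s)) • v) 0 := by fun_prop
    have e1 : ∀ᶠ t : ℝ in 𝓝 0, O + t • u ∈ Metric.ball O η := by
      apply c1
      simpa using Metric.ball_mem_nhds O hη
    have e2 : ∀ᶠ t : ℝ in 𝓝 0, O + (-(t * s)) • v ∈ Metric.ball O η := by
      apply c2
      simpa using Metric.ball_mem_nhds O hη
    exact (e1.and e2).filter_mono nhdsWithin_le_nhds
  obtain ⟨t, ⟨ht1, ht2⟩, ht0'⟩ := (hev.and self_mem_nhdsWithin).exists
  have ht0 : 0 < t := ht0'
  have h1 := hp t (-(t * s)) (hηM ht1) (hηM ht2)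
  have l1 := (abs_le.1 (hloc _ ht1 _ (Metric.mem_ball_self hη))).1
  have l2 := (abs_le.1 (hloc _ ht1 _ ht2)).2
  have e1 : F O (O - (O + t • u)) = t * a := by
    rw [hN.sub_comm, add_sub_cancel_left, hN.smul_nonneg ht0.le]
  have e2 : F O (O + (-(t * s)) • v - (O + t • u)) = t * b := by
    have : O + (-(t * s)) • v - (O + t • u) = -(t • (u + s • v)) := by
      rw [smul_add, smul_smul, neg_smul]; abel
    rw [this, hN.neg, hN.smul_nonneg ht0.le]
  rw [e1] at l1
  rw [e2] at l2
  nlinarith

end FPlane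

end Pool.Agent.Lib_1de93e
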