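import Pool.Agent.Lib_1de93e.EllDefs
import Pool.Agent.Lib_1de93e.Metric

/-!
# Charts of Finslerian planes of elliptic type
-/

namespace Pool.Agent.Lib_1de93e

open Set MeasureTheory Filter Topology

section General

variable {M : Set Pl} {F d : Pl → Pl → ℝ}

/-- Local two-sided estimate. -/
def LocalEst (M : Set Pl) (F d : Pl → Pl → ℝ) : Prop :=
  ∀ P ∈ M, ∀ ε : ℝ, 0 < ε → ε < 1 → ∃ η > 0, ∀ w : Pl, ‖w‖ < η →
    (1 - ε) * F P w ≤ d P (P + w) ∧ d P (P + w) ≤ (1 + ε) * F P w

theorem d_eq_integral_of_local (hP : IsProjectiveMetric M d) (hF : IsFinsler M F)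
    (hloc : LocalEst M F d) {A B : Pl} (hA : A ∈ M) (hB : B ∈ M) :
    d A B = ∫ t in (0:ℝ)..1, F (A + t • (B - A)) (B - A) := by
  set w := B - A with hw
  set P : ℝ → Pl := fun t => A + t • w with hPdef
  have hP0 : P 0 = A := by simp [hPdef]
  have hP1 : P 1 = B := by simp [hPdef, hw]
  have hPM : ∀ t ∈ Icc (0:ℝ) 1, P t ∈ M := by
    intro t ht
    have := hP.add_line (A := A) (w := w) ht.1 ht.2 (by simpa using hA) (by simpa [hw] using hB)
    exact this.1
  have hPc : Continuous P := by fun_prop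
  have hadd : ∀ {s t : ℝ}, 0 ≤ s → s ≤ t → t ≤ 1 →
      d A (P t) - d A (P s) = d (P s) (P t) := by
    intro s t hs hst ht
    have h1 := (hP.add_line (A := A) (w := w) hs hst (by simpa using hA)
      (hPM t ⟨hs.trans hst, ht⟩)).2
    rw [zero_smul, add_zero] at h1
    have h2 : d A (A + s • w) + d (A + s • w) (A + t • w) = d A (A + t • w) := h1
    simp only [hPdef]
    linarith
  have hcont : ContinuousOn (fun t => d A (P t)) (Icc 0 1) :=
    (hP.continuousOn_left hA).comp hPc.continuousOn hPM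
  have hderiv : ∀ t ∈ Ioo (0:ℝ) 1, HasDerivAt (fun t => d A (P t)) (F (P t) w) t := by
    intro t ht
    have htM := hPM t ⟨ht.1.le, ht.2.le⟩
    have hN := hF.norm _ htM
    rw [hasDerivAt_iff_isLittleO_nhds_zero, Asymptotics.isLittleO_iff]
    intro c hc
    have hFw : 0 ≤ F (P t) w := hN.nonneg w
    set ε : ℝ := min (1/2) (c / (F (P t) w + 1)) with hεdef
    have hε : 0 < ε := lt_min (by norm_num) (by positivity)
    have hε1 : ε < 1 := (min_le_left _ _).trans_lt (by norm_num)
    have hεc : ε * F (P t) w ≤ c := by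
      calc ε * F (P t) w ≤ (c / (F (P t) w + 1)) * F (P t) w := by
            gcongr; exact min_le_right _ _
        _ ≤ c := by
            rw [div_mul_eq_mul_div, div_le_iff₀ (by positivity)]
            nlinarith
    obtain ⟨η, hη, hlo⟩ := hloc _ htM ε hε hε1
    have hev1 : ∀ᶠ e : ℝ in 𝓝 0, ‖e • w‖ < η := by
      have hc : ContinuousAt (fun e : ℝ => ‖e • w‖) 0 := by fun_prop
      apply hc.eventually_lt continuousAt_const
      simpa using hη
    have hev2 : ∀ᶠ e : ℝ in 𝓝 0, t + e ∈ Icc (0:ℝ) 1 := by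
      have hc : ContinuousAt (fun e : ℝ => t + e) 0 := by fun_prop
      have : Icc (0:ℝ) 1 ∈ 𝓝 (t + 0) := by
        rw [add_zero]; exact Icc_mem_nhds ht.1 ht.2
      exact hc this
    filter_upwards [hev1, hev2] with e he1 he2
    have hPte : P (t + e) = P t + e • w := by
      simp only [hPdef]; rw [add_smul]; abel
    obtain ⟨l1, l2⟩ := hlo (e • w) he1
    rw [← hPte, hN.smul] at l1 l2
    have key : |d (P t) (P (t + e)) - |e| * F (P t) w| ≤ c * |e| := by
      rw [abs_le]
      have h3 : ε * (|e| * F (P t) w) ≤ c * |e| := by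
        have : 0 ≤ |e| := abs_nonneg e
        nlinarith
      constructor <;> nlinarith
    have key2 : d A (P (t + e)) - d A (P t) - e * F (P t) w = 
        (if 0 ≤ e then 1 else -1) * (d (P t) (P (t + e)) - |e| * F (P t) w) := by
      split_ifs with he
      · rw [hadd ht.1.le (by linarith) he2.2, abs_of_nonneg he]; ring
      · push Not at he
        have h5 := hadd he2.1 (by linarith : t + e ≤ t) ht.2.le
        rw [hP.symm _ htM _ (hPM _ he2), abs_of_neg he]
        linarith
    rw [smul_eq_mul, Real.norm_eq_abs, Real.norm_eq_abs, key2, abs_mul]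
    have : |(if 0 ≤ e then (1:ℝ) else -1)| = 1 := by split_ifs <;> simp
    rw [this, one_mul]
    exact key
  have hint : IntervalIntegrable (fun t => F (P t) w) volume 0 1 := by
    apply ContinuousOn.intervalIntegrable
    rw [uIcc_of_le zero_le_one]
    have : ContinuousOn (fun t => (fun p : Pl × Pl => F p.1 p.2) (P t, w)) (Icc 0 1) := by
      apply hF.cont.comp (by fun_prop)
      intro t ht
      exact ⟨hPM t ht, mem_univ _⟩
    exact this
  have := intervalIntegral.integral_eq_sub_of_hasDerivAt_of_le zero_le_one hcont hderiv hint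
  rw [this, hP0, hP1, hP.self_eq_zero hA, sub_zero]

/-- The norm of a displacement is at most the length of the curve. -/
theorem norm_sub_le_integral' {N : Pl → ℝ} (hN : IsNorm N) {c c' : ℝ → Pl}
    {a b : ℝ} (hab : a ≤ b) (hc : ∀ t ∈ Icc a b, HasDerivAt c (c' t) t)
    (hc' : ContinuousOn c' (Icc a b)) {f : ℝ → ℝ} (hf : IntervalIntegrable f volume a b)
    (hle : ∀ t ∈ Icc a b, N (c' t) ≤ f t) :
    N (c b - c a) ≤ ∫ t in a..b, f t := by
  obtain ⟨l, hl1, hl2⟩ := hN.exists_functional (c b - c a)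
  set L : Pl →L[ℝ] ℝ := LinearMap.toContinuousLinearMap l with hL
  have hLl : ∀ u, L u = l u := fun u => rfl
  have hint : IntervalIntegrable c' volume a b := by
    apply ContinuousOn.intervalIntegrable
    rwa [uIcc_of_le hab]
  have h1 : ∫ t in a..b, L (c' t) = L (c b - c a) := by
    rw [ContinuousLinearMap.intervalIntegral_comp_comm L hint]
    congr 1
    exact intervalIntegral.integral_eq_sub_of_hasDerivAt
      (fun t ht => hc t (by rwa [uIcc_of_le hab] at ht)) hint
  rw [← hl2, ← hLl, ← h1]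
  apply intervalIntegral.integral_mono_on hab
  · apply ContinuousOn.intervalIntegrable
    rw [uIcc_of_le hab]
    exact L.continuous.comp_continuousOn hc'
  · exact hf
  · intro t ht
    exact (hl1 _).trans (hle t ht)

end General

section Chart

variable (T : E3 ≃L[ℝ] Pl × ℝ) {F D : E3 → E3 → ℝ} {ℓ : ℝ}

/-- Points of the affine chart. -/
noncomputable def ptT (p : Pl) : E3 := T.symm (p, 1)

/-- Tangent vectors in the affine chart. -/
noncomputable def vecT (v : Pl) : E3 := T.symm (v, 0)

/-- The Finsler function in the chart. -/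
noncomputable def FT (F : E3 → E3 → ℝ) (p v : Pl) : ℝ := F (ptT T p) (vecT T v)

/-- The metric in the chart. -/
noncomputable def DT (D : E3 → E3 → ℝ) (p q : Pl) : ℝ := D (ptT T p) (ptT T q)

theorem T_ptT (p : Pl) : T (ptT T p) = (p, 1) := by simp [ptT]
theorem T_vecT (v : Pl) : T (vecT T v) = (v, 0) := by simp [vecT]

theorem ptT_ne_zero (p : Pl) : ptT T p ≠ 0 := by
  intro h
  have := T_ptT T p
  rw [h, map_zero] at this
  have h2 := congrArg Prod.snd this
  simp at h2

theorem ptT_inj {p q : Pl} {a : ℝ} (h : ptT T q = a • ptT T p) : q = p := by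
  have h1 := congrArg T h
  rw [map_smul, T_ptT, T_ptT, Prod.smul_mk, smul_eq_mul, mul_one] at h1
  obtain ⟨h3, h2⟩ := Prod.mk.inj h1
  rw [h3, ← h2, one_smul]

theorem vecT_ne {p v : Pl} (hv : v ≠ 0) (c : ℝ) : vecT T v ≠ c • ptT T p := by
  intro h
  have h1 := congrArg T h
  rw [map_smul, T_ptT, T_vecT, Prod.smul_mk, smul_eq_mul, mul_one] at h1
  obtain ⟨h3, h2⟩ := Prod.mk.inj h1
  rw [← h2, zero_smul] at h3
  exact hv h3

theorem vecT_smul (r : ℝ) (v : Pl) : vecT T (r • v) = r • vecT T v := by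
  unfold vecT
  rw [← map_smul]
  simp

theorem vecT_add (u v : Pl) : vecT T (u + v) = vecT T u + vecT T v := by
  unfold vecT
  rw [← map_add]
  simp

theorem ptT_add_smul (p v : Pl) (s : ℝ) : ptT T (p + s • v) = ptT T p + s • vecT T v := by
  unfold ptT vecT
  rw [← map_smul, ← map_add]
  simp

theorem continuous_ptT : Continuous (ptT T) := by
  unfold ptT
  exact T.symm.continuous.comp (by fun_prop)

theorem continuous_vecT : Continuous (vecT T) := by
  unfold vecT
  exact T.symm.continuous.comp (by fun_prop)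

theorem isFinsler_FT (hF : IsFinslerP2 F) : IsFinsler univ (FT T F) where
  cont := by
    unfold FT
    have : Continuous (fun p : Pl × Pl => (ptT T p.1, vecT T p.2)) :=
      ((continuous_ptT T).comp continuous_fst).prodMk ((continuous_vecT T).comp continuous_snd)
    exact hF.cont.comp this.continuousOn (fun p _ => ⟨ptT_ne_zero T _, mem_univ _⟩)
  norm := by
    intro P _
    refine ⟨fun u hu => hF.pos _ (ptT_ne_zero T P) _ (vecT_ne T hu), fun r u => ?_,
      fun u v => ?_⟩
    · unfold FT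
      rw [vecT_smul, hF.smul _ (ptT_ne_zero T P)]
    · unfold FT
      rw [vecT_add]
      exact hF.add_le _ (ptT_ne_zero T P) _ _

theorem IsFinsler.mono {M U : Set Pl} {F : Pl → Pl → ℝ} (hF : IsFinsler M F) (hU : U ⊆ M) :
    IsFinsler U F where
  cont := hF.cont.mono (prod_mono hU le_rfl)
  norm := fun P hP => hF.norm P (hU hP)

/-- The Finsler function along a curve, in the chart. -/
theorem F_eq_FT (hF : IsFinslerP2 F) {g g' : E3} {x x' : Pl} {z z' : ℝ} (hz : z ≠ 0)
    (hg : T g = (x, z)) (hg' : T g' = (x', z')) :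
    F g g' = FT T F (z⁻¹ • x) (z⁻¹ • (x' - z' • (z⁻¹ • x))) := by
  have e1 : g = z • ptT T (z⁻¹ • x) := by
    apply T.injective
    rw [map_smul, T_ptT, hg]
    ext1
    · simp [smul_smul, mul_inv_cancel₀ hz]
    · simp
  have e2 : g' = z • (vecT T (z⁻¹ • (x' - z' • (z⁻¹ • x))) + (z' * z⁻¹) • ptT T (z⁻¹ • x)) := by
    apply T.injective
    rw [map_smul, map_add, map_smul, T_ptT, T_vecT, hg']
    ext1
    · simp only [Prod.smul_mk, Prod.mk_add_mk]
      rw [smul_add, smul_smul z z⁻¹, mul_inv_cancel₀ hz, one_smul, smul_smul z (z' * z⁻¹),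
        mul_comm z' z⁻¹, ← mul_assoc, mul_inv_cancel₀ hz, one_mul]
      abel
    · simp only [Prod.smul_mk, Prod.mk_add_mk, smul_eq_mul, mul_one, zero_add]
      field_simp
  rw [e1, e2, hF.scale _ (ptT_ne_zero T _) _ _ hz, hF.shift _ (ptT_ne_zero T _)]
  rfl

/-- Continuity of the integrand of the length. -/
theorem length_continuousOn_P2 (hF : IsFinslerP2 F) {γ : ℝ → E3} (hγ : ContDiff ℝ 1 γ)
    {s : Set ℝ} (hs : ∀ t ∈ s, γ t ≠ 0) : ContinuousOn (fun t => F (γ t) (deriv γ t)) s := by
  have hcont : Continuous (deriv γ) := hγ.continuous_deriv (le_refl _)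
  have : ContinuousOn (fun t => (fun p : E3 × E3 => F p.1 p.2) (γ t, deriv γ t)) s := by
    apply hF.cont.comp (hγ.continuous.prodMk hcont).continuousOn
    intro t ht
    exact ⟨hs t ht, mem_univ _⟩
  exact this

theorem IsFinslerP2.nonneg (hF : IsFinslerP2 F) {x : E3} (hx : x ≠ 0) (v : E3) : 0 ≤ F x v := by
  by_cases h : ∀ c : ℝ, v ≠ c • x
  · exact (hF.pos x hx v h).le
  · push Not at h
    obtain ⟨c, rfl⟩ := h
    have h1 := hF.shift x hx c 0
    have h2 := hF.smul x hx 0 (0 : E3)
    rw [zero_smul, abs_zero, zero_mul] at h2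
    rw [zero_add, h2] at h1
    exact h1.ge

/-- Lower bound for the length of any curve. -/
theorem length_lower_P2 (hF : IsFinslerP2 F) (P : Pl) {ε : ℝ} (hε : 0 < ε) (hε1 : ε < 1) :
    ∃ η > 0, ∀ w : Pl, ‖w‖ < η → ∀ γ : ℝ → E3, ContDiff ℝ 1 γ →
      (∀ t ∈ Icc (0:ℝ) 1, γ t ≠ 0) → γ 0 = ptT T P → ∀ a : ℝ, a ≠ 0 →
      γ 1 = a • ptT T (P + w) → (1 - ε) * FT T F P w ≤ ∫ t in (0:ℝ)..1, F (γ t) (deriv γ t) := by
  have hFT := isFinsler_FT T hF
  obtain ⟨r, hr, -, hcomp⟩ := hFT.local_compare isOpen_univ (mem_univ P) hε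
  obtain ⟨m, hm, hmle⟩ := hFT.exists_lower (mem_univ P)
  have hNP := hFT.norm P (mem_univ P)
  have hcont0 : ContinuousAt (FT T F P) 0 := (hFT.continuous_right (mem_univ P)).continuousAt
  have hev : ∀ᶠ w in 𝓝 (0:Pl), FT T F P w < m * (r/2) := by
    apply hcont0.eventually_lt continuousAt_const
    rw [hNP.zero]; positivity
  obtain ⟨η, hη, hηle⟩ := Metric.eventually_nhds_iff.1 hev
  refine ⟨min η (r/2), lt_min hη (by positivity), fun w hw' γ hγ hγ0 h0 a ha h1 => ?_⟩
  have hw : ‖w‖ < η := hw'.trans_le (min_le_left _ _)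
  have hwr : ‖w‖ < r/2 := hw'.trans_le (min_le_right _ _)
  have hFw : FT T F P w < m * (r/2) := hηle (by simpa [dist_zero_right] using hw)
  have hint : ∀ {a b : ℝ}, 0 ≤ a → a ≤ b → b ≤ 1 →
      IntervalIntegrable (fun t => F (γ t) (deriv γ t)) volume a b := by
    intro a b ha hab hb
    apply ContinuousOn.intervalIntegrable
    rw [uIcc_of_le hab]
    exact length_continuousOn_P2 hF hγ (fun t ht => hγ0 t ⟨ha.trans ht.1, ht.2.trans hb⟩)
  have hN' : IsNorm (fun u => (1 - ε) * FT T F P u) := by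
    refine ⟨fun u hu => mul_pos (by linarith) (hNP.pos u hu), fun c u => ?_, fun u v => ?_⟩
    · rw [hNP.smul]; ring
    · have := hNP.add_le u v
      nlinarith
  -- chart coordinates
  set x : ℝ → Pl := fun t => (T (γ t)).1 with hx
  set z : ℝ → ℝ := fun t => (T (γ t)).2 with hz
  set x' : ℝ → Pl := fun t => (T (deriv γ t)).1 with hx'
  set z' : ℝ → ℝ := fun t => (T (deriv γ t)).2 with hz'
  have hder : ∀ t, HasDerivAt γ (deriv γ t) t := fun t =>
    ((hγ.differentiable (by norm_num)).differentiableAt).hasDerivAt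
  have hTder : ∀ t, HasDerivAt (fun t => T (γ t)) (T (deriv γ t)) t := fun t =>
    T.toContinuousLinearMap.hasFDerivAt.comp_hasDerivAt t (hder t)
  have hxd : ∀ t, HasDerivAt x (x' t) t := fun t => (hTder t).fst
  have hzd : ∀ t, HasDerivAt z (z' t) t := fun t => (hTder t).snd
  have hx'c : Continuous x' :=
    continuous_fst.comp (T.continuous.comp (hγ.continuous_deriv (le_refl _)))
  have hz'c : Continuous z' :=
    continuous_snd.comp (T.continuous.comp (hγ.continuous_deriv (le_refl _)))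
  have hxc : Continuous x := continuous_iff_continuousAt.2 fun t => (hxd t).continuousAt
  have hzc : Continuous z := continuous_iff_continuousAt.2 fun t => (hzd t).continuousAt
  set c : ℝ → Pl := fun t => (z t)⁻¹ • x t with hc
  set c' : ℝ → Pl := fun t => (z t)⁻¹ • (x' t - z' t • c t) with hc'
  have hcd : ∀ t, z t ≠ 0 → HasDerivAt c (c' t) t := by
    intro t ht
    refine ((hzd t).inv ht |>.smul (hxd t)).congr_deriv ?_
    simp only [hc', hc, smul_sub, smul_smul]
    rw [sub_eq_add_neg, ← neg_smul]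
    congr 2
    field_simp
  have hFc : ∀ t, z t ≠ 0 → F (γ t) (deriv γ t) = FT T F (c t) (c' t) := by
    intro t ht
    exact F_eq_FT T hF ht rfl rfl
  have hxz0 : x 0 = P ∧ z 0 = 1 := by
    simp only [hx, hz, h0, T_ptT, and_self]
  have hxz1 : x 1 = a • (P + w) ∧ z 1 = a := by
    simp only [hx, hz, h1, map_smul, T_ptT, Prod.smul_fst, Prod.smul_snd, smul_eq_mul, mul_one,
      and_self]
  have hc0 : c 0 = P := by
    simp only [hc, hxz0.1, hxz0.2, inv_one, one_smul]
  have hc1 : c 1 = P + w := by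
    simp only [hc, hxz1.1, hxz1.2, smul_smul, inv_mul_cancel₀ ha, one_smul]
  -- bound on a segment of times where the curve stays in the ball
  have hseg : ∀ τ : ℝ, 0 ≤ τ → τ ≤ 1 → (∀ t ∈ Icc 0 τ, z t ≠ 0 ∧ ‖c t - P‖ ≤ r / 2) →
      (1 - ε) * FT T F P (c τ - P) ≤ ∫ t in (0:ℝ)..τ, F (γ t) (deriv γ t) := by
    intro τ hτ0 hτ1 hst
    have h2 := norm_sub_le_integral' hN' (c := c) (c' := c') hτ0
      (fun t ht => hcd t (hst t ht).1) (by
        have hz1 : ContinuousOn (fun t => (z t)⁻¹) (Icc 0 τ) :=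
          hzc.continuousOn.inv₀ (fun t ht => (hst t ht).1)
        exact hz1.smul (hx'c.continuousOn.sub (hz'c.continuousOn.smul
          (hz1.smul hxc.continuousOn))))
      (hint le_rfl hτ0 hτ1) (fun t ht => by
        rw [hFc t (hst t ht).1]
        have := (abs_le.1 (hcomp (c t) (by
          rw [Metric.mem_ball, dist_eq_norm]
          have := (hst t ht).2
          linarith) (c' t))).1
        linarith)
    rw [hc0] at h2
    exact h2
  set g : ℝ → ℝ := fun t => ‖x t - z t • P‖ - (r/2) * |z t| with hg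
  have hgc : Continuous g := by
    have h3 : Continuous (fun t => x t - z t • P) := hxc.sub (hzc.smul continuous_const)
    exact h3.norm.sub (continuous_const.mul hzc.abs)
  have hg0 : g 0 < 0 := by
    simp only [hg, hxz0.1, hxz0.2, one_smul, sub_self, norm_zero, abs_one, mul_one]
    linarith
  have hgneg : ∀ t, g t < 0 → z t ≠ 0 ∧ ‖c t - P‖ ≤ r / 2 := by
    intro t ht
    have hzt : z t ≠ 0 := by
      intro h3
      simp only [hg, h3, abs_zero, mul_zero, sub_zero] at ht
      exact absurd ht (not_lt.2 (norm_nonneg _))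
    refine ⟨hzt, ?_⟩
    have e : x t - z t • P = z t • (c t - P) := by
      simp only [hc, smul_sub, smul_smul, mul_inv_cancel₀ hzt, one_smul]
    simp only [hg, e, norm_smul, Real.norm_eq_abs] at ht
    have h3 : 0 < |z t| := abs_pos.2 hzt
    have h4 : |z t| * ‖c t - P‖ < |z t| * (r/2) := by linarith
    exact (lt_of_mul_lt_mul_left h4 h3.le).le
  by_cases hstay : ∀ t ∈ Icc (0:ℝ) 1, g t < 0
  · have := hseg 1 zero_le_one le_rfl (fun t ht => hgneg t (hstay t ht))
    rw [hc1, add_sub_cancel_left] at this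
    exact this
  · push Not at hstay
    obtain ⟨t₁, ht₁, hge⟩ := hstay
    set S : Set ℝ := {t | t ∈ Icc (0:ℝ) 1 ∧ 0 ≤ g t} with hS
    have hSc : IsCompact S := by
      apply isCompact_Icc.of_isClosed_subset _ (fun t ht => ht.1)
      exact isClosed_Icc.inter (isClosed_le continuous_const hgc)
    obtain ⟨τ, hτS, hτmin⟩ := hSc.exists_isLeast ⟨t₁, ht₁, hge⟩
    have hτ0 : 0 ≤ τ := hτS.1.1
    have hτ1 : τ ≤ 1 := hτS.1.2
    have hτpos : 0 < τ := by
      rcases hτ0.eq_or_lt with h | h
      · exfalso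
        have := hτS.2
        rw [← h] at this
        linarith
      · exact h
    have hbefore : ∀ t ∈ Ico 0 τ, g t < 0 := by
      intro t ht
      by_contra hcon
      push Not at hcon
      exact absurd (hτmin ⟨⟨ht.1, ht.2.le.trans hτ1⟩, hcon⟩) (not_le.2 ht.2)
    have hτle : g τ ≤ 0 := by
      have : Tendsto g (𝓝[<] τ) (𝓝 (g τ)) := hgc.continuousAt.mono_left nhdsWithin_le_nhds
      apply le_of_tendsto this
      filter_upwards [Ioo_mem_nhdsLT hτpos] with t ht
      exact (hbefore t ⟨ht.1.le, ht.2⟩).le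
    have hgτ : g τ = 0 := le_antisymm hτle hτS.2
    have hzτ : z τ ≠ 0 := by
      intro h3
      have h4 : x τ = 0 := by
        simp only [hg, h3, abs_zero, mul_zero, sub_zero, zero_smul] at hgτ
        exact norm_eq_zero.1 hgτ
      apply hγ0 τ ⟨hτ0, hτ1⟩
      apply T.injective
      rw [map_zero]
      ext1
      · exact h4
      · exact h3
    have hcτ : ‖c τ - P‖ = r / 2 := by
      have e : x τ - z τ • P = z τ • (c τ - P) := by
        simp only [hc, smul_sub, smul_smul, mul_inv_cancel₀ hzτ, one_smul]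
      simp only [hg, e, norm_smul, Real.norm_eq_abs] at hgτ
      have h3 : 0 < |z τ| := abs_pos.2 hzτ
      have h4 : |z τ| * ‖c τ - P‖ = |z τ| * (r/2) := by linarith
      exact mul_left_cancel₀ h3.ne' h4
    have h2 := hseg τ hτ0 hτ1 (fun t ht => by
      rcases ht.2.eq_or_lt with h | h
      · rw [h]; exact ⟨hzτ, hcτ.le⟩
      · exact hgneg t (hbefore t ⟨ht.1, h⟩))
    have h3 : m * (r/2) ≤ FT T F P (c τ - P) := by
      refine le_trans ?_ (hmle _)
      rw [hcτ]
    have h4 : ∫ t in (0:ℝ)..τ, F (γ t) (deriv γ t) ≤ ∫ t in (0:ℝ)..1, F (γ t) (deriv γ t) := by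
      rw [← intervalIntegral.integral_add_adjacent_intervals (hint le_rfl hτ0 hτ1)
        (hint hτ0 hτ1 le_rfl)]
      have : 0 ≤ ∫ t in τ..1, F (γ t) (deriv γ t) := by
        apply intervalIntegral.integral_nonneg hτ1
        intro t ht
        exact hF.nonneg (hγ0 t ⟨hτ0.trans ht.1, ht.2⟩) _
      linarith
    have h5 : (1 - ε) * FT T F P w ≤ (1 - ε) * FT T F P (c τ - P) := by
      have : (0:ℝ) < 1 - ε := by linarith
      gcongr
      linarith
    linarith

end Chart

end Pool.Agent.Lib_1de93e
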