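import Pool.Agent.Lib_1de93e.Ell

/-!
# Small convex sets of Finslerian planes of elliptic type
-/

namespace Pool.Agent.Lib_1de93e

open Set MeasureTheory Filter Topology

theorem between_of_abs {I : Set ℝ} (hI : I.OrdConnected) {t : ℝ → ℝ} (htc : ContinuousOn t I)
    (hti : InjOn t I) (h0 : (0:ℝ) ∈ I) (h1 : (1:ℝ) ∈ I) {τ : ℝ} (hτ : τ ∈ I) :
    |t 0 - t τ| + |t τ - t 1| = |t 0 - t 1| ↔ 0 ≤ τ ∧ τ ≤ 1 := by
  set a := min 0 τ with ha
  set b := max 1 τ with hb
  have haI : a ∈ I := by
    rcases min_choice 0 τ with h | h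
    · rw [ha, h]; exact h0
    · rw [ha, h]; exact hτ
  have hbI : b ∈ I := by
    rcases max_choice 1 τ with h | h
    · rw [hb, h]; exact h1
    · rw [hb, h]; exact hτ
  have hsub : Icc a b ⊆ I := hI.out haI hbI
  have ha0 : a ≤ 0 := min_le_left _ _
  have haτ : a ≤ τ := min_le_right _ _
  have hb1 : 1 ≤ b := le_max_left _ _
  have hbτ : τ ≤ b := le_max_right _ _
  have m0 : (0:ℝ) ∈ Icc a b := ⟨ha0, by linarith⟩
  have m1 : (1:ℝ) ∈ Icc a b := ⟨by linarith, hb1⟩
  have mτ : τ ∈ Icc a b := ⟨haτ, hbτ⟩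
  -- reduction to the strictly monotone case
  have key : ∀ f : ℝ → ℝ, StrictMonoOn f (Icc a b) →
      (|f 0 - f τ| + |f τ - f 1| = |f 0 - f 1| ↔ 0 ≤ τ ∧ τ ≤ 1) := by
    intro f hf
    have h01 : f 0 < f 1 := hf m0 m1 zero_lt_one
    constructor
    · intro h
      constructor
      · by_contra hcon
        push Not at hcon
        have h2 : f τ < f 0 := hf mτ m0 hcon
        rw [abs_of_pos (by linarith), abs_of_neg (by linarith), abs_of_neg (by linarith)] at h
        linarith
      · by_contra hcon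
        push Not at hcon
        have h2 : f 1 < f τ := hf m1 mτ hcon
        rw [abs_of_neg (by linarith), abs_of_pos (by linarith), abs_of_neg (by linarith)] at h
        linarith
    · rintro ⟨h2, h3⟩
      have h4 : f 0 ≤ f τ := hf.monotoneOn m0 mτ h2
      have h5 : f τ ≤ f 1 := hf.monotoneOn mτ m1 h3
      rw [abs_of_nonpos (by linarith), abs_of_nonpos (by linarith), abs_of_neg (by linarith)]
      ring
  rcases (htc.mono hsub).strictMonoOn_of_injOn_Icc' (by linarith) (hti.mono hsub) with h | h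
  · exact key t h
  · have h2 := key (fun x => -t x) h.neg
    have e : ∀ x y : ℝ, |-t x - -t y| = |t x - t y| := by
      intro x y
      rw [← abs_neg]
      congr 1
      ring
    simp only [e] at h2
    exact h2

section Chart

variable (T : E3 ≃L[ℝ] Pl × ℝ) {F D : E3 → E3 → ℝ} {ℓ : ℝ}

theorem DT_continuous (hD : IsEllipticMetric D ℓ) :
    Continuous (fun q : Pl × Pl => DT T D q.1 q.2) := by
  have : Continuous (fun q : Pl × Pl => (ptT T q.1, ptT T q.2)) :=
    ((continuous_ptT T).comp continuous_fst).prodMk ((continuous_ptT T).comp continuous_snd)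
  exact hD.cont.comp_continuous this (fun q => ⟨ptT_ne_zero T _, ptT_ne_zero T _⟩)

theorem DT_self (hD : IsEllipticMetric D ℓ) (p : Pl) : DT T D p p = 0 :=
  (hD.eq_zero_iff _ _ (ptT_ne_zero T p) (ptT_ne_zero T p)).2 ⟨1, by rw [one_smul]⟩

theorem DT_nonneg (hD : IsEllipticMetric D ℓ) (p q : Pl) : 0 ≤ DT T D p q := by
  have h1 := hD.triangle _ _ _ (ptT_ne_zero T p) (ptT_ne_zero T q) (ptT_ne_zero T p)
  have h2 := hD.symm _ _ (ptT_ne_zero T q) (ptT_ne_zero T p)
  have h3 := DT_self T hD p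
  unfold DT at h3 ⊢
  linarith

theorem DT_eq_zero (hD : IsEllipticMetric D ℓ) {p q : Pl} : DT T D p q = 0 ↔ p = q := by
  constructor
  · intro h
    obtain ⟨a, ha⟩ := (hD.eq_zero_iff _ _ (ptT_ne_zero T p) (ptT_ne_zero T q)).1 h
    exact (ptT_inj T ha).symm
  · rintro rfl
    exact DT_self T hD p

theorem ptT_indep {A C : Pl} (h : A ≠ C) : LinearIndependent ℝ ![ptT T A, ptT T C] := by
  rw [LinearIndependent.pair_iff]
  intro s t hst
  have h1 := congrArg T hst
  rw [map_add, map_smul, map_smul, T_ptT, T_ptT, map_zero, Prod.smul_mk, Prod.smul_mk,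
    Prod.mk_add_mk] at h1
  obtain ⟨h2, h3⟩ := Prod.mk.inj (h1.trans Prod.zero_eq_mk)
  simp only [smul_eq_mul, mul_one] at h3
  have h4 : t = -s := by linarith
  rw [h4, neg_smul, ← sub_eq_add_neg, ← smul_sub] at h2
  rcases smul_eq_zero.1 h2 with h5 | h5
  · exact ⟨h5, by rw [h4, h5, neg_zero]⟩
  · exact absurd (sub_eq_zero.1 h5) h

theorem collinear_of_dep {A B C : Pl} (hAC : A ≠ C)
    (h : ¬ LinearIndependent ℝ ![ptT T A, ptT T B, ptT T C]) :
    ∃ τ : ℝ, B = A + τ • (C - A) := by
  rw [Fintype.not_linearIndependent_iff] at h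
  obtain ⟨g, hg, i, hi⟩ := h
  rw [Fin.sum_univ_three] at hg
  simp only [Matrix.cons_val_zero, Matrix.cons_val_one, Matrix.cons_val] at hg
  have h1 := congrArg T hg
  rw [map_add, map_add, map_smul, map_smul, map_smul, T_ptT, T_ptT, T_ptT, map_zero,
    Prod.smul_mk, Prod.smul_mk, Prod.smul_mk, Prod.mk_add_mk, Prod.mk_add_mk] at h1
  obtain ⟨h2, h3⟩ := Prod.mk.inj (h1.trans Prod.zero_eq_mk)
  simp only [smul_eq_mul, mul_one] at h3
  have hg1 : g 1 ≠ 0 := by
    intro h4
    rw [h4, zero_smul, add_zero] at h2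
    have h5 : g 2 = -g 0 := by linarith
    rw [h5, neg_smul, ← sub_eq_add_neg, ← smul_sub] at h2
    rcases smul_eq_zero.1 h2 with h6 | h6
    · apply hi
      fin_cases i
      · exact h6
      · exact h4
      · simp only [Fin.reduceFinMk]
        rw [h5, h6, neg_zero]
    · exact hAC (sub_eq_zero.1 h6)
  refine ⟨-(g 2) / g 1, ?_⟩
  have h4 : g 1 • B = g 1 • (A + (-(g 2) / g 1) • (C - A)) := by
    rw [smul_add, smul_smul, mul_div_cancel₀ _ hg1]
    have e : g 1 • B = -(g 0 • A) - g 2 • C := by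
      change g 0 • A + g 1 • B + g 2 • C = 0 at h2
      rw [← sub_eq_zero, ← h2]
      abel
    have e2 : g 1 = -g 0 - g 2 := by linarith
    rw [e]
    rw [show g 1 • A = (-g 0 - g 2) • A by rw [← e2], sub_smul, neg_smul, neg_smul, smul_sub]
    abel
  exact smul_right_injective _ hg1 h4

/-- The order of the points on a line of a small ball. -/
theorem line_order (hD : IsEllipticMetric D ℓ) {p : Pl} {ρ : ℝ}
    (hsmall : ∀ a ∈ Metric.ball p ρ, ∀ b ∈ Metric.ball p ρ, DT T D a b < ℓ / 4) {A C : Pl}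
    (hA : A ∈ Metric.ball p ρ) (hC : C ∈ Metric.ball p ρ) (hAC : A ≠ C) {τ : ℝ}
    (hτ : A + τ • (C - A) ∈ Metric.ball p ρ) :
    DT T D A (A + τ • (C - A)) + DT T D (A + τ • (C - A)) C = DT T D A C ↔ 0 ≤ τ ∧ τ ≤ 1 := by
  set U := Metric.ball p ρ with hU
  set Pt : ℝ → Pl := fun τ => A + τ • (C - A) with hPt
  set I : Set ℝ := {τ | Pt τ ∈ U} with hI
  have hℓ := hD.pos_len
  have hP0 : Pt 0 = A := by simp [hPt]
  have hP1 : Pt 1 = C := by simp [hPt]
  have h0I : (0:ℝ) ∈ I := by simp only [hI, mem_ofPred_eq, hP0]; exact hA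
  have h1I : (1:ℝ) ∈ I := by simp only [hI, mem_ofPred_eq, hP1]; exact hC
  have hPtinj : ∀ s t, Pt s = Pt t → s = t := by
    intro s t hst
    simp only [hPt] at hst
    have h1 : s • (C - A) = t • (C - A) := add_left_cancel hst
    exact smul_left_injective ℝ (sub_ne_zero.2 (Ne.symm hAC)) h1
  have hIc : I.OrdConnected := by
    apply Convex.ordConnected
    have : I = (AffineMap.lineMap A C : ℝ →ᵃ[ℝ] Pl) ⁻¹' U := by
      ext s
      simp only [hI, hPt, mem_ofPred_eq, mem_preimage, AffineMap.lineMap_apply, vsub_eq_sub,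
        vadd_eq_add]
      rw [add_comm]
    rw [this]
    exact (convex_ball p ρ).affine_preimage _
  obtain ⟨γ, hγ1, hγ2, hγ3, hγ4⟩ := hD.line _ _ (ptT_indep T hAC)
  -- periodicity over the integers
  have hper : ∀ (k : ℤ) (t : ℝ), ∃ a : ℝ, γ (t + k * ℓ) = a • γ t := by
    intro k
    induction k using Int.induction_on with
    | zero => intro t; exact ⟨1, by simp⟩
    | succ k ih =>
      intro t
      obtain ⟨a, ha⟩ := ih t
      obtain ⟨b, hb⟩ := hγ3 (t + (k:ℤ) * ℓ)
      refine ⟨b * a, ?_⟩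
      have e : t + (((k:ℤ) + 1 : ℤ) : ℝ) * ℓ = t + (k:ℤ) * ℓ + ℓ := by push_cast; ring
      rw [e, hb, ha, smul_smul]
    | pred k ih =>
      intro t
      obtain ⟨a, ha⟩ := ih t
      obtain ⟨b, hb⟩ := hγ3 (t + ((-(k:ℤ) - 1 : ℤ) : ℝ) * ℓ)
      have e : t + ((-(k:ℤ) - 1 : ℤ) : ℝ) * ℓ + ℓ = t + ((-(k:ℤ) : ℤ) : ℝ) * ℓ := by
        push_cast; ring
      rw [e, ha] at hb
      have hb0 : b ≠ 0 := by
        intro h
        rw [h, zero_smul] at hb
        have h2 := (hγ1 (t + ((-(k:ℤ) : ℤ) : ℝ) * ℓ)).1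
        rw [ha] at h2
        exact h2 hb
      refine ⟨b⁻¹ * a, ?_⟩
      rw [mul_smul, hb, smul_smul, inv_mul_cancel₀ hb0, one_smul]
  have hspan : ∀ τ, ptT T (Pt τ) ∈ Submodule.span ℝ {ptT T A, ptT T C} := by
    intro τ
    have e : ptT T (Pt τ) = (1 - τ) • ptT T A + τ • ptT T C := by
      apply T.injective
      rw [map_add, map_smul, map_smul, T_ptT, T_ptT, T_ptT, Prod.smul_mk, Prod.smul_mk,
        Prod.mk_add_mk]
      ext1
      · simp only [hPt]
        rw [smul_sub, sub_smul, one_smul]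
        abel
      · simp
    rw [e]
    exact Submodule.add_mem _ (Submodule.smul_mem _ _ (Submodule.subset_span (by simp)))
      (Submodule.smul_mem _ _ (Submodule.subset_span (by simp)))
  obtain ⟨t₀, a₀, hta₀⟩ := hγ2 _ (hspan 0) (ptT_ne_zero T _)
  have hDγ : ∀ {x y : Pl} {s t a b : ℝ}, ptT T x = a • γ s → ptT T y = b • γ t →
      DT T D x y = D (γ s) (γ t) := by
    intro x y s t a b hx hy
    have ha : a ≠ 0 := by
      rintro rfl
      rw [zero_smul] at hx
      exact ptT_ne_zero T _ hx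
    have hb : b ≠ 0 := by
      rintro rfl
      rw [zero_smul] at hy
      exact ptT_ne_zero T _ hy
    unfold DT
    rw [hx, hy, hD.scale _ _ (hγ1 s).1 (hγ1 t).1 a b ha hb]
  have hex : ∀ τ ∈ I, ∃ t a : ℝ, ptT T (Pt τ) = a • γ t ∧ |t - t₀| < ℓ / 4 := by
    intro τ hτ
    obtain ⟨t', a', hta'⟩ := hγ2 _ (hspan τ) (ptT_ne_zero T _)
    -- shift by a multiple of ℓ
    set k : ℤ := round ((t₀ - t') / ℓ) with hk
    have hk1 : |(t' + k * ℓ) - t₀| ≤ ℓ / 2 := by
      have h1 := abs_sub_round ((t₀ - t') / ℓ)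
      have e : (t' + k * ℓ) - t₀ = -(((t₀ - t') / ℓ - k) * ℓ) := by
        field_simp
        ring
      rw [e, abs_neg, abs_mul, abs_of_pos hℓ]
      calc |(t₀ - t') / ℓ - k| * ℓ ≤ 1 / 2 * ℓ := by gcongr
        _ = ℓ / 2 := by ring
    obtain ⟨b, hb⟩ := hper k t'
    have hb0 : b ≠ 0 := by
      intro h
      rw [h, zero_smul] at hb
      exact (hγ1 _).1 hb
    have hta : ptT T (Pt τ) = (a' * b⁻¹) • γ (t' + k * ℓ) := by
      rw [hta', hb, smul_smul, mul_assoc, inv_mul_cancel₀ hb0, mul_one]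
    refine ⟨t' + k * ℓ, a' * b⁻¹, hta, ?_⟩
    have h2 := hγ4 _ _ hk1
    rw [← hDγ hta hta₀] at h2
    rw [← h2]
    exact hsmall _ hτ _ h0I
  choose! t ht using hex
  have hdist : ∀ s ∈ I, ∀ s' ∈ I, DT T D (Pt s) (Pt s') = |t s - t s'| := by
    intro s hs s' hs'
    obtain ⟨a, ha, ha2⟩ := ht s hs
    obtain ⟨b, hb, hb2⟩ := ht s' hs'
    rw [hDγ ha hb]
    apply hγ4
    have e : t s - t s' = (t s - t₀) - (t s' - t₀) := by ring
    rw [e]
    have := abs_sub (t s - t₀) (t s' - t₀)
    linarith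
  have htc : ContinuousOn t I := by
    intro s hs
    rw [ContinuousWithinAt, tendsto_iff_dist_tendsto_zero]
    have h1 : Tendsto (fun s' => DT T D (Pt s') (Pt s)) (𝓝[I] s) (𝓝 0) := by
      have hc : Continuous (fun s' => DT T D (Pt s') (Pt s)) :=
        (DT_continuous T hD).comp (by fun_prop : Continuous fun s' => (Pt s', Pt s))
      have h2 := hc.tendsto s
      rw [DT_self T hD] at h2
      exact h2.mono_left nhdsWithin_le_nhds
    apply h1.congr'
    filter_upwards [self_mem_nhdsWithin] with s' hs'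
    rw [hdist s' hs' s hs, Real.dist_eq]
  have hti : InjOn t I := by
    intro s hs s' hs' hss
    have h1 := hdist s hs s' hs'
    rw [hss, sub_self, abs_zero] at h1
    exact hPtinj s s' ((DT_eq_zero T hD).1 h1)
  have key := between_of_abs hIc htc hti h0I h1I (τ := τ) hτ
  rw [← hdist 0 h0I τ hτ, ← hdist τ hτ 1 h1I, ← hdist 0 h0I 1 h1I, hP0, hP1] at key
  exact key

theorem exists_small_DT (hD : IsEllipticMetric D ℓ) (p : Pl) :
    ∃ ρ > 0, ∀ a ∈ Metric.ball p ρ, ∀ b ∈ Metric.ball p ρ, DT T D a b < ℓ / 4 := by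
  have h1 := (DT_continuous T hD).continuousAt (x := (p, p))
  have hℓ := hD.pos_len
  have h2 : ∀ᶠ q : Pl × Pl in 𝓝 (p, p), DT T D q.1 q.2 < ℓ / 4 := by
    apply h1.eventually_lt continuousAt_const
    simp only [DT_self T hD]
    positivity
  rw [Metric.eventually_nhds_iff] at h2
  obtain ⟨ρ, hρ, h3⟩ := h2
  refine ⟨ρ, hρ, fun a ha b hb => ?_⟩
  exact @h3 (a, b) (by rw [Prod.dist_eq]; exact max_lt ha hb)

theorem isProjectiveMetric_ball (hD : IsEllipticMetric D ℓ) {p : Pl} {ρ : ℝ} (hρ : 0 < ρ)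
    (hsmall : ∀ a ∈ Metric.ball p ρ, ∀ b ∈ Metric.ball p ρ, DT T D a b < ℓ / 4) :
    IsProjectiveMetric (Metric.ball p ρ) (DT T D) where
  isOpen := Metric.isOpen_ball
  convex := convex_ball p ρ
  nonempty := ⟨p, Metric.mem_ball_self hρ⟩
  eq_zero_iff := fun P _ Q _ => DT_eq_zero T hD
  symm := fun P _ Q _ => hD.symm _ _ (ptT_ne_zero T P) (ptT_ne_zero T Q)
  triangle := fun P _ Q _ R _ => hD.triangle _ _ _ (ptT_ne_zero T P) (ptT_ne_zero T Q)
    (ptT_ne_zero T R)
  topo₁ := by
    intro P _ ε hε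
    have hc : Continuous (fun Q => DT T D P Q) :=
      (DT_continuous T hD).comp (by fun_prop : Continuous fun Q => (P, Q))
    have h1 : ∀ᶠ Q in 𝓝 P, DT T D P Q < ε := by
      apply hc.continuousAt.eventually_lt continuousAt_const
      rw [DT_self T hD]
      exact hε
    rw [Metric.eventually_nhds_iff] at h1
    obtain ⟨δ, hδ, h2⟩ := h1
    exact ⟨δ, hδ, fun Q _ hQ => h2 (by rwa [dist_comm])⟩
  topo₂ := by
    intro P _ ε hε
    have hc : Continuous (fun Q => DT T D P Q) :=
      (DT_continuous T hD).comp (by fun_prop : Continuous fun Q => (P, Q))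
    set S : Set Pl := Metric.closedBall p ρ ∩ {Q | ε ≤ dist P Q} with hS
    have hSc : IsCompact S := (isCompact_closedBall p ρ).inter_right
      (isClosed_le continuous_const (by fun_prop))
    by_cases hne : S.Nonempty
    · obtain ⟨Q₀, hQ₀, hmin⟩ := hSc.exists_isMinOn hne hc.continuousOn
      have hpos : 0 < DT T D P Q₀ := by
        apply lt_of_le_of_ne (DT_nonneg T hD P Q₀)
        intro h0
        have h1 := (DT_eq_zero T hD).1 h0.symm
        have h2 : ε ≤ dist P Q₀ := hQ₀.2
        rw [h1, dist_self] at h2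
        linarith
      refine ⟨DT T D P Q₀, hpos, fun Q hQ hlt => ?_⟩
      by_contra hcon
      push Not at hcon
      have h3 : Q ∈ S := ⟨Metric.ball_subset_closedBall hQ, hcon⟩
      have h4 := hmin h3
      simp only [mem_ofPred_eq] at h4
      linarith
    · refine ⟨1, one_pos, fun Q hQ _ => ?_⟩
      by_contra hcon
      push Not at hcon
      exact hne ⟨Q, Metric.ball_subset_closedBall hQ, hcon⟩
  geodesic := by
    intro A hA B hB C hC
    by_cases hAC : A = C
    · subst hAC
      rw [segment_same, mem_singleton_iff, DT_self T hD]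
      constructor
      · intro h
        have h1 := DT_nonneg T hD A B
        have h2 := DT_nonneg T hD B A
        exact ((DT_eq_zero T hD).1 (by linarith : DT T D A B = 0)).symm
      · rintro rfl
        rw [DT_self T hD]; ring
    · constructor
      · intro h
        have h1 := hD.strict _ _ _ (ptT_ne_zero T A) (ptT_ne_zero T B) (ptT_ne_zero T C) h
        obtain ⟨τ, rfl⟩ := collinear_of_dep T hAC h1
        have h2 := (line_order T hD hsmall hA hC hAC hB).1 h
        rw [segment_eq_image']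
        exact ⟨τ, h2, rfl⟩
      · intro h
        rw [segment_eq_image'] at h
        obtain ⟨τ, hτ, rfl⟩ := h
        exact (line_order T hD hsmall hA hC hAC hB).2 hτ

/-- The local estimate in the chart. -/
theorem localEst_P2 (hF : IsFinslerP2 F) (hL : IsLengthMetricP2 F D) (U : Set Pl) :
    LocalEst U (FT T F) (DT T D) := by
  intro P _ ε hε hε1
  have hFT := isFinsler_FT T hF
  obtain ⟨η, hη, hlow⟩ := length_lower_P2 T hF P hε hε1
  obtain ⟨r, hr, -, hcomp⟩ := hFT.local_compare isOpen_univ (mem_univ P) hε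
  refine ⟨min η r, lt_min hη hr, fun w hw => ?_⟩
  have hw1 : ‖w‖ < η := hw.trans_le (min_le_left _ _)
  have hw2 : ‖w‖ < r := hw.trans_le (min_le_right _ _)
  have hglb := hL _ (ptT_ne_zero T P) _ (ptT_ne_zero T (P + w))
  constructor
  · apply (le_isGLB_iff hglb).2
    rintro L ⟨γ, hγ, hγM, h0, ⟨a, ha, h1⟩, rfl⟩
    exact hlow w hw1 γ hγ hγM h0 a ha h1
  · set γ : ℝ → E3 := fun t => ptT T P + t • vecT T w with hγdef
    have hγ : ContDiff ℝ 1 γ := by fun_prop
    have hder : ∀ t, deriv γ t = vecT T w := by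
      intro t
      have : HasDerivAt γ ((1:ℝ) • vecT T w) t :=
        ((hasDerivAt_id t).smul_const _).const_add _
      rw [this.deriv, one_smul]
    have hγpt : ∀ t, γ t = ptT T (P + t • w) := fun t => (ptT_add_smul T P w t).symm
    have hle : DT T D P (P + w) ≤ ∫ t in (0:ℝ)..1, F (γ t) (deriv γ t) := by
      apply hglb.1
      refine ⟨γ, hγ, fun t _ => by rw [hγpt]; exact ptT_ne_zero T _, by simp [hγdef], ?_, rfl⟩
      exact ⟨1, one_ne_zero, by rw [one_smul, hγpt, one_smul]⟩
    refine hle.trans ?_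
    have h2 : ∫ t in (0:ℝ)..1, F (γ t) (deriv γ t) ≤ ∫ t in (0:ℝ)..1, (1 + ε) * FT T F P w := by
      apply intervalIntegral.integral_mono_on zero_le_one
      · apply ContinuousOn.intervalIntegrable
        rw [uIcc_of_le zero_le_one]
        exact length_continuousOn_P2 hF hγ (fun t _ => by rw [hγpt]; exact ptT_ne_zero T _)
      · exact intervalIntegrable_const
      · intro t ht
        rw [hder, hγpt]
        have := (abs_le.1 (hcomp (P + t • w) (by
          rw [Metric.mem_ball, dist_eq_norm, add_sub_cancel_left, norm_smul, Real.norm_eq_abs,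
            abs_of_nonneg ht.1]
          calc t * ‖w‖ ≤ 1 * ‖w‖ := by gcongr; exact ht.2
            _ < r := by simpa using hw2) w)).2
        unfold FT at this ⊢
        linarith
    simpa using h2

/-- Small balls of the chart are Finslerian projective-metric planes. -/
theorem fplane_ball (hF : IsFinslerP2 F) (hL : IsLengthMetricP2 F D) (hD : IsEllipticMetric D ℓ)
    {p : Pl} {ρ : ℝ} (hρ : 0 < ρ)
    (hsmall : ∀ a ∈ Metric.ball p ρ, ∀ b ∈ Metric.ball p ρ, DT T D a b < ℓ / 4) :
    FPlane (Metric.ball p ρ) (FT T F) (DT T D) where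
  pm := isProjectiveMetric_ball T hD hρ hsmall
  fin := (isFinsler_FT T hF).mono (subset_univ _)
  len := by
    intro P hP Q hQ
    have hpm := isProjectiveMetric_ball T hD hρ hsmall
    have hfin : IsFinsler (Metric.ball p ρ) (FT T F) := (isFinsler_FT T hF).mono (subset_univ _)
    constructor
    · rintro L ⟨c, hc, hcM, h0, h1, rfl⟩
      apply (hL _ (ptT_ne_zero T P) _ (ptT_ne_zero T Q)).1
      have hγ : ContDiff ℝ 1 (fun t => ptT T (c t)) := by
        unfold ptT
        exact T.symm.contDiff.comp (hc.prodMk contDiff_const)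
      refine ⟨fun t => ptT T (c t), hγ, fun t _ => ptT_ne_zero T _, by simp only [h0],
        ⟨1, one_ne_zero, by rw [one_smul]; simp only [h1]⟩, ?_⟩
      congr 1
      funext t
      have hder : HasDerivAt (fun t => ptT T (c t)) (vecT T (deriv c t)) t := by
        have h2 : HasDerivAt c (deriv c t) t :=
          ((hc.differentiable (by norm_num)).differentiableAt).hasDerivAt
        have h3 : HasDerivAt (fun t => (c t, (1:ℝ))) (deriv c t, (0:ℝ)) t :=
          h2.prodMk (hasDerivAt_const t (1:ℝ))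
        exact T.symm.toContinuousLinearMap.hasFDerivAt.comp_hasDerivAt t h3
      rw [hder.deriv]
      rfl
    · intro b hb
      rw [d_eq_integral_of_local hpm hfin (localEst_P2 T hF hL _) hP hQ]
      apply hb
      refine ⟨fun t => P + t • (Q - P), by fun_prop, fun t ht => ?_, by simp, by simp, ?_⟩
      · apply (convex_ball p ρ).segment_subset hP hQ
        rw [segment_eq_image']
        exact ⟨t, ht, rfl⟩
      · congr 1
        funext t
        have : HasDerivAt (fun t : ℝ => P + t • (Q - P)) ((1:ℝ) • (Q - P)) t :=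
          ((hasDerivAt_id t).smul_const _).const_add _
        rw [this.deriv, one_smul]

end Chart

end Pool.Agent.Lib_1de93e
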