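import Pool.Agent.Lib_1de93e.Lip
import Pool.Agent.Lib_1de93e.Defs2

/-!
# Planes whose tangent norms are differentiable with symmetric Birkhoff orthogonality
-/

namespace Pool.Agent.Lib_1de93e

open Set MeasureTheory Filter Topology

variable {M : Set Pl} {F d : Pl → Pl → ℝ}

/-- The conjugate coefficient computed from the derivative of the norm. -/
noncomputable def kapT (F : Pl → Pl → ℝ) (x u : Pl) : ℝ := -(fderiv ℝ (F x) u (J u)) / F x u

theorem IsNorm.subgrad {N : Pl → ℝ} (hN : IsNorm N) {u : Pl} {p : Pl →L[ℝ] ℝ}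
    (hp : HasFDerivAt N p u) (w : Pl) : N u + p w ≤ N (u + w) := by
  have h1 : HasDerivAt (fun t : ℝ => N (u + t • w)) (p w) 0 := by
    have h1 : HasDerivAt (fun t : ℝ => u + t • w) w 0 := by
      have := ((hasDerivAt_id (0:ℝ)).smul_const w).const_add u
      simpa using this
    have h2 : HasFDerivAt N p (u + (0:ℝ) • w) := by
      rw [zero_smul, add_zero]; exact hp
    exact h2.comp_hasDerivAt (0:ℝ) h1
  have h2 : Tendsto (fun t : ℝ => t⁻¹ * (N (u + t • w) - N u)) (𝓝[>] 0) (𝓝 (p w)) := by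
    have := h1.tendsto_slope_zero_right
    simpa using this
  have h3 : p w ≤ N (u + w) - N u := by
    apply le_of_tendsto h2
    filter_upwards [Ioo_mem_nhdsGT (zero_lt_one (α := ℝ))] with t ht
    have e : u + t • w = (1 - t) • u + t • (u + w) := by
      rw [smul_add, sub_smul, one_smul]; abel
    have h4 : N (u + t • w) ≤ (1 - t) * N u + t * N (u + w) := by
      rw [e]
      refine (hN.add_le _ _).trans ?_
      rw [hN.smul_nonneg (by linarith [ht.2]), hN.smul_nonneg ht.1.le]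
    rw [inv_mul_le_iff₀ ht.1]
    linarith
  linarith

theorem IsNorm.fderiv_self {N : Pl → ℝ} (hN : IsNorm N) {u : Pl} {p : Pl →L[ℝ] ℝ}
    (hp : HasFDerivAt N p u) : p u = N u := by
  have h1 := hN.subgrad hp u
  have h2 := hN.subgrad hp ((-(1/2):ℝ) • u)
  have e1 : u + u = (2:ℝ) • u := by rw [two_smul]
  have e2 : u + (-(1/2):ℝ) • u = ((1/2):ℝ) • u := by
    rw [neg_smul, ← sub_eq_add_neg]
    nth_rewrite 1 [← one_smul ℝ u]
    rw [← sub_smul]
    norm_num
  rw [e1, hN.smul_nonneg (by norm_num)] at h1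
  rw [e2, hN.smul_nonneg (by norm_num), map_smul, smul_eq_mul] at h2
  linarith

/-- Joint continuity of directional derivatives. -/
theorem FPlane.dir_continuousAt (h : FPlane M F d)
    (hdiff : ∀ x ∈ M, ∀ u : Pl, u ≠ 0 → DifferentiableAt ℝ (F x) u) {x u : Pl} (hx : x ∈ M)
    (hu : u ≠ 0) :
    ContinuousAt (fun q : Pl × Pl => fderiv ℝ (F q.1) q.2 (J q.2)) (x, u) := by
  have hnear : ∀ᶠ q : Pl × Pl in 𝓝 (x, u), q.1 ∈ M ∧ q.2 ≠ 0 := by
    have e1 : ∀ᶠ q : Pl × Pl in 𝓝 (x, u), q.1 ∈ M :=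
      continuous_fst.continuousAt (h.isOpen.mem_nhds hx)
    have e2 : ∀ᶠ q : Pl × Pl in 𝓝 (x, u), q.2 ≠ 0 :=
      (continuous_snd.continuousAt (x := (x, u))).eventually_ne hu
    exact e1.and e2
  have hFc : ∀ v : Pl, ContinuousAt (fun q : Pl × Pl => F q.1 q.2) (x, v) := fun v =>
    h.fin.cont.continuousAt ((h.isOpen.prod isOpen_univ).mem_nhds ⟨hx, mem_univ _⟩)
  have hd := (hdiff x hx u hu).hasFDerivAt
  -- one-sided estimate for a sign
  have aux : ∀ e : ℝ, |e| = 1 → ∀ ε > 0, ∀ᶠ q : Pl × Pl in 𝓝 (x, u),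
      e * fderiv ℝ (F q.1) q.2 (J q.2) ≤ e * fderiv ℝ (F x) u (J u) + ε := by
    intro e he ε hε
    have h1 : HasDerivAt (fun t : ℝ => F x (u + t • (e • J u))) (fderiv ℝ (F x) u (e • J u)) 0 := by
      have h1 : HasDerivAt (fun t : ℝ => u + t • (e • J u)) (e • J u) 0 := by
        have := ((hasDerivAt_id (0:ℝ)).smul_const (e • J u)).const_add u
        simpa using this
      have h2 : HasFDerivAt (F x) (fderiv ℝ (F x) u) (u + (0:ℝ) • (e • J u)) := by
        rw [zero_smul, add_zero]; exact hd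
      exact h2.comp_hasDerivAt (0:ℝ) h1
    have h2 : Tendsto (fun t : ℝ => t⁻¹ * (F x (u + t • (e • J u)) - F x u)) (𝓝[>] 0)
        (𝓝 (fderiv ℝ (F x) u (e • J u))) := by
      have := h1.tendsto_slope_zero_right
      simpa using this
    have h3 := (h2.eventually (gt_mem_nhds (lt_add_of_pos_right _ (half_pos hε)))).and
      (self_mem_nhdsWithin)
    obtain ⟨t, ht1, ht2⟩ := h3.exists
    have ht0 : (0:ℝ) < t := ht2
    have hc : ContinuousAt (fun q : Pl × Pl =>
        t⁻¹ * (F q.1 (q.2 + t • (e • J q.2)) - F q.1 q.2)) (x, u) := by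
      have c1 : ContinuousAt (fun q : Pl × Pl => F q.1 (q.2 + t • (e • J q.2))) (x, u) :=
        ContinuousAt.comp (g := fun q : Pl × Pl => F q.1 q.2)
          (f := fun q : Pl × Pl => (q.1, q.2 + t • (e • J q.2))) (hFc _) (by fun_prop)
      exact continuousAt_const.mul (c1.sub (hFc u))
    have h4 : ∀ᶠ q : Pl × Pl in 𝓝 (x, u),
        t⁻¹ * (F q.1 (q.2 + t • (e • J q.2)) - F q.1 q.2) <
          e * fderiv ℝ (F x) u (J u) + ε := by
      apply hc.eventually_lt continuousAt_const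
      simp only
      rw [map_smul, smul_eq_mul] at ht1
      linarith
    filter_upwards [h4, hnear] with q hq hq2
    have h5 := (h.fin.norm q.1 hq2.1).subgrad (hdiff q.1 hq2.1 q.2 hq2.2).hasFDerivAt
      (t • (e • J q.2))
    rw [map_smul, map_smul, smul_eq_mul, smul_eq_mul] at h5
    have h6 : e * fderiv ℝ (F q.1) q.2 (J q.2) ≤
        t⁻¹ * (F q.1 (q.2 + t • (e • J q.2)) - F q.1 q.2) := by
      rw [le_inv_mul_iff₀ ht0]
      linarith
    linarith
  rw [Metric.continuousAt_iff']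
  intro ε hε
  have a1 := aux 1 (by norm_num) (ε / 2) (by positivity)
  have a2 := aux (-1) (by norm_num) (ε / 2) (by positivity)
  filter_upwards [a1, a2] with q h1 h2
  rw [Real.dist_eq, abs_lt]
  constructor <;> linarith

/-- Differentiable norms with symmetric orthogonality have continuous conjugate directions. -/
theorem KPlane.of_tangent (h : FPlane M F d)
    (hdiff : ∀ x ∈ M, ∀ u : Pl, u ≠ 0 → DifferentiableAt ℝ (F x) u)
    (hsym : ∀ x ∈ M, SymmBirkhoff (F x)) : KPlane M F d (kapT F) := by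
  have horth : ∀ x ∈ M, ∀ u : Pl, u ≠ 0 → Birkhoff (F x) u (cvk (kapT F) x u) := by
    intro x hx u hu s
    have hN := h.fin.norm x hx
    have hp := (hdiff x hx u hu).hasFDerivAt
    have h1 := hN.subgrad hp (s • cvk (kapT F) x u)
    have hF : F x u ≠ 0 := (hN.pos u hu).ne'
    have h2 : fderiv ℝ (F x) u (cvk (kapT F) x u) = 0 := by
      unfold cvk kapT
      rw [map_add, map_smul, hN.fderiv_self hp, smul_eq_mul]
      field_simp
      ring
    rw [map_smul, h2, smul_zero, add_zero] at h1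
    exact h1
  refine ⟨h, ?_, horth, ?_⟩
  · intro x hx u hu
    unfold kapT
    have hFc : ContinuousAt (fun q : Pl × Pl => F q.1 q.2) (x, u) :=
      h.fin.cont.continuousAt ((h.isOpen.prod isOpen_univ).mem_nhds ⟨hx, mem_univ _⟩)
    exact ((h.dir_continuousAt hdiff hx hu).neg).div hFc ((h.fin.norm x hx).pos u hu).ne'
  · intro x hx u hu
    exact hsym x hx u _ (horth x hx u hu)

end Pool.Agent.Lib_1de93e
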