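import Pool.Agent.Lib_1de93e.StructClassify
import Pool.Agent.Lib_1de93e.Const
import Pool.Agent.Lib_1de93e.Tangent

/-!
# Assembly of the classification in the affine type
-/

namespace Pool.Agent.Lib_1de93e

open Set MeasureTheory Filter Topology

variable {M : Set Pl} {F d κ : Pl → Pl → ℝ}

theorem PPlane.of_exists (h : FPlane M F d)
    (hex : ∀ O ∈ M, ∀ v : Pl, v ≠ 0 → ∃ u : Pl, u ≠ 0 ∧ Perp M d O u v)
    (hsym : SymmetricPerp M d) : PPlane M F d where
  toFPlane := h
  perp := by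
    intro O hO v hv
    obtain ⟨u, hu, hp⟩ := hex O hO v hv
    refine ⟨u, hu, hp, hsym O hO u v ?_ hp⟩
    have hdet := h.det2_ne_of_perp hO hu hv hp
    rw [LinearIndependent.pair_iff]
    intro a b hab
    constructor
    · have h1 : det2 (a • u + b • v) v = 0 := by rw [hab]; unfold det2; simp
      rw [det2_add_left, det2_smul_left, det2_smul_left, det2_self, mul_zero, add_zero] at h1
      exact (mul_eq_zero.1 h1).resolve_right hdet
    · have h1 : det2 u (a • u + b • v) = 0 := by rw [hab]; unfold det2; simp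
      rw [det2_add_right, det2_smul_right, det2_smul_right, det2_self, mul_zero, zero_add] at h1
      exact (mul_eq_zero.1 h1).resolve_right hdet

/-- The tangent norms of a KPlane are Radon norms. -/
theorem KPlane.symmBirkhoff (h : KPlane M F d κ) {x : Pl} (hx : x ∈ M) : SymmBirkhoff (F x) := by
  intro u v huv s
  have hN := h.fin.norm x hx
  by_cases hu : u = 0
  · rw [hu, smul_zero, add_zero]
  by_cases hv : v = 0
  · rw [hv, zero_add, hN.zero]
    exact hN.nonneg _
  have hd := h.pf_hasFDerivAt hx hu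
  -- the derivative vanishes in the direction v
  have h1 : HasDerivAt (fun t : ℝ => F x (u + t • v)) (pf F κ x u v) 0 := by
    have h1 : HasDerivAt (fun t : ℝ => u + t • v) v 0 := by
      have := ((hasDerivAt_id (0:ℝ)).smul_const v).const_add u
      simpa using this
    have h2 : HasFDerivAt (F x) (pf F κ x u) (u + (0:ℝ) • v) := by
      rw [zero_smul, add_zero]; exact hd
    exact h2.comp_hasDerivAt (0:ℝ) h1
  have hmin : IsLocalMin (fun t : ℝ => F x (u + t • v)) 0 := by
    apply Filter.Eventually.of_forall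
    intro t
    simp only [zero_smul, add_zero]
    exact huv t
  have h2 : pf F κ x u v = 0 := hmin.hasDerivAt_eq_zero h1
  rw [pf_apply] at h2
  have hn : 0 < ‖u‖ := norm_pos_iff.2 hu
  have hF : 0 < F x u := hN.pos u hu
  have h3 : det2 v (cvk κ x u) = 0 := by
    have hne : F x u / ‖u‖ ^ 2 ≠ 0 := by positivity
    have h4 : F x u / ‖u‖ ^ 2 * det2 v (cvk κ x u) = 0 := by
      rw [← h2]
    exact (mul_eq_zero.1 h4).resolve_left hne
  obtain ⟨c, hc⟩ := parallel_of_det2 (cvk_ne_zero (κ := κ) (x := x) hu)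
    (by rw [det2_comm, h3, neg_zero] : det2 (cvk κ x u) v = 0)
  have hc0 : c ≠ 0 := by
    rintro rfl
    exact hv (by rw [hc, zero_smul])
  have h5 := h.orth' x hx u hu (c⁻¹ * s)
  have e1 : v + s • u = c • (cvk κ x u + (c⁻¹ * s) • u) := by
    rw [smul_add, smul_smul, mul_inv_cancel_left₀ hc0, ← hc]
  rw [e1, hc, hN.smul, hN.smul]
  gcongr

theorem lamf_continuousOn (h : KPlane M F d κ) : ContinuousOn (lamf F κ) M := by
  have hr : ContinuousOn (rad F κ) M := by
    intro x hx
    apply ContinuousAt.continuousWithinAt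
    unfold rad
    have c1 : ContinuousAt (fun y : Pl => F y (ang 0)) x :=
      ContinuousAt.comp (g := fun q : Pl × Pl => F q.1 q.2) (f := fun y : Pl => (y, ang 0))
        (h.F_continuousAt hx) (by fun_prop)
    have c2 : ContinuousAt (fun y : Pl => cvk κ y (ang 0)) x :=
      ContinuousAt.comp (g := fun q : Pl × Pl => cvk κ q.1 q.2) (f := fun y : Pl => (y, ang 0))
        (h.cvk_continuousAt hx (ang_ne_zero 0)) (by fun_prop)
    have c3 : ContinuousAt (fun y : Pl => F y (cvk κ y (ang 0))) x :=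
      ContinuousAt.comp (g := fun q : Pl × Pl => F q.1 q.2) (f := fun y : Pl => (y, cvk κ y (ang 0)))
        (h.F_continuousAt hx) (continuousAt_id.prodMk c2)
    exact c1.mul c3
  unfold lamf
  apply Real.continuous_exp.comp_continuousOn
  apply continuousOn_const.mul
  exact hr.log (fun x hx => (h.rad_pos hx).ne')

theorem LPlane.classify (h : LPlane M F d κ) :
    (∀ x ∈ M, IsEuclidean (F x)) ∨ ∃ x₀ ∈ M, ∃ m : Pl →L[ℝ] ℝ, (∀ x ∈ M, 0 < 1 + m (x - x₀)) ∧
      ∀ x ∈ M, ∀ v : Pl, F x v = F x₀ ((1 + m (x - x₀))⁻¹ • v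
        - (((1 + m (x - x₀)) ^ 2)⁻¹ * m v) • (x - x₀)) := by
  apply classify_of_const h.toKPlane (lam := lamf F κ) (fun x _ => lamf_pos x)
    (lamf_continuousOn h.toKPlane)
  · intro x hx u hu
    rw [h.toKPlane.radon hx hu]
    linear_combination (‖u‖ ^ 2) * h.toKPlane.lamf_cube hx
  · intro x hx u hu s hxs
    exact h.const_line hx hxs

/-- The classification in the affine type. -/
theorem LPlane.main (h : LPlane M F d κ) :
    (∀ P ∈ M, IsEuclidean (F P)) ∨
    ∃ N : Pl → ℝ, IsNorm N ∧ SymmBirkhoff N ∧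
      (∃ x₀ ∈ M, ∃ m : Pl →L[ℝ] ℝ, (∀ x ∈ M, 0 < 1 + m (x - x₀)) ∧
        ∀ P ∈ M, ∀ Q ∈ M, d P Q = N (prj x₀ m Q - prj x₀ m P)) ∧
      (IsCompleteMetric M d → M = univ ∧ ∀ P Q : Pl, d P Q = N (Q - P)) := by
  rcases h.classify with h1 | ⟨x₀, hx₀, m, hm, hform⟩
  · exact Or.inl h1
  · right
    have hN := h.fin.norm x₀ hx₀
    have hdist : ∀ P ∈ M, ∀ Q ∈ M, d P Q = F x₀ (prj x₀ m Q - prj x₀ m P) :=
      flat_dist h.pm.convex (fun P hP Q hQ => h.d_eq_integral hP hQ) hN hm hform
    refine ⟨F x₀, hN, h.toKPlane.symmBirkhoff hx₀, ⟨x₀, hx₀, m, hm, hdist⟩, fun hcomp => ?_⟩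
    have h3 := flat_complete h.pm.isOpen hcomp hN hx₀ hm hdist
    exact ⟨h3.1, h3.2.2⟩

end Pool.Agent.Lib_1de93e
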