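import Pool.Agent.Lib_1de93e.Ell2
import Pool.Agent.Lib_1de93e.Final1

/-!
# The classification from local data, and the elliptic type
-/

namespace Pool.Agent.Lib_1de93e

open Set MeasureTheory Filter Topology

section Canon

variable {M : Set Pl} {F d κ : Pl → Pl → ℝ}

theorem KPlane.kapT_eq (h : KPlane M F d κ) {x u : Pl} (hx : x ∈ M) (hu : u ≠ 0) :
    kapT F x u = κ x u := by
  have hF : F x u ≠ 0 := ((h.fin.norm x hx).pos u hu).ne'
  unfold kapT
  rw [(h.pf_hasFDerivAt hx hu).fderiv, pf_J hu, neg_neg, mul_div_cancel_right₀ _ hF]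

theorem KPlane.cvk_kapT (h : KPlane M F d κ) {x u : Pl} (hx : x ∈ M) (hu : u ≠ 0) :
    cvk (kapT F) x u = cvk κ x u := by
  unfold cvk
  rw [h.kapT_eq hx hu]

theorem KPlane.canon (h : KPlane M F d κ) : KPlane M F d (kapT F) where
  toFPlane := h.toFPlane
  kap_cont := by
    intro x hx u hu
    apply (h.kap_cont x hx u hu).congr
    have e1 : ∀ᶠ q : Pl × Pl in 𝓝 (x, u), q.1 ∈ M :=
      continuous_fst.continuousAt (h.isOpen.mem_nhds hx)
    have e2 : ∀ᶠ q : Pl × Pl in 𝓝 (x, u), q.2 ≠ 0 :=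
      (continuous_snd.continuousAt (x := (x, u))).eventually_ne hu
    filter_upwards [e1, e2] with q h1 h2
    exact (h.kapT_eq h1 h2).symm
  orth := by
    intro x hx u hu s
    rw [h.cvk_kapT hx hu]
    exact h.orth x hx u hu s
  orth' := by
    intro x hx u hu s
    rw [h.cvk_kapT hx hu]
    exact h.orth' x hx u hu s

theorem LPlane.canon (h : LPlane M F d κ) : LPlane M F d (kapT F) where
  toKPlane := h.toKPlane.canon
  lip := h.lip

/-- The classification from local data. -/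
theorem classify_local {M : Set Pl} {F : Pl → Pl → ℝ} (hM : IsOpen M) (hconv : Convex ℝ M)
    (hF : IsFinsler M F)
    (hloc : ∀ p ∈ M, ∃ ρ > 0, ∃ d κ : Pl → Pl → ℝ, LPlane (Metric.ball p ρ) F d κ) :
    (∀ x ∈ M, IsEuclidean (F x)) ∨ ∃ x₀ ∈ M, ∃ m : Pl →L[ℝ] ℝ, (∀ x ∈ M, 0 < 1 + m (x - x₀)) ∧
      ∀ x ∈ M, ∀ v : Pl, F x v = F x₀ ((1 + m (x - x₀))⁻¹ • v
        - (((1 + m (x - x₀)) ^ 2)⁻¹ * m v) • (x - x₀)) := by
  have key : ∀ p ∈ M, HasFDerivAt (lamf F (kapT F)) (fderiv ℝ (lamf F (kapT F)) p) p ∧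
      ContinuousAt (fderiv ℝ (lamf F (kapT F))) p ∧
      ∀ u : Pl, u ≠ 0 → ∃ Φ : Pl × Pl →L[ℝ] ℝ,
        HasFDerivAt (fun q : Pl × Pl => F q.1 q.2) Φ (p, u) ∧
        ∀ w v : Pl, Φ (w, v) = -(fderiv ℝ (lamf F (kapT F)) p w * F p u +
          fderiv ℝ (lamf F (kapT F)) p u * pf F (kapT F) p u w) / lamf F (kapT F) p +
          pf F (kapT F) p u v := by
    intro p hp
    obtain ⟨ρ, hρ, d, κ, hloc1⟩ := hloc p hp
    have h := hloc1.canon
    have hpb : p ∈ Metric.ball p ρ := Metric.mem_ball_self hρ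
    obtain ⟨L, hL, hLc, hLd⟩ := structure_equation h.toKPlane (lam := lamf F (kapT F))
      (fun x _ => lamf_pos x) (lamf_continuousOn h.toKPlane)
      (fun x hx u hu => by
        rw [h.toKPlane.radon hx hu]
        linear_combination (‖u‖ ^ 2) * h.toKPlane.lamf_cube hx)
      (fun x hx u hu s hxs => h.const_line hx hxs)
    have e1 : ∀ x ∈ Metric.ball p ρ, fderiv ℝ (lamf F (kapT F)) x = L x := fun x hx =>
      (hL x hx).fderiv
    refine ⟨by rw [e1 p hpb]; exact hL p hpb, ?_, ?_⟩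
    · have h1 : ContinuousAt L p := hLc.continuousAt (Metric.isOpen_ball.mem_nhds hpb)
      apply h1.congr
      filter_upwards [Metric.isOpen_ball.mem_nhds hpb] with x hx
      exact (e1 x hx).symm
    · intro u hu
      rw [e1 p hpb]
      exact hLd p hpb u hu
  exact classify (A := pf F (kapT F)) hM hconv hF (lam := lamf F (kapT F))
    (L := fderiv ℝ (lamf F (kapT F))) (fun x _ => lamf_pos x) (fun x hx => (key x hx).1)
    (fun x hx => (key x hx).2.1.continuousWithinAt) (fun x hx => (key x hx).2.2)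

end Canon

section Elliptic

variable {F D : E3 → E3 → ℝ} {ℓ : ℝ}

theorem vecT_det {T : E3 ≃L[ℝ] Pl × ℝ} {O u v : Pl} (h : det2 u v ≠ 0) :
    LinearIndependent ℝ ![ptT T O, vecT T u, vecT T v] := by
  rw [Fintype.linearIndependent_iff]
  intro g hg
  rw [Fin.sum_univ_three] at hg
  simp only [Matrix.cons_val_zero, Matrix.cons_val_one, Matrix.cons_val] at hg
  have h1 := congrArg T hg
  rw [map_add, map_add, map_smul, map_smul, map_smul, T_ptT, T_vecT, T_vecT, map_zero,
    Prod.smul_mk, Prod.smul_mk, Prod.smul_mk, Prod.mk_add_mk, Prod.mk_add_mk] at h1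
  obtain ⟨h2, h3⟩ := Prod.mk.inj (h1.trans Prod.zero_eq_mk)
  simp only [smul_eq_mul, mul_one, mul_zero, add_zero] at h3
  change g 0 • O + g 1 • u + g 2 • v = 0 at h2
  rw [h3, zero_smul, zero_add] at h2
  have a1 : g 1 = 0 := by
    have h4 : det2 (g 1 • u + g 2 • v) v = 0 := by rw [h2]; unfold det2; simp
    rw [det2_add_left, det2_smul_left, det2_smul_left, det2_self, mul_zero, add_zero] at h4
    exact (mul_eq_zero.1 h4).resolve_right h
  have a2 : g 2 = 0 := by
    have h4 : det2 u (g 1 • u + g 2 • v) = 0 := by rw [h2]; unfold det2; simp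
    rw [det2_add_right, det2_smul_right, det2_smul_right, det2_self, mul_zero, zero_add] at h4
    exact (mul_eq_zero.1 h4).resolve_right h
  intro i
  fin_cases i
  · exact h3
  · exact a1
  · exact a2

theorem pt_vec_indep {T : E3 ≃L[ℝ] Pl × ℝ} {O v : Pl} (hv : v ≠ 0) :
    LinearIndependent ℝ ![ptT T O, vecT T v] := by
  rw [LinearIndependent.pair_iff]
  intro s t hst
  have h1 := congrArg T hst
  rw [map_add, map_smul, map_smul, T_ptT, T_vecT, map_zero, Prod.smul_mk, Prod.smul_mk,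
    Prod.mk_add_mk] at h1
  obtain ⟨h2, h3⟩ := Prod.mk.inj (h1.trans Prod.zero_eq_mk)
  simp only [smul_eq_mul, mul_one, mul_zero, add_zero] at h3
  rw [h3, zero_smul, zero_add] at h2
  exact ⟨h3, (smul_eq_zero.1 h2).resolve_right hv⟩

theorem perp_of_perpP2 {T : E3 ≃L[ℝ] Pl × ℝ} {M : Set Pl} {O u v : Pl}
    (h : PerpP2 D (ptT T O) (vecT T u) (vecT T v)) : Perp M (DT T D) O u v := by
  intro s t _ _
  unfold DT
  rw [ptT_add_smul, ptT_add_smul]
  have h1 := h 1 s 1 t (by
    rw [one_smul, ← ptT_add_smul]; exact ptT_ne_zero T _) (by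
    rw [one_smul, ← ptT_add_smul]; exact ptT_ne_zero T _)
  rwa [one_smul] at h1

theorem perpP2_shift {O u v : E3} {c : ℝ} (h : PerpP2 D O u v) : PerpP2 D O (u - c • O) v := by
  intro a s b t h1 h2
  have e : a • O + s • (u - c • O) = (a - s * c) • O + s • u := by
    rw [smul_sub, smul_smul, sub_smul]; abel
  rw [e] at h1 ⊢
  exact h _ s b t h1 h2

/-- Small balls of the charts of an elliptic plane with symmetric perpendicularity. -/
theorem pplane_ball (T : E3 ≃L[ℝ] Pl × ℝ) (hF : IsFinslerP2 F) (hL : IsLengthMetricP2 F D)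
    (hD : IsEllipticMetric D ℓ)
    (hex : ∀ O v : E3, LinearIndependent ℝ ![O, v] →
      ∃ u : E3, LinearIndependent ℝ ![O, u] ∧ PerpP2 D O u v)
    (hsym : SymmetricPerpP2 D) {p : Pl} {ρ : ℝ} (hρ : 0 < ρ)
    (hsmall : ∀ a ∈ Metric.ball p ρ, ∀ b ∈ Metric.ball p ρ, DT T D a b < ℓ / 4) :
    PPlane (Metric.ball p ρ) (FT T F) (DT T D) where
  toFPlane := fplane_ball T hF hL hD hρ hsmall
  perp := by
    intro O hO v hv
    have hfp := fplane_ball T hF hL hD hρ hsmall
    obtain ⟨u', hu', hp⟩ := hex (ptT T O) (vecT T v) (pt_vec_indep hv)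
    set c := (T u').2 with hc
    set u : Pl := (T u').1 - c • O with hu
    have e1 : vecT T u = u' - c • ptT T O := by
      apply T.injective
      rw [T_vecT, map_sub, map_smul, T_ptT]
      ext1
      · simp [hu]
      · simp [hc]
    have hune : u ≠ 0 := by
      intro h0
      rw [h0] at e1
      have e2 : vecT T 0 = 0 := by
        unfold vecT
        have : ((0:Pl), (0:ℝ)) = 0 := rfl
        rw [this, map_zero]
      rw [e2] at e1
      rw [LinearIndependent.pair_iff] at hu'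
      have h1 := hu' (-c) 1 (by rw [one_smul, neg_smul, e1]; abel)
      exact one_ne_zero h1.2
    have hp' : PerpP2 D (ptT T O) (vecT T u) (vecT T v) := by
      rw [e1]; exact perpP2_shift hp
    have hP1 : Perp (Metric.ball p ρ) (DT T D) O u v := perp_of_perpP2 hp'
    have hdet := hfp.det2_ne_of_perp hO hune hv hP1
    exact ⟨u, hune, hP1, perp_of_perpP2 (hsym _ _ _ (vecT_det hdet) hp')⟩

/-- In every chart the tangent norms are Euclidean. -/
theorem elliptic_chart (T : E3 ≃L[ℝ] Pl × ℝ) (hF : IsFinslerP2 F)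
    (hloc : ∀ p : Pl, ∃ ρ > 0, ∃ d κ : Pl → Pl → ℝ, LPlane (Metric.ball p ρ) (FT T F) d κ) :
    ∀ x, IsEuclidean (FT T F x) := by
  rcases classify_local isOpen_univ convex_univ (isFinsler_FT T hF) (fun p _ => hloc p) with
    h | ⟨x₀, -, m, hm, hform⟩
  · exact fun x => h x (mem_univ x)
  · exfalso
    have hm0 : m = 0 := by
      ext w
      by_contra hw
      have hw' : m w ≠ 0 := hw
      have h1 := hm (x₀ + (-(m w)⁻¹) • w) (mem_univ _)
      rw [add_sub_cancel_left, map_smul, smul_eq_mul, neg_mul, inv_mul_cancel₀ hw'] at h1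
      linarith
    have hconst : ∀ x v : Pl, FT T F x v = FT T F x₀ v := by
      intro x v
      rw [hform x (mem_univ x) v, hm0]
      simp
    -- let x go to infinity
    set w : Pl := ang 0 with hw
    have hw0 : w ≠ 0 := ang_ne_zero 0
    have h1 : ∀ t : ℝ, t ≠ 0 → FT T F (t⁻¹ • w) w = t * (t * 0 + |t|⁻¹ * 0) +
        |t| * F (T.symm (w, t)) (T.symm (w, 0)) := by
      intro t ht
      have e1 : ptT T (t⁻¹ • w) = t⁻¹ • T.symm (w, t) := by
        unfold ptT
        rw [← map_smul, Prod.smul_mk, smul_eq_mul, inv_mul_cancel₀ ht]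
      have e2 : vecT T w = t⁻¹ • (t • vecT T w) := by
        rw [smul_smul, inv_mul_cancel₀ ht, one_smul]
      have hne : T.symm (w, t) ≠ 0 := by
        intro h0
        have := congrArg T h0
        rw [T.apply_symm_apply, map_zero] at this
        exact ht (congrArg Prod.snd this)
      unfold FT
      rw [e1, e2, hF.scale _ hne _ _ (inv_ne_zero ht), hF.smul _ hne]
      simp [vecT]
    have h2 : ContinuousAt (fun t : ℝ => |t| * F (T.symm (w, t)) (T.symm (w, 0))) 0 := by
      have hne : T.symm (w, (0:ℝ)) ≠ 0 := by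
        intro h0
        have := congrArg T h0
        rw [T.apply_symm_apply, map_zero] at this
        exact hw0 (congrArg Prod.fst this)
      have hc : ContinuousAt (fun q : E3 × E3 => F q.1 q.2) (T.symm (w, (0:ℝ)), T.symm (w, (0:ℝ))) := by
        apply hF.cont.continuousAt
        exact (isOpen_compl_singleton.prod isOpen_univ).mem_nhds ⟨hne, mem_univ _⟩
      have hc2 : ContinuousAt (fun t : ℝ => (T.symm (w, t), T.symm (w, (0:ℝ)))) 0 := by
        apply Continuous.continuousAt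
        exact (T.symm.continuous.comp (by fun_prop)).prodMk continuous_const
      have hc3 : ContinuousAt (fun t : ℝ => F (T.symm (w, t)) (T.symm (w, 0))) 0 :=
        ContinuousAt.comp (g := fun q : E3 × E3 => F q.1 q.2)
          (f := fun t : ℝ => (T.symm (w, t), T.symm (w, (0:ℝ)))) hc hc2
      exact (continuous_abs.continuousAt).mul hc3
    have h3 : Tendsto (fun t : ℝ => |t| * F (T.symm (w, t)) (T.symm (w, 0))) (𝓝[≠] 0) (𝓝 0) := by
      have := h2.tendsto.mono_left (nhdsWithin_le_nhds (s := {(0:ℝ)}ᶜ))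
      simpa using this
    have h4 : Tendsto (fun _ : ℝ => FT T F x₀ w) (𝓝[≠] (0:ℝ)) (𝓝 0) := by
      apply h3.congr'
      filter_upwards [self_mem_nhdsWithin] with t ht
      rw [← hconst (t⁻¹ • w) w, h1 t ht]
      ring
    have h5 : FT T F x₀ w = 0 := tendsto_nhds_unique tendsto_const_nhds h4
    exact ((isFinsler_FT T hF).norm x₀ (mem_univ _)).pos w hw0 |>.ne' h5

/-- A chart centred at a given point. -/
theorem exists_chart {x : E3} (hx : x ≠ 0) : ∃ T : E3 ≃L[ℝ] Pl × ℝ, T x = (0, 1) := by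
  have hfr : Module.finrank ℝ E3 = Module.finrank ℝ (Pl × ℝ) := by
    rw [Module.finrank_prod, finrank_euclideanSpace_fin, finrank_euclideanSpace_fin,
      Module.finrank_self]
  let T₀ : E3 ≃L[ℝ] Pl × ℝ := ContinuousLinearEquiv.ofFinrankEq hfr
  have h1 : T₀ x ≠ 0 := by
    intro h0
    exact hx ((map_eq_zero_iff T₀ T₀.injective).1 h0)
  have h2 : ((0:Pl), (1:ℝ)) ≠ 0 := by
    intro h0
    exact one_ne_zero (congrArg Prod.snd h0)
  obtain ⟨A, hA⟩ := SeparatingDual.exists_continuousLinearEquiv_apply_eq (R := ℝ) h1 h2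
  exact ⟨T₀.trans A, by simpa using hA⟩

/-- The elliptic type, from local data in the charts. -/
theorem elliptic_of_local (hF : IsFinslerP2 F)
    (hloc : ∀ T : E3 ≃L[ℝ] Pl × ℝ, ∀ p : Pl, ∃ ρ > 0, ∃ d κ : Pl → Pl → ℝ,
      LPlane (Metric.ball p ρ) (FT T F) d κ) :
    ∀ x : E3, x ≠ 0 → IsEuclideanP2 (F x) := by
  intro x hx
  obtain ⟨T, hT⟩ := exists_chart hx
  obtain ⟨B, hB1, hB2⟩ := elliptic_chart T hF (hloc T) 0
  let π : E3 →ₗ[ℝ] Pl := (LinearMap.fst ℝ Pl ℝ).comp T.toLinearEquiv.toLinearMap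
  refine ⟨(B.comp π).compl₂ π, fun u v => by
    simp only [LinearMap.compl₂_apply, LinearMap.comp_apply]; exact hB1 _ _, fun u => ?_⟩
  have e1 : ptT T 0 = x := by
    unfold ptT
    rw [← hT, T.symm_apply_apply]
  have e2 : u = vecT T (π u) + (T u).2 • x := by
    apply T.injective
    rw [map_add, T_vecT, map_smul, hT]
    ext1
    · simp [π]
    · simp
  have e3 : F x u = FT T F 0 (π u) := by
    unfold FT
    rw [e1]
    conv_lhs => rw [e2]
    exact hF.shift x hx _ _
  rw [e3, hB2]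
  simp [LinearMap.compl₂_apply]

/-- The elliptic type. -/
theorem elliptic_main (hF : IsFinslerP2 F) (hL : IsLengthMetricP2 F D) (hD : IsEllipticMetric D ℓ)
    (hex : ∀ O v : E3, LinearIndependent ℝ ![O, v] →
      ∃ u : E3, LinearIndependent ℝ ![O, u] ∧ PerpP2 D O u v)
    (hsym : SymmetricPerpP2 D) : ∀ x : E3, x ≠ 0 → IsEuclideanP2 (F x) := by
  apply elliptic_of_local hF
  intro T p
  obtain ⟨ρ, hρ, hsmall⟩ := exists_small_DT T hD p
  exact ⟨ρ, hρ, DT T D, _, (pplane_ball T hF hL hD hex hsym hρ hsmall).toLPlane⟩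

end Elliptic

end Pool.Agent.Lib_1de93e
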