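import Pool.Agent.Lib_1de93e.Defs

/-!
# Finslerian projective-metric planes of elliptic type: definitions

The real projective plane is described in homogeneous coordinates: its points are the classes
`[x]`, `x ≠ 0` in `ℝ³`, and its lines are the planes through the origin of `ℝ³`.
-/

namespace Pool.Agent.Lib_1de93e

open Set MeasureTheory

/-- The space of homogeneous coordinates of the projective plane. -/
abbrev E3 := EuclideanSpace ℝ (Fin 3)

/-- `F` is a Finsler function on the projective plane. A tangent vector at `[x]` is given by a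
pair `(x, v)`; the pairs `(x, v)`, `(x, v + c x)` and `(a x, a v)` give the same vector. -/
structure IsFinslerP2 (F : E3 → E3 → ℝ) : Prop where
  cont : ContinuousOn (fun p : E3 × E3 => F p.1 p.2) ({0}ᶜ ×ˢ univ)
  scale : ∀ x : E3, x ≠ 0 → ∀ (a : ℝ) (v : E3), a ≠ 0 → F (a • x) (a • v) = F x v
  shift : ∀ x : E3, x ≠ 0 → ∀ (c : ℝ) (v : E3), F x (v + c • x) = F x v
  pos : ∀ x : E3, x ≠ 0 → ∀ v : E3, (∀ c : ℝ, v ≠ c • x) → 0 < F x v
  smul : ∀ x : E3, x ≠ 0 → ∀ (r : ℝ) (v : E3), F x (r • v) = |r| * F x v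
  add_le : ∀ x : E3, x ≠ 0 → ∀ u v : E3, F x (u + v) ≤ F x u + F x v

/-- `D` is the length metric of `F` on the projective plane. -/
def IsLengthMetricP2 (F D : E3 → E3 → ℝ) : Prop :=
  ∀ x : E3, x ≠ 0 → ∀ y : E3, y ≠ 0 → IsGLB {L : ℝ | ∃ γ : ℝ → E3, ContDiff ℝ 1 γ ∧
    (∀ t ∈ Icc (0:ℝ) 1, γ t ≠ 0) ∧ γ 0 = x ∧ (∃ a : ℝ, a ≠ 0 ∧ γ 1 = a • y) ∧
    L = ∫ t in (0:ℝ)..1, F (γ t) (deriv γ t)} (D x y)

/-- `D` is a metric on the projective plane (inducing the usual topology, the projective plane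
being compact) whose geodesics are the projective lines, all of length `ℓ`: every projective
line is isometric to a circle of length `ℓ`, and `D x y + D y z = D x z` forces `[x]`, `[y]`,
`[z]` to be collinear. -/
structure IsEllipticMetric (D : E3 → E3 → ℝ) (ℓ : ℝ) : Prop where
  pos_len : 0 < ℓ
  scale : ∀ x y : E3, x ≠ 0 → y ≠ 0 → ∀ a b : ℝ, a ≠ 0 → b ≠ 0 → D (a • x) (b • y) = D x y
  eq_zero_iff : ∀ x y : E3, x ≠ 0 → y ≠ 0 → (D x y = 0 ↔ ∃ a : ℝ, y = a • x)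
  symm : ∀ x y : E3, x ≠ 0 → y ≠ 0 → D x y = D y x
  triangle : ∀ x y z : E3, x ≠ 0 → y ≠ 0 → z ≠ 0 → D x z ≤ D x y + D y z
  cont : ContinuousOn (fun p : E3 × E3 => D p.1 p.2) ({0}ᶜ ×ˢ {0}ᶜ)
  line : ∀ x y : E3, LinearIndependent ℝ ![x, y] → ∃ γ : ℝ → E3,
    (∀ t, γ t ≠ 0 ∧ γ t ∈ Submodule.span ℝ {x, y}) ∧
    (∀ z ∈ Submodule.span ℝ {x, y}, z ≠ 0 → ∃ t a : ℝ, z = a • γ t) ∧
    (∀ t, ∃ a : ℝ, γ (t + ℓ) = a • γ t) ∧
    ∀ s t : ℝ, |s - t| ≤ ℓ / 2 → D (γ s) (γ t) = |s - t|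
  strict : ∀ x y z : E3, x ≠ 0 → y ≠ 0 → z ≠ 0 → D x y + D y z = D x z →
    ¬ LinearIndependent ℝ ![x, y, z]

/-- Perpendicularity of the line through `[O]` and `[u]` to the line through `[O]` and `[v]`:
`D X O ≤ D X Y` for all points `X` of the first and `Y` of the second line. -/
def PerpP2 (D : E3 → E3 → ℝ) (O u v : E3) : Prop :=
  ∀ a s b t : ℝ, a • O + s • u ≠ 0 → b • O + t • v ≠ 0 →
    D (a • O + s • u) O ≤ D (a • O + s • u) (b • O + t • v)

/-- Perpendicularity of lines is symmetric. -/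
def SymmetricPerpP2 (D : E3 → E3 → ℝ) : Prop :=
  ∀ O u v : E3, LinearIndependent ℝ ![O, u, v] → PerpP2 D O u v → PerpP2 D O v u

/-- The seminorm `N` comes from an inner product (on the quotient by its kernel). -/
def IsEuclideanP2 (N : E3 → ℝ) : Prop :=
  ∃ B : E3 →ₗ[ℝ] E3 →ₗ[ℝ] ℝ, (∀ u v, B u v = B v u) ∧ ∀ u, N u ^ 2 = B u u

end Pool.Agent.Lib_1de93e
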