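import Pool.Agent.Lib_1de93e.Ell3

/-!
# The classification from the tangent planes, for locally Lipschitz Finsler functions
-/

namespace Pool.Agent.Lib_1de93e

open Set MeasureTheory Filter Topology

section Affine

variable {M : Set Pl} {F d : Pl → Pl → ℝ}

theorem LPlane.of_tangent (h : FPlane M F d)
    (hdiff : ∀ x ∈ M, ∀ u : Pl, u ≠ 0 → DifferentiableAt ℝ (F x) u)
    (hlip : ∀ P ∈ M, ∃ r > 0, ∃ L : ℝ, ∀ x ∈ Metric.ball P r, ∀ y ∈ Metric.ball P r, x ∈ M →
      y ∈ M → ∀ u, |F x u - F y u| ≤ L * ‖x - y‖ * ‖u‖)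
    (hsym : ∀ x ∈ M, SymmBirkhoff (F x)) : LPlane M F d (kapT F) where
  toKPlane := KPlane.of_tangent h hdiff hsym
  lip := by
    intro P hP
    obtain ⟨r, hr, L, hL⟩ := hlip P hP
    obtain ⟨r', hr', hsub⟩ := Metric.isOpen_iff.1 h.isOpen P hP
    refine ⟨min r r', lt_min hr hr', max L 1, by positivity,
      (Metric.ball_subset_ball (min_le_right _ _)).trans hsub, fun x hx y hy u => ?_⟩
    have hx1 := Metric.ball_subset_ball (min_le_left r r') hx
    have hy1 := Metric.ball_subset_ball (min_le_left r r') hy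
    have hx2 := hsub (Metric.ball_subset_ball (min_le_right r r') hx)
    have hy2 := hsub (Metric.ball_subset_ball (min_le_right r r') hy)
    refine (hL x hx1 y hy1 hx2 hy2 u).trans ?_
    gcongr
    exact le_max_left _ _

end Affine

section Elliptic

variable {F D : E3 → E3 → ℝ} {ℓ : ℝ}

/-- The elliptic type, for locally Lipschitz `F`, perpendicularity in the tangent planes. -/
theorem elliptic_tangent (hF : IsFinslerP2 F) (hL : IsLengthMetricP2 F D)
    (hD : IsEllipticMetric D ℓ)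
    (hdiff : ∀ x : E3, x ≠ 0 → ∀ v : E3, (∀ c : ℝ, v ≠ c • x) → DifferentiableAt ℝ (F x) v)
    (hlip : ∀ P : E3, P ≠ 0 → ∃ r > 0, ∃ L : ℝ, ∀ x ∈ Metric.ball P r, ∀ y ∈ Metric.ball P r,
      x ≠ 0 → y ≠ 0 → ∀ u, |F x u - F y u| ≤ L * ‖x - y‖ * ‖u‖)
    (hsym : ∀ x : E3, x ≠ 0 → ∀ u v : E3, (∀ s : ℝ, F x u ≤ F x (u + s • v)) →
      ∀ s : ℝ, F x v ≤ F x (v + s • u)) : ∀ x : E3, x ≠ 0 → IsEuclideanP2 (F x) := by
  apply elliptic_of_local hF
  intro T p
  obtain ⟨ρ, hρ, hsmall⟩ := exists_small_DT T hD p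
  refine ⟨ρ, hρ, DT T D, kapT (FT T F), LPlane.of_tangent (fplane_ball T hF hL hD hρ hsmall)
    ?_ ?_ ?_⟩
  · intro x _ u hu
    have h1 : DifferentiableAt ℝ (F (ptT T x)) (vecT T u) :=
      hdiff _ (ptT_ne_zero T x) _ (fun c => vecT_ne T hu c)
    have h2 : DifferentiableAt ℝ (vecT T) u := by
      unfold vecT
      exact T.symm.differentiableAt.comp u
        (DifferentiableAt.prodMk differentiableAt_id (differentiableAt_const _))
    exact h1.comp u h2
  · intro P _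
    obtain ⟨r, hr, L, hL1⟩ := hlip (ptT T P) (ptT_ne_zero T P)
    have hc : ContinuousAt (ptT T) P := (continuous_ptT T).continuousAt
    obtain ⟨r', hr', hb⟩ := Metric.continuousAt_iff.1 hc r hr
    set C := ‖(T.symm : Pl × ℝ →L[ℝ] E3)‖ with hC
    refine ⟨r', hr', |L| * C * C, fun x hx y hy _ _ u => ?_⟩
    have h1 := hL1 (ptT T x) (hb hx) (ptT T y) (hb hy) (ptT_ne_zero T x) (ptT_ne_zero T y)
      (vecT T u)
    have h2 : ‖ptT T x - ptT T y‖ ≤ C * ‖x - y‖ := by
      unfold ptT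
      rw [← map_sub]
      refine ((T.symm : Pl × ℝ →L[ℝ] E3).le_opNorm _).trans ?_
      rw [Prod.mk_sub_mk, Prod.norm_mk, sub_self, norm_zero, max_eq_left (norm_nonneg _)]
    have h3 : ‖vecT T u‖ ≤ C * ‖u‖ := by
      unfold vecT
      refine ((T.symm : Pl × ℝ →L[ℝ] E3).le_opNorm _).trans ?_
      rw [Prod.norm_mk, norm_zero, max_eq_left (norm_nonneg _)]
    have hC0 : 0 ≤ C := norm_nonneg _
    calc |FT T F x u - FT T F y u| ≤ L * ‖ptT T x - ptT T y‖ * ‖vecT T u‖ := h1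
      _ ≤ |L| * ‖ptT T x - ptT T y‖ * ‖vecT T u‖ := by gcongr; exact le_abs_self _
      _ ≤ |L| * (C * ‖x - y‖) * (C * ‖u‖) := by gcongr
      _ = |L| * C * C * ‖x - y‖ * ‖u‖ := by ring
  · intro x _ u v huv s
    have h1 := hsym (ptT T x) (ptT_ne_zero T x) (vecT T u) (vecT T v) (fun s => by
      have := huv s
      unfold FT at this
      rwa [vecT_add, vecT_smul] at this) s
    unfold FT
    rwa [vecT_add, vecT_smul]

end Elliptic

end Pool.Agent.Lib_1de93e
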