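import Pool.Agent.Lib_1de93e.Conj

/-!
# Differentiability of the norms and of the distance
-/

namespace Pool.Agent.Lib_1de93e

open Set MeasureTheory Filter Topology

/-- `w ↦ det2 w v`. -/
noncomputable def detL (v : Pl) : Pl →L[ℝ] ℝ :=
  v 1 • EuclideanSpace.proj (𝕜 := ℝ) (0 : Fin 2) - v 0 • EuclideanSpace.proj (𝕜 := ℝ) (1 : Fin 2)

@[simp] theorem detL_apply (v w : Pl) : detL v w = det2 w v := by
  simp [detL, det2]; ring

theorem continuous_detL : Continuous detL := by
  unfold detL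
  fun_prop

/-- A Finslerian projective-metric plane with continuously differentiable norms. -/
structure C1Plane (M : Set Pl) (F d : Pl → Pl → ℝ) (p : Pl → Pl → Pl →L[ℝ] ℝ) : Prop
    extends FPlane M F d where
  hasFDerivAt : ∀ x ∈ M, ∀ u : Pl, u ≠ 0 → HasFDerivAt (F x) (p x u) u
  p_cont : ∀ x ∈ M, ∀ u : Pl, u ≠ 0 → ContinuousAt (fun q : Pl × Pl => p q.1 q.2) (x, u)

variable {M : Set Pl} {F d : Pl → Pl → ℝ}

/-- The conjugate vector `J u + κ u`. -/
noncomputable def cvk (κ : Pl → Pl → ℝ) (x u : Pl) : Pl := J u + κ x u • u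

theorem det2_cvk (κ : Pl → Pl → ℝ) (x u : Pl) : det2 u (cvk κ x u) = ‖u‖ ^ 2 := by
  unfold cvk
  rw [det2_add_right, det2_smul_right, det2_self, det2_J]; ring

theorem cvk_ne_zero {κ : Pl → Pl → ℝ} {x u : Pl} (hu : u ≠ 0) : cvk κ x u ≠ 0 := by
  intro h
  have h1 := det2_cvk κ x u
  rw [h] at h1
  have : ‖u‖ ^ 2 = 0 := by rw [← h1]; unfold det2; simp
  exact hu (norm_eq_zero.1 (by simpa using this))

/-- The derivative of the norm. -/
noncomputable def pf (F κ : Pl → Pl → ℝ) (x u : Pl) : Pl →L[ℝ] ℝ :=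
  (F x u / ‖u‖ ^ 2) • detL (cvk κ x u)

theorem pf_apply {κ : Pl → Pl → ℝ} (x u w : Pl) :
    pf F κ x u w = F x u / ‖u‖ ^ 2 * det2 w (cvk κ x u) := by
  simp [pf]

theorem det2_cvk_cvk (κ : Pl → Pl → ℝ) (x y u : Pl) :
    det2 (cvk κ x u) (cvk κ y u) = (κ x u - κ y u) * ‖u‖ ^ 2 := by
  unfold cvk
  simp only [det2_add_right, det2_add_left, det2_smul_right, det2_smul_left, det2_self, det2_J,
    det2_J_left]
  ring

theorem det2_J_cvk (κ : Pl → Pl → ℝ) (y u : Pl) :
    det2 (J u) (cvk κ y u) = - κ y u * ‖u‖ ^ 2 := by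
  unfold cvk
  simp only [det2_add_right, det2_smul_right, det2_self, det2_J_left]
  ring

theorem pf_J {κ : Pl → Pl → ℝ} {x u : Pl} (hu : u ≠ 0) :
    pf F κ x u (J u) = -(κ x u * F x u) := by
  rw [pf_apply, det2_J_cvk]
  have : ‖u‖ ≠ 0 := norm_ne_zero_iff.2 hu
  field_simp

theorem pf_cvk_self {κ : Pl → Pl → ℝ} (x u : Pl) : pf F κ x u (cvk κ x u) = 0 := by
  rw [pf_apply, det2_self, mul_zero]

/-- A Finslerian projective-metric plane whose tangent norms have conjugate directions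
`J u + κ u` depending continuously on the data. -/
structure KPlane (M : Set Pl) (F d κ : Pl → Pl → ℝ) : Prop extends FPlane M F d where
  kap_cont : ∀ x ∈ M, ∀ u : Pl, u ≠ 0 → ContinuousAt (fun q : Pl × Pl => κ q.1 q.2) (x, u)
  orth : ∀ x ∈ M, ∀ u : Pl, u ≠ 0 → ∀ s : ℝ, F x u ≤ F x (u + s • cvk κ x u)
  orth' : ∀ x ∈ M, ∀ u : Pl, u ≠ 0 → ∀ s : ℝ, F x (cvk κ x u) ≤ F x (cvk κ x u + s • u)

theorem PPlane.toKPlane (h : PPlane M F d) : KPlane M F d (kap M d) where
  toFPlane := h.toFPlane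
  kap_cont := fun _ hx _ hu => h.kap_continuousAt hx hu
  orth := fun _ hx _ hu s => h.F_le_add_cv hx hu s
  orth' := fun _ hx _ hu s => h.F_cv_le_add hx hu s

namespace KPlane

variable {κ : Pl → Pl → ℝ} (h : KPlane M F d κ)

include h

theorem cvk_continuousAt {x u : Pl} (hxM : x ∈ M) (hu : u ≠ 0) :
    ContinuousAt (fun p : Pl × Pl => cvk κ p.1 p.2) (x, u) := by
  unfold cvk
  have h1 := h.kap_cont x hxM u hu
  have h2 : ContinuousAt (fun p : Pl × Pl => J p.2) (x, u) := by fun_prop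
  exact h2.add (h1.smul continuousAt_snd)

theorem F_continuousAt {x u : Pl} (hx : x ∈ M) :
    ContinuousAt (fun q : Pl × Pl => F q.1 q.2) (x, u) :=
  h.fin.cont.continuousAt ((h.toFPlane.isOpen.prod isOpen_univ).mem_nhds ⟨hx, mem_univ _⟩)

theorem pf_continuousAt {x u : Pl} (hx : x ∈ M) (hu : u ≠ 0) :
    ContinuousAt (fun q : Pl × Pl => pf F κ q.1 q.2) (x, u) := by
  unfold pf
  have h1 := h.F_continuousAt (u := u) hx
  have h2 : ContinuousAt (fun q : Pl × Pl => ‖q.2‖ ^ 2) (x, u) := by fun_prop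
  have h3 : ContinuousAt (fun q : Pl × Pl => detL (cvk κ q.1 q.2)) (x, u) :=
    ContinuousAt.comp (g := detL) (f := fun q : Pl × Pl => cvk κ q.1 q.2)
      continuous_detL.continuousAt (h.cvk_continuousAt hx hu)
  have h4 : ‖u‖ ^ 2 ≠ 0 := by
    have : 0 < ‖u‖ := norm_pos_iff.2 hu
    positivity
  exact (h1.div h2 h4).smul h3

theorem pf_subgrad {x u : Pl} (hx : x ∈ M) (hu : u ≠ 0) (w : Pl) :
    F x u + pf F κ x u w ≤ F x (u + w) := by
  have hN := h.fin.norm x hx
  set V := cvk κ x u with hV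
  have hdet : det2 u V ≠ 0 := by
    rw [hV, det2_cvk]
    have : 0 < ‖u‖ := norm_pos_iff.2 hu
    positivity
  have hcr := cramer hdet w
  set α := det2 w V / det2 u V with hα
  set β := det2 u w / det2 u V with hβ
  have h1 : pf F κ x u w = α * F x u := by
    rw [pf_apply, hα, ← hV]
    have : det2 u V = ‖u‖ ^ 2 := det2_cvk κ x u
    rw [this]; ring
  have h2 : |1 + α| * F x u ≤ F x (u + w) := by
    by_cases h0 : 1 + α = 0
    · rw [h0, abs_zero, zero_mul]
      exact hN.nonneg _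
    · have e1 : u + w = (1 + α) • (u + (β / (1 + α)) • V) := by
        rw [hcr, smul_add, smul_smul, mul_div_cancel₀ _ h0, add_smul, one_smul]
        abel
      rw [e1, hN.smul]
      exact mul_le_mul_of_nonneg_left (h.orth x hx u hu _) (abs_nonneg _)
  have h3 : (1 + α) * F x u ≤ |1 + α| * F x u :=
    mul_le_mul_of_nonneg_right (le_abs_self _) (hN.nonneg _)
  rw [h1]
  linarith

theorem pf_hasFDerivAt {x u : Pl} (hx : x ∈ M) (hu : u ≠ 0) :
    HasFDerivAt (F x) (pf F κ x u) u := by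
  rw [hasFDerivAt_iff_isLittleO_nhds_zero, Asymptotics.isLittleO_iff]
  intro c hc
  have h1 : ContinuousAt (fun w : Pl => pf F κ x (u + w)) 0 := by
    have h2 : ContinuousAt (fun w : Pl => (x, u + w)) 0 := by fun_prop
    have h3 : ContinuousAt (fun q : Pl × Pl => pf F κ q.1 q.2) (x, u + 0) := by
      rw [add_zero]; exact h.pf_continuousAt hx hu
    exact ContinuousAt.comp (g := fun q : Pl × Pl => pf F κ q.1 q.2)
      (f := fun w : Pl => (x, u + w)) h3 h2
  have h4 := (Metric.continuousAt_iff'.1 h1) c hc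
  have h5 : ∀ᶠ w : Pl in 𝓝 0, u + w ≠ 0 := by
    have h6 : ContinuousAt (fun w : Pl => u + w) 0 := by fun_prop
    exact h6.eventually_ne (by simpa using hu)
  filter_upwards [h4, h5] with w hw1 hw2
  rw [add_zero, dist_eq_norm] at hw1
  have s1 := h.pf_subgrad hx hu w
  have s2 := h.pf_subgrad hx hw2 (-w)
  rw [add_neg_cancel_right, map_neg] at s2
  rw [Real.norm_eq_abs, abs_of_nonneg (by linarith)]
  have h7 : (pf F κ x (u + w) - pf F κ x u) w ≤ c * ‖w‖ := by
    calc (pf F κ x (u + w) - pf F κ x u) w ≤ ‖(pf F κ x (u + w) - pf F κ x u) w‖ :=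
          Real.le_norm_self _
      _ ≤ ‖pf F κ x (u + w) - pf F κ x u‖ * ‖w‖ := ContinuousLinearMap.le_opNorm _ _
      _ ≤ c * ‖w‖ := by gcongr
  rw [sub_apply] at h7
  linarith

theorem toC1Plane : C1Plane M F d (pf F κ) where
  toFPlane := h.toFPlane
  hasFDerivAt := fun _ hx _ hu => h.pf_hasFDerivAt hx hu
  p_cont := fun _ hx _ hu => h.pf_continuousAt hx hu

end KPlane

namespace C1Plane

variable {p : Pl → Pl → Pl →L[ℝ] ℝ} (h : C1Plane M F d p)

include h

theorem F_continuousAt {x u : Pl} (hx : x ∈ M) :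
    ContinuousAt (fun q : Pl × Pl => F q.1 q.2) (x, u) :=
  h.fin.cont.continuousAt ((h.toFPlane.isOpen.prod isOpen_univ).mem_nhds ⟨hx, mem_univ _⟩)

theorem hasDerivAt_line {x u w : Pl} (hx : x ∈ M) (hu : u ≠ 0) :
    HasDerivAt (fun t : ℝ => F x (u + t • w)) (p x u w) 0 := by
  have h1 : HasDerivAt (fun t : ℝ => u + t • w) w 0 := by
    have := ((hasDerivAt_id (0:ℝ)).smul_const w).const_add u
    simpa using this
  have h2 : HasFDerivAt (F x) (p x u) (u + (0:ℝ) • w) := by
    rw [zero_smul, add_zero]; exact h.hasFDerivAt x hx u hu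
  exact h2.comp_hasDerivAt (0:ℝ) h1

theorem p_self {x u : Pl} (hx : x ∈ M) (hu : u ≠ 0) : p x u u = F x u := by
  have h1 := h.hasDerivAt_line (w := u) hx hu
  have hN := h.fin.norm x hx
  have h2 : HasDerivAt (fun t : ℝ => (1 + t) * F x u) (F x u) 0 := by
    have := ((hasDerivAt_id (0:ℝ)).const_add 1).mul_const (F x u)
    simpa using this
  have h3 : (fun t : ℝ => F x (u + t • u)) =ᶠ[𝓝 0] (fun t : ℝ => (1 + t) * F x u) := by
    have : ∀ᶠ t : ℝ in 𝓝 0, -1 < t := lt_mem_nhds (by norm_num)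
    filter_upwards [this] with t ht
    have e : u + t • u = (1 + t) • u := by rw [add_smul, one_smul]
    rw [e, hN.smul_nonneg (by linarith)]
  exact (h1.congr_of_eventuallyEq h3.symm).unique h2

theorem subgrad {x u : Pl} (hx : x ∈ M) (hu : u ≠ 0) (w : Pl) :
    F x u + p x u w ≤ F x (u + w) := by
  have h1 := h.hasDerivAt_line (w := w) hx hu
  have hN := h.fin.norm x hx
  have h2 : Tendsto (fun t : ℝ => t⁻¹ * (F x (u + t • w) - F x u)) (𝓝[>] 0) (𝓝 (p x u w)) := by
    have := h1.tendsto_slope_zero_right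
    simpa using this
  have h3 : p x u w ≤ F x (u + w) - F x u := by
    apply le_of_tendsto h2
    filter_upwards [Ioo_mem_nhdsGT (zero_lt_one (α := ℝ))] with t ht
    have e : u + t • w = (1 - t) • u + t • (u + w) := by
      rw [smul_add, sub_smul, one_smul]; abel
    have h4 : F x (u + t • w) ≤ (1 - t) * F x u + t * F x (u + w) := by
      rw [e]
      refine (hN.add_le _ _).trans ?_
      rw [hN.smul_nonneg (by linarith [ht.2]), hN.smul_nonneg ht.1.le]
    rw [inv_mul_le_iff₀ ht.1]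
    linarith
  linarith

theorem p_le {x u : Pl} (hx : x ∈ M) (hu : u ≠ 0) (w : Pl) : p x u w ≤ F x w := by
  have h1 := h.subgrad hx hu w
  have h2 := (h.fin.norm x hx).add_le u w
  linarith

theorem abs_p_le {x u : Pl} (hx : x ∈ M) (hu : u ≠ 0) (w : Pl) : |p x u w| ≤ F x w := by
  rw [abs_le]
  constructor
  · have := h.p_le hx hu (-w)
    rw [map_neg, (h.fin.norm x hx).neg] at this
    linarith
  · exact h.p_le hx hu w

theorem p_smul {x u : Pl} {a : ℝ} (hx : x ∈ M) (hu : u ≠ 0) (ha : 0 < a) :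
    p x (a • u) = p x u := by
  have hN := h.fin.norm x hx
  have hau : a • u ≠ 0 := smul_ne_zero ha.ne' hu
  have h1 : HasFDerivAt (fun v : Pl => F x (a • v)) ((p x (a • u)).comp
      (a • ContinuousLinearMap.id ℝ Pl)) u := by
    have h2 : HasFDerivAt (fun v : Pl => a • v) (a • ContinuousLinearMap.id ℝ Pl) u :=
      (hasFDerivAt_id u).const_smul a
    exact (h.hasFDerivAt x hx (a • u) hau).comp u h2
  have h3 : HasFDerivAt (fun v : Pl => F x (a • v)) (a • p x u) u := by
    have h4 : (fun v : Pl => F x (a • v)) = fun v => a • F x v := by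
      funext v
      rw [hN.smul_nonneg ha.le, smul_eq_mul]
    rw [h4]
    exact (h.hasFDerivAt x hx u hu).const_smul a
  have h5 := h1.unique h3
  ext w
  have h6 := congrArg (fun L : Pl →L[ℝ] ℝ => L w) h5
  simp only [ContinuousLinearMap.comp_apply, smul_apply,
    ContinuousLinearMap.id_apply, map_smul, smul_eq_mul] at h6
  exact mul_left_cancel₀ ha.ne' h6

theorem p_neg {x u : Pl} (hx : x ∈ M) (hu : u ≠ 0) : p x (-u) = -p x u := by
  have hN := h.fin.norm x hx
  have hau : -u ≠ 0 := neg_ne_zero.2 hu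
  have h1 : HasFDerivAt (fun v : Pl => F x (-v)) ((p x (-u)).comp
      (-ContinuousLinearMap.id ℝ Pl)) u := by
    have h2 : HasFDerivAt (fun v : Pl => -v) (-ContinuousLinearMap.id ℝ Pl) u :=
      (hasFDerivAt_id u).neg
    exact (h.hasFDerivAt x hx (-u) hau).comp u h2
  have h3 : (fun v : Pl => F x (-v)) = F x := by
    funext v
    rw [hN.neg]
  rw [h3] at h1
  have h5 := h1.unique (h.hasFDerivAt x hx u hu)
  ext w
  have h6 := congrArg (fun L : Pl →L[ℝ] ℝ => L w) h5
  simp only [ContinuousLinearMap.comp_apply, neg_apply,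
    ContinuousLinearMap.id_apply, map_neg] at h6 ⊢
  linarith

/-- Strict differentiability of the norms. -/
theorem hasStrictFDerivAt {x u : Pl} (hx : x ∈ M) (hu : u ≠ 0) :
    HasStrictFDerivAt (F x) (p x u) u := by
  apply hasStrictFDerivAt_of_hasFDerivAt_of_continuousAt (f' := fun v => p x v)
  · have : ∀ᶠ v : Pl in 𝓝 u, v ≠ 0 := continuousAt_id.eventually_ne hu
    filter_upwards [this] with v hv
    exact h.hasFDerivAt x hx v hv
  · have h2 : ContinuousAt (fun w : Pl => (x, w)) u := by fun_prop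
    exact ContinuousAt.comp (g := fun q : Pl × Pl => p q.1 q.2)
      (f := fun w : Pl => (x, w)) (h.p_cont x hx u hu) h2

/-- Gradient of the distance in the second variable. -/
theorem hasFDerivAt_d {A B : Pl} (hA : A ∈ M) (hB : B ∈ M) (hAB : A ≠ B) :
    HasFDerivAt (d A) (p B (B - A)) B := by
  set u := B - A with hu_def
  have hu : u ≠ 0 := sub_ne_zero.2 (Ne.symm hAB)
  have hN := h.fin.norm B hB
  rw [hasFDerivAt_iff_isLittleO_nhds_zero, Asymptotics.isLittleO_iff]
  intro c hc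
  obtain ⟨δ, hδ, hstrict⟩ : ∃ δ > 0, ∀ y z : Pl, ‖y - u‖ < δ → ‖z - u‖ < δ →
      |F B y - F B z - p B u (y - z)| ≤ c / 2 * ‖y - z‖ := by
    have h1 := h.hasStrictFDerivAt hB hu
    rw [hasStrictFDerivAt_iff_isLittleO, Asymptotics.isLittleO_iff] at h1
    have h2 := h1 (half_pos hc)
    rw [Metric.eventually_nhds_iff] at h2
    obtain ⟨δ, hδ, h3⟩ := h2
    refine ⟨δ, hδ, fun y z hy hz => ?_⟩
    have h4 := @h3 (y, z) (by
      rw [Prod.dist_eq]
      simp only [dist_eq_norm]
      exact max_lt hy hz)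
    exact h4
  obtain ⟨η₀, hη₀, m₀, -, Λ, hΛ, -, hbd⟩ := h.toFPlane.exists_bounds hB
  have hup : ∀ y : Pl, F B y ≤ Λ * ‖y‖ := fun y => (hbd B (Metric.mem_ball_self hη₀) y).2
  set K : ℝ := 2 / δ with hK
  have hKpos : 0 < K := by positivity
  set C₁ : ℝ := 2 * Λ * (‖u‖ + δ) with hC₁
  have hC₁pos : 0 < C₁ := by
    have := norm_nonneg u
    positivity
  set ε : ℝ := c / (2 * K * C₁) with hε
  have hεpos : 0 < ε := by positivity
  have hεC : ε * K * C₁ = c / 2 := by rw [hε]; field_simp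
  obtain ⟨η, hη, hηM, hloc⟩ := h.toFPlane.d_local hB hεpos
  have e1 : ∀ᶠ w : Pl in 𝓝 0, K * ‖w‖ < 1 := by
    have hcont : ContinuousAt (fun w : Pl => K * ‖w‖) 0 := by fun_prop
    exact hcont.eventually_lt continuousAt_const (by simp)
  have e2 : ∀ᶠ w : Pl in 𝓝 0, ‖w‖ + K * ‖w‖ * (‖u‖ + ‖w‖) < η := by
    have hcont : ContinuousAt (fun w : Pl => ‖w‖ + K * ‖w‖ * (‖u‖ + ‖w‖)) 0 := by fun_prop
    exact hcont.eventually_lt continuousAt_const (by simpa using hη)
  have e3 : ∀ᶠ w : Pl in 𝓝 0, ‖w‖ < δ / 2 := by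
    have hcont : ContinuousAt (fun w : Pl => ‖w‖) 0 := by fun_prop
    exact hcont.eventually_lt continuousAt_const (by simpa using hδ)
  filter_upwards [e1, e2, e3] with w hw1 hw2 hw3
  by_cases hw : w = 0
  · rw [hw]; simp
  have hwpos : 0 < ‖w‖ := norm_pos_iff.2 hw
  set s : ℝ := K * ‖w‖ with hs
  have hspos : 0 < s := by positivity
  set z : Pl := s⁻¹ • w with hz
  have hsz : s • z = w := by rw [hz, smul_smul, mul_inv_cancel₀ hspos.ne', one_smul]
  have hznorm : ‖z‖ = δ / 2 := by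
    rw [hz, norm_smul, norm_inv, Real.norm_eq_abs, abs_of_pos hspos, hs, hK]
    field_simp
  clear_value z
  have hsz' : s * ‖z‖ = ‖w‖ := by
    calc s * ‖z‖ = ‖s • z‖ := by rw [norm_smul, Real.norm_eq_abs, abs_of_pos hspos]
      _ = ‖w‖ := by rw [hsz]
  have hpw : s * p B u z = p B u w := by
    calc s * p B u z = p B u (s • z) := by rw [map_smul, smul_eq_mul]
      _ = p B u w := by rw [hsz]
  have hεs : ε * s * C₁ = c / 2 * ‖w‖ := by
    rw [hs, ← hεC]; ring
  have hun := norm_nonneg u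
  have hBmem : B ∈ Metric.ball B η := Metric.mem_ball_self hη
  have hBw : B + w ∈ Metric.ball B η := by
    rw [Metric.mem_ball, dist_eq_norm, add_sub_cancel_left]
    have : 0 ≤ s * (‖u‖ + ‖w‖) := by positivity
    linarith
  have hBwM := hηM hBw
  have hAB' : A + (1:ℝ) • u = B := by rw [one_smul, hu_def]; abel
  have hABw : A + (1:ℝ) • (u + w) = B + w := by rw [one_smul, hu_def]; abel
  rw [Real.norm_eq_abs, abs_le]
  constructor
  · -- lower bound
    obtain ⟨hCM, hadd⟩ := h.pm.add_line (A := A) (w := u + w) (r := 0) (s := 1 - s) (t := 1)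
      (by linarith) (by linarith) (by simpa using hA) (by rw [hABw]; exact hBwM)
    rw [zero_smul, add_zero, hABw] at hadd
    set C := A + (1 - s) • (u + w) with hC
    have hCeq : C = B + w - s • (u + w) := by
      rw [hC, ← hABw, sub_smul]; abel
    have hCball : C ∈ Metric.ball B η := by
      rw [Metric.mem_ball, dist_eq_norm, hCeq]
      have : B + w - s • (u + w) - B = w - s • (u + w) := by abel
      rw [this]
      calc ‖w - s • (u + w)‖ ≤ ‖w‖ + ‖s • (u + w)‖ := norm_sub_le _ _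
        _ = ‖w‖ + s * ‖u + w‖ := by rw [norm_smul, Real.norm_eq_abs, abs_of_pos hspos]
        _ ≤ ‖w‖ + s * (‖u‖ + ‖w‖) := by
          gcongr; exact norm_add_le _ _
        _ < η := hw2
    have tri := h.pm.triangle A hA C hCM B hB
    have l1 := (abs_le.1 (hloc C hCball (B + w) hBw)).1
    have l2 := (abs_le.1 (hloc C hCball B hBmem)).2
    have d1 : B + w - C = s • (u + w) := by rw [hCeq]; abel
    have d2 : B - C = s • (u + w - z) := by rw [hCeq, smul_sub, hsz]; abel
    rw [d1, hN.smul_nonneg hspos.le] at l1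
    rw [d2, hN.smul_nonneg hspos.le] at l2
    have hst := (abs_le.1 (hstrict (u + w) (u + w - z)
      (by rw [add_sub_cancel_left]; linarith) (by
        have : u + w - z - u = w - z := by abel
        rw [this]
        calc ‖w - z‖ ≤ ‖w‖ + ‖z‖ := norm_sub_le _ _
          _ < δ := by rw [hznorm]; linarith))).1
    rw [sub_sub_cancel] at hst
    have b1 : F B (u + w) + F B (u + w - z) ≤ C₁ := by
      have t1 := hup (u + w)
      have t2 := hup (u + w - z)
      have t3 : ‖u + w‖ ≤ ‖u‖ + δ := (norm_add_le _ _).trans (by linarith)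
      have t4 : ‖u + w - z‖ ≤ ‖u‖ + δ := by
        calc ‖u + w - z‖ ≤ ‖u + w‖ + ‖z‖ := norm_sub_le _ _
          _ ≤ (‖u‖ + ‖w‖) + ‖z‖ := by gcongr; exact norm_add_le _ _
          _ ≤ ‖u‖ + δ := by rw [hznorm]; linarith
      have t5 : Λ * ‖u + w‖ ≤ Λ * (‖u‖ + δ) := by gcongr
      have t6 : Λ * ‖u + w - z‖ ≤ Λ * (‖u‖ + δ) := by gcongr
      rw [hC₁]; linarith
    have b2 : s * (F B (u + w) - F B (u + w - z)) ≥ s * (p B u z - c / 2 * ‖z‖) := by
      apply mul_le_mul_of_nonneg_left _ hspos.le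
      linarith
    have b3 : ε * s * (F B (u + w) + F B (u + w - z)) ≤ ε * s * C₁ := by gcongr
    have b4 : s * (p B u z - c / 2 * ‖z‖) = p B u w - c / 2 * ‖w‖ := by
      rw [mul_sub, hpw, ← hsz']; ring
    linarith only [hadd, tri, l1, l2, b2, b3, b4, hεs]
  · -- upper bound
    obtain ⟨hCM, hadd⟩ := h.pm.add_line (A := A) (w := u) (r := 0) (s := 1 - s) (t := 1)
      (by linarith) (by linarith) (by simpa using hA) (by rw [hAB']; exact hB)
    rw [zero_smul, add_zero, hAB'] at hadd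
    set C := A + (1 - s) • u with hC
    have hCeq : C = B - s • u := by
      rw [hC, ← hAB', sub_smul]; abel
    have hCball : C ∈ Metric.ball B η := by
      rw [Metric.mem_ball, dist_eq_norm, hCeq, sub_sub_cancel_left, norm_neg, norm_smul,
        Real.norm_eq_abs, abs_of_pos hspos]
      linarith only [hw2, mul_pos hspos hwpos, hwpos]
    have tri := h.pm.triangle A hA C hCM (B + w) hBwM
    have l1 := (abs_le.1 (hloc C hCball (B + w) hBw)).2
    have l2 := (abs_le.1 (hloc C hCball B hBmem)).1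
    have d1 : B + w - C = s • (u + z) := by rw [hCeq, smul_add, hsz]; abel
    have d2 : B - C = s • u := by rw [hCeq]; abel
    rw [d1, hN.smul_nonneg hspos.le] at l1
    rw [d2, hN.smul_nonneg hspos.le] at l2
    have hst := (abs_le.1 (hstrict (u + z) u
      (by rw [add_sub_cancel_left, hznorm]; linarith) (by simpa using hδ))).2
    rw [add_sub_cancel_left] at hst
    have b1 : F B (u + z) + F B u ≤ C₁ := by
      have t1 := hup (u + z)
      have t2 := hup u
      have t3 : ‖u + z‖ ≤ ‖u‖ + δ := (norm_add_le _ _).trans (by rw [hznorm]; linarith)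
      have t5 : Λ * ‖u + z‖ ≤ Λ * (‖u‖ + δ) := by gcongr
      have t6 : Λ * ‖u‖ ≤ Λ * (‖u‖ + δ) := by gcongr; linarith
      rw [hC₁]; linarith
    have b2 : s * (F B (u + z) - F B u) ≤ s * (p B u z + c / 2 * ‖z‖) := by
      apply mul_le_mul_of_nonneg_left _ hspos.le
      linarith
    have b3 : ε * s * (F B (u + z) + F B u) ≤ ε * s * C₁ := by gcongr
    have b4 : s * (p B u z + c / 2 * ‖z‖) = p B u w + c / 2 * ‖w‖ := by
      rw [mul_add, hpw, ← hsz']; ring
    linarith only [hadd, tri, l1, l2, b2, b3, b4, hεs]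

theorem p_continuousAt_comp {X : Type*} [TopologicalSpace X] {f g : X → Pl} {a : X}
    (hf : ContinuousAt f a) (hg : ContinuousAt g a) (hfa : f a ∈ M) (hga : g a ≠ 0) :
    ContinuousAt (fun y => p (f y) (g y)) a :=
  ContinuousAt.comp (g := fun q : Pl × Pl => p q.1 q.2) (f := fun y => (f y, g y))
    (h.p_cont _ hfa _ hga) (hf.prodMk hg)

/-- Gradient of the distance in both variables. -/
theorem hasStrictFDerivAt_uncurry {A B : Pl} (hA : A ∈ M) (hB : B ∈ M) (hAB : A ≠ B) :
    HasStrictFDerivAt (fun q : Pl × Pl => d q.1 q.2)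
      ((p A (A - B)).coprod (p B (B - A))) (A, B) := by
  have hnear : ∀ᶠ q : Pl × Pl in 𝓝 (A, B), q.1 ∈ M ∧ q.2 ∈ M ∧ q.1 ≠ q.2 := by
    have c1 : ContinuousAt (fun q : Pl × Pl => q.1) (A, B) := continuousAt_fst
    have c2 : ContinuousAt (fun q : Pl × Pl => q.2) (A, B) := continuousAt_snd
    have c3 : ContinuousAt (fun q : Pl × Pl => q.1 - q.2) (A, B) := by fun_prop
    filter_upwards [c1.eventually (h.toFPlane.isOpen.mem_nhds hA),
      c2.eventually (h.toFPlane.isOpen.mem_nhds hB), c3.eventually_ne (sub_ne_zero.2 hAB)]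
      with q h1 h2 h3
    exact ⟨h1, h2, sub_ne_zero.1 h3⟩
  have key := hasStrictFDerivAt_uncurry_coprod (𝕜 := ℝ) (u := (A, B)) (f := d)
    (f₁ := fun a b => p a (a - b)) (f₂ := fun a b => p b (b - a)) ?_ ?_ ?_ ?_
  · exact key
  · filter_upwards [hnear] with q hq
    have h1 : HasFDerivAt (d q.2) (p q.1 (q.1 - q.2)) q.1 :=
      h.hasFDerivAt_d hq.2.1 hq.1 (Ne.symm hq.2.2)
    apply h1.congr_of_eventuallyEq
    filter_upwards [h.toFPlane.isOpen.mem_nhds hq.1] with a ha
    exact h.pm.symm _ ha _ hq.2.1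
  · filter_upwards [hnear] with q hq
    exact h.hasFDerivAt_d hq.1 hq.2.1 hq.2.2
  · exact h.p_continuousAt_comp (f := fun q : Pl × Pl => q.1) (g := fun q : Pl × Pl => q.1 - q.2)
      (by fun_prop) (by fun_prop) hA (sub_ne_zero.2 hAB)
  · exact h.p_continuousAt_comp (f := fun q : Pl × Pl => q.2) (g := fun q : Pl × Pl => q.2 - q.1)
      (by fun_prop) (by fun_prop) hB (sub_ne_zero.2 (Ne.symm hAB))

/-- First variation of the distance under translations. -/
theorem hasDerivAt_translate {A B w : Pl} {t : ℝ} (hA : A + t • w ∈ M) (hB : B + t • w ∈ M)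
    (hAB : A ≠ B) :
    HasDerivAt (fun τ : ℝ => d (A + τ • w) (B + τ • w))
      (p (B + t • w) (B - A) w - p (A + t • w) (B - A) w) t := by
  have hne : A + t • w ≠ B + t • w := by
    intro h0; exact hAB (add_right_cancel h0)
  have h1 := (h.hasStrictFDerivAt_uncurry hA hB hne).hasFDerivAt
  have h2 : ∀ C : Pl, HasDerivAt (fun τ : ℝ => C + τ • w) w t := by
    intro C
    have := ((hasDerivAt_id t).smul_const w).const_add C
    simpa using this
  have h3 := h1.comp_hasDerivAt t ((h2 A).prodMk (h2 B))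
  have e1 : A + t • w - (B + t • w) = -(B - A) := by abel
  have e2 : B + t • w - (A + t • w) = B - A := by abel
  have e3 : p (A + t • w) (-(B - A)) = -p (A + t • w) (B - A) :=
    h.p_neg hA (sub_ne_zero.2 (Ne.symm hAB))
  rw [e1, e2, e3] at h3
  have e4 : ((-p (A + t • w) (B - A)).coprod (p (B + t • w) (B - A))) (w, w) =
      p (B + t • w) (B - A) w - p (A + t • w) (B - A) w := by
    simp only [ContinuousLinearMap.coprod_apply, neg_apply]
    ring
  rw [e4] at h3
  exact h3

/-- The integrated Hamel equation. -/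
theorem hamel_integral {x u w : Pl} {s : ℝ} (hs : 0 < s) (hu : u ≠ 0) (hx : x ∈ M)
    (hxs : x + s • u ∈ M) (hxw : x + w ∈ M) (hxws : x + w + s • u ∈ M) :
    (∫ σ in (0:ℝ)..s, F (x + w + σ • u) u) - ∫ σ in (0:ℝ)..s, F (x + σ • u) u =
      ∫ t in (0:ℝ)..1, (p (x + s • u + t • w) u w - p (x + t • w) u w) := by
  rw [← h.toFPlane.d_line hs.le hxw hxws, ← h.toFPlane.d_line hs.le hx hxs]
  have m1 : ∀ t ∈ Icc (0:ℝ) 1, x + t • w ∈ M := by
    intro t ht
    exact h.toFPlane.mem_line0 ht.1 ht.2 hx (by simpa using hxw)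
  have m2 : ∀ t ∈ Icc (0:ℝ) 1, x + s • u + t • w ∈ M := by
    intro t ht
    refine h.toFPlane.mem_line0 ht.1 ht.2 hxs ?_
    have : x + s • u + (1:ℝ) • w = x + w + s • u := by rw [one_smul]; abel
    rw [this]; exact hxws
  have hne : x ≠ x + s • u := by
    intro h0
    have : s • u = 0 := by simpa using h0.symm
    rcases smul_eq_zero.1 this with h1 | h1
    · exact hs.ne' h1
    · exact hu h1
  have hd : ∀ t ∈ uIcc (0:ℝ) 1, HasDerivAt (fun τ : ℝ => d (x + τ • w) (x + s • u + τ • w))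
      (p (x + s • u + t • w) u w - p (x + t • w) u w) t := by
    intro t ht
    rw [uIcc_of_le zero_le_one] at ht
    have h1 := h.hasDerivAt_translate (m1 t ht) (m2 t ht) hne
    rw [add_sub_cancel_left, h.p_smul (m1 t ht) hu hs, h.p_smul (m2 t ht) hu hs] at h1
    exact h1
  rw [intervalIntegral.integral_eq_sub_of_hasDerivAt hd]
  · have e1 : x + s • u + (1:ℝ) • w = x + w + s • u := by rw [one_smul]; abel
    rw [e1, one_smul, zero_smul, add_zero, add_zero]
  · apply ContinuousOn.intervalIntegrable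
    rw [uIcc_of_le zero_le_one]
    intro t ht
    apply ContinuousAt.continuousWithinAt
    apply ContinuousAt.sub
    · have := h.p_continuousAt_comp (f := fun t : ℝ => x + s • u + t • w) (g := fun _ : ℝ => u)
        (a := t) (by fun_prop) (by fun_prop) (m2 t ht) hu
      exact this.clm_apply continuousAt_const
    · have := h.p_continuousAt_comp (f := fun t : ℝ => x + t • w) (g := fun _ : ℝ => u)
        (a := t) (by fun_prop) (by fun_prop) (m1 t ht) hu
      exact this.clm_apply continuousAt_const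

end C1Plane

end Pool.Agent.Lib_1de93e
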