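import Pool.Agent.Lib_1de93e.Radon

/-!
# Uniform local constants
-/

namespace Pool.Agent.Lib_1de93e

open Set MeasureTheory Filter Topology

variable {M : Set Pl} {F d : Pl → Pl → ℝ}

/-- Uniform local constants. -/
structure LBall (M : Set Pl) (F κ : Pl → Pl → ℝ) (P : Pl) (r m Λ K L : ℝ) : Prop where
  r_pos : 0 < r
  m_pos : 0 < m
  Λ_pos : 0 < Λ
  K_pos : 0 < K
  L_pos : 0 < L
  sub : Metric.ball P r ⊆ M
  bd : ∀ x ∈ Metric.ball P r, ∀ u, m * ‖u‖ ≤ F x u ∧ F x u ≤ Λ * ‖u‖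
  kb : ∀ x ∈ Metric.ball P r, ∀ u : Pl, u ≠ 0 → |κ x u| ≤ K
  lipF : ∀ x ∈ Metric.ball P r, ∀ y ∈ Metric.ball P r, ∀ u,
    |F x u - F y u| ≤ L * ‖x - y‖ * ‖u‖
  lipc : ∀ x ∈ Metric.ball P r, ∀ y ∈ Metric.ball P r, |rad F κ x - rad F κ y| ≤ L * ‖x - y‖
  lipp : ∀ x ∈ Metric.ball P r, ∀ u : Pl, ‖u‖ = 1 → ∀ c : ℝ, x + c • u ∈ Metric.ball P r →
    ∀ w, |pf F κ (x + c • u) u w - pf F κ x u w| ≤ L * |c| * ‖w‖

theorem exists_small_ball {P x w : Pl} {r : ℝ} (hx : x ∈ Metric.ball P r) :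
    ∃ t₀ > 0, ∀ t : ℝ, 0 ≤ t → t ≤ t₀ → x + t • w ∈ Metric.ball P r := by
  have hc : ContinuousAt (fun t : ℝ => x + t • w) 0 := by fun_prop
  have h1 : ∀ᶠ t : ℝ in 𝓝 0, x + t • w ∈ Metric.ball P r := by
    apply hc.eventually
    simp only [zero_smul, add_zero]
    exact Metric.isOpen_ball.mem_nhds hx
  rw [Metric.eventually_nhds_iff] at h1
  obtain ⟨δ, hδ, h2⟩ := h1
  refine ⟨δ / 2, by positivity, fun t ht ht' => ?_⟩
  apply h2
  rw [Real.dist_eq, sub_zero, abs_of_nonneg ht]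
  linarith

theorem KPlane.lipp_aux {κ : Pl → Pl → ℝ} (h : KPlane M F d κ) {P : Pl} {r L : ℝ}
    (hrM : Metric.ball P r ⊆ M)
    (hlip : ∀ x ∈ Metric.ball P r, ∀ y ∈ Metric.ball P r, ∀ u,
      |F x u - F y u| ≤ L * ‖x - y‖ * ‖u‖)
    {x u : Pl} {s : ℝ} (hx : x ∈ Metric.ball P r) (hu : ‖u‖ = 1) (hs : 0 < s)
    (hxs : x + s • u ∈ Metric.ball P r) (w : Pl) :
    |pf F κ (x + s • u) u w - pf F κ x u w| ≤ L * s * ‖w‖ := by
  have hune : u ≠ 0 := by
    rintro rfl
    simp at hu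
  obtain ⟨t₁, ht₁, hb1⟩ := exists_small_ball (w := w) hx
  obtain ⟨t₂, ht₂, hb2⟩ := exists_small_ball (w := w) hxs
  set t₀ := min t₁ t₂ with ht₀
  have ht₀pos : 0 < t₀ := lt_min ht₁ ht₂
  have b1 : ∀ t : ℝ, 0 ≤ t → t ≤ t₀ → x + t • w ∈ Metric.ball P r :=
    fun t h1 h2 => hb1 t h1 (h2.trans (min_le_left _ _))
  have b2 : ∀ t : ℝ, 0 ≤ t → t ≤ t₀ → x + s • u + t • w ∈ Metric.ball P r :=
    fun t h1 h2 => hb2 t h1 (h2.trans (min_le_right _ _))
  set g : ℝ → ℝ := fun t => pf F κ (x + s • u + t • w) u w - pf F κ (x + t • w) u w with hg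
  have hgc : ContinuousOn g (Icc 0 t₀) := by
    intro t ht
    apply ContinuousAt.continuousWithinAt
    apply ContinuousAt.sub
    · have := h.toC1Plane.p_continuousAt_comp (f := fun t : ℝ => x + s • u + t • w)
        (g := fun _ : ℝ => u) (a := t) (by fun_prop) (by fun_prop) (hrM (b2 t ht.1 ht.2)) hune
      exact this.clm_apply continuousAt_const
    · have := h.toC1Plane.p_continuousAt_comp (f := fun t : ℝ => x + t • w)
        (g := fun _ : ℝ => u) (a := t) (by fun_prop) (by fun_prop) (hrM (b1 t ht.1 ht.2)) hune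
      exact this.clm_apply continuousAt_const
  have key := abs_le_of_integral_le (φ := g) (s0 := t₀) (L := L * s * ‖w‖) ht₀pos hgc ?_
  · simpa [hg] using key
  · intro ρ hρ hρt
    have m3 : x + ρ • w ∈ Metric.ball P r := b1 ρ hρ.le hρt
    have m4 : x + ρ • w + s • u ∈ Metric.ball P r := by
      have := b2 ρ hρ.le hρt
      have e : x + s • u + ρ • w = x + ρ • w + s • u := by abel
      rwa [e] at this
    have hh := h.toC1Plane.hamel_integral (w := ρ • w) hs hune (hrM hx) (hrM hxs) (hrM m3) (hrM m4)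
    have e1 : ∫ t in (0:ℝ)..1, (pf F κ (x + s • u + t • ρ • w) u (ρ • w) -
        pf F κ (x + t • ρ • w) u (ρ • w)) = ∫ t in (0:ℝ)..ρ, g t := by
      have e2 : ∀ t : ℝ, pf F κ (x + s • u + t • ρ • w) u (ρ • w) -
        pf F κ (x + t • ρ • w) u (ρ • w) = ρ * g (ρ * t) := by
        intro t
        simp only [hg, map_smul, smul_eq_mul, smul_smul, mul_comm t ρ]
        ring
      simp_rw [e2]
      rw [intervalIntegral.integral_const_mul, intervalIntegral.mul_integral_comp_mul_left]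
      simp
    rw [e1] at hh
    rw [← hh]
    have hline : ∀ y : Pl, y ∈ Metric.ball P r → y + s • u ∈ Metric.ball P r → ∀ σ ∈ Icc (0:ℝ) s,
        y + σ • u ∈ Metric.ball P r := by
      intro y hy hys σ hσ
      have := (convex_ball P r).segment_subset hy hys
      apply this
      rw [segment_eq_image']
      refine ⟨σ / s, ⟨by have := hσ.1; positivity, by rw [div_le_one hs]; exact hσ.2⟩, ?_⟩
      simp only
      rw [add_sub_cancel_left, smul_smul, div_mul_cancel₀ _ hs.ne']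
    have hint : ∀ y : Pl, y ∈ Metric.ball P r → y + s • u ∈ Metric.ball P r →
        IntervalIntegrable (fun σ : ℝ => F (y + σ • u) u) volume 0 s := by
      intro y hy hys
      apply ContinuousOn.intervalIntegrable
      rw [uIcc_of_le hs.le]
      exact h.toFPlane.continuousOn_line (fun t ht => hrM (hline y hy hys t ht))
    rw [← intervalIntegral.integral_sub (hint _ m3 m4) (hint _ hx hxs)]
    have hb := intervalIntegral.norm_integral_le_of_norm_le_const (a := 0) (b := s)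
      (f := fun σ : ℝ => F (x + ρ • w + σ • u) u - F (x + σ • u) u) (C := L * (ρ * ‖w‖)) (by
        intro σ hσ
        rw [uIoc_of_le hs.le] at hσ
        have := hlip _ (hline _ m3 m4 σ ⟨hσ.1.le, hσ.2⟩) _ (hline _ hx hxs σ ⟨hσ.1.le, hσ.2⟩) u
        have e : x + ρ • w + σ • u - (x + σ • u) = ρ • w := by abel
        rw [e, hu, mul_one, norm_smul, Real.norm_eq_abs, abs_of_pos hρ] at this
        exact this)
    rw [Real.norm_eq_abs, sub_zero, abs_of_pos hs] at hb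
    calc _ ≤ L * (ρ * ‖w‖) * s := hb
      _ = L * s * ‖w‖ * ρ := by ring

theorem LPlane.exists_LBall {κ : Pl → Pl → ℝ} (h : LPlane M F d κ) {P : Pl} (hP : P ∈ M) :
    ∃ r m Λ K L : ℝ, LBall M F κ P r m Λ K L := by
  obtain ⟨r₁, hr₁, L₁, hL₁, hsub₁, hlip⟩ := h.lip P hP
  obtain ⟨r₂, hr₂, m, hm, Λ, hΛ, hsub₂, hbd⟩ := h.toFPlane.exists_bounds hP
  set r := min r₁ r₂ with hr
  have hrpos : 0 < r := lt_min hr₁ hr₂
  have s1 : Metric.ball P r ⊆ Metric.ball P r₁ := Metric.ball_subset_ball (min_le_left _ _)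
  have s2 : Metric.ball P r ⊆ Metric.ball P r₂ := Metric.ball_subset_ball (min_le_right _ _)
  set K := Λ / m with hK
  have hKpos : 0 < K := by positivity
  set L := L₁ + 2 * L₁ * Λ * (1 + K) with hL
  have hLpos : 0 < L := by positivity
  have hL1L : L₁ ≤ L := by
    have : 0 ≤ 2 * L₁ * Λ * (1 + K) := by positivity
    linarith
  have hL2L : 2 * L₁ * Λ * (1 + K) ≤ L := by linarith
  have hlipL : ∀ x ∈ Metric.ball P r, ∀ y ∈ Metric.ball P r, ∀ u,
      |F x u - F y u| ≤ L₁ * ‖x - y‖ * ‖u‖ := fun x hx y hy u => hlip x (s1 hx) y (s1 hy) u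
  have hkb : ∀ x ∈ Metric.ball P r, ∀ u : Pl, u ≠ 0 → |κ x u| ≤ K := by
    intro x hx u hu
    have hxM := hsub₁ (s1 hx)
    have h1 := h.toC1Plane.abs_p_le hxM hu (J u)
    rw [pf_J hu, abs_neg, abs_mul, abs_of_nonneg ((h.fin.norm x hxM).nonneg u)] at h1
    have h2 := (hbd x (s2 hx) u).1
    have h3 := (hbd x (s2 hx) (J u)).2
    rw [norm_J] at h3
    have h4 : 0 < ‖u‖ := norm_pos_iff.2 hu
    rw [hK, le_div_iff₀ hm]
    have h5 : |κ x u| * (m * ‖u‖) ≤ Λ * ‖u‖ := by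
      calc |κ x u| * (m * ‖u‖) ≤ |κ x u| * F x u := by gcongr
        _ ≤ F x (J u) := h1
        _ ≤ Λ * ‖u‖ := h3
    have : (|κ x u| * m) * ‖u‖ ≤ Λ * ‖u‖ := by linarith
    exact le_of_mul_le_mul_right this h4
  have hrad : ∀ x ∈ Metric.ball P r, ∀ y ∈ Metric.ball P r,
      rad F κ y - rad F κ x ≤ 2 * L₁ * Λ * (1 + K) * ‖x - y‖ := by
    intro x hx y hy
    have hxM := hsub₁ (s1 hx)
    have hyM := hsub₁ (s1 hy)
    set u := ang 0 with hu
    have hune : u ≠ 0 := ang_ne_zero 0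
    have hun : ‖u‖ = 1 := norm_ang 0
    set V := cvk κ x u with hV
    have hVn : ‖V‖ ≤ 1 + K := by
      rw [hV]; unfold cvk
      calc ‖J u + κ x u • u‖ ≤ ‖J u‖ + ‖κ x u • u‖ := norm_add_le _ _
        _ = 1 + |κ x u| := by rw [norm_J, norm_smul, hun, mul_one, Real.norm_eq_abs]
        _ ≤ 1 + K := by have := hkb x hx u hune; linarith
    have h1 := h.radon_le hyM u V
    have h2 : det2 u V = 1 := by rw [hV, det2_cvk, hun]; norm_num
    rw [h2, abs_one, mul_one] at h1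
    have h3 : rad F κ x = F x u * F x V := rfl
    have a1 := hlipL y hy x hx u
    have a2 := hlipL y hy x hx V
    rw [hun, mul_one] at a1
    have b1 := (hbd x (s2 hx) u).2
    have b2 := (hbd y (s2 hy) V).2
    have b3 := (h.fin.norm x hxM).nonneg u
    have b4 := (h.fin.norm y hyM).nonneg V
    rw [hun, mul_one] at b1
    rw [norm_sub_rev y x] at a1 a2
    have c1 : F y u - F x u ≤ L₁ * ‖x - y‖ := (le_abs_self _).trans a1
    have c2 : F y V - F x V ≤ L₁ * ‖x - y‖ * ‖V‖ := (le_abs_self _).trans a2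
    have hn := norm_nonneg (x - y)
    have hVnn := norm_nonneg V
    calc rad F κ y - rad F κ x ≤ F y u * F y V - F x u * F x V := by linarith
      _ = (F y u - F x u) * F y V + F x u * (F y V - F x V) := by ring
      _ ≤ (L₁ * ‖x - y‖) * (Λ * ‖V‖) + F x u * (L₁ * ‖x - y‖ * ‖V‖) := by gcongr
      _ ≤ (L₁ * ‖x - y‖) * (Λ * ‖V‖) + Λ * (L₁ * ‖x - y‖ * ‖V‖) := by gcongr
      _ = 2 * L₁ * Λ * ‖V‖ * ‖x - y‖ := by ring
      _ ≤ 2 * L₁ * Λ * (1 + K) * ‖x - y‖ := by gcongr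
  refine ⟨r, m, Λ, K, L, hrpos, hm, hΛ, hKpos, hLpos, fun x hx => hsub₁ (s1 hx),
    fun x hx u => hbd x (s2 hx) u, hkb, ?_, ?_, ?_⟩
  · intro x hx y hy u
    refine (hlipL x hx y hy u).trans ?_
    gcongr
  · intro x hx y hy
    have h1 := hrad x hx y hy
    have h2 := hrad y hy x hx
    rw [norm_sub_rev] at h2
    have hn := norm_nonneg (x - y)
    have h3 : 2 * L₁ * Λ * (1 + K) * ‖x - y‖ ≤ L * ‖x - y‖ := by gcongr
    rw [abs_le]
    constructor <;> linarith
  · intro x hx u hu c hc w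
    have hsubM : Metric.ball P r ⊆ M := fun x hx => hsub₁ (s1 hx)
    have hbound : ∀ s : ℝ, 0 ≤ s → L₁ * s * ‖w‖ ≤ L * s * ‖w‖ := by
      intro s hs
      gcongr
    rcases lt_trichotomy c 0 with h0 | h0 | h0
    · have h1 := h.toKPlane.lipp_aux hsubM hlipL (x := x + c • u) (u := u) (s := -c) hc hu
        (by linarith) (by rw [neg_smul, add_neg_cancel_right]; exact hx) w
      rw [neg_smul, add_neg_cancel_right] at h1
      rw [abs_sub_comm, abs_of_neg h0]
      exact h1.trans (hbound _ (by linarith))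
    · rw [h0]; simp
    · rw [abs_of_pos h0]
      exact (h.toKPlane.lipp_aux hsubM hlipL hx hu h0 hc w).trans (hbound _ h0.le)

end Pool.Agent.Lib_1de93e
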