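import Pool.Agent.Lib_1de93e.Phi

/-!
# The differential of the second order term in the direction
-/

namespace Pool.Agent.Lib_1de93e

open Set MeasureTheory Filter Topology
open scoped NNReal

variable {M : Set Pl} {F d κ : Pl → Pl → ℝ}

/-- Derivative of the distance between two moving points. -/
theorem C1Plane.hasDerivAt_two {p : Pl → Pl → Pl →L[ℝ] ℝ} (h : C1Plane M F d p) {A B : ℝ → Pl}
    {A' B' v : Pl} {s t : ℝ} (hA : HasDerivAt A A' t) (hB : HasDerivAt B B' t) (hAM : A t ∈ M)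
    (hBM : B t ∈ M) (hs : 0 < s) (hv : v ≠ 0) (hBA : B t - A t = s • v) :
    HasDerivAt (fun t => d (A t) (B t)) (p (B t) v B' - p (A t) v A') t := by
  have hsv : s • v ≠ 0 := smul_ne_zero hs.ne' hv
  have hne : A t ≠ B t := by
    intro h0
    rw [h0, sub_self] at hBA
    exact hsv hBA.symm
  have h1 := (h.hasStrictFDerivAt_uncurry hAM hBM hne).hasFDerivAt
  have h3 := h1.comp_hasDerivAt t (hA.prodMk hB)
  have e1 : A t - B t = -(s • v) := by rw [← hBA]; abel
  rw [e1, hBA, h.p_neg hAM hsv, h.p_smul hAM hv hs, h.p_smul hBM hv hs] at h3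
  refine h3.congr_deriv ?_
  simp only [ContinuousLinearMap.coprod_apply, neg_apply]
  ring

/-- The candidate for the differential of `F · u` at a good point, as a function of `u`. -/
noncomputable def Kg (F d κ : Pl → Pl → ℝ) (x u : Pl) : Pl →L[ℝ] ℝ :=
  (2 * Phi F d x u / ‖u‖ ^ 2) • detL (cvk κ x u) -
  (F x u * (fderiv ℝ (rad F κ) x (cvk κ x u) / rad F κ x -
    2 * Phi F d x (cvk κ x u) / F x (cvk κ x u)) / ‖u‖ ^ 2) • detL u

theorem bd_expand (h : FPlane M F d) {x v : Pl} (hx : x ∈ M) {G : Pl →L[ℝ] ℝ}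
    (hG : HasFDerivAt (fun y => F y v) G x) {C ε : ℝ} (hC : 0 ≤ C) (hε : 0 < ε) :
    ∃ δ > 0, ∀ s : ℝ, 0 < s → s < δ → ∀ a : Pl, ‖a - x‖ ≤ C * s →
      |d (a + s • v) (a + (2 * s) • v) - d a (a + s • v) - s ^ 2 * G v| ≤ ε * s ^ 2 := by
  obtain ⟨δ, hδ, h1⟩ := d_expand h hx hG (C := C + ‖v‖) (by positivity) (half_pos hε)
  refine ⟨δ, hδ, fun s hs hsδ a ha => ?_⟩
  obtain ⟨-, -, b1⟩ := h1 s hs hsδ a (ha.trans (by
    gcongr; linarith [norm_nonneg v]))
  obtain ⟨-, -, b2⟩ := h1 s hs hsδ (a + s • v) (by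
    have e : a + s • v - x = (a - x) + s • v := by abel
    rw [e]
    calc ‖(a - x) + s • v‖ ≤ ‖a - x‖ + ‖s • v‖ := norm_add_le _ _
      _ = ‖a - x‖ + s * ‖v‖ := by rw [norm_smul, Real.norm_eq_abs, abs_of_pos hs]
      _ ≤ C * s + s * ‖v‖ := by gcongr
      _ = (C + ‖v‖) * s := by ring)
  have e1 : a + s • v + s • v = a + (2 * s) • v := by rw [two_mul, add_smul, add_assoc]
  have e2 : G (a + s • v - x) = G (a - x) + s * G v := by
    have e : a + s • v - x = (a - x) + s • v := by abel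
    rw [e, map_add, map_smul, smul_eq_mul]
  rw [e1, e2] at b2
  have e3 : d (a + s • v) (a + (2 * s) • v) - d a (a + s • v) - s ^ 2 * G v =
      (d (a + s • v) (a + (2 * s) • v) - s * F x v - s * (G (a - x) + s * G v) -
        s ^ 2 / 2 * G v) - (d a (a + s • v) - s * F x v - s * G (a - x) - s ^ 2 / 2 * G v) := by
    ring
  rw [e3]
  refine (abs_sub _ _).trans ?_
  linarith

namespace LBall

variable {P : Pl} {r m Λ K L : ℝ} {x : Pl}

theorem Kg_eq (hB : LBall M F κ P r m Λ K L) (h : KPlane M F d κ)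
    (hx : x ∈ Metric.ball P (r / 2)) (hg : Good M F κ x) {u : Pl} (hu : u ≠ 0)
    {G : Pl →L[ℝ] ℝ} (hG : HasFDerivAt (fun y => F y u) G x) : Kg F d κ x u = G := by
  have hxM := hB.sub (hB.mem_half hx)
  ext w
  have h1 := hB.radon_rel h hx hg hu hG
  have h2 := Phi_of_diff h hxM hG
  have hn : 0 < ‖u‖ := norm_pos_iff.2 hu
  have hdet : det2 u (cvk κ x u) ≠ 0 := by rw [det2_cvk]; positivity
  have hcr := cramer hdet w
  have h3 : G w = det2 w (cvk κ x u) / ‖u‖ ^ 2 * G u + det2 u w / ‖u‖ ^ 2 * G (cvk κ x u) := by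
    conv_lhs => rw [hcr]
    rw [map_add, map_smul, map_smul, det2_cvk, smul_eq_mul, smul_eq_mul]
  rw [h3, h1]
  unfold Kg
  rw [sub_apply, smul_apply, smul_apply, detL_apply, detL_apply, h2, det2_comm w u]
  simp only [smul_eq_mul]
  ring

theorem Kg_continuousAt (hB : LBall M F κ P r m Λ K L) (h : KPlane M F d κ)
    (hx : x ∈ Metric.ball P (r / 2)) (hg : Good M F κ x) {u : Pl} (hu : u ≠ 0) :
    ContinuousAt (Kg F d κ x) u := by
  have hxM := hB.sub (hB.mem_half hx)
  have hN := h.fin.norm x hxM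
  have hn : 0 < ‖u‖ := norm_pos_iff.2 hu
  have hn2 : ‖u‖ ^ 2 ≠ 0 := by positivity
  have cPhi := hB.Phi_continuousAt h hx hg hu
  have cV : ContinuousAt (fun v => cvk κ x v) u :=
    ContinuousAt.comp (g := fun q : Pl × Pl => cvk κ q.1 q.2) (f := fun v => (x, v))
      (h.cvk_continuousAt hxM hu) (continuousAt_const.prodMk continuousAt_id)
  have hVne : cvk κ x u ≠ 0 := cvk_ne_zero hu
  have cPhiV : ContinuousAt (fun v => Phi F d x (cvk κ x v)) u :=
    ContinuousAt.comp (g := Phi F d x) (f := fun v => cvk κ x v)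
      (hB.Phi_continuousAt h hx hg hVne) cV
  have cF : ContinuousAt (F x) u := (h.fin.continuous_right hxM).continuousAt
  have cFV : ContinuousAt (fun v => F x (cvk κ x v)) u :=
    ContinuousAt.comp (g := F x) (f := fun v => cvk κ x v)
      (h.fin.continuous_right hxM).continuousAt cV
  have cdet : ContinuousAt (fun v => detL (cvk κ x v)) u :=
    ContinuousAt.comp (g := detL) continuous_detL.continuousAt cV
  have cdet2 : ContinuousAt (fun v : Pl => detL v) u := continuous_detL.continuousAt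
  have cn : ContinuousAt (fun v : Pl => ‖v‖ ^ 2) u := by fun_prop
  have cc : ContinuousAt (fun v => fderiv ℝ (rad F κ) x (cvk κ x v)) u :=
    ContinuousAt.comp (g := fderiv ℝ (rad F κ) x) (f := fun v => cvk κ x v)
      (fderiv ℝ (rad F κ) x).continuous.continuousAt cV
  unfold Kg
  apply ContinuousAt.sub
  · exact ((continuousAt_const.mul cPhi).div cn hn2).smul cdet
  · refine ContinuousAt.smul (ContinuousAt.div (cF.mul (ContinuousAt.sub ?_ ?_)) cn hn2) cdet2
    · exact cc.div continuousAt_const (h.rad_pos hxM).ne'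
    · exact (continuousAt_const.mul cPhiV).div cFV (hN.pos _ hVne).ne'

/-- The averaged identity on the scale `s`. -/
theorem star (hB : LBall M F κ P r m Λ K L) (h : KPlane M F d κ)
    (hx : x ∈ Metric.ball P (r / 2)) {u w : Pl} (hdet : det2 u w ≠ 0) {t₁ t₂ s R : ℝ}
    (ht : t₁ ≤ t₂) (hR : ∀ t ∈ Icc t₁ t₂, ‖u + t • w‖ ≤ R) (hs : 0 < s)
    (hsR : s * (‖w‖ + 2 * R) < r / 2) :
    ∫ β in (0:ℝ)..1, ((d (x + (s * β) • w + s • (u + t₂ • w))
        (x + (s * β) • w + (2 * s) • (u + t₂ • w)) -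
        d (x + (s * β) • w) (x + (s * β) • w + s • (u + t₂ • w))) -
      (d (x + (s * β) • w + s • (u + t₁ • w)) (x + (s * β) • w + (2 * s) • (u + t₁ • w)) -
        d (x + (s * β) • w) (x + (s * β) • w + s • (u + t₁ • w)))) =
    ∫ t in t₁..t₂, 2 * (d (x + s • w + s • (u + t • w)) (x + s • w + (2 * s) • (u + t • w)) -
      d (x + s • (u + t • w)) (x + (2 * s) • (u + t • w))) := by
  have hne : ∀ t : ℝ, u + t • w ≠ 0 := by
    intro t h0
    apply hdet
    have : u = -(t • w) := eq_neg_of_add_eq_zero_left h0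
    rw [this, det2_neg_left, det2_smul_left, det2_self]; ring
  have hmem : ∀ β ∈ Icc (0:ℝ) 1, ∀ t ∈ Icc t₁ t₂, ∀ c : ℝ, 0 ≤ c → c ≤ 2 * s →
      x + (s * β) • w + c • (u + t • w) ∈ M := by
    intro β hβ t htt c hc hc2
    apply hB.sub
    rw [add_assoc]
    apply hB.mem_add hx
    have hR' := hR t htt
    calc ‖(s * β) • w + c • (u + t • w)‖ ≤ ‖(s * β) • w‖ + ‖c • (u + t • w)‖ := norm_add_le _ _
      _ = s * β * ‖w‖ + c * ‖u + t • w‖ := by
        rw [norm_smul, norm_smul, Real.norm_eq_abs, Real.norm_eq_abs, abs_of_nonneg hc,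
          abs_of_nonneg (mul_nonneg hs.le hβ.1)]
      _ ≤ s * 1 * ‖w‖ + 2 * s * R := by
        gcongr
        exact hβ.2
      _ = s * (‖w‖ + 2 * R) := by ring
      _ < r / 2 := hsR
  have m0 : ∀ β ∈ Icc (0:ℝ) 1, ∀ t ∈ Icc t₁ t₂, x + (s * β) • w ∈ M := by
    intro β hβ t htt
    have := hmem β hβ t htt 0 le_rfl (by linarith)
    rwa [zero_smul, add_zero] at this
  have m1 : ∀ β ∈ Icc (0:ℝ) 1, ∀ t ∈ Icc t₁ t₂, x + (s * β) • w + s • (u + t • w) ∈ M :=
    fun β hβ t htt => hmem β hβ t htt s hs.le (by linarith)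
  have m2 : ∀ β ∈ Icc (0:ℝ) 1, ∀ t ∈ Icc t₁ t₂, x + (s * β) • w + (2 * s) • (u + t • w) ∈ M :=
    fun β hβ t htt => hmem β hβ t htt (2 * s) (by linarith) le_rfl
  set gq : ℝ → ℝ → ℝ := fun β t =>
    pf F κ (x + (s * β) • w + (2 * s) • (u + t • w)) (u + t • w) w -
    pf F κ (x + (s * β) • w + s • (u + t • w)) (u + t • w) w with hgq
  -- joint continuity
  have hgc : ContinuousOn (Function.uncurry gq) (Icc 0 1 ×ˢ Icc t₁ t₂) := by
    rintro ⟨β, t⟩ ⟨hβ, htt⟩
    simp only at hβ htt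
    apply ContinuousAt.continuousWithinAt
    apply ContinuousAt.sub
    · have := h.toC1Plane.p_continuousAt_comp
        (f := fun q : ℝ × ℝ => x + (s * q.1) • w + (2 * s) • (u + q.2 • w))
        (g := fun q : ℝ × ℝ => u + q.2 • w) (a := (β, t)) (by fun_prop) (by fun_prop)
        (m2 β hβ t htt) (hne t)
      exact this.clm_apply continuousAt_const
    · have := h.toC1Plane.p_continuousAt_comp
        (f := fun q : ℝ × ℝ => x + (s * q.1) • w + s • (u + q.2 • w))
        (g := fun q : ℝ × ℝ => u + q.2 • w) (a := (β, t)) (by fun_prop) (by fun_prop)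
        (m1 β hβ t htt) (hne t)
      exact this.clm_apply continuousAt_const
  have hlin : ∀ (a : Pl) (c t : ℝ), HasDerivAt (fun t : ℝ => a + c • (u + t • w)) (c • w) t := by
    intro a c t
    have h1 := ((hasDerivAt_id t).smul_const w).const_add u
    have h2 := (h1.const_smul c).const_add a
    simpa using h2
  -- derivative in t
  have hdt : ∀ β ∈ Icc (0:ℝ) 1, ∀ t ∈ Icc t₁ t₂, HasDerivAt (fun t : ℝ =>
      d (x + (s * β) • w + s • (u + t • w)) (x + (s * β) • w + (2 * s) • (u + t • w)) -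
        d (x + (s * β) • w) (x + (s * β) • w + s • (u + t • w))) (2 * s * gq β t) t := by
    intro β hβ t htt
    have h1 := h.toC1Plane.hasDerivAt_two (s := s) (v := u + t • w)
      (hlin (x + (s * β) • w) s t) (hlin (x + (s * β) • w) (2 * s) t) (m1 β hβ t htt)
      (m2 β hβ t htt) hs (hne t) (by rw [two_mul, add_smul]; abel)
    have h2 := h.toC1Plane.hasDerivAt_two (s := s) (v := u + t • w)
      (hasDerivAt_const t (x + (s * β) • w)) (hlin (x + (s * β) • w) s t) (m0 β hβ t htt)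
      (m1 β hβ t htt) hs (hne t) (by abel)
    refine (h1.sub h2).congr_deriv ?_
    simp only [hgq, map_smul, smul_eq_mul, map_zero]
    ring
  -- derivative in β
  have hdβ : ∀ t ∈ Icc t₁ t₂, ∀ β ∈ Icc (0:ℝ) 1, HasDerivAt (fun β : ℝ =>
      d (x + (s * β) • w + s • (u + t • w)) (x + (s * β) • w + (2 * s) • (u + t • w)))
      (s * gq β t) β := by
    intro t htt β hβ
    have hl : ∀ c : ℝ, HasDerivAt (fun β : ℝ => x + (s * β) • w + c • (u + t • w)) (s • w) β := by
      intro c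
      have h1 : HasDerivAt (fun β : ℝ => s * β) s β := by
        simpa using (hasDerivAt_id β).const_mul s
      exact ((h1.smul_const w).const_add x).add_const _
    have h1 := h.toC1Plane.hasDerivAt_two (s := s) (v := u + t • w) (hl s) (hl (2 * s))
      (m1 β hβ t htt) (m2 β hβ t htt) hs (hne t) (by rw [two_mul, add_smul]; abel)
    refine h1.congr_deriv ?_
    simp only [hgq, map_smul, smul_eq_mul]
    ring
  have hc1 : ∀ β ∈ Icc (0:ℝ) 1, ContinuousOn (fun t => gq β t) (Icc t₁ t₂) := by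
    intro β hβ
    exact hgc.comp (f := fun t : ℝ => (β, t)) (by fun_prop) (fun t htt => ⟨hβ, htt⟩)
  have hc2 : ∀ t ∈ Icc t₁ t₂, ContinuousOn (fun β => gq β t) (Icc 0 1) := by
    intro t htt
    exact hgc.comp (f := fun β : ℝ => (β, t)) (by fun_prop) (fun β hβ => ⟨hβ, htt⟩)
  have s1 : ∀ β ∈ uIcc (0:ℝ) 1, ((d (x + (s * β) • w + s • (u + t₂ • w))
        (x + (s * β) • w + (2 * s) • (u + t₂ • w)) -
        d (x + (s * β) • w) (x + (s * β) • w + s • (u + t₂ • w))) -
      (d (x + (s * β) • w + s • (u + t₁ • w)) (x + (s * β) • w + (2 * s) • (u + t₁ • w)) -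
        d (x + (s * β) • w) (x + (s * β) • w + s • (u + t₁ • w)))) =
      ∫ t in t₁..t₂, 2 * s * gq β t := by
    intro β hβ
    rw [uIcc_of_le zero_le_one] at hβ
    rw [intervalIntegral.integral_eq_sub_of_hasDerivAt (fun t htt =>
      hdt β hβ t (by rwa [uIcc_of_le ht] at htt))]
    apply ContinuousOn.intervalIntegrable
    rw [uIcc_of_le ht]
    exact continuousOn_const.mul (hc1 β hβ)
  have s2 : ∀ t ∈ uIcc t₁ t₂, 2 * (d (x + s • w + s • (u + t • w))
      (x + s • w + (2 * s) • (u + t • w)) -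
      d (x + s • (u + t • w)) (x + (2 * s) • (u + t • w))) =
      ∫ β in (0:ℝ)..1, 2 * s * gq β t := by
    intro t htt
    rw [uIcc_of_le ht] at htt
    have h1 := intervalIntegral.integral_eq_sub_of_hasDerivAt (a := 0) (b := 1)
      (f := fun β : ℝ => d (x + (s * β) • w + s • (u + t • w))
        (x + (s * β) • w + (2 * s) • (u + t • w))) (f' := fun β => s * gq β t)
      (fun β hβ => hdβ t htt β (by rwa [uIcc_of_le zero_le_one] at hβ)) (by
        apply ContinuousOn.intervalIntegrable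
        rw [uIcc_of_le zero_le_one]
        exact continuousOn_const.mul (hc2 t htt))
    simp only [mul_one, mul_zero, zero_smul, add_zero] at h1
    rw [← h1, ← intervalIntegral.integral_const_mul]
    congr 1
    funext β
    ring
  rw [intervalIntegral.integral_congr s1, intervalIntegral.integral_congr s2]
  apply intervalIntegral_intervalIntegral_swap
  rw [uIoc_of_le zero_le_one, uIoc_of_le ht]
  have h1 : ContinuousOn (Function.uncurry fun β t => 2 * s * gq β t)
      (Icc 0 1 ×ˢ Icc t₁ t₂) := continuousOn_const.mul hgc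
  exact (h1.integrableOn_compact (isCompact_Icc.prod isCompact_Icc)).mono_set
    (prod_mono Ioc_subset_Icc_self Ioc_subset_Icc_self)

end LBall

end Pool.Agent.Lib_1de93e
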