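import Pool.Agent.Lib_1de93e.Line

/-!
# The differential of the second order term in the direction, II
-/

namespace Pool.Agent.Lib_1de93e

open Set MeasureTheory Filter Topology
open scoped NNReal

variable {M : Set Pl} {F d κ : Pl → Pl → ℝ}

theorem IsProjectiveMetric.continuousOn_comp (hP : IsProjectiveMetric M d) {a b : ℝ → Pl}
    {S : Set ℝ} (ha : ContinuousOn a S) (hb : ContinuousOn b S) (haM : ∀ t ∈ S, a t ∈ M)
    (hbM : ∀ t ∈ S, b t ∈ M) : ContinuousOn (fun t => d (a t) (b t)) S := by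
  have h1 : ContinuousOn (fun t => (a t, b t)) S := ha.prodMk hb
  exact hP.continuousOn_uncurry.comp h1 (fun t ht => ⟨haM t ht, hbM t ht⟩)

namespace LBall

variable {P : Pl} {r m Λ K L : ℝ} {x : Pl}

theorem E_bound (hB : LBall M F κ P r m Λ K L) (h : FPlane M F d)
    (hx : x ∈ Metric.ball P (r / 2)) {v w : Pl} {s : ℝ} (hs : 0 < s)
    (hsR : s * (‖w‖ + 2 * ‖v‖) < r / 2) :
    |d (x + s • w + s • v) (x + s • w + (2 * s) • v) - d (x + s • v) (x + (2 * s) • v)| ≤
      s * (L * (s * ‖w‖) * ‖v‖) := by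
  have hmem : ∀ b c : ℝ, 0 ≤ b → b ≤ s → 0 ≤ c → c ≤ 2 * s →
      x + b • w + c • v ∈ Metric.ball P r := by
    intro b c hb hbs hc hcs
    rw [add_assoc]
    apply hB.mem_add hx
    calc ‖b • w + c • v‖ ≤ ‖b • w‖ + ‖c • v‖ := norm_add_le _ _
      _ = b * ‖w‖ + c * ‖v‖ := by
        rw [norm_smul, norm_smul, Real.norm_eq_abs, Real.norm_eq_abs, abs_of_nonneg hc,
          abs_of_nonneg hb]
      _ ≤ s * ‖w‖ + 2 * s * ‖v‖ := by gcongr
      _ = s * (‖w‖ + 2 * ‖v‖) := by ring
      _ < r / 2 := hsR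
  have hmem0 : ∀ c : ℝ, 0 ≤ c → c ≤ 2 * s → x + c • v ∈ Metric.ball P r := by
    intro c hc hcs
    have := hmem 0 c le_rfl hs.le hc hcs
    rwa [zero_smul, add_zero] at this
  have e1 : x + s • w + (2 * s) • v = (x + s • w + s • v) + s • v := by
    rw [two_mul, add_smul]; abel
  have e2 : x + (2 * s) • v = (x + s • v) + s • v := by rw [two_mul, add_smul]; abel
  have p1 : x + s • w + s • v ∈ M := hB.sub (hmem s s hs.le le_rfl hs.le (by linarith))
  have p2 : x + s • w + s • v + s • v ∈ M := by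
    rw [← e1]; exact hB.sub (hmem s (2 * s) hs.le le_rfl (by linarith) le_rfl)
  have p3 : x + s • v ∈ M := hB.sub (hmem0 s hs.le (by linarith))
  have p4 : x + s • v + s • v ∈ M := by
    rw [← e2]; exact hB.sub (hmem0 (2 * s) (by linarith) le_rfl)
  have q1 : ∀ σ ∈ Icc (0:ℝ) s, x + s • w + s • v + σ • v ∈ Metric.ball P r := by
    intro σ hσ
    have := hmem s (s + σ) hs.le le_rfl (by linarith [hσ.1]) (by linarith [hσ.2])
    rwa [add_smul, ← add_assoc] at this
  have q2 : ∀ σ ∈ Icc (0:ℝ) s, x + s • v + σ • v ∈ Metric.ball P r := by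
    intro σ hσ
    have := hmem0 (s + σ) (by linarith [hσ.1]) (by linarith [hσ.2])
    rwa [add_smul, ← add_assoc] at this
  rw [e1, e2, h.d_line hs.le p1 p2, h.d_line hs.le p3 p4]
  rw [← intervalIntegral.integral_sub
    (by apply ContinuousOn.intervalIntegrable
        rw [uIcc_of_le hs.le]
        exact h.continuousOn_line (fun t ht => hB.sub (q1 t ht)))
    (by apply ContinuousOn.intervalIntegrable
        rw [uIcc_of_le hs.le]
        exact h.continuousOn_line (fun t ht => hB.sub (q2 t ht)))]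
  have hb := intervalIntegral.norm_integral_le_of_norm_le_const (a := 0) (b := s)
    (f := fun σ : ℝ => F (x + s • w + s • v + σ • v) v - F (x + s • v + σ • v) v)
    (C := L * (s * ‖w‖) * ‖v‖) (by
      intro σ hσ
      rw [uIoc_of_le hs.le] at hσ
      have h1 := hB.lipF _ (q1 σ ⟨hσ.1.le, hσ.2⟩) _ (q2 σ ⟨hσ.1.le, hσ.2⟩) v
      have e : x + s • w + s • v + σ • v - (x + s • v + σ • v) = s • w := by abel
      rw [e, norm_smul, Real.norm_eq_abs, abs_of_pos hs] at h1
      exact h1)
  rw [Real.norm_eq_abs, sub_zero, abs_of_pos hs] at hb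
  calc _ ≤ L * (s * ‖w‖) * ‖v‖ * s := hb
    _ = s * (L * (s * ‖w‖) * ‖v‖) := by ring

theorem E_tendsto (h : FPlane M F d) (hxM : x ∈ M) {v : Pl} (w : Pl)
    {G : Pl →L[ℝ] ℝ} (hG : HasFDerivAt (fun y => F y v) G x) :
    Tendsto (fun s : ℝ => (s ^ 2)⁻¹ * (2 * (d (x + s • w + s • v) (x + s • w + (2 * s) • v) -
      d (x + s • v) (x + (2 * s) • v)))) (𝓝[>] 0) (𝓝 (2 * G w)) := by
  rw [Metric.tendsto_nhds]
  intro ε hε
  obtain ⟨δ, hδ, h1⟩ := d_expand h hxM hG (C := ‖w‖ + ‖v‖) (ε := ε / 8) (by positivity)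
    (by positivity)
  filter_upwards [Ioo_mem_nhdsGT hδ] with s hs
  have hspos := hs.1
  obtain ⟨-, -, b1⟩ := h1 s hs.1 hs.2 (x + s • w + s • v) (by
    have e : x + s • w + s • v - x = s • w + s • v := by abel
    rw [e]
    calc ‖s • w + s • v‖ ≤ ‖s • w‖ + ‖s • v‖ := norm_add_le _ _
      _ = (‖w‖ + ‖v‖) * s := by
        rw [norm_smul, norm_smul, Real.norm_eq_abs, abs_of_pos hspos]; ring)
  obtain ⟨-, -, b2⟩ := h1 s hs.1 hs.2 (x + s • v) (by
    rw [add_sub_cancel_left, norm_smul, Real.norm_eq_abs, abs_of_pos hspos]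
    nlinarith [norm_nonneg w, norm_nonneg v])
  have e1 : x + s • w + s • v + s • v = x + s • w + (2 * s) • v := by
    rw [two_mul, add_smul]; abel
  have e2 : x + s • v + s • v = x + (2 * s) • v := by rw [two_mul, add_smul]; abel
  have e3 : G (x + s • w + s • v - x) = s * G w + s * G v := by
    have e : x + s • w + s • v - x = s • w + s • v := by abel
    rw [e, map_add, map_smul, map_smul, smul_eq_mul, smul_eq_mul]
  have e4 : G (x + s • v - x) = s * G v := by
    rw [add_sub_cancel_left, map_smul, smul_eq_mul]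
  rw [e1, e3] at b1
  rw [e2, e4] at b2
  set E := d (x + s • w + s • v) (x + s • w + (2 * s) • v) - d (x + s • v) (x + (2 * s) • v)
    with hE
  have b3 : |E - s ^ 2 * G w| ≤ ε / 4 * s ^ 2 := by
    have e5 : E - s ^ 2 * G w =
      (d (x + s • w + s • v) (x + s • w + (2 * s) • v) - s * F x v -
        s * (s * G w + s * G v) - s ^ 2 / 2 * G v) -
      (d (x + s • v) (x + (2 * s) • v) - s * F x v - s * (s * G v) - s ^ 2 / 2 * G v) := by
      rw [hE]; ring
    rw [e5]
    refine (abs_sub _ _).trans ?_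
    linarith
  have hs2 : 0 < s ^ 2 := by positivity
  rw [Real.dist_eq]
  have e6 : (s ^ 2)⁻¹ * (2 * E) - 2 * G w = 2 * ((E - s ^ 2 * G w) / s ^ 2) := by
    field_simp
  rw [e6, abs_mul, abs_div, abs_of_pos hs2, abs_of_pos (by norm_num : (0:ℝ) < 2)]
  have b4 : |E - s ^ 2 * G w| / s ^ 2 ≤ ε / 4 := by rwa [div_le_iff₀ hs2]
  linarith

theorem line_identity_ae (hB : LBall M F κ P r m Λ K L) (h : KPlane M F d κ)
    (hx : x ∈ Metric.ball P (r / 2)) (hg : Good M F κ x) {u w : Pl} (hdet : det2 u w ≠ 0)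
    {t₁ t₂ : ℝ} (ht : t₁ ≤ t₂) (hd1 : DifferentiableAt ℝ (fun y => F y (u + t₁ • w)) x)
    (hd2 : DifferentiableAt ℝ (fun y => F y (u + t₂ • w)) x) :
    Phi F d x (u + t₂ • w) - Phi F d x (u + t₁ • w) =
      ∫ t in t₁..t₂, Kg F d κ x (u + t • w) w := by
  have hxM := hB.sub (hB.mem_half hx)
  have hr := hB.r_pos
  have hL := hB.L_pos
  have hne : ∀ t : ℝ, u + t • w ≠ 0 := by
    intro t h0
    apply hdet
    have : u = -(t • w) := eq_neg_of_add_eq_zero_left h0
    rw [this, det2_neg_left, det2_smul_left, det2_self]; ring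
  set R := ‖u‖ + (|t₁| + |t₂|) * ‖w‖ with hRdef
  have hR0 : 0 ≤ R := by positivity
  have hR : ∀ t ∈ Icc t₁ t₂, ‖u + t • w‖ ≤ R := by
    intro t htt
    have h1 : |t| ≤ |t₁| + |t₂| := by
      rw [abs_le]
      constructor
      · have := neg_abs_le t₁
        have := abs_nonneg t₂
        linarith [htt.1]
      · have := le_abs_self t₂
        have := abs_nonneg t₁
        linarith [htt.2]
    calc ‖u + t • w‖ ≤ ‖u‖ + ‖t • w‖ := norm_add_le _ _
      _ = ‖u‖ + |t| * ‖w‖ := by rw [norm_smul, Real.norm_eq_abs]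
      _ ≤ R := by rw [hRdef]; gcongr
  set s0 := (r / 2) / (‖w‖ + 2 * R + 1) with hs0
  have hs0pos : 0 < s0 := by positivity
  have hsR : ∀ s : ℝ, 0 < s → s < s0 → s * (‖w‖ + 2 * R) < r / 2 := by
    intro s hs hss
    rw [hs0, lt_div_iff₀ (by positivity)] at hss
    nlinarith [norm_nonneg w]
  set v₁ := u + t₁ • w with hv₁
  set v₂ := u + t₂ • w with hv₂
  set G₁ := fderiv ℝ (fun y => F y v₁) x with hG₁
  set G₂ := fderiv ℝ (fun y => F y v₂) x with hG₂
  -- the two sides
  set I : ℝ → ℝ → ℝ := fun s β => (d (x + (s * β) • w + s • v₂)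
        (x + (s * β) • w + (2 * s) • v₂) -
        d (x + (s * β) • w) (x + (s * β) • w + s • v₂)) -
      (d (x + (s * β) • w + s • v₁) (x + (s * β) • w + (2 * s) • v₁) -
        d (x + (s * β) • w) (x + (s * β) • w + s • v₁)) with hI
  set E : ℝ → ℝ → ℝ := fun s t => 2 * (d (x + s • w + s • (u + t • w))
      (x + s • w + (2 * s) • (u + t • w)) -
      d (x + s • (u + t • w)) (x + (2 * s) • (u + t • w))) with hE
  have hstar : ∀ s : ℝ, 0 < s → s < s0 → ∫ β in (0:ℝ)..1, I s β = ∫ t in t₁..t₂, E s t := by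
    intro s hs hss
    exact hB.star h hx hdet ht hR hs (hsR s hs hss)
  have hmemI : ∀ s : ℝ, 0 < s → s < s0 → ∀ β ∈ Icc (0:ℝ) 1, ∀ t ∈ Icc t₁ t₂, ∀ c : ℝ, 0 ≤ c →
      c ≤ 2 * s → x + (s * β) • w + c • (u + t • w) ∈ M := by
    intro s hs hss β hβ t htt c hc hc2
    apply hB.sub
    rw [add_assoc]
    apply hB.mem_add hx
    have hR' := hR t htt
    calc ‖(s * β) • w + c • (u + t • w)‖ ≤ ‖(s * β) • w‖ + ‖c • (u + t • w)‖ := norm_add_le _ _
      _ = s * β * ‖w‖ + c * ‖u + t • w‖ := by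
        rw [norm_smul, norm_smul, Real.norm_eq_abs, Real.norm_eq_abs, abs_of_nonneg hc,
          abs_of_nonneg (mul_nonneg hs.le hβ.1)]
      _ ≤ s * 1 * ‖w‖ + 2 * s * R := by
        gcongr
        exact hβ.2
      _ = s * (‖w‖ + 2 * R) := by ring
      _ < r / 2 := hsR s hs hss
  -- limit of the left hand side
  have lim1 : Tendsto (fun s : ℝ => (s ^ 2)⁻¹ * ∫ β in (0:ℝ)..1, I s β) (𝓝[>] 0)
      (𝓝 (G₂ v₂ - G₁ v₁)) := by
    rw [Metric.tendsto_nhds]
    intro ε hε
    obtain ⟨δ₁, hδ₁, b1⟩ := bd_expand h.toFPlane hxM hd1.hasFDerivAt (C := ‖w‖) (ε := ε / 4)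
      (norm_nonneg _) (by positivity)
    obtain ⟨δ₂, hδ₂, b2⟩ := bd_expand h.toFPlane hxM hd2.hasFDerivAt (C := ‖w‖) (ε := ε / 4)
      (norm_nonneg _) (by positivity)
    filter_upwards [Ioo_mem_nhdsGT (lt_min hs0pos (lt_min hδ₁ hδ₂))] with s hs
    have hspos := hs.1
    have hss0 : s < s0 := hs.2.trans_le (min_le_left _ _)
    have hsδ₁ : s < δ₁ := hs.2.trans_le ((min_le_right _ _).trans (min_le_left _ _))
    have hsδ₂ : s < δ₂ := hs.2.trans_le ((min_le_right _ _).trans (min_le_right _ _))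
    have hs2 : 0 < s ^ 2 := by positivity
    have mm : ∀ β ∈ Icc (0:ℝ) 1, ∀ c : ℝ, 0 ≤ c → c ≤ 2 * s →
        x + (s * β) • w + c • v₁ ∈ M ∧ x + (s * β) • w + c • v₂ ∈ M := fun β hβ c hc hc2 =>
      ⟨hmemI s hspos hss0 β hβ t₁ ⟨le_rfl, ht⟩ c hc hc2,
        hmemI s hspos hss0 β hβ t₂ ⟨ht, le_rfl⟩ c hc hc2⟩
    have m0 : ∀ β ∈ Icc (0:ℝ) 1, x + (s * β) • w ∈ M := by
      intro β hβ
      have := (mm β hβ 0 le_rfl (by linarith)).1
      rwa [zero_smul, add_zero] at this
    have hIint : IntervalIntegrable (I s) volume 0 1 := by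
      apply ContinuousOn.intervalIntegrable
      rw [uIcc_of_le zero_le_one]
      apply ContinuousOn.sub <;> apply ContinuousOn.sub <;>
        apply h.pm.continuousOn_comp (by fun_prop) (by fun_prop)
      · exact fun β hβ => (mm β hβ s hspos.le (by linarith)).2
      · exact fun β hβ => (mm β hβ (2 * s) (by linarith) le_rfl).2
      · exact m0
      · exact fun β hβ => (mm β hβ s hspos.le (by linarith)).2
      · exact fun β hβ => (mm β hβ s hspos.le (by linarith)).1
      · exact fun β hβ => (mm β hβ (2 * s) (by linarith) le_rfl).1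
      · exact m0
      · exact fun β hβ => (mm β hβ s hspos.le (by linarith)).1
    have hb := intervalIntegral.norm_integral_le_of_norm_le_const (a := 0) (b := 1)
      (f := fun β : ℝ => I s β - s ^ 2 * (G₂ v₂ - G₁ v₁)) (C := ε / 2 * s ^ 2) (by
        intro β hβ
        rw [uIoc_of_le zero_le_one] at hβ
        have ha : ‖x + (s * β) • w - x‖ ≤ ‖w‖ * s := by
          rw [add_sub_cancel_left, norm_smul, Real.norm_eq_abs,
            abs_of_nonneg (mul_nonneg hspos.le hβ.1.le)]
          have : s * β * ‖w‖ ≤ s * 1 * ‖w‖ := by gcongr; exact hβ.2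
          linarith
        have c1 := b1 s hspos hsδ₁ _ ha
        have c2 := b2 s hspos hsδ₂ _ ha
        have e : I s β - s ^ 2 * (G₂ v₂ - G₁ v₁) =
          (d (x + (s * β) • w + s • v₂) (x + (s * β) • w + (2 * s) • v₂) -
            d (x + (s * β) • w) (x + (s * β) • w + s • v₂) - s ^ 2 * G₂ v₂) -
          (d (x + (s * β) • w + s • v₁) (x + (s * β) • w + (2 * s) • v₁) -
            d (x + (s * β) • w) (x + (s * β) • w + s • v₁) - s ^ 2 * G₁ v₁) := by
          simp only [hI]; ring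
        rw [e, Real.norm_eq_abs]
        refine (abs_sub _ _).trans ?_
        linarith)
    rw [intervalIntegral.integral_sub hIint intervalIntegrable_const] at hb
    simp only [intervalIntegral.integral_const, sub_zero, one_smul, abs_one, mul_one,
      Real.norm_eq_abs] at hb
    rw [Real.dist_eq]
    have e6 : (s ^ 2)⁻¹ * (∫ β in (0:ℝ)..1, I s β) - (G₂ v₂ - G₁ v₁) =
        ((∫ β in (0:ℝ)..1, I s β) - s ^ 2 * (G₂ v₂ - G₁ v₁)) / s ^ 2 := by
      field_simp
    rw [e6, abs_div, abs_of_pos hs2, div_lt_iff₀ hs2]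
    nlinarith
  -- limit of the right hand side
  have lim2 : Tendsto (fun s : ℝ => ∫ t in t₁..t₂, (s ^ 2)⁻¹ * E s t) (𝓝[>] 0)
      (𝓝 (∫ t in t₁..t₂, 2 * Kg F d κ x (u + t • w) w)) := by
    apply intervalIntegral.tendsto_integral_filter_of_dominated_convergence
      (fun _ => 2 * L * ‖w‖ * R)
    · filter_upwards [Ioo_mem_nhdsGT hs0pos] with s hs
      rw [uIoc_of_le ht]
      apply ContinuousOn.aestronglyMeasurable _ measurableSet_Ioc
      apply ContinuousOn.mono _ Ioc_subset_Icc_self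
      apply continuousOn_const.mul
      apply continuousOn_const.mul
      have hspos := hs.1
      have n1 : ∀ t ∈ Icc t₁ t₂, ∀ c : ℝ, 0 ≤ c → c ≤ 2 * s → x + s • w + c • (u + t • w) ∈ M := by
        intro t htt c hc hc2
        have := hmemI s hspos hs.2 1 ⟨zero_le_one, le_rfl⟩ t htt c hc hc2
        rwa [mul_one] at this
      have n0 : ∀ t ∈ Icc t₁ t₂, ∀ c : ℝ, 0 ≤ c → c ≤ 2 * s → x + c • (u + t • w) ∈ M := by
        intro t htt c hc hc2
        have := hmemI s hspos hs.2 0 ⟨le_rfl, zero_le_one⟩ t htt c hc hc2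
        rwa [mul_zero, zero_smul, add_zero] at this
      apply ContinuousOn.sub <;> apply h.pm.continuousOn_comp (by fun_prop) (by fun_prop)
      · exact fun t htt => n1 t htt s hspos.le (by linarith)
      · exact fun t htt => n1 t htt (2 * s) (by linarith) le_rfl
      · exact fun t htt => n0 t htt s hspos.le (by linarith)
      · exact fun t htt => n0 t htt (2 * s) (by linarith) le_rfl
    · filter_upwards [Ioo_mem_nhdsGT hs0pos] with s hs
      apply ae_of_all
      intro t htt
      rw [uIoc_of_le ht] at htt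
      have hspos := hs.1
      have hRt := hR t ⟨htt.1.le, htt.2⟩
      have h1 := hB.E_bound h.toFPlane hx (v := u + t • w) (w := w) hspos (by
        refine lt_of_le_of_lt ?_ (hsR s hspos hs.2)
        gcongr)
      have hs2 : 0 < s ^ 2 := by positivity
      simp only [hE]
      rw [Real.norm_eq_abs, abs_mul, abs_mul, abs_of_pos (inv_pos.2 hs2),
        abs_of_pos (by norm_num : (0:ℝ) < 2)]
      calc (s ^ 2)⁻¹ * (2 * _) ≤ (s ^ 2)⁻¹ * (2 * (s * (L * (s * ‖w‖) * ‖u + t • w‖))) := by
            gcongr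
        _ ≤ (s ^ 2)⁻¹ * (2 * (s * (L * (s * ‖w‖) * R))) := by gcongr
        _ = 2 * L * ‖w‖ * R := by field_simp
    · exact intervalIntegrable_const
    · filter_upwards [ae_line_of_ae_ang h.toFPlane hxM hdet hg.ae_diff] with t htd _
      have h1 := E_tendsto h.toFPlane hxM w htd.hasFDerivAt
      rw [← hB.Kg_eq h hx hg (hne t) htd.hasFDerivAt] at h1
      exact h1
  have heq : (fun s : ℝ => (s ^ 2)⁻¹ * ∫ β in (0:ℝ)..1, I s β) =ᶠ[𝓝[>] 0]
      (fun s : ℝ => ∫ t in t₁..t₂, (s ^ 2)⁻¹ * E s t) := by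
    filter_upwards [Ioo_mem_nhdsGT hs0pos] with s hs
    rw [hstar s hs.1 hs.2]
    exact (intervalIntegral.integral_const_mul _ _).symm
  have key := tendsto_nhds_unique (lim1.congr' heq) lim2
  rw [intervalIntegral.integral_const_mul] at key
  rw [Phi_of_diff h hxM hd1.hasFDerivAt, Phi_of_diff h hxM hd2.hasFDerivAt]
  linarith

theorem line_hasDerivAt (hB : LBall M F κ P r m Λ K L) (h : KPlane M F d κ)
    (hx : x ∈ Metric.ball P (r / 2)) (hg : Good M F κ x) {u w : Pl} (hdet : det2 u w ≠ 0)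
    (t : ℝ) :
    HasDerivAt (fun t : ℝ => Phi F d x (u + t • w)) (Kg F d κ x (u + t • w) w) t := by
  have hxM := hB.sub (hB.mem_half hx)
  have hne : ∀ t : ℝ, u + t • w ≠ 0 := by
    intro t h0
    apply hdet
    have : u = -(t • w) := eq_neg_of_add_eq_zero_left h0
    rw [this, det2_neg_left, det2_smul_left, det2_self]; ring
  have hA : Continuous (fun t : ℝ => Phi F d x (u + t • w)) := by
    rw [continuous_iff_continuousAt]
    intro t
    exact ContinuousAt.comp (g := Phi F d x) (f := fun t : ℝ => u + t • w)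
      (hB.Phi_continuousAt h hx hg (hne t)) (by fun_prop)
  have hk : Continuous (fun t : ℝ => Kg F d κ x (u + t • w) w) := by
    rw [continuous_iff_continuousAt]
    intro t
    have h1 : ContinuousAt (fun t : ℝ => Kg F d κ x (u + t • w)) t :=
      ContinuousAt.comp (g := Kg F d κ x) (f := fun t : ℝ => u + t • w)
        (hB.Kg_continuousAt h hx hg (hne t)) (by fun_prop)
    exact h1.clm_apply continuousAt_const
  have hdense := MeasureTheory.Measure.dense_of_ae
    (ae_line_of_ae_ang h.toFPlane hxM hdet hg.ae_diff)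
  obtain ⟨t₀, ht₀⟩ := hdense.nonempty
  have hprim : ∀ t, HasDerivAt (fun t => ∫ τ in t₀..t, Kg F d κ x (u + τ • w) w)
      (Kg F d κ x (u + t • w) w) t := fun t => (hk.integral_hasStrictDerivAt t₀ t).hasDerivAt
  have hprimc : Continuous (fun t => ∫ τ in t₀..t, Kg F d κ x (u + τ • w) w) :=
    continuous_iff_continuousAt.2 fun t => (hprim t).continuousAt
  have heq : (fun t : ℝ => Phi F d x (u + t • w)) = fun t =>
      Phi F d x (u + t₀ • w) + ∫ τ in t₀..t, Kg F d κ x (u + τ • w) w := by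
    apply hA.ext_on hdense (continuous_const.add hprimc)
    intro t ht
    change Phi F d x (u + t • w) =
      Phi F d x (u + t₀ • w) + ∫ τ in t₀..t, Kg F d κ x (u + τ • w) w
    rcases le_total t₀ t with hle | hle
    · have := hB.line_identity_ae h hx hg hdet hle ht₀ ht
      linarith
    · have := hB.line_identity_ae h hx hg hdet hle ht ht₀
      rw [intervalIntegral.integral_symm]
      linarith
  rw [heq]
  exact (hprim t).const_add _

/-- The second order term is differentiable in the direction. -/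
theorem Phi_hasFDerivAt (hB : LBall M F κ P r m Λ K L) (h : KPlane M F d κ)
    (hx : x ∈ Metric.ball P (r / 2)) (hg : Good M F κ x) {u : Pl} (hu : u ≠ 0) :
    HasFDerivAt (Phi F d x) (Kg F d κ x u) u := by
  have hn : 0 < ‖u‖ := norm_pos_iff.2 hu
  rw [hasFDerivAt_iff_isLittleO_nhds_zero, Asymptotics.isLittleO_iff]
  intro c hc
  have hKc := hB.Kg_continuousAt h hx hg hu
  rw [Metric.continuousAt_iff] at hKc
  obtain ⟨δ, hδ, h1⟩ := hKc c hc
  -- transversal increments
  have key : ∀ w : Pl, ‖w‖ < δ → det2 u w ≠ 0 →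
      |Phi F d x (u + w) - Phi F d x u - Kg F d κ x u w| ≤ c * ‖w‖ := by
    intro w hw hdet
    have hd : ∀ t ∈ Icc (0:ℝ) 1, HasDerivWithinAt
        (fun t : ℝ => Phi F d x (u + t • w) - t * Kg F d κ x u w)
        (Kg F d κ x (u + t • w) w - Kg F d κ x u w) (Icc 0 1) t := by
      intro t _
      have h2 := hB.line_hasDerivAt h hx hg hdet t
      have h3 : HasDerivAt (fun t : ℝ => t * Kg F d κ x u w) (Kg F d κ x u w) t := by
        simpa using (hasDerivAt_id t).mul_const (Kg F d κ x u w)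
      exact (h2.sub h3).hasDerivWithinAt
    have hbd : ∀ t ∈ Ico (0:ℝ) 1, ‖Kg F d κ x (u + t • w) w - Kg F d κ x u w‖ ≤ c * ‖w‖ := by
      intro t ht
      have h2 : dist (u + t • w) u < δ := by
        rw [dist_eq_norm, add_sub_cancel_left, norm_smul, Real.norm_eq_abs, abs_of_nonneg ht.1]
        calc t * ‖w‖ ≤ 1 * ‖w‖ := by gcongr; exact ht.2.le
          _ < δ := by rw [one_mul]; exact hw
      have h3 := h1 h2
      rw [dist_eq_norm] at h3
      rw [← sub_apply]
      exact (ContinuousLinearMap.le_opNorm _ _).trans (by gcongr)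
    have h4 := norm_image_sub_le_of_norm_deriv_le_segment_01' hd hbd
    simp only [one_smul, one_mul, zero_smul, add_zero, zero_mul, sub_zero] at h4
    rw [Real.norm_eq_abs] at h4
    have e : Phi F d x (u + w) - Kg F d κ x u w - Phi F d x u =
      Phi F d x (u + w) - Phi F d x u - Kg F d κ x u w := by ring
    rwa [e] at h4
  have hn0 : ∀ᶠ w : Pl in 𝓝 0, ‖w‖ < min δ (‖u‖ / 2) := by
    have hc0 : ContinuousAt (fun w : Pl => ‖w‖) 0 := by fun_prop
    apply hc0.eventually_lt continuousAt_const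
    simp only [norm_zero]
    exact lt_min hδ (by positivity)
  filter_upwards [hn0] with w hw
  have hwδ : ‖w‖ < δ := hw.trans_le (min_le_left _ _)
  have hwu : ‖w‖ < ‖u‖ / 2 := hw.trans_le (min_le_right _ _)
  rw [Real.norm_eq_abs]
  by_cases hdet : det2 u w = 0
  · -- limit from transversal increments
    have huw : u + w ≠ 0 := by
      intro h0
      have : w = -u := by
        have := eq_neg_of_add_eq_zero_right h0
        exact this
      rw [this, norm_neg] at hwu
      linarith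
    set W : ℝ → Pl := fun τ => w + τ • J u with hW
    have hWc : ContinuousAt W 0 := by fun_prop
    have hW0 : W 0 = w := by simp [hW]
    have f1 : ContinuousAt (fun τ => |Phi F d x (u + W τ) - Phi F d x u - Kg F d κ x u (W τ)|) 0 := by
      apply ContinuousAt.abs
      apply ContinuousAt.sub
      · apply ContinuousAt.sub _ continuousAt_const
        have : ContinuousAt (Phi F d x) (u + W 0) := by
          rw [hW0]; exact hB.Phi_continuousAt h hx hg huw
        exact ContinuousAt.comp (g := Phi F d x) (f := fun τ => u + W τ) this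
          (continuousAt_const.add hWc)
      · exact ContinuousAt.comp (g := Kg F d κ x u) (Kg F d κ x u).continuous.continuousAt hWc
    have f2 : ContinuousAt (fun τ => c * ‖W τ‖) 0 := continuousAt_const.mul hWc.norm
    have g1 := f1.tendsto.mono_left (nhdsWithin_le_nhds (s := Ioi 0))
    have g2 := f2.tendsto.mono_left (nhdsWithin_le_nhds (s := Ioi 0))
    rw [hW0] at g1 g2
    apply le_of_tendsto_of_tendsto g1 g2
    have e1 : ∀ᶠ τ : ℝ in 𝓝[>] 0, ‖W τ‖ < δ := by
      have : ∀ᶠ τ : ℝ in 𝓝 0, ‖W τ‖ < δ := by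
        apply hWc.norm.eventually_lt continuousAt_const
        rw [hW0]; exact hwδ
      exact this.filter_mono nhdsWithin_le_nhds
    filter_upwards [e1, self_mem_nhdsWithin] with τ hτ1 hτ2
    apply key (W τ) hτ1
    simp only [hW]
    rw [det2_add_right, hdet, det2_smul_right, det2_J, zero_add]
    have : (0:ℝ) < τ := hτ2
    positivity
  · exact key w hwδ hdet

end LBall

end Pool.Agent.Lib_1de93e
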