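import Pool.Agent.Lib_1de93e.Grad

/-!
# Lipschitz regularity
-/

namespace Pool.Agent.Lib_1de93e

open Set MeasureTheory Filter Topology

/-- Unit vectors. -/
noncomputable def ang (θ : ℝ) : Pl := Real.cos θ • !₂[(1:ℝ), 0] + Real.sin θ • !₂[(0:ℝ), 1]

@[simp] theorem ang_zero' (θ : ℝ) : ang θ 0 = Real.cos θ := by simp [ang]
@[simp] theorem ang_one' (θ : ℝ) : ang θ 1 = Real.sin θ := by simp [ang]

theorem norm_ang (θ : ℝ) : ‖ang θ‖ = 1 := by
  have h1 : ‖ang θ‖ ^ 2 = 1 := by
    rw [normsq]; simp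
  nlinarith [norm_nonneg (ang θ), sq_nonneg (‖ang θ‖ - 1)]

theorem ang_ne_zero (θ : ℝ) : ang θ ≠ 0 := by
  intro h
  have := norm_ang θ
  rw [h, norm_zero] at this
  norm_num at this

theorem hasDerivAt_ang (θ : ℝ) : HasDerivAt ang (J (ang θ)) θ := by
  have h1 := ((Real.hasDerivAt_cos θ).smul_const (!₂[(1:ℝ), 0] : Pl)).add
    ((Real.hasDerivAt_sin θ).smul_const (!₂[(0:ℝ), 1] : Pl))
  have h2 : J (ang θ) = (-Real.sin θ) • (!₂[(1:ℝ), 0] : Pl) + Real.cos θ • !₂[(0:ℝ), 1] := by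
    apply pl_ext
    · simp
    · simp
  rw [h2]
  exact h1

theorem continuous_ang : Continuous ang := by unfold ang; fun_prop

theorem ang_add_pi (θ : ℝ) : ang (θ + Real.pi) = -ang θ := by
  apply pl_ext <;> simp

theorem J_J (u : Pl) : J (J u) = -u := by
  apply pl_ext <;> simp

theorem exists_ang {u : Pl} (hu : ‖u‖ = 1) : ∃ θ, u = ang θ := by
  set z : ℂ := ⟨u 0, u 1⟩ with hz
  have h1 : ‖z‖ = 1 := by
    have h2 : ‖z‖ ^ 2 = 1 := by
      rw [← Complex.normSq_eq_norm_sq, Complex.normSq_mk]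
      have := normsq u
      rw [hu] at this
      linarith
    nlinarith [norm_nonneg z, sq_nonneg (‖z‖ - 1)]
  have hz0 : z ≠ 0 := by
    intro h; rw [h, norm_zero] at h1; norm_num at h1
  refine ⟨z.arg, pl_ext ?_ ?_⟩
  · rw [ang_zero', Complex.cos_arg hz0, h1, div_one]
  · rw [ang_one', Complex.sin_arg, h1, div_one]

theorem exists_ang' (u : Pl) : ∃ θ, u = ‖u‖ • ang θ := by
  by_cases hu : u = 0
  · exact ⟨0, by rw [hu]; simp⟩
  · have h1 : ‖u‖ ≠ 0 := norm_ne_zero_iff.2 hu
    obtain ⟨θ, hθ⟩ := exists_ang (u := ‖u‖⁻¹ • u) (by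
      rw [norm_smul, norm_inv, norm_norm, inv_mul_cancel₀ h1])
    exact ⟨θ, by rw [← hθ, smul_smul, mul_inv_cancel₀ h1, one_smul]⟩

theorem abs_det2_le (a b : Pl) : |det2 a b| ≤ ‖a‖ * ‖b‖ := by
  apply abs_le_of_sq_le_sq _ (by positivity)
  rw [mul_pow, normsq, normsq]
  unfold det2
  nlinarith [sq_nonneg (a 0 * b 0 + a 1 * b 1)]

/-- A continuous function is the limit of its averages. -/
theorem avg_close {φ : ℝ → ℝ} {t s0 ε : ℝ} (hs0 : 0 < s0) (hφ : ContinuousOn φ (Icc t (t + s0)))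
    (hε : 0 < ε) : ∃ δ > 0, δ ≤ s0 ∧ ∀ s : ℝ, 0 < s → s ≤ δ →
      |(∫ σ in (0:ℝ)..s, φ (t + σ)) - s * φ t| ≤ ε * s := by
  have h1 := hφ t ⟨le_refl _, by linarith⟩
  rw [Metric.continuousWithinAt_iff] at h1
  obtain ⟨δ, hδ, h2⟩ := h1 ε hε
  refine ⟨min (δ/2) s0, lt_min (by positivity) hs0, min_le_right _ _, fun s hs hsδ => ?_⟩
  have hsδ' : s ≤ δ / 2 := hsδ.trans (min_le_left _ _)
  have hs0' : s ≤ s0 := hsδ.trans (min_le_right _ _)
  have hint : IntervalIntegrable (fun σ => φ (t + σ)) volume 0 s := by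
    apply ContinuousOn.intervalIntegrable
    rw [uIcc_of_le hs.le]
    apply hφ.comp (by fun_prop)
    intro σ hσ
    exact ⟨by linarith [hσ.1], by linarith [hσ.2]⟩
  have h3 : (∫ σ in (0:ℝ)..s, φ (t + σ)) - s * φ t = ∫ σ in (0:ℝ)..s, (φ (t + σ) - φ t) := by
    rw [intervalIntegral.integral_sub hint intervalIntegrable_const]
    simp
  rw [h3]
  have h4 := intervalIntegral.norm_integral_le_of_norm_le_const (a := 0) (b := s)
    (f := fun σ => φ (t + σ) - φ t) (C := ε) (by
      intro σ hσ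
      rw [uIoc_of_le hs.le] at hσ
      have h5 := h2 (x := t + σ) ⟨by linarith [hσ.1], by linarith [hσ.2]⟩ (by
        rw [Real.dist_eq, add_sub_cancel_left, abs_of_pos hσ.1]
        linarith [hσ.2])
      rw [Real.dist_eq] at h5
      exact h5.le)
  simpa [abs_of_pos hs] using h4

theorem abs_le_of_integral_le {φ : ℝ → ℝ} {s0 L : ℝ} (hs0 : 0 < s0)
    (hφ : ContinuousOn φ (Icc 0 s0)) (hb : ∀ s : ℝ, 0 < s → s ≤ s0 → |∫ σ in (0:ℝ)..s, φ σ| ≤ L * s) :
    |φ 0| ≤ L := by
  apply le_of_forall_pos_le_add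
  intro ε hε
  obtain ⟨δ, hδ, hδs, h1⟩ := avg_close (φ := φ) (t := 0) hs0 (by simpa using hφ) hε
  have h2 := h1 δ hδ le_rfl
  have h3 := hb δ hδ hδs
  simp only [zero_add] at h2
  have h4 : |δ * φ 0| ≤ (L + ε) * δ := by
    have : δ * φ 0 = (∫ σ in (0:ℝ)..δ, φ σ) - ((∫ σ in (0:ℝ)..δ, φ σ) - δ * φ 0) := by ring
    rw [this]
    refine (abs_sub _ _).trans ?_
    linarith
  rw [abs_mul, abs_of_pos hδ, mul_comm] at h4
  exact le_of_mul_le_mul_right h4 hδ

/-- Second differences of the primitive control the Lipschitz constant. -/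
theorem lip_of_second_diff {φ : ℝ → ℝ} {a b s0 C : ℝ} (hab : a ≤ b) (hs0 : 0 < s0)
    (hφ : ContinuousOn φ (Icc a (b + s0)))
    (h : ∀ t : ℝ, a ≤ t → t ≤ b → ∀ s : ℝ, 0 < s → s ≤ s0 → a ≤ t - s →
      |(∫ σ in (0:ℝ)..s, φ (t + σ)) - ∫ σ in (0:ℝ)..s, φ (t - s + σ)| ≤ C * s ^ 2) :
    |φ b - φ a| ≤ C * (b - a) := by
  rcases hab.eq_or_lt with heq | hlt
  · rw [heq]; simp
  apply le_of_forall_pos_le_add
  intro ε hε
  obtain ⟨δ₁, hδ₁, -, h1⟩ := avg_close (φ := φ) (t := a) hs0
    (hφ.mono (Icc_subset_Icc le_rfl (by linarith))) (half_pos hε)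
  obtain ⟨δ₂, hδ₂, -, h2⟩ := avg_close (φ := φ) (t := b) hs0
    (hφ.mono (Icc_subset_Icc hab le_rfl)) (half_pos hε)
  set δ := min s0 (min δ₁ δ₂) with hδdef
  have hδ : 0 < δ := lt_min hs0 (lt_min hδ₁ hδ₂)
  obtain ⟨n, hn⟩ := exists_nat_gt ((b - a) / δ)
  have hba : 0 < b - a := by linarith
  have hnpos : (0:ℝ) < n := lt_trans (by positivity) hn
  set s := (b - a) / n with hs
  have hspos : 0 < s := by positivity
  have hsδ : s ≤ δ := by
    rw [hs, div_le_iff₀ hnpos]
    rw [div_lt_iff₀ hδ] at hn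
    linarith
  have hns : n * s = b - a := by rw [hs]; field_simp
  set A : ℝ → ℝ := fun t => ∫ σ in (0:ℝ)..s, φ (t + σ) with hA
  have key : ∀ k : ℕ, k ≤ n → |A (a + k * s) - A a| ≤ C * (k * s ^ 2) := by
    intro k
    induction k with
    | zero => intro _; simp
    | succ k ih =>
      intro hk
      have h3 := ih (by omega)
      have hk' : ((k:ℝ) + 1) ≤ n := by exact_mod_cast hk
      have e1 : a + (k + 1) * s ≤ b := by nlinarith
      have e2 : a + ((k:ℝ) + 1) * s - s = a + k * s := by ring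
      have hks : 0 ≤ (k:ℝ) * s := by positivity
      have h4 := h (a + (k + 1) * s) (by nlinarith) e1 s hspos
        (hsδ.trans (min_le_left _ _)) (by rw [e2]; linarith)
      rw [e2] at h4
      have h5 : |A (a + (k + 1) * s) - A (a + k * s)| ≤ C * s ^ 2 := h4
      push_cast
      calc |A (a + (k + 1) * s) - A a| ≤
            |A (a + (k + 1) * s) - A (a + k * s)| + |A (a + k * s) - A a| := abs_sub_le _ _ _
        _ ≤ C * s ^ 2 + C * (k * s ^ 2) := add_le_add h5 h3
        _ = C * ((k + 1) * s ^ 2) := by ring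
  have k1 := key n le_rfl
  rw [hns, add_sub_cancel] at k1
  have k2 : |A a - s * φ a| ≤ ε / 2 * s :=
    h1 s hspos (hsδ.trans ((min_le_right _ _).trans (min_le_left _ _)))
  have k3 : |A b - s * φ b| ≤ ε / 2 * s :=
    h2 s hspos (hsδ.trans ((min_le_right _ _).trans (min_le_right _ _)))
  have k4 : |φ b - φ a| * s ≤ (C * (b - a) + ε) * s := by
    have e : |φ b - φ a| * s = |s * φ b - s * φ a| := by
      rw [← mul_sub, abs_mul, abs_of_pos hspos, mul_comm]
    rw [e]
    have e3 : s * φ b - s * φ a = -(A b - s * φ b) + (A b - A a) + (A a - s * φ a) := by ring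
    rw [e3]
    refine (abs_add_three _ _ _).trans ?_
    rw [abs_neg]
    have e4 : C * (n * s ^ 2) = C * (b - a) * s := by
      rw [← hns]; ring
    rw [e4] at k1
    linarith
  exact le_of_mul_le_mul_right k4 hspos

variable {M : Set Pl} {F d : Pl → Pl → ℝ}

namespace KPlane

variable {κ : Pl → Pl → ℝ} (h : KPlane M F d κ)

include h

/-- Derivative of the norm in the angle. -/
theorem hasDerivAt_F_ang {x : Pl} (hx : x ∈ M) (θ : ℝ) :
    HasDerivAt (fun θ => F x (ang θ)) (-(κ x (ang θ) * F x (ang θ))) θ := by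
  have h1 := (h.pf_hasFDerivAt hx (ang_ne_zero θ)).comp_hasDerivAt θ (hasDerivAt_ang θ)
  rw [pf_J (ang_ne_zero θ)] at h1
  exact h1

/-- Derivative of the distance from `x` along the infinitesimal circle at `x`. -/
theorem hasDerivAt_circle {x : Pl} {s θ : ℝ} (hs : 0 < s) (hx : x ∈ M)
    (hy : x + (s / F x (ang θ)) • ang θ ∈ M) :
    HasDerivAt (fun θ => d x (x + (s / F x (ang θ)) • ang θ))
      (s / F x (ang θ) * F (x + (s / F x (ang θ)) • ang θ) (ang θ) *
        (κ x (ang θ) - κ (x + (s / F x (ang θ)) • ang θ) (ang θ))) θ := by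
  have hN := h.fin.norm x hx
  have hf : 0 < F x (ang θ) := hN.pos _ (ang_ne_zero θ)
  have hf' := h.hasDerivAt_F_ang hx θ
  have h1 : HasDerivAt (fun θ => s / F x (ang θ)) (s / F x (ang θ) * κ x (ang θ)) θ := by
    refine ((hasDerivAt_const θ s).div hf' hf.ne').congr_deriv ?_
    field_simp
    ring
  have h2 : HasDerivAt (fun θ => x + (s / F x (ang θ)) • ang θ)
      ((s / F x (ang θ)) • cvk κ x (ang θ)) θ := by
    refine ((h1.smul (hasDerivAt_ang θ)).const_add x).congr_deriv ?_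
    unfold cvk
    rw [smul_add, smul_smul]
  set y := x + (s / F x (ang θ)) • ang θ with hydef
  have hpos : 0 < s / F x (ang θ) := div_pos hs hf
  have hne : x ≠ y := by
    intro h0
    have h3 : (s / F x (ang θ)) • ang θ = 0 := by simpa [hydef] using h0.symm
    rcases smul_eq_zero.1 h3 with h4 | h4
    · exact hpos.ne' h4
    · exact ang_ne_zero θ h4
  have h3 := (h.toC1Plane.hasFDerivAt_d hx hy hne).comp_hasDerivAt θ h2
  have e1 : y - x = (s / F x (ang θ)) • ang θ := by rw [hydef, add_sub_cancel_left]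
  rw [e1, h.toC1Plane.p_smul hy (ang_ne_zero θ) hpos, map_smul, pf_apply, det2_cvk_cvk,
    norm_ang] at h3
  refine h3.congr_deriv ?_
  rw [smul_eq_mul]
  ring

end KPlane

namespace PPlane

variable (h : PPlane M F d)

include h

/-- Uniform local constants. -/
theorem good {P : Pl} (hP : P ∈ M) : ∃ r > 0, ∃ m > 0, ∃ Λ > 0, ∃ K > 0,
    Metric.ball P (4 * r) ⊆ M ∧
    (∀ x ∈ Metric.ball P (4 * r), ∀ u, m * ‖u‖ ≤ F x u ∧ F x u ≤ Λ * ‖u‖) ∧
    (∀ x ∈ Metric.ball P (4 * r), ∀ u : Pl, u ≠ 0 → |kap M d x u| ≤ K) ∧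
    (∀ x ∈ Metric.ball P (3 * r), ∀ u : Pl, ‖u‖ = 1 → ∀ c : ℝ, x + c • u ∈ M →
      |kap M d x u - kap M d (x + c • u) u| ≤ K * |c|) := by
  obtain ⟨η, hη, m, hm, Λ, hΛ, hηM, hbd⟩ := h.toFPlane.exists_bounds hP
  set r := η / 4 with hr
  have hr0 : 0 < r := by positivity
  have h4r : 4 * r = η := by rw [hr]; ring
  set K₀ := 2 * Λ / m with hK₀
  have hK₀pos : 0 < K₀ := by positivity
  set K := K₀ + (1 + K₀) / r with hK
  have hKpos : 0 < K := by positivity
  have hK0K : K₀ ≤ K := by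
    have : 0 ≤ (1 + K₀) / r := by positivity
    linarith
  have hk : ∀ x ∈ Metric.ball P (4 * r), ∀ u : Pl, u ≠ 0 → |kap M d x u| ≤ K₀ := by
    intro x hx u hu
    rw [h4r] at hx
    have h1 := h.kap_bound (hηM hx) hu
    have h2 := (hbd x hx u).1
    have h3 := (hbd x hx (J u)).2
    rw [norm_J] at h3
    have h4 : 0 < ‖u‖ := norm_pos_iff.2 hu
    have h5 : |kap M d x u| * (m * ‖u‖) ≤ 2 * (Λ * ‖u‖) := by
      calc |kap M d x u| * (m * ‖u‖) ≤ |kap M d x u| * F x u := by gcongr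
        _ ≤ 2 * F x (J u) := h1
        _ ≤ 2 * (Λ * ‖u‖) := by gcongr
    rw [hK₀, le_div_iff₀ hm]
    have : (|kap M d x u| * m) * ‖u‖ ≤ (2 * Λ) * ‖u‖ := by linarith
    exact le_of_mul_le_mul_right this h4
  refine ⟨r, hr0, m, hm, Λ, hΛ, K, hKpos, by rw [h4r]; exact hηM, by rw [h4r]; exact hbd,
    fun x hx u hu => (hk x hx u hu).trans hK0K, ?_⟩
  intro x hx u hu c hc
  have hune : u ≠ 0 := by
    rintro rfl
    simp at hu
  have hsub : Metric.ball x r ⊆ M := by
    intro z hz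
    apply hηM
    rw [← h4r]
    rw [Metric.mem_ball] at hx hz ⊢
    calc dist z P ≤ dist z x + dist x P := dist_triangle _ _ _
      _ < r + 3 * r := by linarith
      _ = 4 * r := by ring
  have h1 := h.kap_lip hr0 hsub hune hc
  have h2 : ‖cv M d x u‖ ≤ 1 + K₀ := by
    unfold cv
    calc ‖J u + kap M d x u • u‖ ≤ ‖J u‖ + ‖kap M d x u • u‖ := norm_add_le _ _
      _ = 1 + |kap M d x u| := by rw [norm_J, norm_smul, hu, mul_one, Real.norm_eq_abs]
      _ ≤ 1 + K₀ := by
        have := hk x (Metric.ball_subset_ball (by linarith) hx) u hune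
        linarith
  have h3 : |kap M d x u - kap M d (x + c • u) u| * r ≤ (|c| * ((1 + K₀) / r)) * r := by
    calc |kap M d x u - kap M d (x + c • u) u| * r ≤ |c| * ‖cv M d x u‖ := h1
      _ ≤ |c| * (1 + K₀) := by gcongr
      _ = (|c| * ((1 + K₀) / r)) * r := by field_simp
  have h4 := le_of_mul_le_mul_right h3 hr0
  have h5 : 0 ≤ |c| * K₀ := by positivity
  rw [hK]
  linarith

/-- The distance is almost symmetric around a point. -/
theorem symm_dist {P : Pl} {r m Λ K : ℝ} (hr : 0 < r) (hm : 0 < m) (hΛ : 0 < Λ) (hK : 0 < K)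
    (hM : Metric.ball P (4 * r) ⊆ M)
    (hbd : ∀ x ∈ Metric.ball P (4 * r), ∀ u, m * ‖u‖ ≤ F x u ∧ F x u ≤ Λ * ‖u‖)
    (hlip : ∀ x ∈ Metric.ball P (3 * r), ∀ u : Pl, ‖u‖ = 1 → ∀ c : ℝ, x + c • u ∈ M →
      |kap M d x u - kap M d (x + c • u) u| ≤ K * |c|)
    {x : Pl} (hx : x ∈ Metric.ball P (3 * r)) {u : Pl} (hu : ‖u‖ = 1) {τ : ℝ} (hτ : 0 < τ)
    (hτ0 : τ ≤ m * r / (2 * Λ)) :
    |d x (x + τ • u) - d x (x - τ • u)| ≤ Λ ^ 3 * K * Real.pi / m ^ 2 * τ ^ 2 := by
  have hxM : x ∈ M := hM (Metric.ball_subset_ball (by linarith) hx)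
  have hx4 : x ∈ Metric.ball P (4 * r) := Metric.ball_subset_ball (by linarith) hx
  obtain ⟨θ₀, rfl⟩ := exists_ang hu
  set s := τ * F x (ang θ₀) with hs
  have hf0 : 0 < F x (ang θ₀) := (h.fin.norm x hxM).pos _ (ang_ne_zero _)
  have hspos : 0 < s := by positivity
  have hfle : ∀ θ, m ≤ F x (ang θ) ∧ F x (ang θ) ≤ Λ := by
    intro θ
    have := hbd x hx4 (ang θ)
    rw [norm_ang, mul_one, mul_one] at this
    exact this
  have hsle : s ≤ τ * Λ := by rw [hs]; gcongr; exact (hfle θ₀).2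
  have hslem : s / m ≤ r / 2 := by
    rw [div_le_iff₀ hm]
    calc s ≤ τ * Λ := hsle
      _ ≤ (m * r / (2 * Λ)) * Λ := by gcongr
      _ = r / 2 * m := by field_simp
  have hrad : ∀ θ, 0 < s / F x (ang θ) ∧ s / F x (ang θ) ≤ s / m := by
    intro θ
    have h1 : 0 < F x (ang θ) := lt_of_lt_of_le hm (hfle θ).1
    refine ⟨by positivity, ?_⟩
    gcongr
    exact (hfle θ).1
  have hyball : ∀ θ, x + (s / F x (ang θ)) • ang θ ∈ Metric.ball P (4 * r) := by
    intro θ
    rw [Metric.mem_ball] at hx ⊢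
    calc dist (x + (s / F x (ang θ)) • ang θ) P
        ≤ dist (x + (s / F x (ang θ)) • ang θ) x + dist x P := dist_triangle _ _ _
      _ < 4 * r := by
        rw [dist_eq_norm, add_sub_cancel_left, norm_smul, norm_ang, Real.norm_eq_abs,
          abs_of_pos (hrad θ).1, mul_one]
        linarith [(hrad θ).2]
  have hder := fun θ => h.toKPlane.hasDerivAt_circle hspos hxM (hM (hyball θ))
  have hbound : ∀ θ, ‖s / F x (ang θ) * F (x + (s / F x (ang θ)) • ang θ) (ang θ) *
        (kap M d x (ang θ) - kap M d (x + (s / F x (ang θ)) • ang θ) (ang θ))‖ ≤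
        Λ ^ 3 * K / m ^ 2 * τ ^ 2 := by
    intro θ
    set ρ := s / F x (ang θ) with hρ
    have hρpos := (hrad θ).1
    have hρm : ρ ≤ τ * Λ / m := (hrad θ).2.trans (by gcongr)
    have h1 := hlip x hx (ang θ) (norm_ang θ) ρ (hM (hyball θ))
    have h2 := (hbd _ (hyball θ) (ang θ)).2
    have h3 : 0 ≤ F (x + ρ • ang θ) (ang θ) := (h.fin.norm _ (hM (hyball θ))).nonneg _
    rw [norm_ang, mul_one] at h2
    rw [abs_of_pos hρpos] at h1
    rw [Real.norm_eq_abs, abs_mul, abs_mul, abs_of_pos hρpos, abs_of_nonneg h3]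
    calc ρ * F (x + ρ • ang θ) (ang θ) *
          |kap M d x (ang θ) - kap M d (x + ρ • ang θ) (ang θ)| ≤ ρ * Λ * (K * ρ) := by gcongr
      _ = Λ * K * ρ ^ 2 := by ring
      _ ≤ Λ * K * (τ * Λ / m) ^ 2 := by gcongr
      _ = Λ ^ 3 * K / m ^ 2 * τ ^ 2 := by field_simp
  have hmvt := Convex.norm_image_sub_le_of_norm_hasDerivWithin_le (s := univ)
    (fun θ _ => (hder θ).hasDerivWithinAt) (fun θ _ => hbound θ) convex_univ
    (mem_univ θ₀) (mem_univ (θ₀ + Real.pi))
  have e1 : s / F x (ang θ₀) = τ := by rw [hs]; field_simp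
  have e2 : F x (ang (θ₀ + Real.pi)) = F x (ang θ₀) := by
    rw [ang_add_pi, (h.fin.norm x hxM).neg]
  rw [e2, e1, ang_add_pi, add_sub_cancel_left, smul_neg, ← sub_eq_add_neg, Real.norm_eq_abs,
    Real.norm_eq_abs, abs_of_pos Real.pi_pos, abs_sub_comm] at hmvt
  calc |d x (x + τ • ang θ₀) - d x (x - τ • ang θ₀)| ≤ Λ ^ 3 * K / m ^ 2 * τ ^ 2 * Real.pi := hmvt
    _ = Λ ^ 3 * K * Real.pi / m ^ 2 * τ ^ 2 := by ring

/-- Lipschitz continuity of the norms along the lines of their own direction. -/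
theorem lip_line {P : Pl} {r m Λ K : ℝ} (hr : 0 < r) (hm : 0 < m) (hΛ : 0 < Λ) (hK : 0 < K)
    (hM : Metric.ball P (4 * r) ⊆ M)
    (hbd : ∀ x ∈ Metric.ball P (4 * r), ∀ u, m * ‖u‖ ≤ F x u ∧ F x u ≤ Λ * ‖u‖)
    (hlip : ∀ x ∈ Metric.ball P (3 * r), ∀ u : Pl, ‖u‖ = 1 → ∀ c : ℝ, x + c • u ∈ M →
      |kap M d x u - kap M d (x + c • u) u| ≤ K * |c|)
    {x u : Pl} {c : ℝ} (hx : x ∈ Metric.ball P r) (hu : ‖u‖ = 1) (hc : 0 ≤ c)
    (hxc : x + c • u ∈ Metric.ball P r) :
    |F (x + c • u) u - F x u| ≤ Λ ^ 3 * K * Real.pi / m ^ 2 * c := by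
  set s0 := min r (m * r / (2 * Λ)) with hs0
  have hs0pos : 0 < s0 := lt_min hr (by positivity)
  have hball : ∀ t : ℝ, 0 ≤ t → t ≤ c → x + t • u ∈ Metric.ball P r := by
    intro t ht htc
    rcases hc.eq_or_lt with h0 | h0
    · have : t = 0 := le_antisymm (by rw [h0]; exact htc) ht
      rw [this]; simpa using hx
    · have := (convex_ball P r).segment_subset hx hxc
      apply this
      rw [segment_eq_image']
      refine ⟨t / c, ⟨by positivity, by rw [div_le_one h0]; exact htc⟩, ?_⟩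
      simp only
      rw [add_sub_cancel_left, smul_smul, div_mul_cancel₀ _ h0.ne']
  have hball2 : ∀ t : ℝ, 0 ≤ t → t ≤ c + s0 → x + t • u ∈ Metric.ball P (3 * r) := by
    intro t ht htc
    by_cases h1 : t ≤ c
    · exact Metric.ball_subset_ball (by linarith) (hball t ht h1)
    · push Not at h1
      have h2 := hball c hc le_rfl
      rw [Metric.mem_ball] at h2 ⊢
      calc dist (x + t • u) P ≤ dist (x + t • u) (x + c • u) + dist (x + c • u) P :=
            dist_triangle _ _ _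
        _ < 3 * r := by
          have h3 : dist (x + t • u) (x + c • u) = t - c := by
            rw [dist_eq_norm, add_sub_add_left_eq_sub, ← sub_smul, norm_smul, hu, mul_one,
              Real.norm_eq_abs, abs_of_pos (by linarith)]
          have h4 : s0 ≤ r := min_le_left _ _
          rw [h3]
          linarith
  have h3M : Metric.ball P (3 * r) ⊆ M := (Metric.ball_subset_ball (by linarith)).trans hM
  have key := lip_of_second_diff (φ := fun t => F (x + t • u) u) (a := 0) (b := c) (s0 := s0)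
    (C := Λ ^ 3 * K * Real.pi / m ^ 2) hc hs0pos
    (h.toFPlane.continuousOn_line (fun t ht => h3M (hball2 t ht.1 ht.2))) ?_
  · simpa using key
  · intro t ht htc s hs hss0 hts
    have hxt3 := hball2 t ht (by linarith)
    have h1 := h.symm_dist hr hm hΛ hK hM hbd hlip hxt3 hu hs (hss0.trans (min_le_right _ _))
    have m1 : x + t • u ∈ M := h3M hxt3
    have m2 : x + t • u + s • u ∈ M := by
      have := h3M (hball2 (t + s) (by linarith) (by linarith))
      rwa [add_smul, ← add_assoc] at this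
    have m3 : x + t • u - s • u ∈ M := by
      have := h3M (hball2 (t - s) hts (by linarith))
      rwa [sub_smul, ← add_sub_assoc] at this
    rw [h.toFPlane.d_line hs.le m1 m2, h.pm.symm _ m1 _ m3] at h1
    have e1 : x + t • u = (x + t • u - s • u) + s • u := by abel
    have e2 : d (x + t • u - s • u) (x + t • u) =
        ∫ σ in (0:ℝ)..s, F (x + t • u - s • u + σ • u) u := by
      conv_lhs => rw [e1]
      rw [add_sub_cancel_right]
      exact h.toFPlane.d_line hs.le m3 (by rw [← e1]; exact m1)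
    rw [e2] at h1
    have e3 : ∀ σ : ℝ, x + (t + σ) • u = x + t • u + σ • u := by
      intro σ; rw [add_smul, add_assoc]
    have e4 : ∀ σ : ℝ, x + (t - s + σ) • u = x + t • u - s • u + σ • u := by
      intro σ; rw [add_smul, sub_smul]; abel
    simp only [e3, e4]
    exact h1

theorem pf_lip_line {P : Pl} {r m Λ K : ℝ} (hr : 0 < r) (hm : 0 < m) (hΛ : 0 < Λ) (hK : 0 < K)
    (hM : Metric.ball P (4 * r) ⊆ M)
    (hbd : ∀ x ∈ Metric.ball P (4 * r), ∀ u, m * ‖u‖ ≤ F x u ∧ F x u ≤ Λ * ‖u‖)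
    (hkb : ∀ x ∈ Metric.ball P (4 * r), ∀ u : Pl, u ≠ 0 → |kap M d x u| ≤ K)
    (hlip : ∀ x ∈ Metric.ball P (3 * r), ∀ u : Pl, ‖u‖ = 1 → ∀ c : ℝ, x + c • u ∈ M →
      |kap M d x u - kap M d (x + c • u) u| ≤ K * |c|)
    {x u w : Pl} {c : ℝ} (hx : x ∈ Metric.ball P r) (hu : ‖u‖ = 1) (hc : 0 ≤ c)
    (hxc : x + c • u ∈ Metric.ball P r) :
    |pf F (kap M d) (x + c • u) u w - pf F (kap M d) x u w| ≤
      (Λ ^ 3 * K * Real.pi / m ^ 2 * (1 + K) + Λ * K) * c * ‖w‖ := by
  have h1 := h.lip_line hr hm hΛ hK hM hbd hlip hx hu hc hxc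
  have hune : u ≠ 0 := by
    rintro rfl
    simp at hu
  have h4 : Metric.ball P r ⊆ Metric.ball P (4 * r) := Metric.ball_subset_ball (by linarith)
  have h3 : Metric.ball P r ⊆ Metric.ball P (3 * r) := Metric.ball_subset_ball (by linarith)
  have h2 := hlip x (h3 hx) u hu c (hM (h4 hxc))
  have h5 := (hbd x (h4 hx) u).2
  have h5' := (h.fin.norm x (hM (h4 hx))).nonneg u
  have h6 := hkb _ (h4 hxc) u hune
  rw [hu, mul_one] at h5
  rw [abs_of_nonneg hc] at h2
  rw [pf_apply, pf_apply, hu]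
  unfold cvk
  simp only [det2_add_right, det2_smul_right]
  set y := x + c • u
  have d1 : |det2 w (J u)| ≤ ‖w‖ := by
    have := abs_det2_le w (J u)
    rw [norm_J, hu, mul_one] at this
    exact this
  have d2 : |det2 w u| ≤ ‖w‖ := by
    have := abs_det2_le w u
    rw [hu, mul_one] at this
    exact this
  have e : F y u / 1 ^ 2 * (det2 w (J u) + kap M d y u * det2 w u) -
      F x u / 1 ^ 2 * (det2 w (J u) + kap M d x u * det2 w u) =
      (F y u - F x u) * (det2 w (J u) + kap M d y u * det2 w u) +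
      F x u * (-(kap M d x u - kap M d y u)) * det2 w u := by ring
  rw [e]
  have hC : 0 ≤ Λ ^ 3 * K * Real.pi / m ^ 2 := by
    have := Real.pi_pos
    positivity
  have b1 : |det2 w (J u) + kap M d y u * det2 w u| ≤ (1 + K) * ‖w‖ := by
    calc |det2 w (J u) + kap M d y u * det2 w u| ≤ |det2 w (J u)| + |kap M d y u * det2 w u| :=
          abs_add_le _ _
      _ = |det2 w (J u)| + |kap M d y u| * |det2 w u| := by rw [abs_mul]
      _ ≤ ‖w‖ + K * ‖w‖ := by gcongr
      _ = (1 + K) * ‖w‖ := by ring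
  calc |(F y u - F x u) * (det2 w (J u) + kap M d y u * det2 w u) +
      F x u * (-(kap M d x u - kap M d y u)) * det2 w u| ≤
      |(F y u - F x u) * (det2 w (J u) + kap M d y u * det2 w u)| +
      |F x u * (-(kap M d x u - kap M d y u)) * det2 w u| := abs_add_le _ _
    _ = |F y u - F x u| * |det2 w (J u) + kap M d y u * det2 w u| +
      F x u * |kap M d x u - kap M d y u| * |det2 w u| := by
        rw [abs_mul, abs_mul, abs_mul, abs_neg, abs_of_nonneg h5']
    _ ≤ (Λ ^ 3 * K * Real.pi / m ^ 2 * c) * ((1 + K) * ‖w‖) + Λ * (K * c) * ‖w‖ := by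
        gcongr
    _ = (Λ ^ 3 * K * Real.pi / m ^ 2 * (1 + K) + Λ * K) * c * ‖w‖ := by ring

/-- The norms are locally Lipschitz in the base point. -/
theorem F_lip {P : Pl} (hP : P ∈ M) : ∃ r > 0, ∃ L > 0, Metric.ball P r ⊆ M ∧
    ∀ x ∈ Metric.ball P r, ∀ y ∈ Metric.ball P r, ∀ u, |F x u - F y u| ≤ L * ‖x - y‖ * ‖u‖ := by
  obtain ⟨r, hr, m, hm, Λ, hΛ, K, hK, hM, hbd, hkb, hlip⟩ := h.good hP
  set L := Λ ^ 3 * K * Real.pi / m ^ 2 * (1 + K) + Λ * K with hL
  have hLpos : 0 < L := by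
    have := Real.pi_pos
    positivity
  have hrM : Metric.ball P r ⊆ M := (Metric.ball_subset_ball (by linarith)).trans hM
  refine ⟨r, hr, L, hLpos, hrM, ?_⟩
  have key : ∀ x ∈ Metric.ball P r, ∀ y ∈ Metric.ball P r, ∀ u : Pl, ‖u‖ = 1 →
      |F x u - F y u| ≤ L * ‖x - y‖ := by
    intro x hx y hy u hu
    have hune : u ≠ 0 := by
      rintro rfl
      simp at hu
    -- choose s0 with x + s u, y + s u in the ball
    obtain ⟨s0, hs0, hs0x, hs0y⟩ : ∃ s0 > 0, (∀ s : ℝ, 0 ≤ s → s ≤ s0 → x + s • u ∈ Metric.ball P r) ∧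
        ∀ s : ℝ, 0 ≤ s → s ≤ s0 → y + s • u ∈ Metric.ball P r := by
      rw [Metric.mem_ball] at hx hy
      refine ⟨min ((r - dist x P) / 2) ((r - dist y P) / 2), lt_min (by linarith) (by linarith),
        fun s hs hs' => ?_, fun s hs hs' => ?_⟩
      · rw [Metric.mem_ball]
        calc dist (x + s • u) P ≤ dist (x + s • u) x + dist x P := dist_triangle _ _ _
          _ = s + dist x P := by
            rw [dist_eq_norm, add_sub_cancel_left, norm_smul, hu, mul_one, Real.norm_eq_abs,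
              abs_of_nonneg hs]
          _ < r := by
            have := hs'.trans (min_le_left _ _)
            linarith
      · rw [Metric.mem_ball]
        calc dist (y + s • u) P ≤ dist (y + s • u) y + dist y P := dist_triangle _ _ _
          _ = s + dist y P := by
            rw [dist_eq_norm, add_sub_cancel_left, norm_smul, hu, mul_one, Real.norm_eq_abs,
              abs_of_nonneg hs]
          _ < r := by
            have := hs'.trans (min_le_right _ _)
            linarith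
    set w := y - x with hw
    have hy' : x + w = y := by rw [hw]; abel
    have hgen := abs_le_of_integral_le (φ := fun σ => F (y + σ • u) u - F (x + σ • u) u)
      (s0 := s0) (L := L * ‖w‖) hs0 ?_ ?_
    · simp only [zero_smul, add_zero] at hgen
      rw [abs_sub_comm, norm_sub_rev]
      exact hgen
    · apply ContinuousOn.sub
      · exact h.toFPlane.continuousOn_line (fun t ht => hrM (hs0y t ht.1 ht.2))
      · exact h.toFPlane.continuousOn_line (fun t ht => hrM (hs0x t ht.1 ht.2))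
    · intro s hs hss0
      have hint : ∀ z : Pl, (∀ s : ℝ, 0 ≤ s → s ≤ s0 → z + s • u ∈ Metric.ball P r) →
          IntervalIntegrable (fun σ : ℝ => F (z + σ • u) u) volume 0 s := by
        intro z hz
        apply ContinuousOn.intervalIntegrable
        rw [uIcc_of_le hs.le]
        exact h.toFPlane.continuousOn_line (fun t ht => hrM (hz t ht.1 (ht.2.trans hss0)))
      rw [intervalIntegral.integral_sub (hint y hs0y) (hint x hs0x)]
      have hxs := hs0x s hs.le hss0
      have hys := hs0y s hs.le hss0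
      have hh := h.toKPlane.toC1Plane.hamel_integral (w := w) hs hune (hrM hx) (hrM hxs)
        (by rw [hy']; exact hrM hy) (by rw [hy']; exact hrM hys)
      rw [hy'] at hh
      rw [hh]
      have hb := intervalIntegral.norm_integral_le_of_norm_le_const (a := 0) (b := 1)
        (f := fun t : ℝ => pf F (kap M d) (x + s • u + t • w) u w -
          pf F (kap M d) (x + t • w) u w) (C := L * s * ‖w‖) (by
          intro t ht
          rw [uIoc_of_le zero_le_one] at ht
          have hseg : ∀ a b : Pl, a ∈ Metric.ball P r → b ∈ Metric.ball P r →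
              a + t • (b - a) ∈ Metric.ball P r := by
            intro a b ha hb
            apply (convex_ball P r).segment_subset ha hb
            rw [segment_eq_image']
            exact ⟨t, ⟨ht.1.le, ht.2⟩, rfl⟩
          have p1 : x + t • w ∈ Metric.ball P r := hseg x y hx hy
          have p2 : x + t • w + s • u ∈ Metric.ball P r := by
            have := hseg _ _ hxs hys
            have e : x + s • u + t • (y + s • u - (x + s • u)) = x + t • w + s • u := by
              rw [add_sub_add_right_eq_sub, hw]; abel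
            rwa [e] at this
          have e : x + s • u + t • w = x + t • w + s • u := by abel
          rw [e, Real.norm_eq_abs]
          exact h.pf_lip_line hr hm hΛ hK hM hbd hkb hlip p1 hu hs.le p2)
      rw [Real.norm_eq_abs] at hb
      calc _ ≤ L * s * ‖w‖ * |1 - 0| := hb
        _ = L * ‖w‖ * s := by rw [sub_zero, abs_one]; ring
  intro x hx y hy u
  by_cases hu : u = 0
  · rw [hu, (h.fin.norm x (hrM hx)).zero, (h.fin.norm y (hrM hy)).zero]
    simp
  · have hn : 0 < ‖u‖ := norm_pos_iff.2 hu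
    have h1 := key x hx y hy (‖u‖⁻¹ • u) (by
      rw [norm_smul, norm_inv, norm_norm, inv_mul_cancel₀ hn.ne'])
    rw [(h.fin.norm x (hrM hx)).smul_nonneg (by positivity),
      (h.fin.norm y (hrM hy)).smul_nonneg (by positivity), ← mul_sub, abs_mul,
      abs_of_pos (inv_pos.2 hn)] at h1
    calc |F x u - F y u| = ‖u‖⁻¹ * |F x u - F y u| * ‖u‖ := by field_simp
      _ ≤ L * ‖x - y‖ * ‖u‖ := by gcongr

end PPlane

/-- A Finslerian projective-metric plane with continuous conjugate directions, locally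
Lipschitz in the base point. -/
structure LPlane (M : Set Pl) (F d κ : Pl → Pl → ℝ) : Prop extends KPlane M F d κ where
  lip : ∀ P ∈ M, ∃ r > 0, ∃ L > 0, Metric.ball P r ⊆ M ∧
    ∀ x ∈ Metric.ball P r, ∀ y ∈ Metric.ball P r, ∀ u, |F x u - F y u| ≤ L * ‖x - y‖ * ‖u‖

theorem PPlane.toLPlane (h : PPlane M F d) : LPlane M F d (kap M d) where
  toKPlane := h.toKPlane
  lip := fun _ hP => h.F_lip hP

end Pool.Agent.Lib_1de93e
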