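import Pool.Agent.Lib_1de93e.Dq

/-!
# The second order term at a good point
-/

namespace Pool.Agent.Lib_1de93e

open Set MeasureTheory Filter Topology
open scoped NNReal

variable {M : Set Pl} {F d κ : Pl → Pl → ℝ}

/-- One-sided second order estimate. -/
theorem half_le_of_tendsto {g l : ℝ → ℝ} {s0 e Φ : ℝ} (hs0 : 0 < s0)
    (hg : ContinuousOn g (Icc 0 s0)) (hle : ∀ σ ∈ Icc (0:ℝ) s0, l σ ≤ g σ) (h0 : g 0 = l 0)
    (hl : HasDerivAt l e 0)
    (hlim : Tendsto (fun s => ((∫ σ in (0:ℝ)..s, g σ) - s * g 0) / s ^ 2) (𝓝[>] 0) (𝓝 Φ)) :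
    e / 2 ≤ Φ := by
  apply le_of_forall_pos_le_add
  intro ε hε
  rw [← sub_le_iff_le_add]
  apply ge_of_tendsto hlim
  rw [hasDerivAt_iff_isLittleO, Asymptotics.isLittleO_iff] at hl
  have h1 := hl hε
  rw [Metric.eventually_nhds_iff] at h1
  obtain ⟨δ, hδ, h2⟩ := h1
  filter_upwards [Ioo_mem_nhdsGT (lt_min hδ hs0)] with s hs
  have hsδ : s < δ := hs.2.trans_le (min_le_left _ _)
  have hss0 : s < s0 := hs.2.trans_le (min_le_right _ _)
  have hspos := hs.1
  rw [le_div_iff₀ (by positivity)]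
  have hint : IntervalIntegrable g volume 0 s := by
    apply ContinuousOn.intervalIntegrable
    rw [uIcc_of_le hspos.le]
    exact hg.mono (Icc_subset_Icc le_rfl hss0.le)
  have hint2 : IntervalIntegrable (fun σ : ℝ => g 0 + σ * (e - ε)) volume 0 s := by
    apply Continuous.intervalIntegrable
    fun_prop
  have h3 : ∫ σ in (0:ℝ)..s, (g 0 + σ * (e - ε)) ≤ ∫ σ in (0:ℝ)..s, g σ := by
    apply intervalIntegral.integral_mono_on hspos.le hint2 hint
    intro σ hσ
    have h4 := h2 (y := σ) (by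
      rw [Real.dist_eq, sub_zero, abs_of_nonneg hσ.1]; linarith [hσ.2])
    rw [sub_zero, Real.norm_eq_abs, Real.norm_eq_abs, smul_eq_mul, abs_of_nonneg hσ.1] at h4
    have h5 := (abs_le.1 h4).1
    have h6 := hle σ ⟨hσ.1, by linarith [hσ.2]⟩
    rw [h0]
    linarith
  have h4 : ∫ σ in (0:ℝ)..s, (g 0 + σ * (e - ε)) = s * g 0 + s ^ 2 / 2 * (e - ε) := by
    rw [intervalIntegral.integral_add (by simp) (by
      apply Continuous.intervalIntegrable; fun_prop)]
    rw [intervalIntegral.integral_mul_const, integral_id]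
    simp only [intervalIntegral.integral_const, sub_zero, smul_eq_mul]
    ring
  rw [h4] at h3
  nlinarith

namespace LBall

variable {P : Pl} {r m Λ K L : ℝ} {x : Pl}

theorem phi_local (hB : LBall M F κ P r m Λ K L) (h : KPlane M F d κ)
    (hx : x ∈ Metric.ball P (r / 2)) (hg : Good M F κ x) {u : Pl} (hu : u ≠ 0) :
    ∃ g : Pl → ℝ, Continuous g ∧ ∀ v ∈ Metric.ball u (‖u‖ / 2),
      Tendsto (fun s => Dq F d s x v) (𝓝[>] 0) (𝓝 (g v)) := by
  have hn : 0 < ‖u‖ := norm_pos_iff.2 hu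
  have hr := hB.r_pos
  have hL := hB.L_pos
  have hxr := hB.mem_half hx
  have hxM := hB.sub hxr
  have hU : ∀ v ∈ Metric.ball u (‖u‖ / 2), v ≠ 0 ∧ ‖v‖ ≤ 2 * ‖u‖ := by
    intro v hv
    rw [Metric.mem_ball, dist_eq_norm] at hv
    constructor
    · rintro rfl
      rw [zero_sub, norm_neg] at hv
      linarith
    · have : v = u + (v - u) := by abel
      rw [this]
      refine (norm_add_le _ _).trans ?_
      linarith
  set K' : ℝ≥0 := Real.toNNReal (L * (2 * ‖u‖)) with hK'
  have hK'c : (K' : ℝ) = L * (2 * ‖u‖) := Real.coe_toNNReal _ (by positivity)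
  have q1 : ∀ᶠ s in 𝓝[>] (0:ℝ), LipschitzOnWith K' (fun v => Dq F d s x v)
      (Metric.ball u (‖u‖ / 2)) := by
    have hs1 : 0 < r / (4 * ‖u‖) := by positivity
    filter_upwards [Ioo_mem_nhdsGT hs1] with s hs
    have hspos := hs.1
    apply LipschitzOnWith.of_dist_le_mul
    intro v hv v' hv'
    have hxv : ∀ v ∈ Metric.ball u (‖u‖ / 2), x + s • v ∈ Metric.ball P r := by
      intro v hv
      apply hB.mem_add hx
      rw [norm_smul, Real.norm_eq_abs, abs_of_pos hspos]
      have h1 := (hU v hv).2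
      have h2 : s * (4 * ‖u‖) < r := by
        have := hs.2
        rwa [lt_div_iff₀ (by positivity)] at this
      calc s * ‖v‖ ≤ s * (2 * ‖u‖) := by gcongr
        _ < r / 2 := by linarith
    have hmvt := Convex.norm_image_sub_le_of_norm_hasFDerivWithin_le (𝕜 := ℝ)
      (f := fun v => Dq F d s x v) (f' := fun v => s⁻¹ • (pf F κ (x + s • v) v - pf F κ x v))
      (C := L * (2 * ‖u‖))
      (s := Metric.ball u (‖u‖ / 2)) (fun v hv =>
        (hB.hasFDerivAt_Dq h hxr (hU v hv).1 hspos (hxv v hv)).hasFDerivWithinAt)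
      (fun v hv => by
        have h1 := hB.norm_pf_sub_le h hxr (hU v hv).1 (hxv v hv)
        rw [norm_smul, norm_inv, Real.norm_eq_abs, abs_of_pos hspos]
        rw [abs_of_pos hspos] at h1
        calc s⁻¹ * ‖pf F κ (x + s • v) v - pf F κ x v‖ ≤ s⁻¹ * (L * s * ‖v‖) := by gcongr
          _ = L * ‖v‖ := by field_simp
          _ ≤ L * (2 * ‖u‖) := by gcongr; exact (hU v hv).2)
      (convex_ball _ _) hv' hv
    rw [Real.dist_eq, dist_eq_norm, hK'c]
    exact hmvt
  have q2 : ∀ v ∈ Metric.ball u (‖u‖ / 2) ∩ {v | DifferentiableAt ℝ (fun y => F y v) x},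
      Tendsto (fun s => Dq F d s x v) (𝓝[>] (0:ℝ)) (𝓝 (fderiv ℝ (fun y => F y v) x v / 2)) := by
    intro v hv
    exact tendsto_Dq h.toFPlane hxM (DifferentiableAt.hasFDerivAt hv.2)
  have q3 : ∀ v ∈ Metric.ball u (‖u‖ / 2), ∀ ε > 0, ∃ v' ∈ Metric.ball u (‖u‖ / 2) ∩
      {v | DifferentiableAt ℝ (fun y => F y v) x}, dist v' v < ε := by
    intro v hv ε hε
    obtain ⟨δ, hδ, hδb⟩ := Metric.isOpen_iff.1 Metric.isOpen_ball v hv
    obtain ⟨v', h1, h2⟩ := hg.dense h.toFPlane hxM v (lt_min hδ hε)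
    exact ⟨v', ⟨hδb (Metric.mem_ball.2 (h1.trans_le (min_le_left _ _))), h2⟩,
      h1.trans_le (min_le_right _ _)⟩
  obtain ⟨g, hg1, hg2⟩ := tendsto_of_equiLip q1 q2 q3
  exact ⟨g, hg1.continuous, hg2⟩

theorem tendsto_Phi (hB : LBall M F κ P r m Λ K L) (h : KPlane M F d κ)
    (hx : x ∈ Metric.ball P (r / 2)) (hg : Good M F κ x) {u : Pl} (hu : u ≠ 0) :
    Tendsto (fun s => Dq F d s x u) (𝓝[>] 0) (𝓝 (Phi F d x u)) := by
  obtain ⟨g, -, hg2⟩ := hB.phi_local h hx hg hu
  have hn : 0 < ‖u‖ := norm_pos_iff.2 hu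
  have h1 := hg2 u (Metric.mem_ball_self (by positivity))
  have h2 : Phi F d x u = g u := h1.limUnder_eq
  rw [h2]
  exact h1

theorem Phi_continuousAt (hB : LBall M F κ P r m Λ K L) (h : KPlane M F d κ)
    (hx : x ∈ Metric.ball P (r / 2)) (hg : Good M F κ x) {u : Pl} (hu : u ≠ 0) :
    ContinuousAt (Phi F d x) u := by
  obtain ⟨g, hgc, hg2⟩ := hB.phi_local h hx hg hu
  have hn : 0 < ‖u‖ := norm_pos_iff.2 hu
  have h1 : Phi F d x =ᶠ[𝓝 u] g := by
    filter_upwards [Metric.ball_mem_nhds u (by positivity : 0 < ‖u‖ / 2)] with v hv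
    exact (hg2 v hv).limUnder_eq
  exact hgc.continuousAt.congr h1.symm

theorem Phi_of_diff (h : KPlane M F d κ) (hx : x ∈ M) {u : Pl} {G : Pl →L[ℝ] ℝ}
    (hG : HasFDerivAt (fun y => F y u) G x) : Phi F d x u = G u / 2 :=
  (tendsto_Dq h.toFPlane hx hG).limUnder_eq

theorem Phi_smul (hB : LBall M F κ P r m Λ K L) (h : KPlane M F d κ)
    (hx : x ∈ Metric.ball P (r / 2)) (hg : Good M F κ x) {u : Pl} (hu : u ≠ 0) {a : ℝ}
    (ha : 0 < a) : Phi F d x (a • u) = a ^ 2 * Phi F d x u := by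
  have hxM := hB.sub (hB.mem_half hx)
  have h1 := hB.tendsto_Phi h hx hg (smul_ne_zero ha.ne' hu)
  have h2 := hB.tendsto_Phi h hx hg hu
  have h3 : Tendsto (fun s : ℝ => s * a) (𝓝[>] 0) (𝓝[>] 0) := by
    apply tendsto_nhdsWithin_of_tendsto_nhds_of_eventually_within
    · have : Tendsto (fun s : ℝ => s * a) (𝓝 0) (𝓝 (0 * a)) :=
        (continuous_id.mul continuous_const).tendsto 0
      rw [zero_mul] at this
      exact this.mono_left nhdsWithin_le_nhds
    · filter_upwards [self_mem_nhdsWithin] with s hs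
      exact mul_pos hs ha
  have h4 := (h2.comp h3).const_mul (a ^ 2)
  apply tendsto_nhds_unique h1
  apply h4.congr'
  filter_upwards [self_mem_nhdsWithin] with s hs
  have hs' : (0:ℝ) < s := hs
  simp only [Function.comp_apply]
  unfold Dq
  rw [smul_smul, (h.fin.norm x hxM).smul_nonneg ha.le]
  field_simp

theorem Phi_neg (hB : LBall M F κ P r m Λ K L) (h : KPlane M F d κ)
    (hx : x ∈ Metric.ball P (r / 2)) (hg : Good M F κ x) {u : Pl} (hu : u ≠ 0) :
    Phi F d x (-u) = -Phi F d x u := by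
  have hxM := hB.sub (hB.mem_half hx)
  by_contra hcon
  set φ : Pl → ℝ := fun v => Phi F d x (-v) + Phi F d x v with hφ
  have hc : ContinuousAt φ u := by
    apply ContinuousAt.add
    · have h1 : ContinuousAt (Phi F d x) (-u) := hB.Phi_continuousAt h hx hg (neg_ne_zero.2 hu)
      exact ContinuousAt.comp (g := Phi F d x) (f := fun v => -v) h1 continuous_neg.continuousAt
    · exact hB.Phi_continuousAt h hx hg hu
  have hne : φ u ≠ 0 := by
    intro h0
    apply hcon
    simp only [hφ] at h0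
    linarith
  have hev := hc.eventually_ne hne
  rw [Metric.eventually_nhds_iff] at hev
  obtain ⟨δ, hδ, h1⟩ := hev
  obtain ⟨v, hv1, hv2⟩ := hg.dense h.toFPlane hxM u hδ
  apply h1 hv1
  have hG := hv2.hasFDerivAt
  have hG' : HasFDerivAt (fun y => F y (-v)) (fderiv ℝ (fun y => F y v) x) x := by
    apply hG.congr_of_eventuallyEq
    filter_upwards [h.toFPlane.isOpen.mem_nhds hxM] with y hy
    rw [(h.fin.norm y hy).neg]
  simp only [hφ]
  rw [Phi_of_diff h hxM hG, Phi_of_diff h hxM hG', map_neg]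
  ring

/-- The Radon relation at a good point. -/
theorem radon_rel (hB : LBall M F κ P r m Λ K L) (h : KPlane M F d κ)
    (hx : x ∈ Metric.ball P (r / 2)) (hg : Good M F κ x) {u : Pl} (hu : u ≠ 0)
    {G : Pl →L[ℝ] ℝ} (hG : HasFDerivAt (fun y => F y u) G x) :
    G (cvk κ x u) = F x u * (fderiv ℝ (rad F κ) x (cvk κ x u) / rad F κ x -
      2 * Phi F d x (cvk κ x u) / F x (cvk κ x u)) := by
  have hxM := hB.sub (hB.mem_half hx)
  have hN := h.fin.norm x hxM
  set V := cvk κ x u with hV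
  have hVne : V ≠ 0 := cvk_ne_zero hu
  set c' := fderiv ℝ (rad F κ) x with hc'
  set c := rad F κ x with hc
  have hcpos : 0 < c := h.rad_pos hxM
  have hFu : 0 < F x u := hN.pos u hu
  have hFV : 0 < F x V := hN.pos V hVne
  have hn : 0 < ‖u‖ := norm_pos_iff.2 hu
  have hcr : F x u * F x V = c * ‖u‖ ^ 2 := h.radon hxM hu
  set e := ‖u‖ ^ 2 * (c' V * F x u - c * G V) / F x u ^ 2 with he
  set l : ℝ → ℝ := fun σ => ‖u‖ ^ 2 * (rad F κ (x + σ • V) / F (x + σ • V) u) with hl
  have hl0 : l 0 = F x V := by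
    simp only [hl, zero_smul, add_zero]
    rw [← hc]
    field_simp
    linarith
  have hline : HasDerivAt (fun σ : ℝ => x + σ • V) V 0 := by
    have := ((hasDerivAt_id (0:ℝ)).smul_const V).const_add x
    simpa using this
  have hd1 : HasDerivAt (fun σ : ℝ => rad F κ (x + σ • V)) (c' V) 0 := by
    have h1 : HasFDerivAt (rad F κ) c' (x + (0:ℝ) • V) := by
      rw [zero_smul, add_zero]; exact hg.rad_diff.hasFDerivAt
    exact h1.comp_hasDerivAt (0:ℝ) hline
  have hd2 : HasDerivAt (fun σ : ℝ => F (x + σ • V) u) (G V) 0 := by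
    have h1 : HasFDerivAt (fun y => F y u) G (x + (0:ℝ) • V) := by
      rw [zero_smul, add_zero]; exact hG
    exact h1.comp_hasDerivAt (0:ℝ) hline
  have hld : HasDerivAt l e 0 := by
    have h1 := (hd1.div hd2 (by simp only [zero_smul, add_zero]; exact hFu.ne')).const_mul
      (‖u‖ ^ 2)
    refine h1.congr_deriv ?_
    simp only [zero_smul, add_zero]
    rw [he, ← hc]
    ring
  obtain ⟨δ, hδ, hδM⟩ := h.toFPlane.exists_small hxM V
  have hle : ∀ σ : ℝ, |σ| < δ → l σ ≤ F (x + σ • V) V := by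
    intro σ hσ
    have hyM := hδM σ hσ
    have h1 := h.radon_le hyM u V
    have h2 : det2 u V = ‖u‖ ^ 2 := det2_cvk κ x u
    rw [h2, abs_of_pos (by positivity)] at h1
    have h3 : 0 < F (x + σ • V) u := (h.fin.norm _ hyM).pos u hu
    simp only [hl]
    rw [mul_div_assoc', div_le_iff₀ h3]
    linarith
  have key1 : e / 2 ≤ Phi F d x V := by
    apply half_le_of_tendsto (g := fun σ => F (x + σ • V) V) (l := l) (s0 := δ / 2)
      (by positivity) _ _ _ hld
    · apply (hB.tendsto_Phi h hx hg hVne).congr'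
      filter_upwards [Ioo_mem_nhdsGT hδ] with s hs
      unfold Dq
      rw [h.toFPlane.d_line hs.1.le hxM (hδM s (by rw [abs_of_pos hs.1]; exact hs.2))]
      simp
    · apply h.toFPlane.continuousOn_line
      intro t ht
      exact hδM t (by rw [abs_of_nonneg ht.1]; linarith [ht.2])
    · intro σ hσ
      exact hle σ (by rw [abs_of_nonneg hσ.1]; linarith [hσ.2])
    · simp only [zero_smul, add_zero]
      exact hl0.symm
  have key2 : -e / 2 ≤ Phi F d x (-V) := by
    have hneg : HasDerivAt (fun σ : ℝ => l (-σ)) (-e) 0 := by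
      have h1 : HasDerivAt l e (-(0:ℝ)) := by rw [neg_zero]; exact hld
      have h2 := h1.comp (0:ℝ) (hasDerivAt_neg (0:ℝ))
      refine h2.congr_deriv ?_
      ring
    apply half_le_of_tendsto (g := fun σ => F (x + σ • (-V)) (-V)) (l := fun σ => l (-σ))
      (s0 := δ / 2) (by positivity) _ _ _ hneg
    · apply (hB.tendsto_Phi h hx hg (neg_ne_zero.2 hVne)).congr'
      filter_upwards [Ioo_mem_nhdsGT hδ] with s hs
      unfold Dq
      rw [h.toFPlane.d_line hs.1.le hxM (by
        rw [smul_neg, ← neg_smul]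
        exact hδM (-s) (by rw [abs_neg, abs_of_pos hs.1]; exact hs.2))]
      simp
    · apply h.toFPlane.continuousOn_line
      intro t ht
      rw [smul_neg, ← neg_smul]
      exact hδM (-t) (by rw [abs_neg, abs_of_nonneg ht.1]; linarith [ht.2])
    · intro σ hσ
      have hab : |(-σ)| < δ := by rw [abs_neg, abs_of_nonneg hσ.1]; linarith [hσ.2]
      have h1 := hle (-σ) hab
      have hyM := hδM (-σ) hab
      rw [smul_neg, ← neg_smul, (h.fin.norm _ hyM).neg]
      exact h1
    · simp only [zero_smul, add_zero, neg_zero]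
      rw [hN.neg, hl0]
  rw [hB.Phi_neg h hx hg hVne] at key2
  have key : Phi F d x V = e / 2 := by linarith
  rw [key, he]
  have h5 : F x V = c * ‖u‖ ^ 2 / F x u := by
    field_simp
    linarith
  rw [h5]
  field_simp
  ring

end LBall

end Pool.Agent.Lib_1de93e
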