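import Pool.Agent.Lib_1de93e.Lip

/-!
# The Radon constant
-/

namespace Pool.Agent.Lib_1de93e

open Set MeasureTheory Filter Topology

variable {M : Set Pl} {F d : Pl → Pl → ℝ}

/-- The Radon constant of the norm at `x`. -/
noncomputable def rad (F κ : Pl → Pl → ℝ) (x : Pl) : ℝ := F x (ang 0) * F x (cvk κ x (ang 0))

namespace KPlane

variable {κ : Pl → Pl → ℝ} (h : KPlane M F d κ)

include h

theorem kap_smul {x u : Pl} {a : ℝ} (hx : x ∈ M) (hu : u ≠ 0) (ha : a ≠ 0) :
    κ x (a • u) = κ x u := by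
  have hN := h.fin.norm x hx
  have hF : 0 < F x u := hN.pos u hu
  have hau : a • u ≠ 0 := smul_ne_zero ha hu
  have e1 := pf_J (F := F) (κ := κ) (x := x) hau
  have e2 := pf_J (F := F) (κ := κ) (x := x) hu
  rw [map_smul, map_smul, smul_eq_mul] at e1
  rcases lt_or_gt_of_ne ha with h0 | h0
  · have h1 : pf F κ x (a • u) = -pf F κ x u := by
      have h2 : a • u = -((-a) • u) := by rw [neg_smul, neg_neg]
      rw [h2, h.toC1Plane.p_neg hx (smul_ne_zero (by linarith) hu),
        h.toC1Plane.p_smul hx hu (by linarith)]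
    rw [h1, neg_apply, e2, hN.smul, abs_of_neg h0] at e1
    have h3 : a * F x u ≠ 0 := mul_ne_zero ha hF.ne'
    have h4 : (a * F x u) * κ x (a • u) = (a * F x u) * κ x u := by linarith
    exact mul_left_cancel₀ h3 h4
  · rw [h.toC1Plane.p_smul hx hu h0, e2, hN.smul, abs_of_pos h0] at e1
    have h3 : a * F x u ≠ 0 := mul_ne_zero ha hF.ne'
    have h4 : (a * F x u) * κ x (a • u) = (a * F x u) * κ x u := by linarith
    exact mul_left_cancel₀ h3 h4

theorem cvk_smul {x u : Pl} {a : ℝ} (hx : x ∈ M) (hu : u ≠ 0) (ha : a ≠ 0) :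
    cvk κ x (a • u) = a • cvk κ x u := by
  unfold cvk
  rw [h.kap_smul hx hu ha, map_smul, smul_add, smul_comm]

/-- `pf` at the conjugate vector annihilates `u`. -/
theorem pf_cvk {x u : Pl} (hx : x ∈ M) (hu : u ≠ 0) : pf F κ x (cvk κ x u) u = 0 := by
  set V := cvk κ x u with hV
  have hVne : V ≠ 0 := cvk_ne_zero hu
  have h1 := h.toC1Plane.hasDerivAt_line (w := u) hx hVne
  have h2 : IsLocalMin (fun t : ℝ => F x (V + t • u)) 0 := by
    apply Filter.Eventually.of_forall
    intro t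
    simp only [zero_smul, add_zero]
    exact h.orth' x hx u hu t
  exact h2.hasDerivAt_eq_zero h1

theorem cvk_cvk {x u : Pl} (hx : x ∈ M) (hu : u ≠ 0) :
    cvk κ x (cvk κ x u) = (-(‖cvk κ x u‖ ^ 2 / ‖u‖ ^ 2)) • u := by
  set V := cvk κ x u with hV
  have hVne : V ≠ 0 := cvk_ne_zero hu
  have h1 := h.pf_cvk hx hu
  rw [← hV, pf_apply] at h1
  have hF : F x V / ‖V‖ ^ 2 ≠ 0 := by
    have := (h.fin.norm x hx).pos V hVne
    have h2 : 0 < ‖V‖ := norm_pos_iff.2 hVne
    positivity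
  have h2 : det2 u (cvk κ x V) = 0 := (mul_eq_zero.1 h1).resolve_left hF
  obtain ⟨c, hc⟩ := parallel_of_det2 hu h2
  have h3 : det2 V (cvk κ x V) = ‖V‖ ^ 2 := det2_cvk κ x V
  rw [hc, det2_smul_right, det2_comm, hV, det2_cvk, ← hV] at h3
  rw [hc]
  congr 1
  have : 0 < ‖u‖ := norm_pos_iff.2 hu
  field_simp
  linarith

theorem pf_cvk_apply {x u : Pl} (hx : x ∈ M) (hu : u ≠ 0) (w : Pl) :
    pf F κ x (cvk κ x u) w = F x (cvk κ x u) * det2 u w / ‖u‖ ^ 2 := by
  have hVne : cvk κ x u ≠ 0 := cvk_ne_zero hu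
  have h2 : 0 < ‖cvk κ x u‖ := norm_pos_iff.2 hVne
  have h3 : 0 < ‖u‖ := norm_pos_iff.2 hu
  rw [pf_apply, h.cvk_cvk hx hu, det2_smul_right, det2_comm w u]
  field_simp

theorem radon_aux {x u : Pl} (hx : x ∈ M) (hu : u ≠ 0) (w : Pl) :
    F x (cvk κ x u) * |det2 u w| ≤ F x w * ‖u‖ ^ 2 := by
  have h1 := h.toC1Plane.abs_p_le hx (cvk_ne_zero (κ := κ) (x := x) hu) w
  rw [h.pf_cvk_apply hx hu] at h1
  have h3 : 0 < ‖u‖ := norm_pos_iff.2 hu
  have h4 : 0 ≤ F x (cvk κ x u) := (h.fin.norm x hx).nonneg _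
  rw [abs_div, abs_mul, abs_of_nonneg h4, abs_of_pos (by positivity : 0 < ‖u‖ ^ 2),
    div_le_iff₀ (by positivity)] at h1
  exact h1

end KPlane

theorem isLittleO_det2 {e g : ℝ → Pl} {e' : Pl} {t : ℝ} (he : HasDerivAt e e' t)
    (hg : ContinuousAt g t) (h0 : det2 e' (g t) = 0) :
    (fun s => det2 (e s - e t) (g s)) =o[𝓝 t] fun s => s - t := by
  rw [Asymptotics.isLittleO_iff]
  intro c hc
  set B := ‖g t‖ + 1 with hB
  have hBpos : 0 < B := by positivity
  have e1 : ∀ᶠ s in 𝓝 t, ‖g s‖ < B := by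
    apply (hg.norm).eventually_lt continuousAt_const
    rw [hB]; linarith
  have e2 : ∀ᶠ s in 𝓝 t, |det2 e' (g s)| < c / 2 := by
    have h1 : ContinuousAt (fun s => det2 e' (g s)) t := by
      have h2 : ContinuousAt (fun s => detL (g s) e') t := by
        have h3 : ContinuousAt (fun s => detL (g s)) t :=
          ContinuousAt.comp (g := detL) continuous_detL.continuousAt hg
        exact h3.clm_apply continuousAt_const
      simpa using h2
    have h2 := h1.abs
    apply h2.eventually_lt continuousAt_const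
    rw [h0, abs_zero]; positivity
  have e3 := (hasDerivAt_iff_isLittleO.1 he)
  rw [Asymptotics.isLittleO_iff] at e3
  filter_upwards [e1, e2, e3 (c := c / (2 * B)) (by positivity)] with s h1 h2 h3
  have h4 : det2 (e s - e t) (g s) =
      det2 (e s - e t - (s - t) • e') (g s) + (s - t) * det2 e' (g s) := by
    rw [det2_sub_left (e s - e t), det2_smul_left]; ring
  rw [h4, Real.norm_eq_abs, Real.norm_eq_abs]
  calc |det2 (e s - e t - (s - t) • e') (g s) + (s - t) * det2 e' (g s)|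
      ≤ |det2 (e s - e t - (s - t) • e') (g s)| + |(s - t) * det2 e' (g s)| := abs_add_le _ _
    _ ≤ ‖e s - e t - (s - t) • e'‖ * ‖g s‖ + |s - t| * |det2 e' (g s)| := by
        rw [abs_mul]
        gcongr
        exact abs_det2_le _ _
    _ ≤ (c / (2 * B) * |s - t|) * B + |s - t| * (c / 2) := by
        gcongr
        exact h3
    _ = c * |s - t| := by field_simp; ring

namespace KPlane

variable {κ : Pl → Pl → ℝ} (h : KPlane M F d κ)

include h

theorem radon_deriv {x : Pl} (hx : x ∈ M) (θ : ℝ) :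
    HasDerivAt (fun θ => (F x (ang θ) * F x (cvk κ x (ang θ)))⁻¹) 0 θ := by
  have hN := h.fin.norm x hx
  have hf : ∀ θ, 0 < F x (ang θ) := fun θ => hN.pos _ (ang_ne_zero θ)
  have hg : ∀ θ, 0 < F x (cvk κ x (ang θ)) := fun θ => hN.pos _ (cvk_ne_zero (ang_ne_zero θ))
  set e : ℝ → Pl := fun θ => (1 / F x (ang θ)) • ang θ with he
  set g : ℝ → Pl := fun θ => (1 / F x (cvk κ x (ang θ))) • cvk κ x (ang θ) with hgdef
  set S : ℝ → ℝ := fun θ => (F x (ang θ) * F x (cvk κ x (ang θ)))⁻¹ with hS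
  have hSe : ∀ θ, S θ = det2 (e θ) (g θ) := by
    intro θ
    simp only [hS, he, hgdef, det2_smul_left, det2_smul_right, det2_cvk, norm_ang]
    rw [mul_inv]; ring
  have hle : ∀ θ θ', det2 (e θ) (g θ') ≤ S θ := by
    intro θ θ'
    have h1 := h.radon_aux hx (ang_ne_zero θ) (g θ')
    have h2 : F x (g θ') = 1 := by
      simp only [hgdef]
      rw [hN.smul_nonneg (by have := hg θ'; positivity), one_div, inv_mul_cancel₀ (hg θ').ne']
    rw [h2, norm_ang] at h1
    have h3 := le_abs_self (det2 (ang θ) (g θ'))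
    simp only [he, hS]
    rw [det2_smul_left, mul_inv, one_div]
    have h4 : det2 (ang θ) (g θ') ≤ (F x (cvk κ x (ang θ)))⁻¹ := by
      rw [← one_div, le_div_iff₀ (hg θ)]
      nlinarith [hg θ]
    have := inv_pos.2 (hf θ)
    gcongr
  have hde : HasDerivAt e ((1 / F x (ang θ)) • cvk κ x (ang θ)) θ := by
    have hf' := h.hasDerivAt_F_ang hx θ
    have h1 : HasDerivAt (fun θ => 1 / F x (ang θ)) (1 / F x (ang θ) * κ x (ang θ)) θ := by
      refine ((hasDerivAt_const θ (1:ℝ)).div hf' (hf θ).ne').congr_deriv ?_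
      have := (hf θ).ne'
      field_simp
      ring
    refine (h1.smul (hasDerivAt_ang θ)).congr_deriv ?_
    unfold cvk
    rw [smul_add, smul_smul]
  have hcg : ContinuousAt g θ := by
    have h1 : ContinuousAt (fun θ => cvk κ x (ang θ)) θ :=
      ContinuousAt.comp (g := fun q : Pl × Pl => cvk κ q.1 q.2) (f := fun θ => (x, ang θ))
        (h.cvk_continuousAt hx (ang_ne_zero θ))
        (continuousAt_const.prodMk continuous_ang.continuousAt)
    have h2 : ContinuousAt (fun θ => F x (cvk κ x (ang θ))) θ :=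
      ContinuousAt.comp (g := F x) (h.fin.continuous_right hx).continuousAt h1
    exact (continuousAt_const.div h2 (hg θ).ne').smul h1
  have hz : det2 ((1 / F x (ang θ)) • cvk κ x (ang θ)) (g θ) = 0 := by
    simp only [hgdef, det2_smul_left, det2_smul_right, det2_self]
    ring
  have o1 := isLittleO_det2 hde hcg hz
  have o2 := isLittleO_det2 (g := fun _ => g θ) hde continuousAt_const hz
  rw [hasDerivAt_iff_isLittleO]
  have o3 := o1.norm_left.add o2.norm_left
  refine Asymptotics.IsLittleO.of_norm_left (Asymptotics.IsBigO.trans_isLittleO ?_ o3)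
  apply Asymptotics.IsBigO.of_bound 1
  apply Filter.Eventually.of_forall
  intro s
  rw [norm_norm, smul_zero, sub_zero, one_mul, Real.norm_eq_abs, Real.norm_eq_abs, Real.norm_eq_abs,
    Real.norm_eq_abs]
  have up : S s - S θ ≤ det2 (e s - e θ) (g s) := by
    rw [det2_sub_left, ← hSe]
    have := hle θ s
    linarith
  have lo : det2 (e s - e θ) (g θ) ≤ S s - S θ := by
    rw [det2_sub_left, ← hSe]
    have := hle s θ
    linarith
  have a1 := le_abs_self (det2 (e s - e θ) (g s))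
  have a2 := neg_abs_le (det2 (e s - e θ) (g θ))
  have a3 := abs_nonneg (det2 (e s - e θ) (g s))
  have a4 := abs_nonneg (det2 (e s - e θ) (g θ))
  rw [abs_of_nonneg (add_nonneg a3 a4)]
  apply abs_le.2
  constructor <;> linarith

/-- The Radon identity. -/
theorem radon {x u : Pl} (hx : x ∈ M) (hu : u ≠ 0) :
    F x u * F x (cvk κ x u) = rad F κ x * ‖u‖ ^ 2 := by
  have hN := h.fin.norm x hx
  have hconst : ∀ θ, F x (ang θ) * F x (cvk κ x (ang θ)) = rad F κ x := by
    intro θ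
    have h1 := is_const_of_deriv_eq_zero (fun θ => (h.radon_deriv hx θ).differentiableAt)
      (fun θ => (h.radon_deriv hx θ).deriv) θ 0
    exact inv_injective h1
  obtain ⟨θ, hθ⟩ := exists_ang' u
  have hn : 0 < ‖u‖ := norm_pos_iff.2 hu
  have e1 : F x u = ‖u‖ * F x (ang θ) := by
    conv_lhs => rw [hθ]
    rw [hN.smul_nonneg hn.le]
  have e2 : F x (cvk κ x u) = ‖u‖ * F x (cvk κ x (ang θ)) := by
    conv_lhs => rw [hθ]
    rw [h.cvk_smul hx (ang_ne_zero θ) hn.ne', hN.smul_nonneg hn.le]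
  rw [e1, e2, ← hconst θ]
  ring

theorem rad_pos {x : Pl} (hx : x ∈ M) : 0 < rad F κ x := by
  have hN := h.fin.norm x hx
  exact mul_pos (hN.pos _ (ang_ne_zero 0)) (hN.pos _ (cvk_ne_zero (ang_ne_zero 0)))

/-- The Radon inequality. -/
theorem radon_le {x : Pl} (hx : x ∈ M) (u w : Pl) :
    rad F κ x * |det2 u w| ≤ F x u * F x w := by
  have hN := h.fin.norm x hx
  by_cases hu : u = 0
  · rw [hu, hN.zero]
    have : det2 0 w = 0 := by unfold det2; simp
    rw [this]; simp
  have h1 := h.radon_aux hx hu w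
  have h2 := h.radon hx hu
  have hn : 0 < ‖u‖ ^ 2 := by
    have : 0 < ‖u‖ := norm_pos_iff.2 hu
    positivity
  have hF : 0 ≤ F x u := hN.nonneg u
  have h3 : (rad F κ x * |det2 u w|) * ‖u‖ ^ 2 ≤ (F x u * F x w) * ‖u‖ ^ 2 := by
    calc (rad F κ x * |det2 u w|) * ‖u‖ ^ 2 = (rad F κ x * ‖u‖ ^ 2) * |det2 u w| := by ring
      _ = F x u * (F x (cvk κ x u) * |det2 u w|) := by rw [← h2]; ring
      _ ≤ F x u * (F x w * ‖u‖ ^ 2) := by gcongr
      _ = (F x u * F x w) * ‖u‖ ^ 2 := by ring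
  exact le_of_mul_le_mul_right h3 hn

end KPlane

end Pool.Agent.Lib_1de93e
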