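import Pool.Agent.Lib_1de93e.Grad

/-!
# PART S: from constancy along lines to the first-order structure equation
-/

namespace Pool.Agent.Lib_1de93e

open Set MeasureTheory Filter Topology

/-- A fiberwise `C¹` function which is constant along the lines. -/
structure LineConst (M : Set Pl) (E : Pl → Pl → ℝ) (e : Pl → Pl → Pl →L[ℝ] ℝ) : Prop where
  isOpen : IsOpen M
  diff : ∀ x ∈ M, ∀ u : Pl, u ≠ 0 → HasFDerivAt (E x) (e x u) u
  cont : ∀ x ∈ M, ∀ u : Pl, u ≠ 0 → ContinuousAt (fun q : Pl × Pl => e q.1 q.2) (x, u)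
  const : ∀ x ∈ M, ∀ u : Pl, u ≠ 0 → ∀ s : ℝ, x + s • u ∈ M → E (x + s • u) u = E x u

/-- The derivative in the base point. -/
noncomputable def Ex (E : Pl → Pl → ℝ) (x u : Pl) : Pl →L[ℝ] ℝ := fderiv ℝ (fun y => E y u) x

namespace LineConst

variable {M : Set Pl} {E : Pl → Pl → ℝ} {e : Pl → Pl → Pl →L[ℝ] ℝ} (h : LineConst M E e)

include h

theorem fiber {x₁ u₁ : Pl} (hx : x₁ ∈ M) (hu : u₁ ≠ 0) {ε : ℝ} (hε : 0 < ε) :
    ∃ δ > 0, ∀ x a b, dist x x₁ < δ → dist a u₁ < δ → dist b u₁ < δ →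
      |E x a - E x b - e x₁ u₁ (a - b)| ≤ ε * ‖a - b‖ := by
  have hev : ∀ᶠ q : Pl × Pl in 𝓝 (x₁, u₁), q.1 ∈ M ∧ q.2 ≠ 0 ∧ ‖e q.1 q.2 - e x₁ u₁‖ < ε := by
    have c1 : ContinuousAt (fun q : Pl × Pl => q.1) (x₁, u₁) := continuousAt_fst
    have c2 : ContinuousAt (fun q : Pl × Pl => q.2) (x₁, u₁) := continuousAt_snd
    have c3 : ContinuousAt (fun q : Pl × Pl => ‖e q.1 q.2 - e x₁ u₁‖) (x₁, u₁) :=
      ((h.cont x₁ hx u₁ hu).sub continuousAt_const).norm
    have c4 : ∀ᶠ q : Pl × Pl in 𝓝 (x₁, u₁), ‖e q.1 q.2 - e x₁ u₁‖ < ε := by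
      apply c3.eventually_lt continuousAt_const
      simpa using hε
    filter_upwards [c1.eventually (h.isOpen.mem_nhds hx), c2.eventually_ne hu, c4] with q h1 h2 h3
    exact ⟨h1, h2, h3⟩
  obtain ⟨δ, hδ, hball⟩ := Metric.eventually_nhds_iff_ball.1 hev
  refine ⟨δ, hδ, fun x a b hx' ha hb => ?_⟩
  have hmem : ∀ v ∈ Metric.ball u₁ δ, (x, v) ∈ Metric.ball ((x₁, u₁) : Pl × Pl) δ := by
    intro v hv
    rw [Metric.mem_ball, Prod.dist_eq]
    exact max_lt hx' hv
  have := (convex_ball u₁ δ).norm_image_sub_le_of_norm_hasFDerivWithin_le' (f := E x)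
    (f' := fun v => e x v) (φ := e x₁ u₁) (C := ε) (x := b) (y := a)
    (fun v hv => (h.diff x (hball _ (hmem v hv)).1 v (hball _ (hmem v hv)).2.1).hasFDerivWithinAt)
    (fun v hv => (hball _ (hmem v hv)).2.2.le) hb ha
  rwa [Real.norm_eq_abs] at this

/-- Joint differentiability, with an explicit formula for the derivative. -/
theorem hasFDerivAt_aux {x₀ u₀ : Pl} {s : ℝ} (hx : x₀ ∈ M) (hu : u₀ ≠ 0) (hs : s ≠ 0)
    (hxs : x₀ + s • u₀ ∈ M) :
    HasFDerivAt (fun q : Pl × Pl => E q.1 q.2)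
      ((s⁻¹ • (e x₀ u₀ - e (x₀ + s • u₀) u₀)).coprod (e x₀ u₀)) (x₀, u₀) := by
  rw [hasFDerivAt_iff_isLittleO_nhds_zero, Asymptotics.isLittleO_iff]
  intro c hc
  obtain ⟨K, hK⟩ : ∃ K, K = 1 + 2 * |s⁻¹| := ⟨_, rfl⟩
  have hKpos : 0 < K := by rw [hK]; positivity
  have hε : 0 < c / K := by positivity
  obtain ⟨δ₁, hδ₁, H₁⟩ := h.fiber hxs hu hε
  obtain ⟨δ₂, hδ₂, H₂⟩ := h.fiber hx hu hε
  -- eventual conditions
  have k1 : ∀ᶠ q : Pl × Pl in 𝓝 0, x₀ + q.1 ∈ M := by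
    have : ContinuousAt (fun q : Pl × Pl => x₀ + q.1) 0 := by fun_prop
    exact this.eventually (h.isOpen.mem_nhds (by simpa using hx))
  have k2 : ∀ᶠ q : Pl × Pl in 𝓝 0, x₀ + q.1 + s • (u₀ + q.2) ∈ M := by
    have : ContinuousAt (fun q : Pl × Pl => x₀ + q.1 + s • (u₀ + q.2)) 0 := by fun_prop
    exact this.eventually (h.isOpen.mem_nhds (by simpa using hxs))
  have k3 : ∀ᶠ q : Pl × Pl in 𝓝 0, dist (x₀ + q.1 + s • (u₀ + q.2)) (x₀ + s • u₀) < δ₁ := by
    have : ContinuousAt (fun q : Pl × Pl => dist (x₀ + q.1 + s • (u₀ + q.2)) (x₀ + s • u₀)) 0 := by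
      fun_prop
    exact this.eventually_lt continuousAt_const (by simpa using hδ₁)
  have k4 : ∀ᶠ q : Pl × Pl in 𝓝 0, dist (u₀ + q.2) u₀ < δ₁ := by
    have : ContinuousAt (fun q : Pl × Pl => dist (u₀ + q.2) u₀) 0 := by fun_prop
    exact this.eventually_lt continuousAt_const (by simpa using hδ₁)
  have k5 : ∀ᶠ q : Pl × Pl in 𝓝 0, dist (u₀ + q.2 + s⁻¹ • q.1) u₀ < δ₁ := by
    have : ContinuousAt (fun q : Pl × Pl => dist (u₀ + q.2 + s⁻¹ • q.1) u₀) 0 := by fun_prop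
    exact this.eventually_lt continuousAt_const (by simpa using hδ₁)
  have k6 : ∀ᶠ q : Pl × Pl in 𝓝 0, dist (u₀ + q.2 + s⁻¹ • q.1) u₀ < δ₂ := by
    have : ContinuousAt (fun q : Pl × Pl => dist (u₀ + q.2 + s⁻¹ • q.1) u₀) 0 := by fun_prop
    exact this.eventually_lt continuousAt_const (by simpa using hδ₂)
  have k7 : ∀ᶠ q : Pl × Pl in 𝓝 0, u₀ + q.2 ≠ 0 := by
    have : ContinuousAt (fun q : Pl × Pl => u₀ + q.2) 0 := by fun_prop
    exact this.eventually_ne (by simpa using hu)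
  have k8 : ∀ᶠ q : Pl × Pl in 𝓝 0, u₀ + q.2 + s⁻¹ • q.1 ≠ 0 := by
    have : ContinuousAt (fun q : Pl × Pl => u₀ + q.2 + s⁻¹ • q.1) 0 := by fun_prop
    exact this.eventually_ne (by simpa using hu)
  filter_upwards [k1, k2, k3, k4, k5, k6, k7, k8] with q k1 k2 k3 k4 k5 k6 k7 k8
  obtain ⟨ξ, ζ⟩ := q
  simp only at k1 k2 k3 k4 k5 k6 k7 k8
  change ‖E (x₀ + ξ) (u₀ + ζ) - E x₀ u₀ - ((s⁻¹ • (e x₀ u₀ - e (x₀ + s • u₀) u₀)).coprod
    (e x₀ u₀)) (ξ, ζ)‖ ≤ c * ‖(ξ, ζ)‖
  have ey : x₀ + ξ + s • (u₀ + ζ) = x₀ + s • (u₀ + ζ + s⁻¹ • ξ) := by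
    rw [smul_add s (u₀ + ζ) (s⁻¹ • ξ), smul_smul, mul_inv_cancel₀ hs, one_smul]; abel
  have c1 := h.const (x₀ + ξ) k1 (u₀ + ζ) k7 s k2
  have c2 := h.const x₀ hx (u₀ + ζ + s⁻¹ • ξ) k8 s (by rw [← ey]; exact k2)
  rw [← ey] at c2
  have i1 := H₁ (x₀ + ξ + s • (u₀ + ζ)) (u₀ + ζ) (u₀ + ζ + s⁻¹ • ξ) k3 k4 k5
  have i2 := H₂ x₀ (u₀ + ζ + s⁻¹ • ξ) u₀ (by rw [dist_self]; exact hδ₂) k6
    (by rw [dist_self]; exact hδ₂)
  have s1 : u₀ + ζ - (u₀ + ζ + s⁻¹ • ξ) = -(s⁻¹ • ξ) := by abel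
  have s2 : u₀ + ζ + s⁻¹ • ξ - u₀ = ζ + s⁻¹ • ξ := by abel
  rw [s1] at i1
  rw [s2] at i2
  have hn1 : ‖-(s⁻¹ • ξ)‖ ≤ |s⁻¹| * ‖(ξ, ζ)‖ := by
    rw [norm_neg, norm_smul, Real.norm_eq_abs]
    have := norm_fst_le (ξ, ζ)
    simp only at this
    gcongr
  have hn2 : ‖ζ + s⁻¹ • ξ‖ ≤ (1 + |s⁻¹|) * ‖(ξ, ζ)‖ := by
    have t1 := norm_snd_le (ξ, ζ)
    simp only at t1
    have t2 := norm_add_le ζ (s⁻¹ • ξ)
    rw [norm_neg] at hn1
    linarith
  have eL : ((s⁻¹ • (e x₀ u₀ - e (x₀ + s • u₀) u₀)).coprod (e x₀ u₀)) (ξ, ζ) =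
      e (x₀ + s • u₀) u₀ (-(s⁻¹ • ξ)) + e x₀ u₀ (ζ + s⁻¹ • ξ) := by
    simp only [ContinuousLinearMap.coprod_apply, smul_apply, sub_apply, smul_eq_mul, map_neg,
      map_smul, map_add]
    ring
  rw [eL, Real.norm_eq_abs]
  have eq1 : E (x₀ + ξ) (u₀ + ζ) - E x₀ u₀ - (e (x₀ + s • u₀) u₀ (-(s⁻¹ • ξ)) +
      e x₀ u₀ (ζ + s⁻¹ • ξ)) =
      (E (x₀ + ξ + s • (u₀ + ζ)) (u₀ + ζ) - E (x₀ + ξ + s • (u₀ + ζ)) (u₀ + ζ + s⁻¹ • ξ) -
        e (x₀ + s • u₀) u₀ (-(s⁻¹ • ξ))) +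
      (E x₀ (u₀ + ζ + s⁻¹ • ξ) - E x₀ u₀ - e x₀ u₀ (ζ + s⁻¹ • ξ)) := by
    rw [c1, c2]; ring
  rw [eq1]
  refine (abs_add_le _ _).trans ?_
  have f1 : c / K * ‖-(s⁻¹ • ξ)‖ ≤ c / K * (|s⁻¹| * ‖(ξ, ζ)‖) := by gcongr
  have f2 : c / K * ‖ζ + s⁻¹ • ξ‖ ≤ c / K * ((1 + |s⁻¹|) * ‖(ξ, ζ)‖) := by gcongr
  have f3 : c / K * (|s⁻¹| * ‖(ξ, ζ)‖) + c / K * ((1 + |s⁻¹|) * ‖(ξ, ζ)‖) = c * ‖(ξ, ζ)‖ := by
    have : |s⁻¹| + (1 + |s⁻¹|) = K := by rw [hK]; ring
    rw [← mul_add, ← add_mul, this, ← mul_assoc]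
    congr 1
    field_simp
  linarith

theorem exists_s {x u : Pl} (hx : x ∈ M) : ∃ s : ℝ, 0 < s ∧ x + s • u ∈ M := by
  have h1 : ContinuousAt (fun s : ℝ => x + s • u) 0 := by fun_prop
  have h2 : ∀ᶠ s : ℝ in 𝓝 0, x + s • u ∈ M :=
    h1.eventually (h.isOpen.mem_nhds (by simpa using hx))
  obtain ⟨δ, hδ, hball⟩ := Metric.eventually_nhds_iff_ball.1 h2
  refine ⟨δ / 2, by positivity, hball _ ?_⟩
  rw [Metric.mem_ball, Real.dist_eq, sub_zero, abs_of_pos (by positivity)]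
  linarith

theorem Ex_eq {x u : Pl} {s : ℝ} (hx : x ∈ M) (hu : u ≠ 0) (hs : s ≠ 0) (hxs : x + s • u ∈ M) :
    Ex E x u = s⁻¹ • (e x u - e (x + s • u) u) := by
  have h1 := h.hasFDerivAt_aux hx hu hs hxs
  have h2 : HasFDerivAt (fun y : Pl => (y, u)) (ContinuousLinearMap.inl ℝ Pl Pl) x :=
    hasFDerivAt_prodMk_left x u
  have h3 := (h1.comp x h2).fderiv
  unfold Ex
  have e1 : (fun y => E y u) = (fun q : Pl × Pl => E q.1 q.2) ∘ fun y => (y, u) := rfl
  rw [e1, h3]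
  ext w
  simp

theorem hasFDerivAt {x u : Pl} (hx : x ∈ M) (hu : u ≠ 0) :
    HasFDerivAt (fun q : Pl × Pl => E q.1 q.2) ((Ex E x u).coprod (e x u)) (x, u) := by
  obtain ⟨s, hs, hxs⟩ := h.exists_s (u := u) hx
  rw [h.Ex_eq hx hu hs.ne' hxs]
  exact h.hasFDerivAt_aux hx hu hs.ne' hxs

theorem e_shift {x u : Pl} {s : ℝ} (hx : x ∈ M) (hu : u ≠ 0) (hxs : x + s • u ∈ M) :
    e (x + s • u) u = e x u - s • Ex E x u := by
  by_cases hs : s = 0
  · rw [hs]; simp
  · rw [h.Ex_eq hx hu hs hxs, smul_smul, mul_inv_cancel₀ hs, one_smul]; abel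

theorem Ex_cont {x u : Pl} (hx : x ∈ M) (hu : u ≠ 0) :
    ContinuousAt (fun q : Pl × Pl => Ex E q.1 q.2) (x, u) := by
  obtain ⟨s, hs, hxs⟩ := h.exists_s (u := u) hx
  have c1 : ContinuousAt (fun q : Pl × Pl => q.1) (x, u) := continuousAt_fst
  have c2 : ContinuousAt (fun q : Pl × Pl => q.2) (x, u) := continuousAt_snd
  have c3 : ContinuousAt (fun q : Pl × Pl => q.1 + s • q.2) (x, u) := by fun_prop
  have hev : (fun q : Pl × Pl => Ex E q.1 q.2) =ᶠ[𝓝 (x, u)]
      fun q => s⁻¹ • (e q.1 q.2 - e (q.1 + s • q.2) q.2) := by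
    filter_upwards [c1.eventually (h.isOpen.mem_nhds hx), c2.eventually_ne hu,
      c3.eventually (h.isOpen.mem_nhds hxs)] with q h1 h2 h3
    exact h.Ex_eq h1 h2 hs.ne' h3
  rw [continuousAt_congr hev]
  have c4 : ContinuousAt (fun q : Pl × Pl => e (q.1 + s • q.2) q.2) (x, u) :=
    ContinuousAt.comp (g := fun q : Pl × Pl => e q.1 q.2)
      (f := fun q : Pl × Pl => (q.1 + s • q.2, q.2)) (h.cont _ hxs _ hu) (c3.prodMk c2)
  have c5 : ContinuousAt (fun q : Pl × Pl => e q.1 q.2 - e (q.1 + s • q.2) q.2) (x, u) :=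
    (h.cont x hx u hu).sub c4
  exact ContinuousAt.const_smul c5 (s⁻¹)

end LineConst

/-- The vector representing a functional with respect to the determinant. -/
noncomputable def sharp (l : Pl →L[ℝ] ℝ) : Pl :=
  (-(l !₂[(0:ℝ), 1])) • !₂[(1:ℝ), 0] + (l !₂[(1:ℝ), 0]) • !₂[(0:ℝ), 1]

theorem pl_decomp (w : Pl) : w = w 0 • !₂[(1:ℝ), 0] + w 1 • !₂[(0:ℝ), 1] := by
  apply pl_ext <;> simp

theorem det2_sharp (l : Pl →L[ℝ] ℝ) (w : Pl) : det2 w (sharp l) = l w := by
  conv_rhs => rw [pl_decomp w]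
  rw [map_add, map_smul, map_smul]
  simp [det2, sharp]

theorem sharp_unique {l : Pl →L[ℝ] ℝ} {v : Pl} (hv : ∀ w, det2 w v = l w) : sharp l = v := by
  have h1 : ∀ w, det2 w (sharp l) = det2 w v := fun w => by rw [hv, det2_sharp]
  apply pl_ext
  · have := h1 !₂[(0:ℝ), 1]
    simp [det2] at this
    exact this
  · have := h1 !₂[(1:ℝ), 0]
    simp [det2] at this
    exact this

theorem sharp_sub_smul (l m : Pl →L[ℝ] ℝ) (s : ℝ) : sharp (l - s • m) = sharp l - s • sharp m := by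
  apply sharp_unique
  intro w
  rw [det2_sub_right, det2_smul_right, det2_sharp, det2_sharp]
  simp

theorem continuous_sharp : Continuous sharp := by
  unfold sharp
  fun_prop

/-- Data for the Radon constant. -/
structure RadLam (M : Set Pl) (E : Pl → Pl → ℝ) (e : Pl → Pl → Pl →L[ℝ] ℝ) (lam : Pl → ℝ) : Prop
    extends LineConst M E e where
  sharp_ne : ∀ x ∈ M, ∀ u : Pl, u ≠ 0 → sharp (e x u) ≠ 0
  lam_eq : ∀ x ∈ M, ∀ u : Pl, u ≠ 0 → lam x = E x (sharp (e x u))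

/-- The directional derivative of `lam`. -/
noncomputable def Lam (E : Pl → Pl → ℝ) (e : Pl → Pl → Pl →L[ℝ] ℝ) (x u : Pl) : ℝ :=
  Ex E x (sharp (e x u)) u - e x (sharp (e x u)) (sharp (Ex E x u))

/-- The derivative of `lam`. -/
noncomputable def LL (E : Pl → Pl → ℝ) (e : Pl → Pl → Pl →L[ℝ] ℝ) (x : Pl) : Pl →L[ℝ] ℝ :=
  Lam E e x !₂[(1:ℝ), 0] • EuclideanSpace.proj (𝕜 := ℝ) (0 : Fin 2) +
    Lam E e x !₂[(0:ℝ), 1] • EuclideanSpace.proj (𝕜 := ℝ) (1 : Fin 2)

namespace RadLam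

variable {M : Set Pl} {E : Pl → Pl → ℝ} {e : Pl → Pl → Pl →L[ℝ] ℝ} {lam : Pl → ℝ}
  (h : RadLam M E e lam)

include h

theorem hasDerivAt_zero {x u : Pl} (hx : x ∈ M) (hu : u ≠ 0) :
    HasDerivAt (fun s : ℝ => lam (x + s • u)) (Lam E e x u) 0 := by
  have hL := h.toLineConst
  have ha := h.sharp_ne x hx u hu
  have h1 : HasDerivAt (fun s : ℝ => x + s • u) u 0 := by
    have := ((hasDerivAt_id (0:ℝ)).smul_const u).const_add x
    simpa using this
  have h2 : HasDerivAt (fun s : ℝ => sharp (e x u) - s • sharp (Ex E x u))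
      (-sharp (Ex E x u)) 0 := by
    have := ((hasDerivAt_id (0:ℝ)).smul_const (sharp (Ex E x u))).const_sub (sharp (e x u))
    simpa using this
  have h3 : HasFDerivAt (fun q : Pl × Pl => E q.1 q.2)
      ((Ex E x (sharp (e x u))).coprod (e x (sharp (e x u))))
      (x + (0:ℝ) • u, sharp (e x u) - (0:ℝ) • sharp (Ex E x u)) := by
    rw [zero_smul, add_zero, zero_smul, sub_zero]
    exact hL.hasFDerivAt hx ha
  have h4 := h3.comp_hasDerivAt (0:ℝ) (h1.prodMk h2)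
  have e1 : ((Ex E x (sharp (e x u))).coprod (e x (sharp (e x u)))) (u, -sharp (Ex E x u)) =
      Lam E e x u := by
    simp only [ContinuousLinearMap.coprod_apply, map_neg]
    unfold Lam
    ring
  rw [e1] at h4
  apply h4.congr_of_eventuallyEq
  have h5 : ∀ᶠ s : ℝ in 𝓝 0, x + s • u ∈ M :=
    h1.continuousAt.eventually (h.isOpen.mem_nhds (by simpa using hx))
  filter_upwards [h5] with s hs
  change lam (x + s • u) = E (x + s • u) (sharp (e x u) - s • sharp (Ex E x u))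
  rw [h.lam_eq _ hs u hu, hL.e_shift hx hu hs, sharp_sub_smul]

theorem hasDerivAt_line {x u : Pl} {t : ℝ} (hx : x + t • u ∈ M) (hu : u ≠ 0) :
    HasDerivAt (fun s : ℝ => lam (x + s • u)) (Lam E e (x + t • u) u) t := by
  have h1 := h.hasDerivAt_zero hx hu
  have h2 : HasDerivAt (fun s : ℝ => s - t) 1 t := (hasDerivAt_id t).sub_const t
  have h3 : HasDerivAt (fun s : ℝ => lam (x + t • u + s • u)) (Lam E e (x + t • u) u) (t - t) := by
    rw [sub_self]; exact h1
  have h4 := HasDerivAt.scomp (h := fun s : ℝ => s - t) t h3 h2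
  rw [one_smul] at h4
  have e1 : ((fun s : ℝ => lam (x + t • u + s • u)) ∘ fun s => s - t) =
      fun s : ℝ => lam (x + s • u) := by
    funext s
    simp only [Function.comp]
    congr 1
    rw [sub_smul]; abel
  rw [e1] at h4
  exact h4

theorem Lam_cont {x u : Pl} (hx : x ∈ M) (hu : u ≠ 0) : ContinuousAt (fun y => Lam E e y u) x := by
  have hL := h.toLineConst
  have ha := h.sharp_ne x hx u hu
  have c0 : ContinuousAt (fun y : Pl => (y, u)) x := by fun_prop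
  have c1 : ContinuousAt (fun y : Pl => e y u) x :=
    ContinuousAt.comp (g := fun q : Pl × Pl => e q.1 q.2) (f := fun y : Pl => (y, u))
      (hL.cont x hx u hu) c0
  have c2 : ContinuousAt (fun y : Pl => sharp (e y u)) x :=
    ContinuousAt.comp (g := sharp) (f := fun y : Pl => e y u) continuous_sharp.continuousAt c1
  have c3 : ContinuousAt (fun y : Pl => Ex E y u) x :=
    ContinuousAt.comp (g := fun q : Pl × Pl => Ex E q.1 q.2) (f := fun y : Pl => (y, u))
      (hL.Ex_cont hx hu) c0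
  have c4 : ContinuousAt (fun y : Pl => Ex E y (sharp (e y u))) x :=
    ContinuousAt.comp (g := fun q : Pl × Pl => Ex E q.1 q.2)
      (f := fun y : Pl => (y, sharp (e y u))) (hL.Ex_cont hx ha) (continuousAt_id.prodMk c2)
  have c5 : ContinuousAt (fun y : Pl => e y (sharp (e y u))) x :=
    ContinuousAt.comp (g := fun q : Pl × Pl => e q.1 q.2)
      (f := fun y : Pl => (y, sharp (e y u))) (hL.cont x hx _ ha) (continuousAt_id.prodMk c2)
  have c6 : ContinuousAt (fun y : Pl => sharp (Ex E y u)) x :=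
    ContinuousAt.comp (g := sharp) (f := fun y : Pl => Ex E y u) continuous_sharp.continuousAt c3
  unfold Lam
  exact (c4.clm_apply continuousAt_const).sub (c5.clm_apply c6)

theorem LL_cont : ContinuousOn (LL E e) M := by
  intro x hx
  apply ContinuousAt.continuousWithinAt
  have hb0 : (!₂[(1:ℝ), 0] : Pl) ≠ 0 := by
    intro h0
    have := congrArg (fun v : Pl => v 0) h0
    simp at this
  have hb1 : (!₂[(0:ℝ), 1] : Pl) ≠ 0 := by
    intro h0
    have := congrArg (fun v : Pl => v 1) h0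
    simp at this
  exact ((h.Lam_cont hx hb0).smul continuousAt_const).add
    ((h.Lam_cont hx hb1).smul continuousAt_const)

theorem hasFDerivAt_lam {x : Pl} (hx : x ∈ M) : HasFDerivAt lam (LL E e x) x := by
  have hb0 : (!₂[(1:ℝ), 0] : Pl) ≠ 0 := by
    intro h0
    have := congrArg (fun v : Pl => v 0) h0
    simp at this
  have hb1 : (!₂[(0:ℝ), 1] : Pl) ≠ 0 := by
    intro h0
    have := congrArg (fun v : Pl => v 1) h0
    simp at this
  obtain ⟨b0, hb0d⟩ : ∃ b, b = (!₂[(1:ℝ), 0] : Pl) := ⟨_, rfl⟩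
  obtain ⟨b1, hb1d⟩ : ∃ b, b = (!₂[(0:ℝ), 1] : Pl) := ⟨_, rfl⟩
  rw [← hb0d] at hb0
  rw [← hb1d] at hb1
  have hnear : ∀ᶠ v : ℝ × ℝ in 𝓝 (0, 0), x + v.1 • b0 + v.2 • b1 ∈ M := by
    have : ContinuousAt (fun v : ℝ × ℝ => x + v.1 • b0 + v.2 • b1) (0, 0) := by fun_prop
    exact this.eventually (h.isOpen.mem_nhds (by simpa using hx))
  have key := hasStrictFDerivAt_uncurry_coprod (𝕜 := ℝ) (u := ((0:ℝ), (0:ℝ)))
    (f := fun s t => lam (x + s • b0 + t • b1))
    (f₁ := fun s t => (ContinuousLinearMap.toSpanSingleton ℝ (Lam E e (x + s • b0 + t • b1) b0)))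
    (f₂ := fun s t => (ContinuousLinearMap.toSpanSingleton ℝ (Lam E e (x + s • b0 + t • b1) b1)))
    ?_ ?_ ?_ ?_
  · have h1 := key.hasFDerivAt
    have h2 : HasFDerivAt (fun y : Pl => ((y - x) 0, (y - x) 1))
        ((EuclideanSpace.proj (𝕜 := ℝ) (0 : Fin 2) : Pl →L[ℝ] ℝ).prod
          (EuclideanSpace.proj (𝕜 := ℝ) (1 : Fin 2))) x := by
      have h3 : HasFDerivAt (fun y : Pl => y - x) (ContinuousLinearMap.id ℝ Pl) x :=
        (hasFDerivAt_id x).sub_const x
      have h4 := ((EuclideanSpace.proj (𝕜 := ℝ) (0 : Fin 2) : Pl →L[ℝ] ℝ).prod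
          (EuclideanSpace.proj (𝕜 := ℝ) (1 : Fin 2) : Pl →L[ℝ] ℝ)).hasFDerivAt (x := x - x)
      exact HasFDerivAt.comp (f := fun y : Pl => y - x) x h4 h3
    have h5 : HasFDerivAt (Function.uncurry fun s t => lam (x + s • b0 + t • b1))
        ((ContinuousLinearMap.toSpanSingleton ℝ (Lam E e (x + (0:ℝ) • b0 + (0:ℝ) • b1) b0)).coprod
        (ContinuousLinearMap.toSpanSingleton ℝ (Lam E e (x + (0:ℝ) • b0 + (0:ℝ) • b1) b1)))
        ((x - x) 0, (x - x) 1) := by
      have e0 : ((x - x) 0, (x - x) 1) = ((0:ℝ), (0:ℝ)) := by simp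
      rw [e0]
      exact h1
    have h6 := HasFDerivAt.comp (f := fun y : Pl => ((y - x) 0, (y - x) 1)) x h5 h2
    have h7 : ((Function.uncurry fun s t : ℝ => lam (x + s • b0 + t • b1)) ∘
        fun y : Pl => ((y - x) 0, (y - x) 1)) = lam := by
      funext y
      simp only [Function.comp, Function.uncurry]
      congr 1
      rw [add_assoc, hb0d, hb1d, ← pl_decomp (y - x)]
      abel
    rw [h7] at h6
    refine h6.congr_fderiv ?_
    ext w
    simp only [LL, zero_smul, add_zero, ← hb0d, ← hb1d]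
    simp [mul_comm]
  · filter_upwards [hnear] with v hv
    have e1 : (fun s : ℝ => lam (x + s • b0 + v.2 • b1)) =
        fun s : ℝ => lam (x + v.2 • b1 + s • b0) := by
      funext s; congr 1; abel
    have e2 : x + v.1 • b0 + v.2 • b1 = x + v.2 • b1 + v.1 • b0 := by abel
    have h1 := h.hasDerivAt_line (x := x + v.2 • b1) (t := v.1) (by rw [← e2]; exact hv) hb0
    rw [← e1, ← e2] at h1
    exact h1.hasFDerivAt
  · filter_upwards [hnear] with v hv
    exact (h.hasDerivAt_line (x := x + v.1 • b0) (t := v.2) hv hb1).hasFDerivAt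
  · have c1 : ContinuousAt (fun v : ℝ × ℝ => x + v.1 • b0 + v.2 • b1) (0, 0) := by fun_prop
    have c2 : ContinuousAt (fun v : ℝ × ℝ => Lam E e (x + v.1 • b0 + v.2 • b1) b0) (0, 0) :=
      ContinuousAt.comp (g := fun y => Lam E e y b0)
        (f := fun v : ℝ × ℝ => x + v.1 • b0 + v.2 • b1) (h.Lam_cont (by simpa using hx) hb0) c1
    exact ContinuousAt.comp (g := fun r : ℝ => ContinuousLinearMap.toSpanSingleton ℝ r)
      (f := fun v : ℝ × ℝ => Lam E e (x + v.1 • b0 + v.2 • b1) b0)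
      (by
        have : Continuous (fun r : ℝ => ContinuousLinearMap.toSpanSingleton ℝ r) :=
          (ContinuousLinearMap.toSpanSingletonCLE (𝕜 := ℝ) (E := ℝ)).continuous
        exact this.continuousAt) c2
  · have c1 : ContinuousAt (fun v : ℝ × ℝ => x + v.1 • b0 + v.2 • b1) (0, 0) := by fun_prop
    have c2 : ContinuousAt (fun v : ℝ × ℝ => Lam E e (x + v.1 • b0 + v.2 • b1) b1) (0, 0) :=
      ContinuousAt.comp (g := fun y => Lam E e y b1)
        (f := fun v : ℝ × ℝ => x + v.1 • b0 + v.2 • b1) (h.Lam_cont (by simpa using hx) hb1) c1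
    exact ContinuousAt.comp (g := fun r : ℝ => ContinuousLinearMap.toSpanSingleton ℝ r)
      (f := fun v : ℝ × ℝ => Lam E e (x + v.1 • b0 + v.2 • b1) b1)
      (by
        have : Continuous (fun r : ℝ => ContinuousLinearMap.toSpanSingleton ℝ r) :=
          (ContinuousLinearMap.toSpanSingletonCLE (𝕜 := ℝ) (E := ℝ)).continuous
        exact this.continuousAt) c2

end RadLam

/-- The Hamel equation for `C¹` data: mixed second derivatives of the distance agree. -/
theorem C1Plane.schwarz {M : Set Pl} {F d : Pl → Pl → ℝ} {p : Pl → Pl → Pl →L[ℝ] ℝ}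
    (h : C1Plane M F d p) {u w : Pl} (hu : u ≠ 0) {A B : Pl → ℝ}
    (hA : ∀ y ∈ M, HasDerivAt (fun t : ℝ => F (y + t • w) u) (A y) 0)
    (hB : ∀ y ∈ M, HasDerivAt (fun s : ℝ => p (y + s • u) u w) (B y) 0)
    {x : Pl} (hx : x ∈ M) (cA : ContinuousAt A x) (cB : ContinuousAt B x) : A x = B x := by
  by_contra hne
  have hev : ∀ᶠ q : Pl × Pl in 𝓝 (x, x), A q.1 - B q.2 ≠ 0 := by
    have c1 : ContinuousAt (fun q : Pl × Pl => A q.1 - B q.2) (x, x) :=
      (ContinuousAt.comp (g := A) (f := fun q : Pl × Pl => q.1) cA continuousAt_fst).sub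
        (ContinuousAt.comp (g := B) (f := fun q : Pl × Pl => q.2) cB continuousAt_snd)
    exact c1.eventually_ne (sub_ne_zero.2 hne)
  obtain ⟨δ₁, hδ₁, hball₁⟩ := Metric.eventually_nhds_iff_ball.1 hev
  obtain ⟨δ₂, hδ₂, hball₂⟩ := Metric.isOpen_iff.1 h.toFPlane.isOpen x hx
  obtain ⟨δ, hδd⟩ : ∃ δ, δ = min δ₁ δ₂ := ⟨_, rfl⟩
  have hδ : 0 < δ := by rw [hδd]; exact lt_min hδ₁ hδ₂
  have hδ1 : δ ≤ δ₁ := by rw [hδd]; exact min_le_left _ _
  have hδ2 : δ ≤ δ₂ := by rw [hδd]; exact min_le_right _ _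
  obtain ⟨K, hK⟩ : ∃ K, K = ‖u‖ + ‖w‖ + 1 := ⟨_, rfl⟩
  have hKp : 0 < K := by rw [hK]; positivity
  obtain ⟨η, hηd⟩ : ∃ η, η = δ / (2 * K) := ⟨_, rfl⟩
  have hη : 0 < η := by rw [hηd]; positivity
  have hηK : η * K < δ := by
    rw [hηd]
    have : δ / (2 * K) * K = δ / 2 := by field_simp
    rw [this]; linarith
  have hnear : ∀ s t : ℝ, s ∈ Icc 0 η → t ∈ Icc 0 η → x + s • u + t • w ∈ Metric.ball x δ := by
    intro s t hs ht
    rw [Metric.mem_ball, dist_eq_norm]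
    have e1 : x + s • u + t • w - x = s • u + t • w := by abel
    rw [e1]
    refine (norm_add_le _ _).trans_lt ?_
    rw [norm_smul, norm_smul, Real.norm_eq_abs, Real.norm_eq_abs, abs_of_nonneg hs.1,
      abs_of_nonneg ht.1]
    have g1 : s * ‖u‖ ≤ η * ‖u‖ := mul_le_mul_of_nonneg_right hs.2 (norm_nonneg _)
    have g2 : t * ‖w‖ ≤ η * ‖w‖ := mul_le_mul_of_nonneg_right ht.2 (norm_nonneg _)
    have g3 : η * K = η * ‖u‖ + η * ‖w‖ + η := by rw [hK]; ring
    linarith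
  have hM : ∀ s t : ℝ, s ∈ Icc 0 η → t ∈ Icc 0 η → x + s • u + t • w ∈ M := fun s t hs ht =>
    hball₂ (Metric.ball_subset_ball hδ2 (hnear s t hs ht))
  have h0 : (0:ℝ) ∈ Icc 0 η := left_mem_Icc.2 hη.le
  have h1 : η ∈ Icc (0:ℝ) η := right_mem_Icc.2 hη.le
  -- shifted versions
  have hA' : ∀ (y : Pl) (t : ℝ), y + t • w ∈ M →
      HasDerivAt (fun t : ℝ => F (y + t • w) u) (A (y + t • w)) t := by
    intro y t hy
    have k1 := hA _ hy
    have k2 : HasDerivAt (fun s : ℝ => s - t) 1 t := (hasDerivAt_id t).sub_const t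
    have k3 : HasDerivAt (fun s : ℝ => F (y + t • w + s • w) u) (A (y + t • w)) (t - t) := by
      rw [sub_self]; exact k1
    have k4 := HasDerivAt.scomp (h := fun s : ℝ => s - t) t k3 k2
    rw [one_smul] at k4
    have e1 : ((fun s : ℝ => F (y + t • w + s • w) u) ∘ fun s => s - t) =
        fun s : ℝ => F (y + s • w) u := by
      funext s
      simp only [Function.comp]
      congr 1
      rw [sub_smul]; abel
    rw [e1] at k4
    exact k4
  have hB' : ∀ (y : Pl) (t : ℝ), y + t • u ∈ M →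
      HasDerivAt (fun t : ℝ => p (y + t • u) u w) (B (y + t • u)) t := by
    intro y t hy
    have k1 := hB _ hy
    have k2 : HasDerivAt (fun s : ℝ => s - t) 1 t := (hasDerivAt_id t).sub_const t
    have k3 : HasDerivAt (fun s : ℝ => p (y + t • u + s • u) u w) (B (y + t • u)) (t - t) := by
      rw [sub_self]; exact k1
    have k4 := HasDerivAt.scomp (h := fun s : ℝ => s - t) t k3 k2
    rw [one_smul] at k4
    have e1 : ((fun s : ℝ => p (y + t • u + s • u) u w) ∘ fun s => s - t) =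
        fun s : ℝ => p (y + s • u) u w := by
      funext s
      simp only [Function.comp]
      congr 2
      rw [sub_smul]; abel
    rw [e1] at k4
    exact k4
  have line : ∀ C v : Pl, ∀ t : ℝ, HasDerivAt (fun τ : ℝ => C + τ • v) v t := by
    intro C v t
    have := ((hasDerivAt_id t).smul_const v).const_add C
    simpa using this
  -- derivative of the distance along a ray
  have hray : ∀ (C : Pl) (s : ℝ), 0 < s → C ∈ M → C + s • u ∈ M →
      HasDerivAt (fun s : ℝ => d C (C + s • u)) (F (C + s • u) u) s := by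
    intro C s hs hC hCs
    have hne' : C ≠ C + s • u := by
      intro h0
      have : s • u = 0 := by simpa using h0.symm
      rcases smul_eq_zero.1 this with h1 | h1
      · exact hs.ne' h1
      · exact hu h1
    have k1 := (h.hasFDerivAt_d hC hCs hne').comp_hasDerivAt s (line C u s)
    rw [add_sub_cancel_left, h.p_smul hCs hu hs, h.p_self hCs hu] at k1
    exact k1
  have hrayc : ∀ (C : Pl) (s : ℝ), C ∈ M → C + s • u ∈ M →
      ContinuousAt (fun s : ℝ => d C (C + s • u)) s := by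
    intro C s hC hCs
    exact ContinuousAt.comp (g := d C) (f := fun s : ℝ => C + s • u)
      ((h.pm.continuousOn_left hC).continuousAt (h.toFPlane.isOpen.mem_nhds hCs))
      (line C u s).continuousAt
  have hMx : ∀ s ∈ Icc 0 η, x + s • u ∈ M := by
    intro s hs
    have := hM s 0 hs h0
    simpa using this
  have hMw : ∀ t ∈ Icc 0 η, x + t • w ∈ M := by
    intro t ht
    have := hM 0 t h0 ht
    simpa using this
  have hMxw : ∀ s ∈ Icc 0 η, x + η • w + s • u ∈ M := by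
    intro s hs
    have := hM s η hs h1
    have e : x + s • u + η • w = x + η • w + s • u := by abel
    rw [← e]; exact this
  -- first evaluation
  obtain ⟨σ, hσ, hσe⟩ := exists_hasDerivAt_eq_slope
    (fun s : ℝ => d (x + η • w) (x + η • w + s • u) - d x (x + s • u))
    (fun s : ℝ => F (x + η • w + s • u) u - F (x + s • u) u) hη
    (by
      intro s hs
      apply ContinuousAt.continuousWithinAt
      exact (hrayc _ s (hMw η h1) (hMxw s hs)).sub (hrayc _ s hx (hMx s hs)))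
    (by
      intro s hs
      exact (hray _ s hs.1 (hMw η h1) (hMxw s ⟨hs.1.le, hs.2.le⟩)).sub
        (hray _ s hs.1 hx (hMx s ⟨hs.1.le, hs.2.le⟩)))
  have hσI : σ ∈ Icc 0 η := ⟨hσ.1.le, hσ.2.le⟩
  obtain ⟨τ, hτ, hτe⟩ := exists_hasDerivAt_eq_slope
    (fun t : ℝ => F (x + σ • u + t • w) u) (fun t : ℝ => A (x + σ • u + t • w)) hη
    (by
      intro t ht
      exact (hA' _ t (hM σ t hσI ht)).continuousAt.continuousWithinAt)
    (by
      intro t ht
      exact hA' _ t (hM σ t hσI ⟨ht.1.le, ht.2.le⟩))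
  have hτI : τ ∈ Icc 0 η := ⟨hτ.1.le, hτ.2.le⟩
  -- second evaluation
  have hnexu : x ≠ x + η • u := by
    intro h0
    have : η • u = 0 := by simpa using h0.symm
    rcases smul_eq_zero.1 this with h1 | h1
    · exact hη.ne' h1
    · exact hu h1
  have hH : ∀ t ∈ Icc 0 η, HasDerivAt (fun t : ℝ => d (x + t • w) (x + η • u + t • w))
      (p (x + η • u + t • w) u w - p (x + t • w) u w) t := by
    intro t ht
    have k1 := h.hasDerivAt_translate (hMw t ht) (hM η t h1 ht) hnexu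
    rw [add_sub_cancel_left, h.p_smul (hMw t ht) hu hη, h.p_smul (hM η t h1 ht) hu hη] at k1
    exact k1
  obtain ⟨τ', hτ', hτ'e⟩ := exists_hasDerivAt_eq_slope
    (fun t : ℝ => d (x + t • w) (x + η • u + t • w))
    (fun t : ℝ => p (x + η • u + t • w) u w - p (x + t • w) u w) hη
    (fun t ht => (hH t ht).continuousAt.continuousWithinAt)
    (fun t ht => hH t ⟨ht.1.le, ht.2.le⟩)
  have hτ'I : τ' ∈ Icc 0 η := ⟨hτ'.1.le, hτ'.2.le⟩
  have hMB : ∀ s ∈ Icc 0 η, x + τ' • w + s • u ∈ M := by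
    intro s hs
    have := hM s τ' hs hτ'I
    have e : x + s • u + τ' • w = x + τ' • w + s • u := by abel
    rw [← e]; exact this
  obtain ⟨σ', hσ', hσ'e⟩ := exists_hasDerivAt_eq_slope
    (fun s : ℝ => p (x + τ' • w + s • u) u w) (fun s : ℝ => B (x + τ' • w + s • u)) hη
    (by
      intro s hs
      exact (hB' _ s (hMB s hs)).continuousAt.continuousWithinAt)
    (by
      intro s hs
      exact hB' _ s (hMB s ⟨hs.1.le, hs.2.le⟩))
  have hσ'I : σ' ∈ Icc 0 η := ⟨hσ'.1.le, hσ'.2.le⟩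
  -- comparison
  simp only [zero_smul, add_zero, sub_zero] at hσe hτe hτ'e hσ'e
  rw [h.pm.self_eq_zero (hMw η h1), h.pm.self_eq_zero hx, sub_zero, sub_zero] at hσe
  have e1 : x + η • w + σ • u = x + σ • u + η • w := by abel
  have e2 : x + τ' • w + η • u = x + η • u + τ' • w := by abel
  have e3 : x + η • u + η • w = x + η • w + η • u := by abel
  rw [e1] at hσe
  rw [e2] at hσ'e
  rw [e3] at hτ'e
  have f1 : A (x + σ • u + τ • w) = B (x + τ' • w + σ' • u) := by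
    rw [hτe, hσ'e, hσe, hτ'e]
  have f2 : (x + σ • u + τ • w, x + τ' • w + σ' • u) ∈ Metric.ball ((x, x) : Pl × Pl) δ₁ := by
    rw [Metric.mem_ball, Prod.dist_eq]
    apply max_lt
    · exact (Metric.mem_ball.1 (hnear σ τ hσI hτI)).trans_le hδ1
    · have := hnear σ' τ' hσ'I hτ'I
      have e : x + σ' • u + τ' • w = x + τ' • w + σ' • u := by abel
      rw [e] at this
      exact (Metric.mem_ball.1 this).trans_le hδ1
  exact hball₁ _ f2 (sub_eq_zero.2 f1)

section Final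

variable {M : Set Pl} {F d κ : Pl → Pl → ℝ} {lam : Pl → ℝ}

/-- The rescaled norms satisfy the hypotheses of `RadLam`. -/
theorem radLam_of_const (h : KPlane M F d κ) (hlam : ∀ x ∈ M, 0 < lam x)
    (hlamc : ContinuousOn lam M)
    (hrad : ∀ x ∈ M, ∀ u : Pl, u ≠ 0 → lam x ^ 3 * (F x u * F x (cvk κ x u)) = ‖u‖ ^ 2)
    (hconst : ∀ x ∈ M, ∀ u : Pl, u ≠ 0 → ∀ s : ℝ, x + s • u ∈ M →
      lam (x + s • u) ^ 2 * F (x + s • u) u = lam x ^ 2 * F x u) :
    RadLam M (fun x u => lam x ^ 2 * F x u) (fun x u => lam x ^ 2 • pf F κ x u) lam := by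
  have hsharp : ∀ x u : Pl, sharp (lam x ^ 2 • pf F κ x u) =
      (lam x ^ 2 * (F x u / ‖u‖ ^ 2)) • cvk κ x u := by
    intro x u
    apply sharp_unique
    intro w
    rw [det2_smul_right, smul_apply, pf_apply, smul_eq_mul]
    ring
  have hLC : LineConst M (fun x u => lam x ^ 2 * F x u) (fun x u => lam x ^ 2 • pf F κ x u) := by
    refine ⟨h.toFPlane.isOpen, fun x hx u hu => (h.pf_hasFDerivAt hx hu).const_mul _,
      fun x hx u hu => ?_, fun x hx u hu s hs => hconst x hx u hu s hs⟩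
    have c1 : ContinuousAt (fun q : Pl × Pl => lam q.1) (x, u) :=
      ContinuousAt.comp (g := lam) (f := fun q : Pl × Pl => q.1)
        (hlamc.continuousAt (h.toFPlane.isOpen.mem_nhds hx)) continuousAt_fst
    exact (c1.pow 2).smul (h.pf_continuousAt hx hu)
  refine ⟨hLC, fun x hx u hu => ?_, fun x hx u hu => ?_⟩
  · rw [hsharp]
    have h1 := hlam x hx
    have h2 := (h.fin.norm x hx).pos u hu
    have h3 : 0 < ‖u‖ := norm_pos_iff.2 hu
    have h4 : 0 < lam x ^ 2 * (F x u / ‖u‖ ^ 2) := by positivity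
    exact smul_ne_zero h4.ne' (cvk_ne_zero hu)
  · rw [hsharp]
    have h1 := hlam x hx
    have h2 := (h.fin.norm x hx).pos u hu
    have h3 : 0 < ‖u‖ := norm_pos_iff.2 hu
    have h4 : 0 < lam x ^ 2 * (F x u / ‖u‖ ^ 2) := by positivity
    have h5 := hrad x hx u hu
    rw [(h.fin.norm x hx).smul_nonneg h4.le]
    have h6 : lam x ^ 2 * (lam x ^ 2 * (F x u / ‖u‖ ^ 2) * F x (cvk κ x u)) =
        lam x * (lam x ^ 3 * (F x u * F x (cvk κ x u))) / ‖u‖ ^ 2 := by
      field_simp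
    rw [h6, h5]
    field_simp

private theorem hasDerivAt_invsq {a : ℝ} (ha : a ≠ 0) :
    HasDerivAt (fun r : ℝ => (r ^ 2)⁻¹) (-(2 * a) / (a ^ 2) ^ 2) a := by
  have := (hasDerivAt_pow 2 a).inv (pow_ne_zero 2 ha)
  have e : (-(((2:ℕ):ℝ) * a ^ (2 - 1)) / (a ^ 2) ^ 2) = -(2 * a) / (a ^ 2) ^ 2 := by
    norm_num
  rw [e] at this
  exact this

/-- **PART S.** -/
theorem structure_equation (h : KPlane M F d κ) (hlam : ∀ x ∈ M, 0 < lam x)
    (hlamc : ContinuousOn lam M)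
    (hrad : ∀ x ∈ M, ∀ u : Pl, u ≠ 0 → lam x ^ 3 * (F x u * F x (cvk κ x u)) = ‖u‖ ^ 2)
    (hconst : ∀ x ∈ M, ∀ u : Pl, u ≠ 0 → ∀ s : ℝ, x + s • u ∈ M →
      lam (x + s • u) ^ 2 * F (x + s • u) u = lam x ^ 2 * F x u) :
    ∃ L : Pl → (Pl →L[ℝ] ℝ), (∀ x ∈ M, HasFDerivAt lam (L x) x) ∧ ContinuousOn L M ∧
      ∀ x ∈ M, ∀ u : Pl, u ≠ 0 → ∃ Φ : Pl × Pl →L[ℝ] ℝ,
        HasFDerivAt (fun q : Pl × Pl => F q.1 q.2) Φ (x, u) ∧
        ∀ w v : Pl, Φ (w, v) =
          -(L x w * F x u + L x u * pf F κ x u w) / lam x + pf F κ x u v := by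
  have hR := radLam_of_const h hlam hlamc hrad hconst
  obtain ⟨E, hE⟩ : ∃ E : Pl → Pl → ℝ, E = fun x u => lam x ^ 2 * F x u := ⟨_, rfl⟩
  obtain ⟨e, he⟩ : ∃ e : Pl → Pl → Pl →L[ℝ] ℝ, e = fun x u => lam x ^ 2 • pf F κ x u := ⟨_, rfl⟩
  rw [← hE, ← he] at hR
  have hL := hR.toLineConst
  have hC := h.toC1Plane
  have hopen := h.toFPlane.isOpen
  obtain ⟨L, hLd⟩ : ∃ L, L = LL E e := ⟨_, rfl⟩
  have hder : ∀ x ∈ M, HasFDerivAt lam (L x) x := by
    intro x hx; rw [hLd]; exact hR.hasFDerivAt_lam hx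
  have hLc : ContinuousOn L M := by rw [hLd]; exact hR.LL_cont
  refine ⟨L, hder, hLc, ?_⟩
  -- joint differentiability of `F`
  have hFd : ∀ x ∈ M, ∀ u : Pl, u ≠ 0 → ∃ Φ : Pl × Pl →L[ℝ] ℝ,
      HasFDerivAt (fun q : Pl × Pl => F q.1 q.2) Φ (x, u) ∧
      ∀ w v : Pl, Φ (w, v) = -(2 * L x w * F x u) / lam x + (lam x ^ 2)⁻¹ * Ex E x u w
        + pf F κ x u v := by
    intro x hx u hu
    have hlx := hlam x hx
    have k1 : HasFDerivAt (fun q : Pl × Pl => lam q.1)
        ((L x).comp (ContinuousLinearMap.fst ℝ Pl Pl)) (x, u) :=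
      HasFDerivAt.comp (f := fun q : Pl × Pl => q.1) (x, u) (hder x hx) hasFDerivAt_fst
    have k2 : HasDerivAt (fun r : ℝ => (r ^ 2)⁻¹) (-(2 * lam x) / (lam x ^ 2) ^ 2) (lam x) :=
      hasDerivAt_invsq hlx.ne'
    have k3 : HasFDerivAt (fun q : Pl × Pl => (lam q.1 ^ 2)⁻¹)
        ((-(2 * lam x) / (lam x ^ 2) ^ 2) • ((L x).comp (ContinuousLinearMap.fst ℝ Pl Pl)))
        (x, u) :=
      HasDerivAt.comp_hasFDerivAt (h₂ := fun r : ℝ => (r ^ 2)⁻¹) (x, u) k2 k1
    have k4 := k3.mul (hL.hasFDerivAt hx hu)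
    refine ⟨_, k4.congr_of_eventuallyEq ?_, ?_⟩
    · have c1 : ContinuousAt (fun q : Pl × Pl => q.1) (x, u) := continuousAt_fst
      filter_upwards [c1.eventually (hopen.mem_nhds hx)] with q hq
      have hlq := (hlam _ hq).ne'
      simp only [Pi.mul_apply, hE]
      field_simp
    · intro w v
      simp only [add_apply, smul_apply, smul_eq_mul, ContinuousLinearMap.comp_apply,
        ContinuousLinearMap.coprod_apply, ContinuousLinearMap.coe_fst', he]
      have hE' : E x u = lam x ^ 2 * F x u := by rw [hE]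
      rw [hE']
      field_simp
      ring
  intro x hx u hu
  obtain ⟨Φ, hΦ, hΦf⟩ := hFd x hx u hu
  refine ⟨Φ, hΦ, fun w v => ?_⟩
  -- Hamel equation
  have hHam := hC.schwarz (u := u) (w := w) hu
    (A := fun y => -(2 * L y w * F y u) / lam y + (lam y ^ 2)⁻¹ * Ex E y u w)
    (B := fun y => -(2 * L y u * pf F κ y u w) / lam y - (lam y ^ 2)⁻¹ * Ex E y u w)
    (by
      intro y hy
      obtain ⟨Ψ, hΨ, hΨf⟩ := hFd y hy u hu
      have k1 : HasDerivAt (fun t : ℝ => (y + t • w, u)) (w, 0) 0 := by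
        have := ((hasDerivAt_id (0:ℝ)).smul_const w).const_add y
        have k : HasDerivAt (fun t : ℝ => y + t • w) w 0 := by simpa using this
        exact k.prodMk (hasDerivAt_const _ _)
      have k2 : HasFDerivAt (fun q : Pl × Pl => F q.1 q.2) Ψ (y + (0:ℝ) • w, u) := by
        rw [zero_smul, add_zero]; exact hΨ
      have k3 := k2.comp_hasDerivAt (0:ℝ) k1
      rw [hΨf] at k3
      rw [map_zero, add_zero] at k3
      exact k3)
    (by
      intro y hy
      have hly := hlam y hy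
      have k0 : HasDerivAt (fun t : ℝ => y + t • u) u 0 := by
        have := ((hasDerivAt_id (0:ℝ)).smul_const u).const_add y
        simpa using this
      have k1 : HasDerivAt (fun t : ℝ => lam (y + t • u)) (L y u) 0 := by
        have k : HasFDerivAt lam (L y) (y + (0:ℝ) • u) := by
          rw [zero_smul, add_zero]; exact hder y hy
        exact k.comp_hasDerivAt (0:ℝ) k0
      have k2 : HasDerivAt (fun r : ℝ => (r ^ 2)⁻¹) (-(2 * lam y) / (lam y ^ 2) ^ 2)
          (lam (y + (0:ℝ) • u)) := by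
        rw [zero_smul, add_zero]
        exact hasDerivAt_invsq hly.ne'
      have k3 : HasDerivAt (fun t : ℝ => (lam (y + t • u) ^ 2)⁻¹)
          ((-(2 * lam y) / (lam y ^ 2) ^ 2) * L y u) 0 :=
        HasDerivAt.comp (h₂ := fun r : ℝ => (r ^ 2)⁻¹) (h := fun t : ℝ => lam (y + t • u))
          (0:ℝ) k2 k1
      have k4 : HasDerivAt (fun t : ℝ => e y u w - t * Ex E y u w) (-(Ex E y u w)) 0 := by
        have := ((hasDerivAt_id (0:ℝ)).mul_const (Ex E y u w)).const_sub (e y u w)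
        simpa using this
      have k5 := k3.mul k4
      have hval : (-(2 * lam y) / (lam y ^ 2) ^ 2) * L y u * (e y u w - (0:ℝ) * Ex E y u w)
          + (lam (y + (0:ℝ) • u) ^ 2)⁻¹ * -(Ex E y u w) =
          -(2 * L y u * pf F κ y u w) / lam y - (lam y ^ 2)⁻¹ * Ex E y u w := by
        rw [zero_smul, add_zero, zero_mul, sub_zero, he]
        simp only [smul_apply, smul_eq_mul]
        field_simp
        ring
      rw [hval] at k5
      apply k5.congr_of_eventuallyEq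
      have h5 : ∀ᶠ s : ℝ in 𝓝 0, y + s • u ∈ M :=
        k0.continuousAt.eventually (hopen.mem_nhds (by simpa using hy))
      filter_upwards [h5] with s hs
      have hls := (hlam _ hs).ne'
      have k6 := hL.e_shift hy hu hs
      have k7 : e (y + s • u) u w = e y u w - s * Ex E y u w := by
        rw [k6]; simp
      simp only [Pi.mul_apply]
      rw [← k7, he]
      simp only [smul_apply, smul_eq_mul]
      field_simp)
    hx ?_ ?_
  · rw [hΦf]
    have hlx := (hlam x hx).ne'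
    have e1 : 2 * ((lam x ^ 2)⁻¹ * Ex E x u w) =
        (2 * L x w * F x u) / lam x - (2 * L x u * pf F κ x u w) / lam x := by
      have e2 : -(2 * L x w * F x u) / lam x = -((2 * L x w * F x u) / lam x) := by ring
      have e3 : -(2 * L x u * pf F κ x u w) / lam x = -((2 * L x u * pf F κ x u w) / lam x) := by
        ring
      rw [e2, e3] at hHam
      linarith
    have e4 : (lam x ^ 2)⁻¹ * Ex E x u w =
        (L x w * F x u) / lam x - (L x u * pf F κ x u w) / lam x := by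
      have : (2 * L x w * F x u) / lam x - (2 * L x u * pf F κ x u w) / lam x =
          2 * ((L x w * F x u) / lam x - (L x u * pf F κ x u w) / lam x) := by ring
      linarith
    rw [e4]
    ring
  · -- continuity of A
    have hlc : ContinuousAt lam x := (hder x hx).continuousAt
    have c0 : ContinuousAt (fun y : Pl => (y, u)) x := by fun_prop
    have c1 : ContinuousAt (fun y : Pl => L y w) x :=
      (hLc.continuousAt (hopen.mem_nhds hx)).clm_apply continuousAt_const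
    have c2 : ContinuousAt (fun y : Pl => F y u) x :=
      ContinuousAt.comp (g := fun q : Pl × Pl => F q.1 q.2) (f := fun y : Pl => (y, u))
        (h.F_continuousAt hx) c0
    have c3 : ContinuousAt (fun y : Pl => Ex E y u w) x := by
      have c4 : ContinuousAt (fun y : Pl => Ex E y u) x :=
        ContinuousAt.comp (g := fun q : Pl × Pl => Ex E q.1 q.2) (f := fun y : Pl => (y, u))
          (hL.Ex_cont hx hu) c0
      exact c4.clm_apply continuousAt_const
    exact ((((continuousAt_const.mul c1).mul c2).neg).div hlc (hlam x hx).ne').add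
      (((hlc.pow 2).inv₀ (pow_ne_zero 2 (hlam x hx).ne')).mul c3)
  · have hlc : ContinuousAt lam x := (hder x hx).continuousAt
    have c0 : ContinuousAt (fun y : Pl => (y, u)) x := by fun_prop
    have c1 : ContinuousAt (fun y : Pl => L y u) x :=
      (hLc.continuousAt (hopen.mem_nhds hx)).clm_apply continuousAt_const
    have c2 : ContinuousAt (fun y : Pl => pf F κ y u w) x := by
      have c4 : ContinuousAt (fun y : Pl => pf F κ y u) x :=
        ContinuousAt.comp (g := fun q : Pl × Pl => pf F κ q.1 q.2) (f := fun y : Pl => (y, u))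
          (h.pf_continuousAt hx hu) c0
      exact c4.clm_apply continuousAt_const
    have c3 : ContinuousAt (fun y : Pl => Ex E y u w) x := by
      have c4 : ContinuousAt (fun y : Pl => Ex E y u) x :=
        ContinuousAt.comp (g := fun q : Pl × Pl => Ex E q.1 q.2) (f := fun y : Pl => (y, u))
          (hL.Ex_cont hx hu) c0
      exact c4.clm_apply continuousAt_const
    exact ((((continuousAt_const.mul c1).mul c2).neg).div hlc (hlam x hx).ne').sub
      (((hlc.pow 2).inv₀ (pow_ne_zero 2 (hlam x hx).ne')).mul c3)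

end Final

end Pool.Agent.Lib_1de93e
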