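import Pool.Agent.Lib_1de93e.Struct
import Pool.Agent.Lib_1de93e.Classify

/-!
# PARTS S + Z combined
-/

namespace Pool.Agent.Lib_1de93e

open Set MeasureTheory Filter Topology

/-- If the rescaled norms `lam ^ 2 F` are constant along the lines, where `lam ^ (-3)` is the
Radon constant, then the plane is Riemannian or projectively embedded in one norm. -/
theorem classify_of_const {M : Set Pl} {F d κ : Pl → Pl → ℝ} {lam : Pl → ℝ}
    (h : KPlane M F d κ) (hlam : ∀ x ∈ M, 0 < lam x) (hlamc : ContinuousOn lam M)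
    (hrad : ∀ x ∈ M, ∀ u : Pl, u ≠ 0 → lam x ^ 3 * (F x u * F x (cvk κ x u)) = ‖u‖ ^ 2)
    (hconst : ∀ x ∈ M, ∀ u : Pl, u ≠ 0 → ∀ s : ℝ, x + s • u ∈ M →
      lam (x + s • u) ^ 2 * F (x + s • u) u = lam x ^ 2 * F x u) :
    (∀ x ∈ M, IsEuclidean (F x)) ∨ ∃ x₀ ∈ M, ∃ m : Pl →L[ℝ] ℝ, (∀ x ∈ M, 0 < 1 + m (x - x₀)) ∧
      ∀ x ∈ M, ∀ v : Pl, F x v = F x₀ ((1 + m (x - x₀))⁻¹ • v
        - (((1 + m (x - x₀)) ^ 2)⁻¹ * m v) • (x - x₀)) := by
  obtain ⟨L, hL, hLc, hFd⟩ := structure_equation h hlam hlamc hrad hconst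
  exact classify (A := pf F κ) h.pm.isOpen h.pm.convex h.fin hlam hL hLc hFd

end Pool.Agent.Lib_1de93e
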